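import Pool.Agent.Lib.MP_b6945b_al.Ip.PStep

set_option autoImplicit false

/-!
The reduction along a `p`-solvable quotient.
-/

namespace Pool.Agent.Lib.MP_b6945b_al.Ip

variable {G : Type} [Group G] [Finite G] {p : ℕ} [Fact p.Prime]

omit [Finite G] in
lemma chief_mk {N : Subgroup G} [N.Normal] {v w : G} :
    cm v w ∈ N ↔ (v : G ⧸ N) * w = w * v := by
  rw [← QuotientGroup.eq_one_iff (N := N), ← cm_eq_one]
  simp only [cm, QuotientGroup.mk_mul, QuotientGroup.mk_inv]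

omit [Finite G] in
lemma chief_pow {N : Subgroup G} [N.Normal] {v : G} {k : ℕ} :
    v ^ k ∈ N ↔ (v : G ⧸ N) ^ k = 1 := by
  rw [← QuotientGroup.eq_one_iff (N := N), QuotientGroup.mk_pow]

lemma chief_center {N M : Subgroup G} [N.Normal] (hne : ¬ M ≤ N)
    (hp : ∀ v ∈ M, ∃ k, v ^ p ^ k ∈ N) : ∃ v ∈ M, v ∉ N ∧ ∀ w ∈ M, cm v w ∈ N := by
  have hP : IsPGroup p (M.map (QuotientGroup.mk' N)) := by
    rintro ⟨_, v, hv, rfl⟩
    obtain ⟨k, hk⟩ := hp v hv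
    exact ⟨k, Subtype.ext (chief_pow.1 hk)⟩
  obtain ⟨u, hu, hu'⟩ := SetLike.not_le_iff_exists.1 hne
  have : Nontrivial (M.map (QuotientGroup.mk' N)) :=
    ⟨⟨⟨u, u, hu, rfl⟩, 1, fun e => hu' ((QuotientGroup.eq_one_iff u).1 (congrArg Subtype.val e))⟩⟩
  have := hP.center_nontrivial
  obtain ⟨⟨⟨_, v, hv, rfl⟩, hz⟩, h1⟩ :=
    exists_ne (1 : Subgroup.center (M.map (QuotientGroup.mk' N)))
  refine ⟨v, hv, fun h => h1 (Subtype.ext (Subtype.ext ((QuotientGroup.eq_one_iff v).2 h))),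
    fun w hw => chief_mk.2 ?_⟩
  exact (congrArg Subtype.val (Subgroup.mem_center_iff.1 hz ⟨w, w, hw, rfl⟩)).symm

lemma chief_fac {N M : Subgroup G} [hN : N.Normal] [hM : M.Normal] (hle : N ≤ M) (hne : ¬ M ≤ N)
    (hp : ∀ v ∈ M, ∃ k, v ^ p ^ k ∈ N)
    (hmin : ∀ T : Subgroup G, T.Normal → N ≤ T → T ≤ M → T = N ∨ T = M) : Fac p N M := by
  classical
  have hc : ∀ v ∈ M, ∀ w ∈ M, cm v w ∈ N := by
    obtain ⟨v, hv, hv', h⟩ := chief_center hne hp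
    rcases hmin (CV N M ⊓ M) inferInstance (le_inf (le_CV N M) hle) inf_le_right with e | e
    · exact absurd (e ▸ (⟨h, hv⟩ : v ∈ CV N M ⊓ M)) hv'
    · exact fun u hu => (e.ge hu).1
  refine ⟨hle, hne, ?_, hc, hmin⟩
  let T : Subgroup G :=
    { carrier := {v | v ∈ M ∧ v ^ p ∈ N}
      one_mem' := ⟨M.one_mem, by rw [one_pow]; exact N.one_mem⟩
      mul_mem' := fun {a b} ha hb => ⟨M.mul_mem ha.1 hb.1, chief_pow.2 (by
        rw [QuotientGroup.mk_mul, Commute.mul_pow (chief_mk.1 (hc a ha.1 b hb.1)),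
          chief_pow.1 ha.2, chief_pow.1 hb.2, one_mul])⟩
      inv_mem' := fun {a} ha => ⟨M.inv_mem ha.1, by rw [inv_pow]; exact N.inv_mem ha.2⟩ }
  have hT : T.Normal := ⟨fun a ha g => ⟨hM.conj_mem a ha.1 g, by
    rw [conj_pow]; exact hN.conj_mem _ ha.2 g⟩⟩
  rcases hmin T hT (fun a ha => ⟨hle ha, N.pow_mem ha p⟩) (fun a ha => ha.1) with e | e
  · refine absurd (fun u hu => ?_) hne
    obtain ⟨k, hk⟩ := hp u hu
    induction k with
    | zero => simpa using hk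
    | succ k ih =>
      refine ih (e.le (⟨M.pow_mem hu _, ?_⟩ : u ^ p ^ k ∈ T))
      rwa [← pow_mul, ← pow_succ]
  · exact fun u hu => (e.ge hu).2

/-- `M = K ⊔ closure {p-elements}` is normal; `N` is maximal among the normal `T` with `K ≤ T`,
`T < M`.  Take the least `i` with `M ≤ N ⊔ (s i ⊓ M)`; `i = j + 1`, and `s j ⊓ M ≤ N` by
maximality.  Every `v ∈ M` is `n * w` with `w ∈ s (j + 1) ⊓ M`.  In the second case `v ^ m ∈ N`
for all `v ∈ M`, so all `p`-elements lie in `N`, `M ≤ N`: absurd.  So `M / N` is a `p`-group;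
`{v ∈ M | ∀ w ∈ M, cm v w ∈ N}` is normal and bigger than `N` (centre of a `p`-group), so it is
`M`; the same for `{v ∈ M | v ^ p ∈ N}`. -/
theorem exists_chief (K : Subgroup G) [K.Normal] (hK : PSol p K) {g : G} (hg : IsPElt p g)
    (hgK : g ∉ K) : ∃ N M : Subgroup G, N.Normal ∧ M.Normal ∧ K ≤ N ∧ Chief p N M := by
  classical
  obtain ⟨r, s, h0, hr, hs⟩ := hK
  let P : Subgroup G := Subgroup.normalClosure {u | IsPElt p u}
  have hP : ∀ T : Subgroup G, T.Normal → (∀ u, IsPElt p u → u ∈ T) → P ≤ T :=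
    fun T _ h => Subgroup.normalClosure_le_normal h
  have hM : (K ⊔ P).Normal := inferInstance
  have hin : ∀ u, IsPElt p u → u ∈ K ⊔ P := fun u hu =>
    Subgroup.mem_sup_right (Subgroup.subset_normalClosure hu)
  generalize hMe : K ⊔ P = M at hM hin
  have hKM : K ≤ M := hMe ▸ le_sup_left
  obtain ⟨N, ⟨hN, hKN, hNM, hne⟩, hmax⟩ :=
    (Set.toFinite {T : Subgroup G | T.Normal ∧ K ≤ T ∧ T ≤ M ∧ ¬ M ≤ T}).exists_maximal
      ⟨K, inferInstance, le_rfl, hKM, fun h => hgK (h (hin g hg))⟩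
  have hmin : ∀ T : Subgroup G, T.Normal → N ≤ T → T ≤ M → T = N ∨ T = M := by
    intro T hT h1 h2
    by_cases h : M ≤ T
    · exact Or.inr (le_antisymm h2 h)
    · exact Or.inl (le_antisymm (hmax ⟨hT, hKN.trans h1, h2, h⟩ h1) h1)
  refine ⟨N, M, hN, hM, hKN, chief_fac hNM hne ?_ hmin, hin⟩
  by_contra hp
  have key : ∀ i ≤ r, s i ⊓ M ≤ N := by
    intro i hi
    induction i with
    | zero => exact inf_le_left.trans (h0.trans hKN)
    | succ i ih =>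
      have h1 := ih (by omega)
      have : (s (i + 1)).Normal := by
        rcases hi.lt_or_eq with h | h
        · exact (hs _ h).1
        · rw [h, hr]; infer_instance
      rcases hmin (s (i + 1) ⊓ M ⊔ N) inferInstance le_sup_right (sup_le inf_le_right hNM)
        with e | e
      · exact e ▸ le_sup_left
      have h2 : ∀ v ∈ M, ∃ w ∈ s (i + 1) ⊓ M, (v : G ⧸ N) = w := by
        intro v hv
        have h3 : v ∈ ((s (i + 1) ⊓ M ⊔ N : Subgroup G) : Set G) := e.symm ▸ hv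
        rw [Subgroup.mul_normal] at h3
        obtain ⟨w, hw, n, hn, rfl⟩ := h3
        exact ⟨w, hw, QuotientGroup.mk_mul_of_mem w hn⟩
      exfalso
      rcases (hs i (by omega)).2 with h | ⟨m, hm, h⟩
      · refine hp fun v hv => ?_
        obtain ⟨w, hw, e'⟩ := h2 v hv
        obtain ⟨k, hk⟩ := h w hw.1
        exact ⟨k, chief_pow.2 (e' ▸ chief_pow.1 (h1 ⟨hk, M.pow_mem hw.2 _⟩))⟩
      · refine hne (hMe ▸ sup_le hKN (hP N hN fun u hu => ?_))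
        obtain ⟨w, hw, e'⟩ := h2 u (hin u hu)
        have h3 : (u : G ⧸ N) ^ m = 1 := e' ▸ chief_pow.1 (h1 ⟨h w hw.1, M.pow_mem hw.2 _⟩)
        obtain ⟨k, hk⟩ := hu
        have h4 : (u : G ⧸ N) ^ p ^ k = 1 := chief_pow.1 (hk ▸ N.one_mem)
        have h5 : Nat.Coprime (p ^ k) m :=
          ((Nat.Prime.coprime_iff_not_dvd Fact.out).2 hm).pow_left k
        rw [← QuotientGroup.eq_one_iff, ← pow_one (u : G ⧸ N), ← h5]
        exact pow_gcd_eq_one.2 ⟨h4, h3⟩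
  exact hne (by simpa [hr] using key r le_rfl)

omit [Finite G] [Fact p.Prime] in
lemma pred2_psol (K : Subgroup G) (hK : PSol p K) (H : Subgroup G) :
    PSol p (K.subgroupOf H) := by
  obtain ⟨r, s, h0, hr, hs⟩ := hK
  refine ⟨r, fun i => (s i).subgroupOf H, fun x hx => h0 hx, by simp [hr], fun i hi => ?_⟩
  obtain ⟨h1, h2⟩ := hs i hi
  refine ⟨h1.subgroupOf H, h2.imp (fun h g hg => h g hg) ?_⟩
  rintro ⟨m, hm, h⟩
  exact ⟨m, hm, fun g hg => h g hg⟩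

/-- As `red_aux` (IRed).  Induction on `H`.  If all `p`-elements of `H` lie in `K`, use `h`.
Otherwise `exists_chief` in the group `H` for `K.subgroupOf H` (the series
`(s i).subgroupOf H`), `KR_step`; for `h1`, `h2` use the pair `(J.map H.subtype, Q)`, for `h3`
the pair `(J.map H.subtype, Q ⊔ R.map H.subtype)`: `R` is elementary abelian (`hc.pow`,
`hc.comm`, `RR.eq_one`), consists of `p`-elements and so centralises `Q`; a `p`-element of `J`
lies in `M`, in `N`, and centralises `R` (`RR.comm`, `le_CV`); if `q * r * x ∈ K` then `q = 1`,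
`r * x ∈ N`, `x ∈ M`, `x ∈ N`, `r = 1`. -/
lemma red_aux2 (K : Subgroup G) [K.Normal] (hK : PSol p K)
    (h : ∀ Q H : Subgroup G, El p Q → Q ⊓ K = ⊥ → CR K Q ≤ H → H ≤ NR Q →
      (∀ g ∈ H, IsPElt p g → g ∈ K) → KR p H) (H : Subgroup G) :
    ∀ Q : Subgroup G, El p Q → H ≤ NR Q → (∀ g ∈ H, IsPElt p g → ∀ q ∈ Q, q * g = g * q) →
      CR K Q ≤ H → (∀ q ∈ Q, ∀ x ∈ H, q * x ∈ K → q = 1) → KR p H := by
  induction H using WellFoundedLT.induction with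
  | ind H ih =>
  intro Q hQ hHN hHC hKH hq
  by_cases hall : ∀ g ∈ H, IsPElt p g → g ∈ K
  · refine h Q H hQ ((Subgroup.eq_bot_iff_forall _).2 fun q hq' => ?_) hKH hHN hall
    exact hq q hq'.1 1 H.one_mem (by simpa using hq'.2)
  push Not at hall
  obtain ⟨g, hgH, ⟨k, hk⟩, hgK⟩ := hall
  obtain ⟨N, M, hNn, hMn, hKN, hc⟩ := exists_chief (K.subgroupOf H) (pred2_psol K hK H)
    (g := ⟨g, hgH⟩) ⟨k, Subtype.ext hk⟩ hgK
  have key : ∀ L : Subgroup H, L ≠ ⊤ → ∀ R : Subgroup G, El p R →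
      L.map H.subtype ≤ NR R →
      (∀ g ∈ L.map H.subtype, IsPElt p g → ∀ q ∈ R, q * g = g * q) →
      CR K R ≤ L.map H.subtype →
      (∀ q ∈ R, ∀ x ∈ L.map H.subtype, q * x ∈ K → q = 1) → KR p L := by
    intro L hL R h1 h2 h3 h4 h5
    refine KR_congr (L.equivMapOfInjective _ H.subtype_injective).symm (ih _ ?_ R h1 h2 h3 h4 h5)
    refine lt_of_le_of_ne (Subgroup.map_subtype_le L) fun e => hL (top_le_iff.1 ?_)
    intro x _
    obtain ⟨y, hy, hxy⟩ : (x : G) ∈ L.map H.subtype := e.symm ▸ x.2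
    exact (Subtype.ext hxy : y = x) ▸ hy
  have key2 : ∀ L : Subgroup H, L ≠ ⊤ → N ≤ L → KR p L := fun L hL hNL =>
    key L hL Q hQ ((Subgroup.map_subtype_le L).trans hHN)
      (fun x hx => hHC x (Subgroup.map_subtype_le L hx))
      (fun x hx => ⟨⟨x, hKH hx⟩, hNL (hKN hx.1), rfl⟩)
      fun q hq' x hx => hq q hq' x (Subgroup.map_subtype_le L hx)
  have hne : ∀ J : Subgroup H, J ⊓ M ≤ N → J ≠ ⊤ := fun J hJ e =>
    hc.ne fun x hx => hJ ⟨e ▸ Subgroup.mem_top x, hx⟩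
  refine KR_step hc (fun J hJ hJt => key2 J hJt (hc.le.trans hJ))
    (fun J hJ hJM => key2 J (hne J hJM) hJ) fun R J hR hCJ hJR hJM => ?_
  have hRp : ∀ r ∈ R, (r : G) ^ p = 1 := fun r hr =>
    congrArg Subtype.val (hR.eq_one (R.pow_mem hr p) (hc.pow r (hR.le hr)))
  have hRc : ∀ r ∈ R, ∀ t ∈ R, Commute (r : G) t := fun r hr t ht =>
    congrArg Subtype.val (cm_eq_one.1 (hR.eq_one
      (R.mul_mem (R.mul_mem (R.mul_mem hr ht) (R.inv_mem hr)) (R.inv_mem ht))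
      (hc.comm r (hR.le hr) t (hR.le ht))))
  have hQR : ∀ q ∈ Q, ∀ r ∈ R, Commute q (r : G) := fun q hq' r hr =>
    hHC r r.2 ⟨1, by rw [pow_one, hRp r hr]⟩ q hq'
  let T : Subgroup G :=
    { carrier := {g | ∃ q ∈ Q, ∃ r ∈ R, g = q * (r : G)}
      one_mem' := ⟨1, Q.one_mem, 1, R.one_mem, by simp⟩
      mul_mem' := by
        rintro _ _ ⟨q, h1, r, h2, rfl⟩ ⟨q', h3, r', h4, rfl⟩
        refine ⟨q * q', Q.mul_mem h1 h3, r * r', R.mul_mem h2 h4, ?_⟩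
        rw [Subgroup.coe_mul, mul_assoc, mul_assoc, ← mul_assoc q', (hQR q' h3 r h2).eq,
          mul_assoc]
      inv_mem' := by
        rintro _ ⟨q, h1, r, h2, rfl⟩
        refine ⟨q⁻¹, Q.inv_mem h1, r⁻¹, R.inv_mem h2, ?_⟩
        rw [(hQR _ (Q.inv_mem h1) _ (R.inv_mem h2)).eq, mul_inv_rev, Subgroup.coe_inv] }
  have hQT : ∀ q ∈ Q, q ∈ T := fun q hq' => ⟨q, hq', 1, R.one_mem, by simp⟩
  have hRT : ∀ r ∈ R, (r : G) ∈ T := fun r hr => ⟨1, Q.one_mem, r, hr, by simp⟩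
  have hconj : ∀ x ∈ J, ∀ y ∈ T, (x : G) * y * (x : G)⁻¹ ∈ T := by
    rintro x hx _ ⟨q, h1, r, h2, rfl⟩
    refine ⟨x * q * (x : G)⁻¹, (mem_NR.1 (hHN x.2) q).1 h1, x * r * x⁻¹,
      (mem_NR.1 (hJR hx) r).1 h2, ?_⟩
    simp only [Subgroup.coe_mul, Subgroup.coe_inv]
    group
  refine key J (hne J hJM) T ⟨?_, ?_⟩ ?_ ?_ ?_ ?_
  · rintro _ ⟨q, h1, r, h2, rfl⟩
    rw [(hQR q h1 r h2).mul_pow, hQ.1 q h1, hRp r h2, one_mul]
  · rintro _ ⟨q, h1, r, h2, rfl⟩ _ ⟨q', h3, r', h4, rfl⟩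
    exact (Commute.mul_left (Commute.mul_right (hQ.2 q h1 q' h3) (hQR q h1 r' h4))
      (Commute.mul_right (hQR q' h3 r h2).symm (hRc r h2 r' h4))).eq
  · rintro _ ⟨x, hx, rfl⟩
    refine mem_NR.2 fun y => ⟨hconj x hx y, fun hy => ?_⟩
    simpa [mul_assoc] using hconj x⁻¹ (J.inv_mem hx) _ hy
  · rintro _ ⟨x, hx, rfl⟩ ⟨j, hj⟩ _ ⟨q, h1, r, h2, rfl⟩
    have h3 : x ∈ N := hJM ⟨hx, hc.pelt x ⟨j, Subtype.ext hj⟩⟩
    have h4 : Commute (r : G) x := congrArg Subtype.val (hR.comm (le_CV N M h3) (hJR hx) h2)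
    have h5 : Commute q (x : G) := hHC x x.2 ⟨j, hj⟩ q h1
    exact (h5.mul_left h4).eq
  · intro x hx
    have h1 : x ∈ H := hKH ⟨hx.1, fun q hq' => hx.2 q (hQT q hq')⟩
    exact ⟨⟨x, h1⟩, hCJ (mem_CR.2 ⟨hKN hx.1, fun r hr => Subtype.ext (hx.2 _ (hRT r hr))⟩), rfl⟩
  · rintro _ ⟨q, h1, r, h2, rfl⟩ _ ⟨x, hx, rfl⟩ hm
    rw [mul_assoc] at hm
    have h3 := hq q h1 _ (H.mul_mem r.2 x.2) hm
    rw [h3, one_mul] at hm ⊢
    have h4 : r * x ∈ N := hKN hm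
    have h5 : x ∈ N := hJM ⟨hx, by simpa using M.mul_mem (M.inv_mem (hR.le h2)) (hc.le h4)⟩
    rw [hR.eq_one h2 (by simpa using N.mul_mem h4 (N.inv_mem h5)), Subgroup.coe_one]

theorem reduction2 (K : Subgroup G) [K.Normal] (hK : PSol p K)
    (h : ∀ Q H : Subgroup G, El p Q → Q ⊓ K = ⊥ → CR K Q ≤ H → H ≤ NR Q →
      (∀ g ∈ H, IsPElt p g → g ∈ K) → KR p H) : KR p G :=
  KR_congr Subgroup.topEquiv (red_aux2 K hK h ⊤ ⊥
    ⟨fun x hx => by rw [Subgroup.mem_bot.1 hx, one_pow],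
      fun x hx y _ => by rw [Subgroup.mem_bot.1 hx, one_mul, mul_one]⟩
    (fun x _ => mem_NR.2 fun r => by simp)
    (fun g _ _ q hq => by rw [Subgroup.mem_bot.1 hq, one_mul, mul_one]) le_top
    fun q hq _ _ _ => Subgroup.mem_bot.1 hq)

end Pool.Agent.Lib.MP_b6945b_al.Ip
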