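import Pool.Agent.Lib.MP_b6945b_al.Ip.IBase
import Pool.Agent.Lib.MP_b6945b_al.Ip.PRed

set_option autoImplicit false

/-!
The reduction along a `p`-solvable quotient, applied to the groups of the base class.
-/

namespace Pool.Agent.Lib.MP_b6945b_al.Ip

open St Bi Kx Finset

variable {G : Type} [Group G] [Finite G] {p : ℕ}

omit [Finite G] in
lemma psol_of_series {K : Subgroup G}
    (h : ∃ (r : ℕ) (s : ℕ → Subgroup G), s 0 = K ∧ s r = ⊤ ∧ ∀ i < r, (s i).Normal ∧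
      s i ≤ s (i + 1) ∧ ((∃ k, (s i).relIndex (s (i + 1)) = p ^ k) ∨
        ¬ p ∣ (s i).relIndex (s (i + 1)))) : PSol p K := by
  obtain ⟨r, s, h0, hr, h⟩ := h
  refine ⟨r, s, h0.le, hr, fun i hi => ?_⟩
  obtain ⟨h1, -, h2⟩ := h i hi
  have key : ∀ g ∈ s (i + 1), g ^ (s i).relIndex (s (i + 1)) ∈ s i := fun g hg =>
    ((s i).subgroupOf (s (i + 1))).pow_index_mem ⟨g, hg⟩
  exact ⟨h1, h2.imp (fun ⟨k, hk⟩ g hg => ⟨k, hk ▸ key g hg⟩) fun hm => ⟨_, hm, key⟩⟩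

lemma not_dvd_relIndex [Fact p.Prime] {K H : Subgroup G} [K.Normal]
    (h : ∀ g ∈ H, IsPElt p g → g ∈ K) : ¬ p ∣ K.relIndex H := fun hd => by
  obtain ⟨x, hx⟩ := exists_prime_orderOf_dvd_card' (G := H ⧸ K.subgroupOf H) p hd
  obtain ⟨x, rfl⟩ := QuotientGroup.mk_surjective x
  obtain ⟨u, s, ⟨k, hu⟩, hs, -, -, rfl⟩ := exists_parts p x
  have h1 : (u : H ⧸ K.subgroupOf H) = 1 :=
    (QuotientGroup.eq_one_iff u).2 (h u u.2 ⟨k, congrArg Subtype.val hu⟩)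
  rw [QuotientGroup.mk_mul, h1, one_mul] at hx
  exact hs (hx ▸ orderOf_map_dvd (QuotientGroup.mk' (K.subgroupOf H)) s)

theorem reduction3 (hp : p.Prime) (K : Subgroup G) [K.Normal] (hK : PSol p K)
    (h : ∀ Q H : Subgroup G, (∀ x ∈ Q, x ^ p = 1) → (∀ x ∈ Q, ∀ y ∈ Q, x * y = y * x) →
      Q ⊓ K = ⊥ → K ⊓ Subgroup.centralizer (Q : Set G) ≤ H →
      H ≤ Subgroup.normalizer (Q : Set G) → ¬ p ∣ K.relIndex H → KR p H) : KR p G :=
  have : Fact p.Prime := ⟨hp⟩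
  reduction2 K hK fun Q H hQ h1 h2 h3 h4 => h Q H hQ.1 hQ.2 h1 h2 h3 (not_dvd_relIndex h4)

theorem KR_main2 (p : ℕ) (hp : p.Prime) (n : ℕ) : ∃ N : ℕ, ∀ (G : Type) [Group G] [Finite G]
    (K : Subgroup G) [K.Normal], PSol p K →
    (∀ Q H : Subgroup G, (∀ x ∈ Q, x ^ p = 1) → (∀ x ∈ Q, ∀ y ∈ Q, x * y = y * x) →
      Q ⊓ K = ⊥ → K ⊓ Subgroup.centralizer (Q : Set G) ≤ H →
      H ≤ Subgroup.normalizer (Q : Set G) → ¬ p ∣ K.relIndex H →
      ∃ (m : ℕ) (L : Fin m → Type) (_ : ∀ i, Group (L i)) (_ : ∀ i, Finite (L i)),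
        Nonempty (H ≃* ∀ i, L i) ∧
        ∀ i, ∃ S : Sylow p (L i),
          (∀ x ∈ (S : Subgroup (L i)), ∀ y ∈ (S : Subgroup (L i)), x * y = y * x) ∧
          Group.rank (S : Subgroup (L i)) ≤ n ∧
          ∀ (x : L i) (D : Sylow p (Subgroup.centralizer {x})),
            Group.rank (D : Subgroup (Subgroup.centralizer {x})) ≤ 2 ∨
              N < Nat.card (D : Subgroup (Subgroup.centralizer {x}))) → KR p G := by
  have : Fact p.Prime := ⟨hp⟩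
  obtain ⟨N, hN⟩ := KR_small p hp n
  refine ⟨N, fun G _ _ K _ hK h => reduction3 hp K hK fun Q H h1 h2 h3 h4 h5 h6 => ?_⟩
  obtain ⟨m, L, _, _, ⟨e⟩, hL⟩ := h Q H h1 h2 h3 h4 h5 h6
  refine KR_congr e.symm (KR_pi m L fun i => ?_)
  obtain ⟨S, h1, h2, h3⟩ := hL i
  exact hN _ S h1 h2 h3

/-- The case of rank at most two. -/
theorem KR_two2 (hp : p.Prime) (K : Subgroup G) [K.Normal] (hK : PSol p K) (S : Sylow p K)
    (hc : ∀ x ∈ (S : Subgroup K), ∀ y ∈ (S : Subgroup K), x * y = y * x)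
    (hn : Group.rank (S : Subgroup K) ≤ 2) : KR p G := by
  have : Fact p.Prime := ⟨hp⟩
  obtain ⟨N, hN⟩ := KR_base p hp 2
  refine reduction2 K hK fun _ H _ _ _ _ hH => ?_
  have key : ∀ (L : Type) [Group L] (φ : L →* H), Function.Injective φ →
      ∀ D : Subgroup L, IsPGroup p D →
        (∀ x ∈ D, ∀ y ∈ D, x * y = y * x) ∧ om1 p D ≤ p ^ 2 := by
    intro L _ φ hφ D hD
    have h1 : ∀ d : D, (H.subtype.comp (φ.comp D.subtype)) d ∈ K := fun d => by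
      obtain ⟨k, hk⟩ := hD d
      exact hH _ (φ d).2 ⟨k, by rw [← map_pow, hk, map_one]⟩
    obtain ⟨h2, h3⟩ := sub_of_sylow hp (MonoidHom.codRestrict _ K h1) (fun a b e =>
      Subtype.ext (hφ (Subtype.ext (congrArg (fun z : K => (z : G)) e)))) S hc hn ⊤
      (hD.of_equiv Subgroup.topEquiv.symm)
    exact ⟨fun x hx y hy => congrArg Subtype.val (h2 ⟨x, hx⟩ trivial ⟨y, hy⟩ trivial),
      om1_congr (Subgroup.topEquiv (G := D)) ▸ h3⟩
  exact hN H (key H (MonoidHom.id H) Function.injective_id) fun x T =>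
    Or.inl (key _ _ (Subgroup.centralizer {x}).subtype_injective _ T.isPGroup').2

end Pool.Agent.Lib.MP_b6945b_al.Ip
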