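import Pool.Agent.Lib.MP_b6945b_al.Ip.IDefs

set_option autoImplicit false

/-!
Transport along injective homomorphisms.
-/

namespace Pool.Agent.Lib.MP_b6945b_al.Ip

open Finset

variable {p : ℕ}

section
variable {H G : Type} [Group H] [Group G] {φ : H →* G}

lemma asub_norm (hφ : Function.Injective φ) (P : Subgroup H) (x : H) :
    φ x ∈ Subgroup.normalizer (P.map φ : Set G) ↔ x ∈ Subgroup.normalizer (P : Set H) := by
  rw [← Subgroup.mem_comap, Subgroup.comap_normalizer_eq_of_le_range (P.map_le_range φ),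
    Subgroup.comap_map_eq_self_of_injective hφ]

lemma asub_stab (hφ : Function.Injective φ) (σ : Finset (Subgroup H)) (x : H) :
    φ x ∈ stab (σ.map ⟨Subgroup.map φ, Subgroup.map_injective hφ⟩) ↔ x ∈ stab σ := by
  simp only [mem_stab, Finset.forall_mem_map, Function.Embedding.coeFn_mk, asub_norm hφ]

lemma asub_chain (hφ : Function.Injective φ) (σ : Finset (Subgroup H)) :
    IsPChain p (σ.map ⟨Subgroup.map φ, Subgroup.map_injective hφ⟩) ↔ IsPChain p σ := by
  have h1 : ∀ P : Subgroup H, IsPGroup p (P.map φ) ↔ IsPGroup p P := fun P =>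
    ⟨fun h => by
      have h2 := h.comap_of_injective φ hφ
      rwa [Subgroup.comap_map_eq_self_of_injective hφ] at h2, fun h => h.map φ⟩
  refine and_congr ?_ ?_
  · rw [Finset.coe_map]
    refine ⟨fun h P hP Q hQ e => ?_, fun h => ?_⟩
    · simpa only [Function.Embedding.coeFn_mk, Subgroup.map_le_map_iff_of_injective hφ] using
        h ⟨P, hP, rfl⟩ ⟨Q, hQ, rfl⟩ fun e' => e (Subgroup.map_injective hφ e')
    · rintro _ ⟨P, hP, rfl⟩ _ ⟨Q, hQ, rfl⟩ e
      exact (h hP hQ fun e' => e (congrArg _ e')).imp Subgroup.map_mono Subgroup.map_mono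
  · simp only [Finset.forall_mem_map, Function.Embedding.coeFn_mk, h1, ne_eq,
      Subgroup.map_eq_bot_iff_of_injective _ hφ]

end

/-- Chains of `H` correspond to chains of `G` inside the range. -/
theorem nn_eq_AA {H G : Type} [Group H] [Finite H] [Group G] [Fintype G] (φ : H →* G)
    (hφ : Function.Injective φ) : nn p (1 : H) = AA p φ.range := by
  classical
  let _ : Fintype H := Fintype.ofFinite H
  let _ : Fintype (Finset (Subgroup H)) := Fintype.ofFinite _
  unfold nn AA
  rw [sum_tri]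
  refine Fintype.sum_of_injective φ hφ _ _
    (fun x hx => Finset.sum_eq_zero fun y _ => if_neg fun h => hx h.1) fun a => ?_
  refine Fintype.sum_of_injective φ hφ _ _ (fun y hy => if_neg fun h => hy h.2.1) fun b => ?_
  by_cases hab : a * b = b * a
  · rw [if_pos ⟨⟨a, rfl⟩, ⟨b, rfl⟩, by rw [← map_mul, hab, map_mul]⟩, eK]
    refine Fintype.sum_of_injective
      (fun σ : Finset (Subgroup H) => σ.map ⟨Subgroup.map φ, Subgroup.map_injective hφ⟩)
      (Finset.map_injective _) _ _ (fun τ hτ => if_neg fun h => hτ ?_) fun σ => ?_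
    · refine ⟨τ.image (Subgroup.comap φ), ?_⟩
      simp only [Finset.map_eq_image, Finset.image_image]
      refine (Finset.image_congr fun P hP => ?_).trans Finset.image_id
      exact Subgroup.map_comap_eq_self (h.2.2 P hP)
    · refine if_congr ?_ (by rw [sgn, sgn, Finset.card_map]) rfl
      simp only [W, asub_chain hφ, Set.insert_subset_iff, Set.singleton_subset_iff,
        SetLike.mem_coe, asub_stab hφ, Finset.forall_mem_map, Function.Embedding.coeFn_mk,
        Subgroup.map_le_range, implies_true, and_true, hab, mul_inv_cancel_right, mul_inv_cancel]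
  · rw [if_neg fun h => hab (hφ (by rw [map_mul, map_mul, h.2.2]))]
    refine Finset.sum_eq_zero fun σ _ => if_neg fun h => hab ?_
    have h1 := h.2.2.2
    rwa [mul_inv_eq_one, mul_inv_eq_iff_eq_mul] at h1

/-- Compose the functions and the representations with the isomorphism. -/
theorem zz_congr {H G : Type} [Group H] [Group G] (e : H ≃* G) : zz p H = zz p G := by
  refine Nat.card_congr (Equiv.subtypeEquiv (e.toEquiv.arrowCongr (Equiv.refl ℂ)) fun f => ?_)
  rw [Nat.card_congr e.toEquiv]
  constructor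
  · rintro ⟨n, ρ, h0, h1, h2, rfl⟩
    exact ⟨n, ρ.comp e.symm.toMonoidHom, h0, h1,
      fun W hW => h2 W fun g => by simpa using hW (e g), rfl⟩
  · rintro ⟨n, ρ, h0, h1, h2, h3⟩
    refine ⟨n, ρ.comp e.toMonoidHom, h0, h1,
      fun W hW => h2 W fun g => by simpa using hW (e.symm g), funext fun g => ?_⟩
    simpa using congrFun h3 (e g)

/-- `nn_eq_AA` for `e` and for the identity of `G`; both ranges are `⊤`. -/
theorem KR_congr {H G : Type} [Group H] [Finite H] [Group G] [Finite G] (e : H ≃* G)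
    (h : KR p H) : KR p G := by
  let _ : Fintype G := Fintype.ofFinite G
  have h1 := nn_eq_AA (p := p) e.toMonoidHom e.injective
  have h2 := nn_eq_AA (p := p) (MonoidHom.id G) Function.injective_id
  rw [MonoidHom.range_eq_top.2 e.surjective] at h1
  rw [MonoidHom.range_eq_top.2 Function.surjective_id] at h2
  rw [KR, h2, ← h1, ← zz_congr e, ← Nat.card_congr e.toEquiv]
  exact h

/-- As at the end of `final_abelian` (FinalA): `finsum_chains`, `nn_one_eq`. -/
theorem KR_iff (p : ℕ) (G : Type) [Group G] [Finite G] : KR p G ↔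
    (∑ᶠ (σ : Finset (Subgroup G))
        (_ : σ.Nonempty ∧ IsChain (· ≤ ·) (σ : Set (Subgroup G)) ∧
              ∀ P ∈ σ, IsPGroup p P ∧ P ≠ ⊥),
        (-1 : ℤ) ^ (σ.card - 1) *
          (Nat.card {x : G × G // x.1 * x.2 = x.2 * x.1 ∧
              ∀ P ∈ σ, x.1 ∈ Subgroup.normalizer (P : Set G) ∧
                x.2 ∈ Subgroup.normalizer (P : Set G)} : ℤ))
      = (Nat.card G : ℤ) *
        ((Nat.card (ConjClasses G) : ℤ) -
          (Nat.card {f : G → ℂ // ∃ n : ℕ, ∃ ρ : G →* Matrix (Fin n) (Fin n) ℂ,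
              0 < n ∧ p ^ ((Nat.card G).factorization p) ∣ n ∧
              (∀ W : Submodule ℂ (Fin n → ℂ),
                  (∀ g : G, ∀ v ∈ W, (ρ g).mulVec v ∈ W) → W = ⊥ ∨ W = ⊤) ∧
              f = fun g => (ρ g).trace} : ℤ)) := by
  let _ : Fintype (Finset (Subgroup G)) := Fintype.ofFinite _
  have h3 : ∀ σ : Finset (Subgroup G), Nat.card {x : G × G // x.1 * x.2 = x.2 * x.1 ∧
      ∀ P ∈ σ, x.1 ∈ Subgroup.normalizer (P : Set G) ∧ x.2 ∈ Subgroup.normalizer (P : Set G)} =
      Nat.card {x : G × G // x.1 * x.2 = x.2 * x.1 ∧ x.1 ∈ stab σ ∧ x.2 ∈ stab σ} := by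
    intro σ
    refine Nat.card_congr (Equiv.subtypeEquivRight (fun x => and_congr_right (fun _ => ?_)))
    simp only [mem_stab]
    exact ⟨fun h => ⟨fun P hP => (h P hP).1, fun P hP => (h P hP).2⟩,
      fun h P hP => ⟨h.1 P hP, h.2 P hP⟩⟩
  have h4 : Nat.card {x : G × G // x.1 * x.2 = x.2 * x.1 ∧ x.1 ∈ stab (∅ : Finset (Subgroup G)) ∧
      x.2 ∈ stab (∅ : Finset (Subgroup G))} = Nat.card (ConjClasses G) * Nat.card G := by
    rw [← card_comm_eq_card_conjClasses_mul_card]
    refine Nat.card_congr (Equiv.subtypeEquivRight (fun x => ?_))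
    simp [stab_empty, commute_iff_eq]
  simp only [h3]
  rw [finsum_chains, ← nn_one_eq, h4, KR, zz]
  push_cast
  constructor <;> intro h <;> linear_combination -h

end Pool.Agent.Lib.MP_b6945b_al.Ip
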