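import Pool.Agent.Lib.MP_b6945b_al.Ip.ZE1

set_option autoImplicit false

/-!
The idempotents of subgroups as functions on the whole group; the Brauer map.
-/

namespace Pool.Agent.Lib.MP_b6945b_al.Ip

open Finset

variable {G : Type} [Group G] [Fintype G] {p : ℕ} {V : ValuationSubring ℂ}

lemma zee_sum (H : Subgroup G) [Fintype H] (F : G → ℂ) (h : ∀ g, g ∉ H → F g = 0) :
    ∑ g : G, F g = ∑ g : H, F g := by
  rw [sum_sub H F]
  refine Finset.sum_congr rfl fun g _ => ?_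
  split_ifs with hg
  · rfl
  · exact h g hg

/-- `sum_sub`. -/
lemma ext0_conv (H : Subgroup G) [Fintype H] (f g : H → ℂ) :
    ext0 H (conv f g) = conv (ext0 H f) (ext0 H g) := by
  funext x
  rw [conv, zee_sum H (fun y => ext0 H f y * ext0 H g (y⁻¹ * x))
    fun y hy => by rw [ext0_neg f hy, zero_mul]]
  by_cases hx : x ∈ H
  · rw [ext0_pos _ hx, conv]
    refine Finset.sum_congr rfl fun y _ => ?_
    rw [ext0_coe f y, ← ext0_coe g (y⁻¹ * ⟨x, hx⟩)]
    rfl
  · rw [ext0_neg _ hx]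
    refine (Finset.sum_eq_zero fun y _ => ?_).symm
    rw [ext0_neg g fun e => hx (by simpa using H.mul_mem y.2 e), mul_zero]

lemma ext0_cpow (H : Subgroup G) [Fintype H] (f : H → ℂ) (m : ℕ) :
    ext0 H (cpow f m) = cpow (ext0 H f) m := by
  induction m with
  | zero =>
    funext x
    simp only [cpow]
    by_cases hx : x ∈ H
    · rw [ext0_pos _ hx]
      by_cases h1 : x = 1
      · rw [ind_pos (S := (· = 1)) h1, ind_pos (S := (· = 1)) (Subtype.ext h1)]
      · rw [ind_neg (S := (· = 1)) h1,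
          ind_neg (S := (· = 1)) fun e => h1 (congrArg Subtype.val e)]
    · rw [ext0_neg _ hx, ind_neg (S := (· = 1)) fun e : x = 1 => hx (e ▸ H.one_mem)]
  | succ m ih => simp only [cpow, ext0_conv, ih]

lemma ext0_tau (H : Subgroup G) [Fintype H] : ext0 H (tau (⊤ : Subgroup H)) = tau H := by
  funext x
  by_cases hx : x ∈ H
  · rw [ext0_pos _ hx, tau, tau, zee_sum H _ fun a ha =>
      Finset.sum_eq_zero fun b _ => ind_neg fun e => ha e.1]
    refine Finset.sum_congr rfl fun a _ => ?_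
    rw [zee_sum H _ fun b hb => ind_neg fun e => hb e.2.1]
    refine Finset.sum_congr rfl fun b _ => ?_
    by_cases h : (a : G) * b * (a : G)⁻¹ * (b : G)⁻¹ = x
    · rw [ind_pos ⟨trivial, trivial, Subtype.ext h⟩, ind_pos ⟨a.2, b.2, h⟩]
    · rw [ind_neg fun e => h (congrArg Subtype.val e.2.2), ind_neg fun e => h e.2.2]
  · rw [ext0_neg _ hx, tau]
    refine (Finset.sum_eq_zero fun a _ => Finset.sum_eq_zero fun b _ => ind_neg fun e => ?_).symm
    exact hx (e.2.2 ▸ H.mul_mem (H.mul_mem (H.mul_mem e.1 e.2.1) (H.inv_mem e.1))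
      (H.inv_mem e.2.1))

/-- `Subsingleton.elim` for the two `Fintype` structures, `e1_congr` for the identity. -/
lemma EE_eq (H : Subgroup G) [Fintype H] (I : IrrData H) : EE p H = ext0 H (e1 p I) := by
  unfold EE
  refine congrArg (ext0 H) (funext fun g => ?_)
  exact @e1_congr H _ _ p H _ (Fintype.ofFinite H) (MulEquiv.refl H) I _ g

lemma EE_supp {H : Subgroup G} {x : G} (hx : x ∉ H) : EE p H x = 0 := by
  unfold EE
  exact ext0_neg _ hx

lemma EE_mem [Fact p.Prime] (hp : (p : ℂ) ∈ V.nonunits) (H : Subgroup G) (x : G) :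
    EE p H x ∈ V := by
  let : Fintype H := Fintype.ofFinite H
  obtain ⟨I⟩ := exists_irrData H
  by_cases hx : x ∈ H
  · rw [EE_eq H I, ext0_pos _ hx]
    exact e1_mem hp I _
  · rw [EE_supp hx]
    exact zero_mem _

lemma EE_idem (H : Subgroup G) : conv (EE p H) (EE p H) = EE p H := by
  let : Fintype H := Fintype.ofFinite H
  obtain ⟨I⟩ := exists_irrData H
  rw [EE_eq H I, ← ext0_conv, e1_idem]

/-- `e1_congr` for the isomorphism `H ≃* H'` given by conjugation with `g`. -/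
lemma EE_conj {H H' : Subgroup G} {g : G} (h : ∀ x, x ∈ H ↔ g * x * g⁻¹ ∈ H') (x : G) :
    EE p H' (g * x * g⁻¹) = EE p H x := by
  let : Fintype H := Fintype.ofFinite H
  let : Fintype H' := Fintype.ofFinite H'
  obtain ⟨I⟩ := exists_irrData H
  obtain ⟨I'⟩ := exists_irrData H'
  by_cases hx : x ∈ H
  · let φ : H ≃* H' :=
      { toFun := fun y => ⟨g * y * g⁻¹, (h y).1 y.2⟩
        invFun := fun y => ⟨g⁻¹ * y * g, (h _).2 (by simp [mul_assoc])⟩
        left_inv := fun y => Subtype.ext (by simp [mul_assoc])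
        right_inv := fun y => Subtype.ext (by simp [mul_assoc])
        map_mul' := fun y z => Subtype.ext (by simp [mul_assoc]) }
    rw [EE_eq H I, EE_eq H' I', ext0_pos _ hx, ext0_pos _ ((h x).1 hx)]
    exact e1_congr φ I I' ⟨x, hx⟩
  · rw [EE_supp hx, EE_supp fun e => hx ((h x).2 e)]

lemma EE_van [Fact p.Prime] (hp : (p : ℂ) ∈ V.nonunits) {H : Subgroup G} {w x : G} (hw : w ∈ H)
    (h1 : w ≠ 1) (hwp : w ^ p = 1) (hc : w * x = x * w) : EE p H x ∈ V.nonunits := by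
  let : Fintype H := Fintype.ofFinite H
  obtain ⟨I⟩ := exists_irrData H
  by_cases hx : x ∈ H
  · rw [EE_eq H I, ext0_pos _ hx]
    exact e1_van hp I (w := ⟨w, hw⟩) (fun e => h1 (congrArg Subtype.val e)) (Subtype.ext hwp)
      (Subtype.ext hc)
  · rw [EE_supp hx]
    exact zero_mem _

open Classical in
lemma EE_tr (H : Subgroup G) :
    ∑ a : G, ∑ b : G, (if a ∈ H ∧ b ∈ H then EE p H (a * b * a⁻¹ * b⁻¹) else 0) =
      (Nat.card H : ℂ) * zz p H := by
  let : Fintype H := Fintype.ofFinite H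
  obtain ⟨I⟩ := exists_irrData H
  rw [← e1_tr I, zee_sum H _ fun a ha =>
    Finset.sum_eq_zero fun b _ => if_neg fun e => ha e.1]
  refine Finset.sum_congr rfl fun a _ => ?_
  rw [zee_sum H _ fun b hb => if_neg fun e => hb e.2]
  refine Finset.sum_congr rfl fun b _ => ?_
  rw [if_pos ⟨a.2, b.2⟩, EE_eq H I, ← ext0_coe (e1 p I) (a * b * a⁻¹ * b⁻¹)]
  rfl

lemma EE_pow [Fact p.Prime] (hp : (p : ℂ) ∈ V.nonunits) (H : Subgroup G) (x : G) :
    EE p H x - cpow (tau H) (p - 1) x ∈ V.nonunits := by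
  let : Fintype H := Fintype.ofFinite H
  obtain ⟨I⟩ := exists_irrData H
  rw [EE_eq H I, ← ext0_tau, ← ext0_cpow]
  by_cases hx : x ∈ H
  · rw [ext0_pos _ hx, ext0_pos _ hx]
    exact e1_pow hp I _
  · rw [ext0_neg _ hx, ext0_neg _ hx, sub_zero]
    exact zero_mem _

lemma zeb_ind_congr {A B : Type} {S : A → Prop} {T : B → Prop} {a : A} {b : B} (h : S a ↔ T b) :
    ind S a = ind T b := by
  by_cases e : T b
  · rw [ind_pos e, ind_pos (h.2 e)]
  · rw [ind_neg e, ind_neg fun f => e (h.1 f)]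

omit [Fintype G] in
lemma zeb_pg [Fact p.Prime] {u : G} (hu : u ^ p = 1) : IsPGroup p (Subgroup.zpowers u) := by
  rintro ⟨g, k, rfl⟩
  refine ⟨1, Subtype.ext ?_⟩
  change (u ^ k) ^ p ^ 1 = 1
  rw [pow_one, ← zpow_natCast, ← zpow_mul, mul_comm, zpow_mul, zpow_natCast, hu, one_zpow]

omit [Fintype G] in
lemma zeb_comm {u x g : G} (hx : x * u = u * x) (hg : g ∈ Subgroup.zpowers u) :
    g * x * g⁻¹ = x := by
  obtain ⟨k, rfl⟩ := hg
  exact mul_inv_eq_iff_eq_mul.2 ((show Commute x u from hx).zpow_right k).eq.symm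

omit [Fintype G] in
lemma zeb_N (N : Subgroup G) [hN : N.Normal] (g y : G) : g * y * g⁻¹ ∈ N ↔ y ∈ N :=
  ⟨fun h => by simpa [mul_assoc] using hN.conj_mem _ h g⁻¹, fun h => hN.conj_mem _ h g⟩

omit [Fintype G] in
lemma zeb_CN (N : Subgroup G) [N.Normal] {u g : G} (hg : g ∈ Subgroup.zpowers u) (y : G) :
    g * y * g⁻¹ ∈ CN N u ↔ y ∈ CN N u := by
  have h : g * u * g⁻¹ = u := zeb_comm rfl hg
  have e : g * (y * u) * g⁻¹ = g * (u * y) * g⁻¹ ↔ y * u = u * y := by
    rw [mul_left_inj, mul_right_inj]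
  rw [mem_CN, mem_CN, zeb_N, ← e]
  have e1 : g * (y * u) * g⁻¹ = g * y * g⁻¹ * (g * u * g⁻¹) := by group
  have e2 : g * (u * y) * g⁻¹ = g * u * g⁻¹ * (g * y * g⁻¹) := by group
  rw [e1, e2, h]

omit [Fintype G] in
lemma zeb_pair {H : Subgroup G} {g : G} (h : ∀ y, g * y * g⁻¹ ∈ H ↔ y ∈ H) (a b x : G) :
    (g * a * g⁻¹ ∈ H ∧ g * b * g⁻¹ ∈ H ∧
      g * a * g⁻¹ * (g * b * g⁻¹) * (g * a * g⁻¹)⁻¹ * (g * b * g⁻¹)⁻¹ = g * x * g⁻¹) ↔
      (a ∈ H ∧ b ∈ H ∧ a * b * a⁻¹ * b⁻¹ = x) := by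
  have e : g * a * g⁻¹ * (g * b * g⁻¹) * (g * a * g⁻¹)⁻¹ * (g * b * g⁻¹)⁻¹ =
      g * (a * b * a⁻¹ * b⁻¹) * g⁻¹ := by group
  rw [h, h, e, mul_left_inj, mul_right_inj]

lemma zeb_tau_conj {H : Subgroup G} {g : G} (h : ∀ y, g * y * g⁻¹ ∈ H ↔ y ∈ H) (x : G) :
    tau H (g * x * g⁻¹) = tau H x := by
  unfold tau
  rw [← Equiv.sum_comp (MulAut.conj g).toEquiv]
  refine Finset.sum_congr rfl fun a _ => ?_
  rw [← Equiv.sum_comp (MulAut.conj g).toEquiv]
  exact Finset.sum_congr rfl fun b _ => zeb_ind_congr (zeb_pair h a b x)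

lemma zeb_tau_mem (H : Subgroup G) (x : G) : tau H x ∈ V :=
  sum_mem fun _ _ => sum_mem fun _ _ => ind_mem V _ _

lemma zeb_tau_supp {H : Subgroup G} {x : G} (hx : x ∉ H) : tau H x = 0 :=
  Finset.sum_eq_zero fun _ _ => Finset.sum_eq_zero fun _ _ => ind_neg fun h =>
    hx (h.2.2 ▸ H.mul_mem (H.mul_mem (H.mul_mem h.1 h.2.1) (H.inv_mem h.1)) (H.inv_mem h.2.1))

lemma zeb_cpow_mem {f : G → ℂ} (hf : ∀ x, f x ∈ V) (m : ℕ) : ∀ x, cpow f m x ∈ V := by
  induction m with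
  | zero => exact fun x => ind_mem V _ _
  | succ m ih => exact fun x => sum_mem fun y _ => mul_mem (hf y) (ih _)

lemma zeb_cpow_conj {f : G → ℂ} {g : G} (hf : ∀ x, f (g * x * g⁻¹) = f x) (m : ℕ) :
    ∀ x, cpow f m (g * x * g⁻¹) = cpow f m x := by
  induction m with
  | zero => exact fun x => zeb_ind_congr (by simp)
  | succ m ih =>
    intro x
    change ∑ y, f y * cpow f m (y⁻¹ * (g * x * g⁻¹)) = ∑ y, f y * cpow f m (y⁻¹ * x)
    rw [← Equiv.sum_comp (MulAut.conj g).toEquiv]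
    refine Finset.sum_congr rfl fun y _ => ?_
    change f (g * y * g⁻¹) * cpow f m ((g * y * g⁻¹)⁻¹ * (g * x * g⁻¹)) = _
    have e : (g * y * g⁻¹)⁻¹ * (g * x * g⁻¹) = g * (y⁻¹ * x) * g⁻¹ := by group
    rw [hf, e, ih]

/-- The group `zpowers u` acts on the pairs `(a, b)` by conjugation (`sum_mem_of_pgroup` on
`Cj G × Cj G`, Omega); apply it to the difference of the two indicators, which vanishes on the
fixed pairs. -/
lemma tau_brauer [Fact p.Prime] (hp : (p : ℂ) ∈ V.nonunits) (N : Subgroup G) [N.Normal] {u x : G}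
    (hu : u ^ p = 1) (hx : x * u = u * x) : tau N x - tau (CN N u) x ∈ V.nonunits := by
  let _ : Fintype (Cj G) := Fintype.ofEquiv _ Cj.equiv.symm
  let F : Subgroup G → Cj G × Cj G → ℂ := fun H z =>
    ind (fun z : G × G => z.1 ∈ H ∧ z.2 ∈ H ∧ z.1 * z.2 * z.1⁻¹ * z.2⁻¹ = x) (z.1.v, z.2.v)
  have e : ∀ H : Subgroup G, tau H x = ∑ z, F H z := fun H => by
    rw [Fintype.sum_prod_type, tau, ← Equiv.sum_comp Cj.equiv]
    exact Finset.sum_congr rfl fun a _ => (Equiv.sum_comp Cj.equiv _).symm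
  have inv : ∀ (H : Subgroup G) (g : Subgroup.zpowers u), (∀ y, g * y * (g : G)⁻¹ ∈ H ↔ y ∈ H) →
      ∀ z, F H (g • z) = F H z := fun H g h z => by
    have := zeb_pair h z.1.v z.2.v x
    rw [zeb_comm hx g.2] at this
    exact zeb_ind_congr this
  rw [e, e, ← Finset.sum_sub_distrib]
  refine sum_mem_of_pgroup (zeb_pg hu) _ (fun g z => ?_) V.nonunits.toAddSubgroup (fun z => ?_)
    fun z hz => ?_
  · rw [inv N g (zeb_N N g), inv _ g (zeb_CN N g.2)]
  · rw [nsmul_eq_mul]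
    exact mul_mem_nonunits hp (sub_mem (ind_mem V _ _) (ind_mem V _ _))
  · have h0 := hz ⟨u, Subgroup.mem_zpowers u⟩
    have h1 : u * z.1.v * u⁻¹ = z.1.v := congrArg (fun z : Cj G × Cj G => z.1.v) h0
    have h2 : u * z.2.v * u⁻¹ = z.2.v := congrArg (fun z : Cj G × Cj G => z.2.v) h0
    have h3 : F N z = F (CN N u) z := zeb_ind_congr (by
      simp only [mem_CN, (mul_inv_eq_iff_eq_mul.1 h1).symm, (mul_inv_eq_iff_eq_mul.1 h2).symm,
        and_true])
    rw [h3, sub_self]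
    exact zero_mem _

/-- Induction on `m`.  All functions have values in `V` and are invariant under conjugation by
`u`; `tau (CN N u)` vanishes on elements that do not commute with `u`.  Apply `sum_mem_of_conj`
with `S = zpowers u` to `y ↦ tau N y * cpow (tau N) m (y⁻¹ * x) - (the same for CN N u)`. -/
lemma cpow_brauer [Fact p.Prime] (hp : (p : ℂ) ∈ V.nonunits) (N : Subgroup G) [N.Normal] {u : G}
    (hu : u ^ p = 1) (m : ℕ) {x : G} (hx : x * u = u * x) :
    cpow (tau N) m x - cpow (tau (CN N u)) m x ∈ V.nonunits := by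
  induction m generalizing x with
  | zero => exact (sub_self (ind (· = 1) x)).symm ▸ zero_mem _
  | succ m ih =>
    change ∑ y, tau N y * cpow (tau N) m (y⁻¹ * x) -
      ∑ y, tau (CN N u) y * cpow (tau (CN N u)) m (y⁻¹ * x) ∈ _
    rw [← Finset.sum_sub_distrib]
    refine sum_mem_of_conj _ (zeb_pg hu) _ (fun g hg y => ?_) V.nonunits.toAddSubgroup
      (fun y => ?_) fun y hy => ?_
    · have e : (g * y * g⁻¹)⁻¹ * x = g * (y⁻¹ * x) * g⁻¹ := by
        rw [← zeb_comm hx hg]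
        nth_rewrite 2 [zeb_comm hx hg]
        group
      rw [e, zeb_tau_conj (zeb_N N g), zeb_tau_conj (zeb_CN N hg),
        zeb_cpow_conj (zeb_tau_conj (zeb_N N g)), zeb_cpow_conj (zeb_tau_conj (zeb_CN N hg))]
    · rw [nsmul_eq_mul]
      exact mul_mem_nonunits hp (sub_mem
        (mul_mem (zeb_tau_mem _ _) (zeb_cpow_mem (zeb_tau_mem _) _ _))
        (mul_mem (zeb_tau_mem _ _) (zeb_cpow_mem (zeb_tau_mem _) _ _)))
    · have h1 : Commute y u := (hy u (Subgroup.mem_zpowers u)).symm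
      have h2 := mul_mem_nonunits (ih (h1.inv_left.mul_left hx).eq) (zeb_tau_mem (V := V) N y)
      have h3 := mul_mem_nonunits (tau_brauer hp N hu h1.eq)
        (zeb_cpow_mem (zeb_tau_mem (V := V) (CN N u)) m (y⁻¹ * x))
      have e : tau N y * cpow (tau N) m (y⁻¹ * x) -
          tau (CN N u) y * cpow (tau (CN N u)) m (y⁻¹ * x) =
          (cpow (tau N) m (y⁻¹ * x) - cpow (tau (CN N u)) m (y⁻¹ * x)) * tau N y +
          (tau N y - tau (CN N u) y) * cpow (tau (CN N u)) m (y⁻¹ * x) := by ring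
      rw [e]
      exact add_mem h2 h3

lemma EE_brauer [Fact p.Prime] (hp : (p : ℂ) ∈ V.nonunits) (N : Subgroup G) [N.Normal] {u x : G}
    (hu : u ^ p = 1) (hx : x * u = u * x) : EE p N x - EE p (CN N u) x ∈ V.nonunits := by
  have h := add_mem (add_mem (EE_pow hp N x) (cpow_brauer hp N hu (p - 1) hx))
    (neg_mem (EE_pow hp (CN N u) x))
  convert h using 1
  ring

end Pool.Agent.Lib.MP_b6945b_al.Ip
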