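import Pool.Agent.Lib.MP_b6945b_al.Ip.ZInv
import Pool.Agent.Lib.MP_b6945b_al.Ip.ZEE

set_option autoImplicit false

/-!
Characters of defect zero of a group with a normal subgroup of index `p`.
-/

namespace Pool.Agent.Lib.MP_b6945b_al.Ip

open Finset

open Classical in
/-- Lagrange interpolation on the finite set of all values (`Lagrange.interpolate`,
`Polynomial.eval_eq_sum_range`). -/
lemma moment_count {ι κ : Type} [Fintype ι] [Fintype κ] (x α : ι → ℂ) (y β : κ → ℂ)
    (h : ∀ m : ℕ, ∑ i, α i * x i ^ m = ∑ j, β j * y j ^ m) (Φ : ℂ → Prop) :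
    ∑ i, (if Φ (x i) then α i else 0) = ∑ j, if Φ (y j) then β j else 0 := by
  let S : Finset ℂ := univ.image x ∪ univ.image y
  let P : Polynomial ℂ := Lagrange.interpolate S id fun t => if Φ t then 1 else 0
  have hP : ∀ t ∈ S, P.eval t = if Φ t then 1 else 0 := fun t ht =>
    Lagrange.eval_interpolate_at_node (v := id) _ (Set.injOn_id _) ht
  have h1 : ∀ {μ : Type} [Fintype μ] (z γ : μ → ℂ), (∀ i, z i ∈ S) →
      ∑ i, (if Φ (z i) then γ i else 0) =
        ∑ k ∈ range (P.natDegree + 1), P.coeff k * ∑ i, γ i * z i ^ k := by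
    intro μ _ z γ hz
    simp only [Finset.mul_sum]
    rw [Finset.sum_comm]
    refine Finset.sum_congr rfl fun i _ => ?_
    have h2 := hP _ (hz i)
    rw [Polynomial.eval_eq_sum_range] at h2
    rw [← mul_boole, ← h2, Finset.mul_sum]
    exact Finset.sum_congr rfl fun k _ => by ring
  rw [h1 x α fun i => mem_union_left _ (mem_image_of_mem _ (mem_univ i)),
    h1 y β fun i => mem_union_right _ (mem_image_of_mem _ (mem_univ i))]
  simp only [h]

/-- The value at `1` of a class function: `zf_om`, `om_cpow`, `χ_one`. -/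
lemma cpow_one {H : Type} [Group H] [Fintype H] (I : IrrData H) {f : H → ℂ} (hf : IsCF f)
    (m : ℕ) : cpow f m 1 = ∑ i, I.om i f ^ m * ((I.d i : ℂ) ^ 2 / Nat.card H) := by
  rw [← I.zf_om (cpow_cf hf m), IrrData.zf]
  refine Finset.sum_congr rfl fun i _ => ?_
  rw [om_cpow I i hf, inv_one, I.χ_one, Nat.card_eq_fintype_card, sq]

variable {G : Type} [Group G] [Fintype G] {p : ℕ} [Fact p.Prime] {N : Subgroup G} [N.Normal]
  [Fintype N]

omit [Fact p.Prime] in
lemma zmom_phi {r : ℕ} : (∃ s : ℕ, ¬ p ∣ s ∧ (r : ℂ) = s) ↔ ¬ p ∣ r :=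
  ⟨fun ⟨_, h, e⟩ => Nat.cast_injective (R := ℂ) e ▸ h, fun h => ⟨r, h, rfl⟩⟩

omit [Fintype N] in
lemma zmom_ext (hN : N.index = p) :
    ext0 N (fun y : N => tau (⊤ : Subgroup G) y) = tau (⊤ : Subgroup G) := by
  funext g
  by_cases hg : g ∈ N
  · exact ext0_pos _ hg
  · rw [ext0_neg _ hg]
    refine (Finset.sum_eq_zero fun a _ => Finset.sum_eq_zero fun b _ => ind_neg ?_).symm
    exact fun h => hg (h.2.2 ▸ comm_mem hN a b)

open Classical in
lemma zmom_om (hN : N.index = p) (I : IrrData N) (i : Fin I.n) :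
    I.om i (fun y : N => tau (⊤ : Subgroup G) y) =
      (if Inv I i then (p : ℂ) ^ 2 else 1) * ((Nat.card N : ℂ) / I.d i) ^ 2 := by
  have h1 := sum_tau (H := G) (ext0 N (I.χ i))
  rw [sum_all_chi hN] at h1
  have h2 := sum_sub N fun g => tau (⊤ : Subgroup G) g * ext0 N (I.χ i) g
  simp only [ext0_coe] at h2
  rw [IrrData.om, h2, Finset.sum_congr rfl fun g _ => show _ = _ * ext0 N (I.χ i) g from ?_, h1,
    mul_div_assoc, div_div, div_pow, sq (I.d i : ℂ)]
  split_ifs with hg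
  · rfl
  · rw [ext0_neg _ hg, mul_zero]

open Classical in
/-- `T = tau ⊤` vanishes outside `N` (`comm_mem`), so `T = ext0 N T'` with `T' y = T y`, a class
function on `N`.  `J.om j T = (|G| / d j) ^ 2` (`om_tau`), `I.om i T' = w i * (|N| / d i) ^ 2`
with `w i = p ^ 2` or `1` (`sum_tau`, `sum_sub`, `sum_all_chi`).  Compare `cpow T (m + 1) 1` with
`cpow T' (m + 1) 1` (`ext0_cpow`, `cpow_one`): `|G| * ∑ j, x j ^ m = |N| * ∑ i, w i * y i ^ m`.
Apply `moment_count` with `Φ t = ∃ r : ℕ, ¬ p ∣ r ∧ t = r` (`exists_cod`), `zz_eq`. -/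
theorem zz_index (hN : N.index = p) (I : IrrData N) :
    p * zz p G = (univ.filter fun i => Dz p I i ∧ ¬ Inv I i).card := by
  obtain ⟨J⟩ := exists_irrData G
  have hp : p.Prime := Fact.out
  have hG : (Nat.card G : ℂ) ≠ 0 := Nat.cast_ne_zero.2 Nat.card_pos.ne'
  have hN0 : (Nat.card N : ℂ) ≠ 0 := Nat.cast_ne_zero.2 Nat.card_pos.ne'
  have hT : IsCF fun y : N => tau (⊤ : Subgroup G) y := fun h g => tau_cf (h : G) (g : G)
  have key := moment_count (fun j => J.om j (tau (⊤ : Subgroup G))) (fun _ => (Nat.card G : ℂ))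
    (fun i => I.om i fun y : N => tau (⊤ : Subgroup G) y)
    (fun i => (if Inv I i then (p : ℂ) ^ 2 else 1) * Nat.card N) (fun m => by
      have h1 := congrFun (ext0_cpow N (fun y : N => tau (⊤ : Subgroup G) y) (m + 1)) 1
      rw [zmom_ext hN, ext0_pos _ N.one_mem, cpow_one J tau_cf] at h1
      have h2 := (cpow_one I hT (m + 1)).symm.trans h1
      refine Eq.trans (Finset.sum_congr rfl fun j _ => ?_)
        (h2.symm.trans (Finset.sum_congr rfl fun i _ => ?_))
      · have := J.d_ne j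
        rw [pow_succ, mul_assoc, mul_comm, om_tau]
        congr 1
        field_simp
      · have := I.d_ne i
        rw [pow_succ, mul_assoc, mul_comm, zmom_om hN]
        congr 1
        field_simp) fun t => ∃ r : ℕ, ¬ p ∣ r ∧ t = r
  have h3 : ∀ j, (∃ r : ℕ, ¬ p ∣ r ∧ J.om j (tau (⊤ : Subgroup G)) = r) ↔ Dz p J j := by
    intro j
    obtain ⟨r, hr, hd⟩ := exists_cod (p := p) J j
    rw [om_tau, hr, Nat.cast_mul, mul_div_cancel_left₀ _ (J.d_ne j), ← Nat.cast_pow, zmom_phi, hd,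
      hp.prime.dvd_pow_iff_dvd two_ne_zero]
  have h4 : ∀ i, (if ∃ r : ℕ, ¬ p ∣ r ∧ (I.om i fun y : N => tau (⊤ : Subgroup G) y) = r then
      (if Inv I i then (p : ℂ) ^ 2 else 1) * Nat.card N else 0) =
      if Dz p I i ∧ ¬ Inv I i then (Nat.card N : ℂ) else 0 := by
    intro i
    obtain ⟨r, hr, hd⟩ := exists_cod (p := p) I i
    have h5 : (Nat.card N : ℂ) / I.d i = r := by
      rw [hr, Nat.cast_mul, mul_div_cancel_left₀ _ (I.d_ne i)]
    rw [zmom_om hN, h5]
    by_cases hi : Inv I i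
    · rw [if_pos hi]
      refine (if_neg ?_).trans (if_neg fun h => h.2 hi).symm
      rw [← mul_pow, ← Nat.cast_mul, ← Nat.cast_pow, zmom_phi, not_not]
      exact dvd_pow (dvd_mul_right _ _) two_ne_zero
    · rw [if_neg hi, one_mul, one_mul]
      refine if_congr ?_ rfl rfl
      rw [← Nat.cast_pow, zmom_phi, hd, hp.prime.dvd_pow_iff_dvd two_ne_zero,
        and_iff_left hi]
  simp only [h3, h4] at key
  rw [← Finset.sum_filter, ← Finset.sum_filter, sum_const, sum_const, nsmul_eq_mul, nsmul_eq_mul,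
    ← zz_eq, card_eq_mul hN, Nat.cast_mul, ← mul_assoc] at key
  exact_mod_cast (mul_comm _ _).trans (mul_right_cancel₀ hN0 key)

end Pool.Agent.Lib.MP_b6945b_al.Ip
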