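import Pool.Agent.Lib.MP_b6945b_al.Ip.AMob
import Pool.Agent.Lib.MP_b6945b_al.Ip.ASub
import Pool.Agent.Lib.MP_b6945b_al.Ip.ZMom

set_option autoImplicit false

/-!
The identity passes to direct products.
-/

namespace Pool.Agent.Lib.MP_b6945b_al.Ip

open Finset

section
variable {G H : Type} [Group G] [Fintype G] [Group H] [Fintype H] {p : ℕ}

omit [Fintype G] [Fintype H] in
lemma prod_KP_map (φ : G →* H) {K : Set G} {Q : Subgroup G} (h : KP p K Q) :
    KP p (φ '' K) (Q.map φ) := by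
  refine ⟨h.1.map φ, ?_⟩
  rintro _ ⟨k, hk, rfl⟩
  exact Subgroup.le_normalizer_map φ ⟨k, h.2 hk, rfl⟩

open Classical in
/-- Push forward of the Moebius function. -/
lemma prod_push (φ : G →* H) (K : Set G) (T : Subgroup G) (c : ℤ)
    (h : ∀ A, KP p (φ '' K) A → eK p K (T ⊓ A.comap φ) = if A = ⊥ then c else 0) :
    eK p K T = c * eK p (φ '' K) ⊤ := by
  let F : Subgroup H → ℤ := fun A =>
    ∑ Q : Subgroup G, if Q.map φ = A then (if KP p K Q ∧ Q ≤ T then mu p K Q else 0) else 0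
  have h1 : ∀ B : Subgroup H, ∑ A, (if KP p (φ '' K) A ∧ A ≤ B then F A else 0) =
      eK p K (T ⊓ B.comap φ) := by
    intro B
    rw [eK_eq_sum]
    have h2 : ∀ A, (if KP p (φ '' K) A ∧ A ≤ B then F A else 0) = ∑ Q : Subgroup G,
        if Q.map φ = A then (if KP p K Q ∧ Q ≤ T ⊓ B.comap φ then mu p K Q else 0) else 0 := by
      intro A
      split_ifs with a
      · refine Finset.sum_congr rfl fun Q _ => if_ctx_congr Iff.rfl (fun e => ?_) fun _ => rfl
        exact if_congr (and_congr_right fun _ => ⟨fun b => le_inf b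
          (Subgroup.map_le_iff_le_comap.1 (e.le.trans a.2)), fun b => b.trans inf_le_left⟩) rfl rfl
      · refine (Finset.sum_eq_zero fun Q _ => ?_).symm
        split_ifs with e b
        · exact (a ⟨e ▸ prod_KP_map φ b.1,
            e ▸ Subgroup.map_le_iff_le_comap.2 (b.2.trans inf_le_right)⟩).elim
        · rfl
        · rfl
    rw [Finset.sum_congr rfl fun A _ => h2 A, Finset.sum_comm]
    exact Finset.sum_congr rfl fun Q _ => by rw [Finset.sum_ite_eq, if_pos (mem_univ _)]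
  have h3 : ∀ A, KP p (φ '' K) A → F A + (1 - c) * mu p (φ '' K) A = mu p (φ '' K) A := by
    intro A hA
    refine mu_unique (fun A => F A + (1 - c) * mu p (φ '' K) A) (fun B hB => ?_) hA
    have h4 := (eK_eq_sum (φ '' K) B).symm.trans (eK_self hB)
    have h5 := (h1 B).trans (h B hB)
    have h6 : ∀ A, (if KP p (φ '' K) A ∧ A ≤ B then F A + (1 - c) * mu p (φ '' K) A else 0) =
        (if KP p (φ '' K) A ∧ A ≤ B then F A else 0) +
          (1 - c) * if KP p (φ '' K) A ∧ A ≤ B then mu p (φ '' K) A else 0 := fun A => by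
      split_ifs <;> simp
    rw [Finset.sum_congr rfl fun A _ => h6 A, Finset.sum_add_distrib, ← Finset.mul_sum, h4, h5]
    split_ifs <;> simp
  have h7 := h1 ⊤
  rw [Subgroup.comap_top, inf_top_eq] at h7
  rw [← h7, eK_eq_sum, Finset.mul_sum]
  refine Finset.sum_congr rfl fun A _ => ?_
  split_ifs with a
  · linear_combination h3 A a.1
  · rw [mul_zero]

omit [Fintype G] [Fintype H] in
lemma prod_KP {K : Set (G × H)} {A : Subgroup G} {B : Subgroup H}
    (hA : KP p (MonoidHom.fst G H '' K) A) (hB : KP p (MonoidHom.snd G H '' K) B) :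
    KP p K (B.comap (MonoidHom.snd G H) ⊓ A.comap (MonoidHom.fst G H)) := by
  refine ⟨fun x => ?_, fun k hk => ?_⟩
  · obtain ⟨i, hi⟩ := hA.1 ⟨x.1.1, x.2.2⟩
    obtain ⟨j, hj⟩ := hB.1 ⟨x.1.2, x.2.1⟩
    have h1 : x.1.1 ^ p ^ i = 1 := congrArg Subtype.val hi
    have h2 : x.1.2 ^ p ^ j = 1 := congrArg Subtype.val hj
    refine ⟨i + j, Subtype.ext (Prod.ext ?_ ?_)⟩
    · change x.1.1 ^ p ^ (i + j) = 1
      rw [pow_add, pow_mul, h1, one_pow]
    · change x.1.2 ^ p ^ (i + j) = 1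
      rw [pow_add, mul_comm, pow_mul, h2, one_pow]
  · exact Subgroup.mem_normalizer_iff.2 fun x => and_congr
      (Subgroup.mem_normalizer_iff.1 (hB.2 ⟨k, hk, rfl⟩) x.2)
      (Subgroup.mem_normalizer_iff.1 (hA.2 ⟨k, hk, rfl⟩) x.1)

open Classical in
lemma eK_prod (K : Set (G × H)) : eK p K ⊤ =
    eK p (MonoidHom.fst G H '' K) ⊤ * eK p (MonoidHom.snd G H '' K) ⊤ := by
  refine prod_push (MonoidHom.snd G H) K ⊤ _ fun B hB => ?_
  rw [top_inf_eq, prod_push (MonoidHom.fst G H) K _ (if B = ⊥ then 1 else 0) fun A hA => ?_]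
  · split_ifs <;> simp
  · rw [eK_self (prod_KP hA hB), ← ite_and]
    refine if_congr ⟨fun e => ⟨?_, ?_⟩, ?_⟩ rfl rfl
    · refine (Subgroup.eq_bot_iff_forall _).2 fun x hx => ?_
      exact congrArg Prod.fst ((Subgroup.eq_bot_iff_forall _).1 e (x, 1) ⟨B.one_mem, hx⟩)
    · refine (Subgroup.eq_bot_iff_forall _).2 fun x hx => ?_
      exact congrArg Prod.snd ((Subgroup.eq_bot_iff_forall _).1 e (1, x) ⟨hx, A.one_mem⟩)
    · rintro ⟨rfl, rfl⟩
      exact (Subgroup.eq_bot_iff_forall _).2 fun x hx => Prod.ext hx.2 hx.1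

lemma prod_nn : nn p (1 : G) = AA p (⊤ : Subgroup G) := by
  rw [nn_eq_AA (MonoidHom.id G) Function.injective_id,
    MonoidHom.range_eq_top.2 Function.surjective_id]

lemma nn_prod : nn p (1 : G × H) = nn p (1 : G) * nn p (1 : H) := by
  classical
  rw [prod_nn, prod_nn, prod_nn, AA, AA, AA, Finset.sum_mul_sum, Fintype.sum_prod_type]
  refine Finset.sum_congr rfl fun x _ => Finset.sum_congr rfl fun x' _ => ?_
  rw [Finset.sum_mul_sum, Fintype.sum_prod_type]
  refine Finset.sum_congr rfl fun y _ => Finset.sum_congr rfl fun y' _ => ?_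
  rw [eK_prod, Set.image_pair, Set.image_pair, ite_zero_mul_ite_zero]
  refine @if_congr _ _ _ (_) (_) _ _ _ _ ?_ rfl rfl
  simp [Prod.ext_iff]

lemma tau_prod (x : G × H) :
    tau (⊤ : Subgroup (G × H)) x = tau (⊤ : Subgroup G) x.1 * tau (⊤ : Subgroup H) x.2 := by
  classical
  rw [tau, tau, tau, Finset.sum_mul_sum, Fintype.sum_prod_type]
  refine Finset.sum_congr rfl fun a _ => Finset.sum_congr rfl fun a' _ => ?_
  rw [Finset.sum_mul_sum, Fintype.sum_prod_type]
  refine Finset.sum_congr rfl fun b _ => Finset.sum_congr rfl fun b' _ => ?_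
  simp only [ind, ite_zero_mul_ite_zero, mul_one]
  refine @if_congr _ _ _ (_) (_) _ _ _ _ ?_ rfl rfl
  simp [Prod.ext_iff]

lemma cpow_prod (f : G → ℂ) (g : H → ℂ) (m : ℕ) (x : G × H) :
    cpow (fun z : G × H => f z.1 * g z.2) m x = cpow f m x.1 * cpow g m x.2 := by
  induction m generalizing x with
  | zero =>
    simp only [cpow, ind, ite_zero_mul_ite_zero, mul_one]
    exact @if_congr _ _ _ (_) (_) _ _ _ _ Prod.ext_iff rfl rfl
  | succ m ih =>
    simp only [cpow, conv, ih]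
    rw [Finset.sum_mul_sum, Fintype.sum_prod_type]
    exact Finset.sum_congr rfl fun a _ => Finset.sum_congr rfl fun b _ => mul_mul_mul_comm _ _ _ _

lemma prod_mom (I : IrrData G) (m : ℕ) : cpow (tau (⊤ : Subgroup G)) (m + 1) 1 =
    Nat.card G * ∑ i, I.om i (tau (⊤ : Subgroup G)) ^ m := by
  have hG : (Nat.card G : ℂ) ≠ 0 := Nat.cast_ne_zero.2 Nat.card_pos.ne'
  rw [cpow_one I tau_cf, Finset.mul_sum]
  refine Finset.sum_congr rfl fun i _ => ?_
  have := I.d_ne i
  rw [pow_succ, mul_assoc, mul_comm, om_tau]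
  congr 1
  field_simp

lemma prod_cod [Fact p.Prime] (I : IrrData G) (i : Fin I.n) :
    ∃ r : ℕ, I.om i (tau (⊤ : Subgroup G)) = r ∧ (Dz p I i ↔ ¬ p ∣ r) := by
  obtain ⟨r, hr, hd⟩ := exists_cod (p := p) I i
  refine ⟨r ^ 2, ?_, by rw [hd, (Fact.out : p.Prime).prime.dvd_pow_iff_dvd two_ne_zero]⟩
  rw [om_tau, hr, Nat.cast_mul, mul_div_cancel_left₀ _ (I.d_ne i), Nat.cast_pow]

lemma zz_prod [Fact p.Prime] : zz p (G × H) = zz p G * zz p H := by
  classical
  obtain ⟨I⟩ := exists_irrData G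
  obtain ⟨J⟩ := exists_irrData H
  obtain ⟨L⟩ := exists_irrData (G × H)
  have hG : (Nat.card (G × H) : ℂ) ≠ 0 := Nat.cast_ne_zero.2 Nat.card_pos.ne'
  have key := moment_count (fun k => L.om k (tau ⊤)) (fun _ => 1)
    (fun k : Fin I.n × Fin J.n => I.om k.1 (tau ⊤) * J.om k.2 (tau ⊤)) (fun _ => 1) (fun m => by
      have h1 := prod_mom L m
      rw [funext tau_prod, cpow_prod, Prod.fst_one, Prod.snd_one, prod_mom I, prod_mom J,
        mul_mul_mul_comm, ← Nat.cast_mul, ← Nat.card_prod, ← funext tau_prod] at h1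
      simp only [one_mul, mul_pow]
      rw [← mul_left_cancel₀ hG h1, Finset.sum_mul_sum, Fintype.sum_prod_type])
    fun t => ∃ r : ℕ, ¬ p ∣ r ∧ t = r
  have h1 : ∀ k, (∃ r : ℕ, ¬ p ∣ r ∧ L.om k (tau ⊤) = r) ↔ Dz p L k := fun k => by
    obtain ⟨r, hr, hd⟩ := prod_cod (p := p) L k
    rw [hr, zmom_phi, hd]
  have h2 : ∀ k : Fin I.n × Fin J.n, (∃ r : ℕ, ¬ p ∣ r ∧
      I.om k.1 (tau ⊤) * J.om k.2 (tau ⊤) = r) ↔ Dz p I k.1 ∧ Dz p J k.2 := fun k => by
    obtain ⟨r, hr, hd⟩ := prod_cod (p := p) I k.1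
    obtain ⟨s, hs, he⟩ := prod_cod (p := p) J k.2
    rw [hr, hs, ← Nat.cast_mul, zmom_phi, hd, he, (Fact.out : p.Prime).dvd_mul, not_or]
  simp only [h1, h2, Finset.sum_boole] at key
  rw [zz_eq p I, zz_eq p J, zz_eq p L, ← Finset.card_product, ← Finset.filter_product,
    Finset.univ_product_univ]
  exact_mod_cast key

end

variable {p : ℕ} [Fact p.Prime]

theorem KR_prod {G H : Type} [Group G] [Finite G] [Group H] [Finite H] (h1 : KR p G)
    (h2 : KR p H) : KR p (G × H) := by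
  let _ := Fintype.ofFinite G
  let _ := Fintype.ofFinite H
  rw [KR, nn_prod, zz_prod, h1, h2, Nat.card_prod]
  push_cast
  ring

omit [Fact p.Prime] in
/-- The trivial group. -/
theorem KR_unique {G : Type} [Group G] [Finite G] [Unique G] : KR p G := by
  classical
  let _ := Fintype.ofFinite G
  obtain ⟨I⟩ := exists_irrData G
  have h1 : eK p {(1 : G), 1} ⊤ = 1 := by
    rw [eK_self ⟨(Subsingleton.elim ⊥ ⊤ : (⊥ : Subgroup G) = ⊤) ▸ IsPGroup.of_bot,
      fun g _ => by rw [Subgroup.normalizer_eq_top]; trivial⟩, if_pos (Subsingleton.elim _ _)]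
  have h2 := prod_mom I 0
  have h3 : zz p G = I.n := by
    rw [zz_eq p I, Finset.filter_true_of_mem fun i _ => ?_, Finset.card_fin]
    rw [Dz, Nat.card_unique]
    simp
  rw [KR, prod_nn, AA, Fintype.sum_unique, Fintype.sum_unique, h3,
    Subsingleton.elim (default : G) 1, if_pos ⟨trivial, trivial, rfl⟩, h1]
  rw [cpow, conv, Fintype.sum_unique, cpow, ind_pos (S := (· = (1 : G))) (Subsingleton.elim _ _),
    tau, Fintype.sum_unique, Fintype.sum_unique,
    ind_pos (by exact ⟨trivial, trivial, Subsingleton.elim _ _⟩)] at h2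
  simp only [pow_zero, sum_const, card_fin, Nat.card_unique, nsmul_eq_mul, mul_one, Nat.cast_one,
    one_mul] at h2
  simp [Nat.cast_eq_one.1 h2.symm]

/-- Finite direct products. -/
theorem KR_pi (n : ℕ) : ∀ (L : Fin n → Type) [∀ i, Group (L i)] [∀ i, Finite (L i)],
    (∀ i, KR p (L i)) → KR p (∀ i, L i) := by
  induction n with
  | zero => exact fun L _ _ _ => KR_unique
  | succ n ih =>
    intro L _ _ h
    refine KR_congr (H := L 0 × ∀ i : Fin n, L i.succ)
      { Fin.consEquiv L with map_mul' := fun x y => funext fun i => ?_ }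
      (KR_prod (h 0) (ih (fun i => L i.succ) fun i => h i.succ))
    refine Fin.cases ?_ (fun j => ?_) i <;> rfl

/-- Groups with a nontrivial normal `p`-subgroup. -/
theorem KR_normal {G : Type} [Group G] [Finite G] (P : Subgroup G) [P.Normal] (hP : IsPGroup p P)
    (h0 : P ≠ ⊥) : KR p G := by
  classical
  let _ := Fintype.ofFinite G
  let _ := Fintype.ofFinite (G ⧸ P)
  obtain ⟨I⟩ := exists_irrData G
  have h1 : ∀ K : Set G, eK p K ⊤ = 0 := fun K => by
    rw [prod_push (QuotientGroup.mk' P) K ⊤ 0 fun A hA => ?_, zero_mul]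
    rw [top_inf_eq, ite_self, eK_self ⟨hA.1.comap_of_ker_isPGroup _
      (by rwa [QuotientGroup.ker_mk']), fun k hk =>
        Subgroup.le_normalizer_comap _ (hA.2 ⟨k, hk, rfl⟩)⟩, if_neg fun e => h0 ?_]
    exact le_bot_iff.1 ((QuotientGroup.le_comap_mk' P A).trans e.le)
  rw [KR, prod_nn, AA, zz_eq p I,
    Finset.filter_false_of_mem (p := Dz p I) fun i _ => I.not_dz P hP h0 i]
  simp [h1]

end Pool.Agent.Lib.MP_b6945b_al.Ip
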