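import Pool.Agent.Lib.MP_b6945b_al.Ip.AMob

set_option autoImplicit false

/-!
The chain sum of a group with a normal subgroup of index `p`.
-/

namespace Pool.Agent.Lib.MP_b6945b_al.Ip

open Finset

variable {G : Type} [Group G] [Fintype G] {p : ℕ} [Fact p.Prime] {N : Subgroup G} [N.Normal]

omit [Fact p.Prime] [N.Normal] in
lemma aidx1_norm {u : G} {R : Subgroup G} (h : R ≤ CN N u) :
    Subgroup.zpowers u ≤ Subgroup.normalizer (R : Set G) :=
  Subgroup.zpowers_le.2 (Subgroup.mem_normalizer_fintype fun n hn => by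
    rwa [← (mem_CN.1 (h hn)).2, mul_inv_cancel_right])

omit [Fact p.Prime] [N.Normal] in
lemma aidx1_mem {u x : G} {R : Subgroup G} (h : R ≤ CN N u) (hx : x ∈ R ⊔ Subgroup.zpowers u) :
    ∃ r ∈ R, ∃ i : ℕ, x = r * u ^ i := by
  have h1 : x ∈ ((R ⊔ Subgroup.zpowers u : Subgroup G) : Set G) := hx
  rw [Subgroup.coe_mul_of_right_le_normalizer_left _ _ (aidx1_norm h)] at h1
  obtain ⟨r, hr, z, hz, rfl⟩ := h1
  obtain ⟨i, rfl⟩ := mem_powers_iff_mem_zpowers.2 hz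
  exact ⟨r, hr, i, rfl⟩

lemma aidx1_inf (hN : N.index = p) {c u : G} (hc : c ∉ N) (hu : UU p N c u) {R : Subgroup G}
    (h : R ≤ CN N u) : (R ⊔ Subgroup.zpowers u) ⊓ N = R := by
  refine le_antisymm (fun x hx => ?_) (le_inf le_sup_left fun x hx => (mem_CN.1 (h hx)).1)
  obtain ⟨r, hr, i, rfl⟩ := aidx1_mem h hx.1
  obtain ⟨j, rfl⟩ := (pow_mem_iff hN (hu.not_mem hc) i).1
    ((N.mul_mem_cancel_left (mem_CN.1 (h hr)).1).1 hx.2)
  rwa [pow_mul, hu.2, one_pow, mul_one]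

open Classical in
/-- The map `R ↦ R ⊓ N` has the inverse `R₀ ↦ R₀ ⊔ zpowers u` (`Finset.sum_bij'` or
`sum_nbij'` after `Finset.sum_filter`).  Elements of `R₀ ⊔ zpowers u` are `r * u ^ i` as `u`
centralises `R₀`; `pow_mem_iff`, `exists_pow`, `UU.not_mem`; right side by `eK_eq_sum`. -/
lemma sum_over (hN : N.index = p) {c u : G} (hc : c ∉ N) (hu : UU p N c u) {K : Set G}
    (hK : ∀ k ∈ K, k * u = u * k) {T : Subgroup G} (hT : u ∈ T) :
    ∑ R : Subgroup G, (if KP p K R ∧ R ≤ T ∧ u ∈ R ∧ R ⊓ N ≤ CN N u then mu p K (R ⊓ N) else 0) =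
      eK p K (T ⊓ CN N u) := by
  rw [eK_eq_sum, ← sum_filter, ← sum_filter]
  refine sum_nbij' (fun R => R ⊓ N) (fun R => R ⊔ Subgroup.zpowers u) (fun R hR => ?_)
    (fun R hR => ?_) (fun R hR => ?_) (fun R hR => ?_) fun _ _ => rfl
  · obtain ⟨⟨h1, h2⟩, h3, -, h5⟩ := (mem_filter.1 hR).2
    refine mem_filter.2 ⟨mem_univ _, ⟨h1.to_inf_left, fun k hk => ?_⟩,
      le_inf (inf_le_left.trans h3) h5⟩
    exact Subgroup.mem_normalizer_fintype fun n hn =>
      ⟨(Subgroup.mem_normalizer_iff.1 (h2 hk) n).1 hn.1, ‹N.Normal›.conj_mem n hn.2 k⟩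
  · obtain ⟨⟨h1, h2⟩, h3⟩ := (mem_filter.1 hR).2
    have h4 := h3.trans inf_le_right
    have h5 : IsPGroup p (Subgroup.zpowers u) := IsPGroup.of_card_dvd_pow (n := 1) (by
      rw [Nat.card_zpowers, pow_one]
      exact orderOf_dvd_of_pow_eq_one hu.2)
    refine mem_filter.2 ⟨mem_univ _, ⟨h1.to_sup_of_normal_left' h5 (aidx1_norm h4),
      fun k hk => Subgroup.mem_normalizer_fintype fun n hn => ?_⟩,
      sup_le (h3.trans inf_le_left) (Subgroup.zpowers_le.2 hT),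
      Subgroup.mem_sup_right (Subgroup.mem_zpowers u), (aidx1_inf hN hc hu h4).trans_le h4⟩
    obtain ⟨r, hr, i, rfl⟩ := aidx1_mem h4 hn
    have h6 : k * (r * u ^ i) * k⁻¹ = k * r * k⁻¹ * u ^ i := by
      rw [← mul_assoc, mul_assoc _ (u ^ i), mul_assoc _ k⁻¹,
        (Commute.pow_right (hK k hk) i).inv_left.eq]
    rw [h6]
    exact Subgroup.mul_mem_sup ((Subgroup.mem_normalizer_iff.1 (h2 hk) r).1 hr)
      (Subgroup.pow_mem _ (Subgroup.mem_zpowers u) i)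
  · obtain ⟨-, -, h4, -⟩ := (mem_filter.1 hR).2
    refine le_antisymm (sup_le inf_le_left (Subgroup.zpowers_le.2 h4)) fun g hg => ?_
    obtain ⟨i, -, hi⟩ := exists_pow hN (hu.not_mem hc) g
    rw [← inv_mul_cancel_right g (u ^ i)]
    exact Subgroup.mul_mem_sup ⟨R.mul_mem hg (R.inv_mem (R.pow_mem h4 i)), hi⟩
      (Subgroup.pow_mem _ (Subgroup.mem_zpowers u) i)
  · exact aidx1_inf hN hc hu ((mem_filter.1 hR).2.2.trans inf_le_right)

/-- A `p`-element `u` of the `p`-group `Q` centralises a nontrivial element of the nontrivial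
normal subgroup `Q ⊓ N` (conjugation action of `zpowers u` or of `Q` on `Q ⊓ N`,
`IsPGroup.exists_fixed_point_of_prime_dvd_card_of_fixed_point`). -/
lemma inf_CN_eq_bot {Q : Subgroup G} (hQ : IsPGroup p Q) {u : G} (hu : u ∈ Q) :
    Q ⊓ CN N u = ⊥ ↔ Q ⊓ N = ⊥ := by
  refine ⟨fun h => ?_, fun h => le_bot_iff.1 ((inf_le_inf_left Q inf_le_left).trans h.le)⟩
  rcases (hQ.to_subgroup (N.subgroupOf Q)).card_eq_or_dvd with h1 | h1
  · exact (Subgroup.subgroupOf_eq_bot.1 (Subgroup.card_eq_one.1 h1)).symm.eq_bot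
  obtain ⟨b, hb, hb1⟩ :=
    (hQ.of_equiv ConjAct.toConjAct).exists_fixed_point_of_prime_dvd_card_of_fixed_point
      (N.subgroupOf Q) h1 (a := 1) fun g => smul_one g
  have h2 : u * b.1.1 * u⁻¹ = b.1.1 :=
    congrArg (fun x : N.subgroupOf Q => x.1.1) (hb (ConjAct.toConjAct ⟨u, hu⟩))
  have h3 : b.1.1 ∈ Q ⊓ CN N u := ⟨b.1.2, mem_CN.2 ⟨b.2, (mul_inv_eq_iff_eq_mul.1 h2).symm⟩⟩
  rw [h, Subgroup.mem_bot] at h3
  exact absurd (Subtype.ext (Subtype.ext h3.symm)) hb1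

omit [Fintype G] [Fact p.Prime] in
lemma aidx_inf {K : Set G} {Q H : Subgroup G} (hQ : KP p K Q)
    (hH : K ⊆ Subgroup.normalizer (H : Set G)) : KP p K (Q ⊓ H) :=
  ⟨hQ.1.to_inf_left, fun _ hk => Subgroup.inf_normalizer_le_normalizer_inf ⟨hQ.2 hk, hH hk⟩⟩

omit [Fintype G] in
lemma aidx_norm {K : Set G} {u : G} (hK : ∀ k ∈ K, k * u = u * k) :
    K ⊆ Subgroup.normalizer (CN N u : Set G) := fun k hk => by
  have h := hK k hk
  refine Subgroup.mem_normalizer_iff.2 fun x => ?_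
  rw [mem_CN, mem_CN]
  refine and_congr (Subgroup.mem_normalizer_iff.1 (by simp [Subgroup.normalizer_eq_top]) x) ?_
  rw [mul_assoc, show k⁻¹ * u = u * k⁻¹ from (Commute.inv_left h).eq, ← mul_assoc, ← mul_assoc u,
    mul_left_inj, ← mul_assoc, ← h, mul_assoc, mul_assoc, mul_right_inj]

open Classical in
lemma aidx_split (hN : N.index = p) {c : G} (hc : c ∉ N) (K : Set G) (T : Subgroup G) :
    ∑ R : Subgroup G, (if KP p K R ∧ R ≤ T then (if R ≤ N then mu p K R else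
      - ∑ u : G, if (UU p N c u ∧ ∀ k ∈ K, k * u = u * k) ∧ u ∈ R ∧ R ⊓ N ≤ CN N u then
        mu p K (R ⊓ N) else 0) else 0) = eK p K (T ⊓ N) - ∑ u : G,
      if (UU p N c u ∧ ∀ k ∈ K, k * u = u * k) ∧ u ∈ T then eK p K (T ⊓ CN N u) else 0 := by
  have e : ∀ u : G, (if (UU p N c u ∧ ∀ k ∈ K, k * u = u * k) ∧ u ∈ T then
      eK p K (T ⊓ CN N u) else 0) = ∑ R : Subgroup G,
        if (UU p N c u ∧ ∀ k ∈ K, k * u = u * k) ∧ KP p K R ∧ R ≤ T ∧ u ∈ R ∧ R ⊓ N ≤ CN N u then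
          mu p K (R ⊓ N) else 0 := fun u => by
    split_ifs with h
    · rw [← sum_over hN hc h.1.1 h.1.2 h.2]
      exact sum_congr rfl fun R _ => if_congr (and_iff_right h.1).symm rfl rfl
    · exact (sum_eq_zero fun R _ => if_neg fun h' => h ⟨h'.1, h'.2.2.1 h'.2.2.2.1⟩).symm
  rw [eK_eq_sum, sum_congr rfl fun u _ => e u, sum_comm, ← sum_sub_distrib]
  refine sum_congr rfl fun R _ => ?_
  by_cases h : KP p K R ∧ R ≤ T
  · rw [if_pos h]
    by_cases h2 : R ≤ N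
    · rw [if_pos h2, if_pos ⟨h.1, le_inf h.2 h2⟩,
        sum_eq_zero fun u _ => if_neg fun h' => h'.1.1.not_mem hc (h2 h'.2.2.2.1), sub_zero]
    · rw [if_neg h2, if_neg fun h' => h2 (h'.2.trans inf_le_right), zero_sub]
      exact congrArg _ (sum_congr rfl fun u _ => if_congr (and_congr_right fun _ =>
        ⟨fun a => ⟨h.1, h.2, a⟩, fun a => a.2.2⟩) rfl rfl)
  · rw [if_neg h, if_neg fun h' => h ⟨h'.1, h'.2.trans inf_le_left⟩,
      sum_eq_zero fun u _ => if_neg fun h' => h ⟨h'.2.1, h'.2.2.1⟩, sub_zero]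

omit [Fintype G] in
lemma aidx_one (hN : N.index = p) (c : G) {K : Set G} {Q : Subgroup G} (hQ : KP p K Q)
    (h0 : Q ⊓ N = ⊥) (h1 : Q ≠ ⊥) :
    ∃ v : G, ∀ u, (UU p N c u ∧ ∀ k ∈ K, k * u = u * k) ∧ u ∈ Q ↔ u = v := by
  have t : ∀ x ∈ Q, x ∈ N → x = 1 := fun x a b =>
    Subgroup.mem_bot.1 (h0 ▸ Subgroup.mem_inf.2 ⟨a, b⟩)
  obtain ⟨⟨a, ha⟩, ha1⟩ := Subgroup.ne_bot_iff_exists_ne_one.1 h1
  have haN : a ∉ N := fun e => ha1 (Subtype.ext (t a ha e))
  obtain ⟨i, -, hi⟩ := exists_pow hN haN c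
  have hv : a ^ i ∈ Q := Q.pow_mem ha i
  refine ⟨a ^ i, fun u => ⟨fun h => ?_, ?_⟩⟩
  · refine mul_inv_eq_one.1 (t _ (Q.mul_mem h.2 (Q.inv_mem hv)) ?_)
    simpa using N.mul_mem h.1.1.1 hi
  · rintro rfl
    refine ⟨⟨⟨by simpa using N.inv_mem hi, t _ (Q.pow_mem hv p) ?_⟩, fun k hk => ?_⟩, hv⟩
    · rw [← pow_mul, pow_mem_iff hN haN]
      exact dvd_mul_left p i
    · have h := t _ (Q.mul_mem ((Subgroup.mem_normalizer_iff.1 (hQ.2 hk) _).1 hv) (Q.inv_mem hv))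
        (comm_mem hN k (a ^ i))
      rwa [mul_inv_eq_one, mul_inv_eq_iff_eq_mul] at h

open Classical in
lemma aidx_rec (hN : N.index = p) {c : G} (hc : c ∉ N) {K : Set G} {Q : Subgroup G}
    (hQ : KP p K Q) : eK p K (Q ⊓ N) - ∑ u : G,
      (if (UU p N c u ∧ ∀ k ∈ K, k * u = u * k) ∧ u ∈ Q then eK p K (Q ⊓ CN N u) else 0) =
      if Q = ⊥ then 1 else 0 := by
  have e : ∀ u : G, (if (UU p N c u ∧ ∀ k ∈ K, k * u = u * k) ∧ u ∈ Q then
      eK p K (Q ⊓ CN N u) else 0) = if (UU p N c u ∧ ∀ k ∈ K, k * u = u * k) ∧ u ∈ Q then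
        (if Q ⊓ N = ⊥ then 1 else 0) else 0 := fun u => ite_congr rfl (fun h => by
    rw [eK_self (aidx_inf hQ (aidx_norm h.1.2))]
    exact if_congr (inf_CN_eq_bot hQ.1 h.2) rfl rfl) fun _ => rfl
  rw [sum_congr rfl fun u _ => e u,
    eK_self (aidx_inf hQ (by simp [Subgroup.normalizer_eq_top]))]
  by_cases h0 : Q ⊓ N = ⊥
  · rw [if_pos h0]
    by_cases h1 : Q = ⊥
    · rw [if_pos h1, sum_eq_zero fun u _ => if_neg fun h => h.1.1.not_mem hc
        ((h1.le.trans bot_le : Q ≤ N) h.2), sub_zero]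
    · obtain ⟨v, hv⟩ := aidx_one hN c hQ h0 h1
      simp only [hv, if_neg h1, sum_ite_eq', mem_univ, if_true, sub_self]
  · rw [if_neg h0, if_neg fun h : Q = ⊥ => h0 (by rw [h, bot_inf_eq])]
    simp

open Classical in
/-- Put `ν Q = mu Q` for `Q ≤ N` and `ν Q = - ∑ u, if UU u ∧ (K commutes with u) ∧ u ∈ Q ∧
Q ⊓ N ≤ CN N u then mu (Q ⊓ N) else 0` otherwise.  Check the hypothesis of `mu_unique`: for
`Q ≤ N` it is `eK_eq_sum`, `eK_self`.  Otherwise the terms `R ≤ N` give `eK (Q ⊓ N)`, the others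
`- ∑ u ∈ Q, eK (Q ⊓ CN N u)` by `sum_over` (`u ∈ R` forces `¬ R ≤ N`); use `eK_self`,
`inf_CN_eq_bot`; if `Q ⊓ N = ⊥` there is exactly one `u ∈ Q` with `u * c⁻¹ ∈ N` (`exists_pow` for
an element of `Q` outside `N`), and `u ^ p`, `k * u * k⁻¹ * u⁻¹` (`comm_mem`) lie in `Q ⊓ N`.
Then sum over all `Q` with `eK_eq_sum` and `sum_over` for `T = ⊤`. -/
theorem eK_index (hN : N.index = p) {c : G} (hc : c ∉ N) (K : Set G) :
    eK p K ⊤ = eK p K N -
      ∑ u : G, if UU p N c u ∧ (∀ k ∈ K, k * u = u * k) then eK p K (CN N u) else 0 := by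
  have h := aidx_split hN hc K ⊤
  simp only [top_inf_eq, Subgroup.mem_top, and_true] at h
  rw [← h, eK_eq_sum]
  refine sum_congr rfl fun Q _ => ite_congr rfl (fun hQ => (mu_unique (fun R => if R ≤ N then
    mu p K R else - ∑ u : G, if (UU p N c u ∧ ∀ k ∈ K, k * u = u * k) ∧ u ∈ R ∧
      R ⊓ N ≤ CN N u then mu p K (R ⊓ N) else 0) (fun R hR => ?_) hQ.1).symm) fun _ => rfl
  exact (aidx_split hN hc K R).trans (aidx_rec hN hc hR)

open Classical in
/-- Pairs with `x ∉ N` or `y ∉ N` vanish (`eK_vanish`, `Set.pair_comm`); for the others use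
`eK_index` with `K = {x, y}` and interchange the sums (`mem_CN`). -/
theorem AA_index (hN : N.index = p) {c : G} (hc : c ∉ N) :
    AA p (⊤ : Subgroup G) = AA p N - ∑ u : G, if UU p N c u then AA p (CN N u) else 0 := by
  have key : ∀ x y : G, (if x ∈ (⊤ : Subgroup G) ∧ y ∈ (⊤ : Subgroup G) ∧ x * y = y * x then
      eK p {x, y} ⊤ else 0) = (if x ∈ N ∧ y ∈ N ∧ x * y = y * x then eK p {x, y} N else 0) -
      ∑ u : G, if UU p N c u then (if x ∈ CN N u ∧ y ∈ CN N u ∧ x * y = y * x then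
        eK p {x, y} (CN N u) else 0) else 0 := by
    intro x y
    by_cases hxy : x * y = y * x
    · by_cases hx : x ∈ N
      · by_cases hy : y ∈ N
        · rw [if_pos ⟨trivial, trivial, hxy⟩, if_pos ⟨hx, hy, hxy⟩, eK_index hN hc]
          refine congrArg _ (sum_congr rfl fun u _ => ?_)
          by_cases hu : UU p N c u <;> simp [hu, mem_CN, hx, hy, hxy]
        · rw [if_pos ⟨trivial, trivial, hxy⟩, Set.pair_comm, eK_vanish hN hy hxy.symm]
          simp [mem_CN, hy]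
      · rw [if_pos ⟨trivial, trivial, hxy⟩, eK_vanish hN hx hxy]
        simp [mem_CN, hx]
    · simp [hxy]
  have h2 : ∀ u : G, (if UU p N c u then AA p (CN N u) else 0) = ∑ x : G, ∑ y : G,
      if UU p N c u then (if x ∈ CN N u ∧ y ∈ CN N u ∧ x * y = y * x then
        eK p {x, y} (CN N u) else 0) else 0 := by
    intro u
    by_cases hu : UU p N c u
    · simp only [if_pos hu, AA]
    · simp only [if_neg hu, sum_const_zero]
  rw [sum_congr rfl fun u _ => h2 u, sum_comm, AA, AA, ← sum_sub_distrib]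
  refine sum_congr rfl fun x _ => ?_
  rw [sum_comm, ← sum_sub_distrib]
  exact sum_congr rfl fun y _ => key x y

end Pool.Agent.Lib.MP_b6945b_al.Ip
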