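import Pool.Agent.Lib.MP_b6945b_al.Ip.IDefs

set_option autoImplicit false

/-!
The Moebius function of the poset of invariant `p`-subgroups.
-/

namespace Pool.Agent.Lib.MP_b6945b_al.Ip

open Finset

variable {G : Type} [Group G] [Fintype G] {p : ℕ}

/-- The `p`-subgroups normalised by `K` (the trivial subgroup is allowed). -/
def KP (p : ℕ) (K : Set G) (Q : Subgroup G) : Prop :=
  IsPGroup p Q ∧ K ⊆ Subgroup.normalizer (Q : Set G)

open Classical in
/-- The signed number of invariant chains with given top. -/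
noncomputable def mu (p : ℕ) (K : Set G) (Q : Subgroup G) : ℤ :=
  ∑ σ : Finset (Subgroup G), if IsPChain p σ ∧ K ⊆ stab σ ∧ σ.sup id = Q then sgn σ else 0

omit [Fintype G] in
lemma amob_top {K : Set G} {σ : Finset (Subgroup G)} (h1 : IsPChain p σ) (h2 : K ⊆ stab σ) :
    KP p K (σ.sup id) := by
  rcases sup_chain_cases h1.1 σ (Finset.Subset.refl _) with h | h
  · rw [h]
    exact ⟨IsPGroup.of_bot, fun g _ => by rw [Subgroup.normalizer_eq_top]; trivial⟩
  · exact ⟨(h1.2 _ h).1, fun g hg => mem_stab.1 (h2 hg) _ h⟩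

open Classical in
/-- Sort the chains by their top.  `sup_chain_cases` (Chains) says that the top is `⊥` or a member
of the chain, so it satisfies `KP`; `Finset.sup_le_iff`. -/
lemma eK_eq_sum (K : Set G) (H : Subgroup G) :
    eK p K H = ∑ Q : Subgroup G, if KP p K Q ∧ Q ≤ H then mu p K Q else 0 := by
  have e : ∀ Q : Subgroup G, (if KP p K Q ∧ Q ≤ H then mu p K Q else 0) =
      ∑ σ : Finset (Subgroup G), if σ.sup id = Q then
        (if IsPChain p σ ∧ K ⊆ stab σ ∧ ∀ P ∈ σ, P ≤ H then sgn σ else 0) else 0 := by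
    intro Q
    split_ifs with h
    · refine Finset.sum_congr rfl fun σ _ => ?_
      by_cases h1 : σ.sup id = Q
      · have h2 : ∀ P ∈ σ, P ≤ H := fun P hP =>
          (Finset.le_sup (f := id) hP).trans (h1.le.trans h.2)
        rw [if_pos h1]
        exact if_congr ⟨fun a => ⟨a.1, a.2.1, h2⟩, fun a => ⟨a.1, a.2.1, h1⟩⟩ rfl rfl
      · rw [if_neg h1, if_neg fun a => h1 a.2.2]
    · refine (Finset.sum_eq_zero fun σ _ => ?_).symm
      split_ifs with h1 h2
      · exact (h ⟨h1 ▸ amob_top h2.1 h2.2.1, h1 ▸ Finset.sup_le h2.2.2⟩).elim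
      · rfl
      · rfl
  rw [Finset.sum_congr rfl fun Q _ => e Q, Finset.sum_comm]
  unfold eK
  exact Finset.sum_congr rfl fun σ _ => by rw [Finset.sum_ite_eq, if_pos (Finset.mem_univ _)]

open Classical in
/-- For `Q = ⊥` only the empty chain counts; otherwise insert or erase `Q`
(`Finset.sum_involution`). -/
lemma eK_self {K : Set G} {Q : Subgroup G} (hQ : KP p K Q) :
    eK p K Q = if Q = ⊥ then 1 else 0 := by
  unfold eK
  split_ifs with h0
  · rw [Finset.sum_eq_single ∅]
    · rw [if_pos ⟨⟨by simp, by simp⟩, by simp [stab_empty], by simp⟩]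
      simp [sgn]
    · intro σ _ hσ
      refine if_neg fun a => ?_
      obtain ⟨P, hP⟩ := Finset.nonempty_iff_ne_empty.2 hσ
      exact (a.1.2 P hP).2 (le_bot_iff.1 (h0 ▸ a.2.2 P hP))
    · intro h
      exact absurd (Finset.mem_univ _) h
  · rw [← Finset.sum_filter]
    have hs : ∀ σ : Finset (Subgroup G),
        sgn (if Q ∈ σ then σ.erase Q else insert Q σ) = -sgn σ := fun σ => by
      unfold sgn
      split_ifs with h
      · rw [← Finset.card_erase_add_one h, pow_succ]; ring
      · rw [Finset.card_insert_of_notMem h, pow_succ]; ring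
    refine Finset.sum_involution (fun σ _ => if Q ∈ σ then σ.erase Q else insert Q σ) ?_ ?_ ?_ ?_
    · intro σ _
      rw [hs]; ring
    · intro σ _ _ h
      have := hs σ
      rw [h] at this
      exact sgn_ne_zero σ (by linarith)
    · intro σ hσ
      obtain ⟨-, h1, h2, h3⟩ := Finset.mem_filter.1 hσ
      have hm : ∀ P ∈ (if Q ∈ σ then σ.erase Q else insert Q σ), P = Q ∨ P ∈ σ := fun P hP => by
        split_ifs at hP
        · exact Or.inr (Finset.mem_of_mem_erase hP)
        · exact Finset.mem_insert.1 hP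
      refine Finset.mem_filter.2 ⟨Finset.mem_univ _, ⟨?_, fun P hP => ?_⟩, fun g hg => ?_,
        fun P hP => ?_⟩
      · intro P hP R hR hne
        rcases hm P hP with rfl | a
        · rcases hm R hR with rfl | b
          · exact Or.inl le_rfl
          · exact Or.inr (h3 R b)
        · rcases hm R hR with rfl | b
          · exact Or.inl (h3 P a)
          · exact h1.1 a b hne
      · rcases hm P hP with rfl | a
        · exact ⟨hQ.1, h0⟩
        · exact h1.2 P a
      · refine mem_stab.2 fun P hP => ?_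
        rcases hm P hP with rfl | a
        · exact hQ.2 hg
        · exact mem_stab.1 (h2 hg) P a
      · rcases hm P hP with rfl | a
        · exact le_rfl
        · exact h3 P a
    · intro σ _
      by_cases h : Q ∈ σ
      · rw [if_pos h, if_neg (Finset.notMem_erase _ _), Finset.insert_erase h]
      · rw [if_neg h, if_pos (Finset.mem_insert_self _ _), Finset.erase_insert h]

open Classical in
/-- Uniqueness, by well founded induction on `Q` (`WellFoundedLT.induction`): split off the term
`R = Q` on both sides and use `eK_eq_sum`, `eK_self`. -/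
lemma mu_unique {K : Set G} (ν : Subgroup G → ℤ)
    (hν : ∀ Q, KP p K Q → ∑ R : Subgroup G, (if KP p K R ∧ R ≤ Q then ν R else 0) =
      if Q = ⊥ then 1 else 0) {Q : Subgroup G} (hQ : KP p K Q) : ν Q = mu p K Q := by
  induction Q using WellFoundedLT.induction with
  | ind Q ih =>
  have h1 := (hν Q hQ).trans ((eK_self hQ).symm.trans (eK_eq_sum K Q))
  rw [← Finset.add_sum_erase _ _ (Finset.mem_univ Q), ← Finset.add_sum_erase _ _
    (Finset.mem_univ Q), if_pos ⟨hQ, le_rfl⟩, if_pos ⟨hQ, le_rfl⟩] at h1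
  rw [Finset.sum_congr rfl fun R hR => if_ctx_congr Iff.rfl
    (fun a => ih R (lt_of_le_of_ne a.2 (Finset.ne_of_mem_erase hR)) a.1) fun _ => rfl] at h1
  exact add_right_cancel h1

/-- If `x ∉ N`, write `x = u * s` (`exists_parts`); `s ∈ N` (`mem_of_reg`), so `u ≠ 1`.  Apply
`vanish` (Chains) with `R = zpowers u` and `S = {x, y} ∪ zpowers u`; `S ⊆ stab σ` is equivalent
to `{x, y} ⊆ stab σ` because `u` is a power of `x`; `x`, `y` and `u` commute with `u`. -/
lemma eK_vanish [Fact p.Prime] {N : Subgroup G} [N.Normal] (hN : N.index = p) {x y : G}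
    (hx : x ∉ N) (hxy : x * y = y * x) : eK p {x, y} ⊤ = 0 := by
  classical
  obtain ⟨u, s, hu, hs, hux, hsx, e⟩ := exists_parts p x
  have hu1 : u ≠ 1 := fun h => hx (by
    rw [← e, h, one_mul]
    exact mem_of_reg hN hs)
  have hP : IsPGroup p (Subgroup.zpowers u) := by
    obtain ⟨k, hk⟩ := hu
    rintro ⟨_, m, rfl⟩
    refine ⟨k, Subtype.ext ?_⟩
    change (u ^ m) ^ p ^ k = 1
    rw [← zpow_natCast, ← zpow_mul, mul_comm, zpow_mul, zpow_natCast, hk, one_zpow]
  have hc : ∀ g : G, Commute x g →
      g ∈ Subgroup.normalizer ((Subgroup.zpowers u : Subgroup G) : Set G) := fun g hg => by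
    refine Subgroup.centralizer_le_normalizer _ ?_
    rw [Subgroup.mem_centralizer_iff]
    intro w hw
    obtain ⟨m, rfl⟩ := Subgroup.zpowers_le.2 hux hw
    exact (hg.zpow_left m).eq
  have hv := vanish (p := p) (({x, y} : Set G) ∪ (Subgroup.zpowers u : Set G))
    (Subgroup.zpowers u) hP (fun h => hu1 (Subgroup.zpowers_eq_bot.1 h)) Set.subset_union_right
    (by
      rintro g ((rfl | rfl) | hg)
      · exact hc _ (Commute.refl _)
      · exact hc _ hxy
      · exact Subgroup.le_normalizer hg)
  rw [← hv, Finset.sum_filter]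
  unfold eK
  refine Finset.sum_congr rfl fun σ _ => if_congr ⟨fun a => ⟨a.1, Set.union_subset a.2.1 ?_⟩,
    fun a => ⟨a.1, Set.subset_union_left.trans a.2, fun _ _ => le_top⟩⟩ rfl rfl
  exact fun g hg => Subgroup.zpowers_le.2 (a.2.1 (Set.mem_insert _ _))
    (Subgroup.zpowers_le.2 hux hg)

end Pool.Agent.Lib.MP_b6945b_al.Ip
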