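import Pool.Agent.Lib.MP_b6945b_al.Ip.ZMat
import Pool.Agent.Lib.MP_b6945b_al.Ip.ZEE

set_option autoImplicit false

/-!
Comparison of the idempotent of `N` with those of the centralisers.
-/

namespace Pool.Agent.Lib.MP_b6945b_al.Ip

open Finset

variable {G : Type} [Group G] [Fintype G] {p : ℕ} [Fact p.Prime] {V : ValuationSubring ℂ}
  {N : Subgroup G} [N.Normal]

noncomputable instance : Fintype (Cj G) := Fintype.ofEquiv _ Cj.equiv.symm

open Classical in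
/-- The kernel on the coset. -/
noncomputable def kX (p : ℕ) (N : Subgroup G) (c : G) (x x' : Cj G) : ℂ :=
  if x.v * c⁻¹ ∈ N then EE p N (x.v * x'.v⁻¹) else 0

open Classical in
/-- The kernel on the pairs. -/
noncomputable def kY (p : ℕ) (N : Subgroup G) (c : G) (y y' : Cj G × Cj G) : ℂ :=
  if UU p N c y.1.v ∧ y'.1 = y.1 ∧ y.2.v ∈ CN N y.1.v then
    EE p (CN N y.1.v) (y.2.v * y'.2.v⁻¹) else 0

/-- Elements of the coset whose centraliser in `N` has no element of order `p`. -/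
def X0 (p : ℕ) (N : Subgroup G) (c : G) (x : Cj G) : Prop :=
  x.v * c⁻¹ ∈ N ∧ ∀ w ∈ N, w ^ p = 1 → w * x.v = x.v * w → w = 1

/-- The corresponding pairs. -/
def Y0 (p : ℕ) (N : Subgroup G) (c : G) (y : Cj G × Cj G) : Prop :=
  UU p N c y.1.v ∧ y.2.v ∈ CN N y.1.v ∧
    ∀ w ∈ N, w ^ p = 1 → w * y.1.v = y.1.v * w → w * y.2.v = y.2.v * w → w = 1

omit [Fintype G] in
lemma ztra_coset {c g x : G} (hg : g ∈ N) : g * x * g⁻¹ * c⁻¹ ∈ N ↔ x * c⁻¹ ∈ N := by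
  have e : g * x * g⁻¹ * c⁻¹ = g * (x * c⁻¹) * (c * g⁻¹ * c⁻¹) := by group
  rw [e, N.mul_mem_cancel_right (Subgroup.Normal.conj_mem ‹_› _ (N.inv_mem hg) c),
    N.mul_mem_cancel_left hg]

omit [Fintype G] in
lemma ztra_conj (g x : G) : x ∈ N ↔ g * x * g⁻¹ ∈ N :=
  ⟨fun h => Subgroup.Normal.conj_mem ‹_› x h g, fun h => by
    simpa [mul_assoc] using Subgroup.Normal.conj_mem ‹N.Normal› _ h g⁻¹⟩

omit [Fintype G] in
lemma ztra_comm (g a b : G) :
    g * a * g⁻¹ * (g * b * g⁻¹) = g * b * g⁻¹ * (g * a * g⁻¹) ↔ a * b = b * a := by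
  have e : ∀ a b : G, g * a * g⁻¹ * (g * b * g⁻¹) = g * (a * b) * g⁻¹ := fun a b => by group
  rw [e, e, mul_left_inj, mul_right_inj]

omit [Fintype G] in
lemma ztra_CN (g u x : G) : x ∈ CN N u ↔ g * x * g⁻¹ ∈ CN N (g * u * g⁻¹) := by
  rw [mem_CN, mem_CN, ← ztra_conj, ztra_comm]

omit [Fintype G] [Fact p.Prime] in
lemma ztra_UU {c g u : G} (hg : g ∈ N) : UU p N c (g * u * g⁻¹) ↔ UU p N c u := by
  rw [UU, UU, ztra_coset hg, conj_pow, conj_eq_one_iff]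

omit [Fintype G] [Fact p.Prime] in
lemma ztra_triv {g w : G} {P : G → Prop} (h : ∀ w ∈ N, w ^ p = 1 → P w → w = 1) (hw : w ∈ N)
    (hwp : w ^ p = 1) (hP : P (g⁻¹ * w * g)) : w = 1 := by
  have h1 := h (g⁻¹ * w * g) (by simpa using (ztra_conj g⁻¹ w).1 hw)
    (by simpa using (conj_pow (a := g⁻¹) (b := w) (i := p)).trans (by rw [hwp]; simp)) hP
  have e : w = g * (g⁻¹ * w * g) * g⁻¹ := by group
  rw [e, h1]
  simp

omit [Fintype G] in
lemma ztra_back {g w x : G} (h : w * (g * x * g⁻¹) = g * x * g⁻¹ * w) :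
    g⁻¹ * w * g * x = x * (g⁻¹ * w * g) := by
  rw [← ztra_comm g]
  simpa [mul_assoc] using h

omit [Fact p.Prime] in
lemma ztra_idem (H : Subgroup G) (a b : G) :
    ∑ x : Cj G, EE p H (a * x.v⁻¹) * EE p H (x.v * b⁻¹) = EE p H (a * b⁻¹) := by
  rw [← congrFun (EE_idem (p := p) H) (a * b⁻¹), conv]
  refine Fintype.sum_equiv (Cj.equiv.trans ((Equiv.inv G).trans (Equiv.mulLeft a))) _ _
    fun x => ?_
  change _ = EE p H (a * x.v⁻¹) * EE p H ((a * x.v⁻¹)⁻¹ * (a * b⁻¹))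
  rw [show (a * x.v⁻¹)⁻¹ * (a * b⁻¹) = x.v * b⁻¹ by group]

lemma ztra_van (hp : (p : ℂ) ∈ V.nonunits) {H : Subgroup G} {w s : G} (hw : w ∈ H) (h1 : w ≠ 1)
    (hwp : w ^ p = 1) (hc : w * s = s * w) (F : G → ℂ)
    (hF : ∀ g ∈ Subgroup.zpowers w, ∀ y, F (g * y * g⁻¹) = F y) (hV : ∀ y, F y ∈ V) :
    ∑ x : Cj G, EE p H (s * x.v⁻¹) * F x.v ∈ V.nonunits := by
  have e0 : ∑ x : Cj G, EE p H (s * x.v⁻¹) * F x.v = ∑ y : G, EE p H (s * y⁻¹) * F y :=
    Fintype.sum_equiv Cj.equiv _ _ fun _ => rfl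
  rw [e0]
  refine sum_mem_of_conj (p := p) (Subgroup.zpowers w) ?_ _ ?_ V.nonunits.toAddSubgroup ?_ ?_
  · rintro ⟨g, k, rfl⟩
    refine ⟨1, Subtype.ext ?_⟩
    change (w ^ k) ^ p ^ 1 = 1
    rw [pow_one, ← zpow_natCast, ← zpow_mul, mul_comm, zpow_mul, zpow_natCast, hwp, one_zpow]
  · intro g hg y
    have hgH : g ∈ H := (Subgroup.zpowers_le.2 hw) hg
    have hgs : g * s = s * g := by
      obtain ⟨k, rfl⟩ := hg
      exact (Commute.zpow_left hc k).eq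
    have e : s * (g * y * g⁻¹)⁻¹ = g * (s * y⁻¹) * g⁻¹ := by
      rw [← mul_assoc g, hgs]
      group
    rw [hF g hg, e, EE_conj (H := H) fun x => by
      rw [H.mul_mem_cancel_right (H.inv_mem hgH), H.mul_mem_cancel_left hgH]]
  · intro y
    rw [nsmul_eq_mul]
    exact mul_mem_nonunits hp (V.mul_mem _ _ (EE_mem hp H _) (hV y))
  · intro y hy
    refine mul_mem_nonunits (EE_van hp hw h1 hwp ?_) (hV y)
    exact ((show Commute w s from hc).mul_right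
      (show Commute w y from hy w (Subgroup.mem_zpowers w)).inv_right).eq

/-- `EE_mem`, `EE_conj`, `EE_idem`, `EE_supp`; `van`: `sum_mem_of_conj` with `S = zpowers w` and
`EE_van`. -/
lemma ker_X (hp : (p : ℂ) ∈ V.nonunits) (c : G) : Ker N V (kX p N c) (X0 p N c) := by
  classical
  refine ⟨fun x x' => ?_, fun g x x' => ?_, fun x x'' => ?_, fun g x h => ⟨?_, ?_⟩, ?_⟩
  · unfold kX
    split_ifs
    · exact EE_mem hp _ _
    · exact V.zero_mem
  · change kX p N c ⟨g * x.v * (g : G)⁻¹⟩ ⟨g * x'.v * (g : G)⁻¹⟩ = _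
    have e : (g : G) * x.v * (g : G)⁻¹ * (g * x'.v * (g : G)⁻¹)⁻¹ =
        g * (x.v * x'.v⁻¹) * (g : G)⁻¹ := by group
    simp only [kX, ztra_coset g.2, e, EE_conj (ztra_conj (N := N) (g : G))]
  · by_cases hx : x.v * c⁻¹ ∈ N
    · simp only [kX, if_pos hx]
      rw [← ztra_idem]
      refine Finset.sum_congr rfl fun x' _ => ?_
      split_ifs with h'
      · rfl
      · rw [EE_supp fun h => h' ?_, zero_mul, zero_mul]
        simpa [mul_assoc] using N.mul_mem (N.inv_mem h) hx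
    · simp [kX, hx]
  · exact (ztra_coset g.2).2 h.1
  · exact fun w hw hwp hc => ztra_triv (N := N) (g := g) (P := fun w => w * x.v = x.v * w) h.2
      hw hwp (ztra_back hc)
  · intro f hf hV x h0
    by_cases hx : x.v * c⁻¹ ∈ N
    · simp only [X0, hx, true_and, not_forall] at h0
      obtain ⟨w, hw, hwp, hc, h1⟩ := h0
      simp only [kX, if_pos hx]
      exact ztra_van hp hw h1 hwp hc (fun y => f ⟨y⟩)
        (fun g hg y => hf ⟨g, Subgroup.zpowers_le.2 hw hg⟩ ⟨y⟩) fun y => hV _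
    · simp [kX, hx]

/-- As `ker_X`, inside the centraliser of `u`; `EE_conj` with `H = CN N u`,
`H' = CN N (n * u * n⁻¹)`. -/
lemma ker_Y (hp : (p : ℂ) ∈ V.nonunits) (c : G) : Ker N V (kY p N c) (Y0 p N c) := by
  classical
  have hs : ∀ (y : Cj G × Cj G) (F : Cj G × Cj G → ℂ), UU p N c y.1.v → y.2.v ∈ CN N y.1.v →
      ∑ y', kY p N c y y' * F y' =
        ∑ b : Cj G, EE p (CN N y.1.v) (y.2.v * b.v⁻¹) * F (y.1, b) := fun y F h1 h2 => by
    rw [Fintype.sum_prod_type, Finset.sum_eq_single y.1]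
    · simp only [kY, h1, h2, and_self, if_true]
    · intro a _ ha
      simp [kY, ha]
    · simp
  have hz : ∀ y y' : Cj G × Cj G, ¬ (UU p N c y.1.v ∧ y.2.v ∈ CN N y.1.v) →
      kY p N c y y' = 0 := fun y y' h => if_neg fun h' => h ⟨h'.1, h'.2.2⟩
  refine ⟨fun y y' => ?_, fun g y y' => ?_, fun y y'' => ?_, fun g y h => ⟨?_, ?_, ?_⟩, ?_⟩
  · unfold kY
    split_ifs
    · exact EE_mem hp _ _
    · exact V.zero_mem
  · have e : (g : G) * y.2.v * (g : G)⁻¹ * (g * y'.2.v * (g : G)⁻¹)⁻¹ =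
        g * (y.2.v * y'.2.v⁻¹) * (g : G)⁻¹ := by group
    have e1 : (g • y').1 = (g • y).1 ↔ y'.1 = y.1 := smul_left_cancel_iff g
    unfold kY
    rw [e1]
    change (if UU p N c (g * y.1.v * (g : G)⁻¹) ∧ y'.1 = y.1 ∧
        g * y.2.v * (g : G)⁻¹ ∈ CN N (g * y.1.v * (g : G)⁻¹) then
      EE p (CN N (g * y.1.v * (g : G)⁻¹))
        ((g : G) * y.2.v * (g : G)⁻¹ * (g * y'.2.v * (g : G)⁻¹)⁻¹) else 0) = _
    simp only [ztra_UU g.2, ← ztra_CN, e, EE_conj (ztra_CN (N := N) (g : G) y.1.v)]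
  · by_cases hy : UU p N c y.1.v ∧ y.2.v ∈ CN N y.1.v
    · rw [hs y _ hy.1 hy.2]
      by_cases he : y''.1 = y.1
      · simp only [kY, hy.1, hy.2, he, true_and, and_self, if_true]
        rw [← ztra_idem]
        refine Finset.sum_congr rfl fun b _ => ?_
        split_ifs with h'
        · rfl
        · rw [EE_supp fun h => h' ?_, zero_mul, zero_mul]
          simpa [mul_assoc] using (CN N y.1.v).mul_mem ((CN N y.1.v).inv_mem h) hy.2
      · simp [kY, he]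
    · simp [hz y _ hy]
  · exact (ztra_UU g.2).2 h.1
  · exact (ztra_CN (g : G) _ _).1 h.2.1
  · exact fun w hw hwp h1 h2 => ztra_triv (N := N) (g := (g : G))
      (P := fun w : G => w * y.1.v = y.1.v * w ∧ w * y.2.v = y.2.v * w)
      (fun w a b d => h.2.2 w a b d.1 d.2) hw hwp ⟨ztra_back h1, ztra_back h2⟩
  · intro f hf hV y h0
    by_cases hy : UU p N c y.1.v ∧ y.2.v ∈ CN N y.1.v
    · simp only [Y0, hy.1, hy.2, true_and, not_forall] at h0
      obtain ⟨w, hw, hwp, hc, hc', h1⟩ := h0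
      have hwC : w ∈ CN N y.1.v := mem_CN.2 ⟨hw, hc⟩
      rw [hs y _ hy.1 hy.2]
      refine ztra_van hp hwC h1 hwp hc' (fun b => f (y.1, ⟨b⟩)) (fun g hg b => ?_) fun b => hV _
      obtain ⟨h2, h3⟩ := mem_CN.1 (Subgroup.zpowers_le.2 hwC hg)
      rw [← hf ⟨g, h2⟩ (y.1, ⟨b⟩)]
      refine congrArg f (Prod.ext (Cj.ext ?_) rfl)
      change y.1.v = g * y.1.v * g⁻¹
      rw [h3, mul_inv_cancel_right]
    · simp [hz y _ hy]

omit [Fintype G] [Fact p.Prime] in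
lemma ztrb_pow {u s : G} (h : s * u = u * s) {m n : ℕ} (hu : u ^ m = 1) (hs : s ^ n = 1)
    {a b : ℤ} (e : a * n + b * m = 1) : (u * s) ^ (a * n) = u := by
  have h1 : s ^ (a * n) = 1 := by rw [mul_comm, zpow_mul, zpow_natCast, hs, one_zpow]
  have h2 : u ^ (b * m) = 1 := by rw [mul_comm, zpow_mul, zpow_natCast, hu, one_zpow]
  rw [Commute.mul_zpow h.symm, h1, ← h2, ← zpow_add, e, zpow_one]

omit [Fintype G] [Fact p.Prime] in
lemma ztrb_comm {w x u : G} (h : w * x = x * w) (hu : u ∈ Subgroup.zpowers x) :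
    w * u = u * w := by
  obtain ⟨k, rfl⟩ := hu
  exact Commute.zpow_right h k

omit [N.Normal] in
lemma ztrb_reg {c : G} {y : Cj G × Cj G} (h : Y0 p N c y) : ¬ p ∣ orderOf y.2.v := fun e => by
  obtain ⟨w, h1, h2, h3⟩ := exists_ord _ e
  obtain ⟨h4, h5⟩ := mem_CN.1 h.2.1
  exact h2 (h.2.2 w (Subgroup.zpowers_le.2 h4 h1) h3 (ztrb_comm h5.symm h1).symm
    (ztrb_comm rfl h1).symm)

/-- Uniqueness of the decomposition: both factors are powers of the product.  Take `u₀, s₀` from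
`exists_parts`; `u`, `s` commute with them, `u₀⁻¹ * u = s₀ * s⁻¹` is a `p`-element and regular
(`eq_one_of_reg`). -/
lemma parts_mem {u s : G} (hu : IsPElt p u) (hs : ¬ p ∣ orderOf s) (h : s * u = u * s) :
    u ∈ Subgroup.zpowers (u * s) ∧ s ∈ Subgroup.zpowers (u * s) ∧
      ∀ u' s', IsPElt p u' → ¬ p ∣ orderOf s' → s' * u' = u' * s' → u' * s' = u * s → u' = u := by
  have key : ∀ k n : ℕ, ¬ p ∣ n → ∃ a b : ℤ, a * n + b * (p ^ k : ℕ) = 1 := fun k n hn =>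
    Nat.isCoprime_iff_coprime.2
      (((Nat.Prime.coprime_iff_not_dvd Fact.out).2 hn).symm.pow_right k)
  obtain ⟨k, hk⟩ := hu
  obtain ⟨a, b, e⟩ := key k _ hs
  have h1 : u ∈ Subgroup.zpowers (u * s) := ⟨_, ztrb_pow h hk (pow_orderOf_eq_one s) e⟩
  refine ⟨h1, ?_, fun u' s' ⟨k', hk'⟩ hs' h' e' => ?_⟩
  · simpa using mul_mem (inv_mem h1) (Subgroup.mem_zpowers (u * s))
  · obtain ⟨a, b, e⟩ := key (k + k') (orderOf s * orderOf s') fun d =>
      ((Nat.Prime.dvd_mul Fact.out).1 d).elim hs hs'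
    rw [← ztrb_pow h (by rw [pow_add, pow_mul, hk, one_pow])
      (by rw [pow_mul, pow_orderOf_eq_one, one_pow]) e, ← e']
    exact (ztrb_pow h' (by rw [pow_add, pow_mul', hk', one_pow])
      (by rw [pow_mul', pow_orderOf_eq_one, one_pow]) e).symm

/-- In a pair with `Y0` the second entry is regular (`exists_ord`); `parts_mem`. -/
lemma X0_of_Y0 (c : G) (y : Cj G × Cj G) (h : Y0 p N c y) :
    X0 p N c ⟨y.1.v * y.2.v⟩ := by
  obtain ⟨h4, h5⟩ := mem_CN.1 h.2.1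
  obtain ⟨a1, a2, -⟩ := parts_mem (p := p) ⟨1, by rw [pow_one, h.1.2]⟩ (ztrb_reg h) h5
  refine ⟨?_, fun w b1 b2 b3 => h.2.2 w b1 b2 (ztrb_comm b3 a1) (ztrb_comm b3 a2)⟩
  change y.1.v * y.2.v * c⁻¹ ∈ N
  rw [← h5, mul_assoc]
  exact N.mul_mem h4 h.1.1

/-- `exists_parts`, `mem_of_reg`; `u ^ p ∈ N` (`pow_mem_iff`) is a `p`-element commuting with
`x`, and trivial by `exists_ord`, `eq_one_of_reg`. -/
lemma exists_Y0 (hN : N.index = p) {c : G} (hc : c ∉ N) (x : Cj G) (h : X0 p N c x) :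
    ∃! y : Cj G × Cj G, Y0 p N c y ∧ (⟨y.1.v * y.2.v⟩ : Cj G) = x := by
  have _ := hc
  obtain ⟨u, s, hu, hs, a1, a2, e⟩ := exists_parts p x.v
  have b1 : s ∈ N := mem_of_reg hN hs
  have b2 : s * u = u * s := ztrb_comm (ztrb_comm rfl a2).symm a1
  have b3 : u ^ p = 1 := by
    obtain ⟨k, hk⟩ := hu
    refine eq_one_of_reg (p := p) ⟨k, by rw [← pow_mul, pow_mul', hk, one_pow]⟩ fun d => ?_
    obtain ⟨w, h1, h2, h3⟩ := exists_ord _ d
    exact h2 (h.2 w (Subgroup.zpowers_le.2 (hN ▸ N.pow_index_mem u) h1) h3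
      (ztrb_comm rfl (Subgroup.zpowers_le.2 (pow_mem a1 p) h1)).symm)
  refine ⟨(⟨u⟩, ⟨s⟩), ⟨⟨⟨?_, b3⟩, mem_CN.2 ⟨b1, b2⟩, fun w c1 c2 c3 c4 => h.2 w c1 c2 ?_⟩,
    Cj.ext e⟩, fun y hy => ?_⟩
  · have := N.mul_mem (N.inv_mem b1) h.1
    rwa [← e, ← b2, mul_assoc, inv_mul_cancel_left] at this
  · rw [← e]
    exact Commute.mul_right c3 c4
  · have d1 : y.1.v * y.2.v = u * s := (congrArg Cj.v hy.2).trans e.symm
    have d2 := (parts_mem hu hs b2).2.2 _ _ ⟨1, by rw [pow_one, hy.1.1.2]⟩ (ztrb_reg hy.1)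
      (mem_CN.1 hy.1.2.1).2 d1
    rw [d2] at d1
    exact Prod.ext (Cj.ext d2) (Cj.ext (mul_left_cancel d1))

/-- Substitute `x' = u * s'`; `EE N (u s s'⁻¹ u⁻¹) = EE N (s s'⁻¹)` (`EE_conj`).  Apply
`sum_mem_of_conj` with `S = zpowers u` to `s' ↦ (EE N - EE (CN N u)) (s * s'⁻¹) * f (u * s')`:
for `s' ∉ N` it is `0`; for `s' ∈ N` conjugation of `u * s'` by `u ^ k` is conjugation by an
element of `N` (`u = n * (u * s')` with `n = u * s'⁻¹ * u⁻¹`); fixed points: `EE_brauer`. -/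
lemma brauer_step (hp : (p : ℂ) ∈ V.nonunits) (c : G) (f : Cj G → ℂ)
    (hf : ∀ (g : N) x, f (g • x) = f x) (hV : ∀ x, f x ∈ V) (y : Cj G × Cj G) (h : Y0 p N c y) :
    ∑ x', kX p N c ⟨y.1.v * y.2.v⟩ x' * f x' - ∑ y', kY p N c y y' * f ⟨y'.1.v * y'.2.v⟩ ∈
      V.nonunits := by
  classical
  obtain ⟨⟨u⟩, ⟨s⟩⟩ := y
  obtain ⟨hU, hs, -⟩ := h
  dsimp only at hU hs ⊢
  obtain ⟨hsN, hsu⟩ := mem_CN.1 hs
  have hNc : ∀ g x : G, x ∈ N ↔ g * x * g⁻¹ ∈ N := fun g x =>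
    ⟨fun e => ‹N.Normal›.conj_mem x e g, fun e => by
      simpa [mul_assoc] using ‹N.Normal›.conj_mem _ e g⁻¹⟩
  have e1 : ∑ x', kX p N c ⟨u * s⟩ x' * f x' = ∑ t : G, EE p N (s * t⁻¹) * f ⟨u * t⟩ := by
    refine (Fintype.sum_equiv ((Equiv.mulLeft u).trans Cj.equiv.symm) _ _ fun t => ?_).symm
    have h1 : u * s * c⁻¹ ∈ N := by
      have := N.mul_mem ((hNc u s).1 hsN) hU.1
      simpa [mul_assoc] using this
    have h2 : u * s * (u * t)⁻¹ = u * (s * t⁻¹) * u⁻¹ := by group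
    change _ = kX p N c ⟨u * s⟩ ⟨u * t⟩ * f ⟨u * t⟩
    rw [kX, if_pos h1, h2, EE_conj (hNc u)]
  have e2 : ∑ y' : Cj G × Cj G, kY p N c (⟨u⟩, ⟨s⟩) y' * f ⟨y'.1.v * y'.2.v⟩ =
      ∑ t : G, EE p (CN N u) (s * t⁻¹) * f ⟨u * t⟩ := by
    rw [Fintype.sum_prod_type, Finset.sum_eq_single (⟨u⟩ : Cj G)]
    · refine Fintype.sum_equiv Cj.equiv _ _ fun t => ?_
      rw [kY, if_pos ⟨hU, rfl, hs⟩]
      rfl
    · intro b _ hb
      refine Finset.sum_eq_zero fun t _ => ?_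
      rw [kY, if_neg (fun e => hb e.2.1), zero_mul]
    · simp
  rw [e1, e2, ← Finset.sum_sub_distrib]
  refine sum_mem_of_conj (p := p) (Subgroup.zpowers u) ?_ _ ?_ V.nonunits.toAddSubgroup ?_ ?_
  · rintro ⟨_, k, rfl⟩
    refine ⟨1, Subtype.ext ?_⟩
    change (u ^ k) ^ p ^ 1 = 1
    rw [pow_one, ← zpow_natCast, ← zpow_mul, mul_comm, zpow_mul, zpow_natCast, hU.2, one_zpow]
  · rintro _ ⟨k, rfl⟩ t
    dsimp only
    have c1 : u ^ k * u = u * u ^ k := ((Commute.refl u).zpow_left k).eq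
    have c2 : u ^ k * s = s * u ^ k := (Commute.zpow_left hsu.symm k).eq
    have h1 : s * (u ^ k * t * (u ^ k)⁻¹)⁻¹ = u ^ k * (s * t⁻¹) * (u ^ k)⁻¹ := by
      calc _ = (s * u ^ k) * t⁻¹ * (u ^ k)⁻¹ := by group
        _ = _ := by rw [← c2]; group
    have h2 : ∀ x, x ∈ CN N u ↔ u ^ k * x * (u ^ k)⁻¹ ∈ CN N u := fun x => by
      rw [mem_CN, mem_CN, ← hNc]
      refine and_congr_right fun _ => ?_
      have a1 : u ^ k * x * (u ^ k)⁻¹ * u = u ^ k * (x * u) * (u ^ k)⁻¹ := by group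
      have a2 : u * (u ^ k * x * (u ^ k)⁻¹) = u ^ k * (u * x) * (u ^ k)⁻¹ := by group
      rw [a1, a2, mul_left_inj, mul_right_inj]
    rw [h1, EE_conj (hNc _), EE_conj h2]
    by_cases ht : t ∈ N
    · have h3 : u ^ k * ((u * t) ^ k)⁻¹ ∈ N := by
        rw [← QuotientGroup.eq_one_iff]
        simp [(QuotientGroup.eq_one_iff t).2 ht]
      have h4 := hf ⟨_, h3⟩ ⟨u * t⟩
      have h5 : ((⟨_, h3⟩ : N) • (⟨u * t⟩ : Cj G)) = ⟨u * (u ^ k * t * (u ^ k)⁻¹)⟩ := by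
        refine Cj.ext ?_
        change u ^ k * ((u * t) ^ k)⁻¹ * (u * t) * (u ^ k * ((u * t) ^ k)⁻¹)⁻¹ =
          u * (u ^ k * t * (u ^ k)⁻¹)
        have c3 : ((u * t) ^ k)⁻¹ * (u * t) * (u * t) ^ k = u * t := by
          generalize u * t = z
          group
        calc _ = u ^ k * (((u * t) ^ k)⁻¹ * (u * t) * (u * t) ^ k) * (u ^ k)⁻¹ := by
              simp only [mul_inv_rev, inv_inv, mul_assoc]
          _ = (u ^ k * u) * t * (u ^ k)⁻¹ := by rw [c3, mul_assoc (u ^ k) u]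
          _ = _ := by rw [c1]; simp only [mul_assoc]
      rw [← h5, h4]
    · have h3 : s * t⁻¹ ∉ N := fun e =>
        ht (N.inv_mem_iff.1 ((N.mul_mem_cancel_left hsN).1 e))
      rw [EE_supp h3, EE_supp (H := CN N u) (fun e => h3 (mem_CN.1 e).1)]
      simp
  · intro t
    rw [nsmul_eq_mul]
    exact mul_mem_nonunits hp (sub_mem (V.mul_mem _ _ (EE_mem hp _ _) (hV _))
      (V.mul_mem _ _ (EE_mem hp _ _) (hV _)))
  · intro t ht
    rw [← sub_mul]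
    refine mul_mem_nonunits (EE_brauer hp N hU.2 ?_) (hV _)
    have h1 : Commute t u := (ht u (Subgroup.mem_zpowers u)).symm
    exact (Commute.mul_left hsu h1.inv_left).eq

open Classical in
/-- `trace_transfer` with `V` from `exists_val p`; then `sum_sub` and `EE_tr`. -/
theorem trace_coset (hN : N.index = p) {c : G} (hc : c ∉ N) :
    ∑ a : G, ∑ y : G, (if a * c⁻¹ ∈ N ∧ y ∈ N then EE p N (a * y * a⁻¹ * y⁻¹) else 0) =
      ∑ u : G, if UU p N c u then (Nat.card (CN N u) : ℂ) * zz p (CN N u) else 0 := by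
  obtain ⟨V, hp⟩ := exists_val p
  have h := trace_transfer (ker_X (N := N) hp c) (ker_Y hp c) (fun y => ⟨y.1.v * y.2.v⟩)
    (fun g y => Cj.ext ?_) (X0_of_Y0 c) (exists_Y0 hN hc) ?_ (brauer_step hp c)
  · have e1 : ∑ a : G, ∑ y : G,
        (if a * c⁻¹ ∈ N ∧ y ∈ N then EE p N (a * y * a⁻¹ * y⁻¹) else 0) =
        ∑ x : Cj G, ∑ g : N, kX p N c x (g • x) := by
      refine Fintype.sum_equiv Cj.equiv.symm _ _ fun a => ?_
      change _ = ∑ g : N, kX p N c ⟨a⟩ ⟨g * a * (g : G)⁻¹⟩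
      rw [sum_sub N (fun g => kX p N c ⟨a⟩ ⟨g * a * g⁻¹⟩)]
      refine Finset.sum_congr rfl fun g _ => ?_
      have h1 : a * (g * a * g⁻¹)⁻¹ = a * g * a⁻¹ * g⁻¹ := by group
      rw [kX, h1]
      by_cases h2 : a * c⁻¹ ∈ N <;> by_cases h3 : g ∈ N <;> simp [h2, h3]
    rw [e1, h, Fintype.sum_prod_type]
    refine Fintype.sum_equiv Cj.equiv _ _ fun u => ?_
    change _ = if UU p N c u.v then (Nat.card (CN N u.v) : ℂ) * zz p (CN N u.v) else 0
    split_ifs with hU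
    · rw [← EE_tr]
      refine Fintype.sum_equiv Cj.equiv _ _ fun s => ?_
      change ∑ g : N, kY p N c (u, s) (⟨g * u.v * (g : G)⁻¹⟩, ⟨g * s.v * (g : G)⁻¹⟩) =
        ∑ b : G, if s.v ∈ CN N u.v ∧ b ∈ CN N u.v then
          EE p (CN N u.v) (s.v * b * s.v⁻¹ * b⁻¹) else 0
      rw [sum_sub N (fun g => kY p N c (u, s) (⟨g * u.v * g⁻¹⟩, ⟨g * s.v * g⁻¹⟩))]
      refine Finset.sum_congr rfl fun g _ => ?_
      have h1 : s.v * (g * s.v * g⁻¹)⁻¹ = s.v * g * s.v⁻¹ * g⁻¹ := by group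
      have h2 : (⟨g * u.v * g⁻¹⟩ : Cj G) = u ↔ g * u.v = u.v * g := by
        rw [Cj.ext_iff, mul_inv_eq_iff_eq_mul]
      rw [kY]
      dsimp only
      rw [h1, h2, mem_CN (x := g)]
      by_cases h3 : g ∈ N <;> simp [hU, h3, and_comm]
    · refine Finset.sum_eq_zero fun s _ => Finset.sum_eq_zero fun g _ => ?_
      rw [kY, if_neg fun e => hU e.1]
  · change (g : G) * y.1.v * (g : G)⁻¹ * (g * y.2.v * (g : G)⁻¹) = g * (y.1.v * y.2.v) * (g : G)⁻¹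
    group
  · intro y y' h1 h2
    rw [kY] at h1
    split_ifs at h1 with h3
    · obtain ⟨hU, e, hs⟩ := h3
      have h4 : y.2.v * y'.2.v⁻¹ ∈ CN N y.1.v := by
        by_contra h5
        exact h1 (EE_supp h5)
      rw [← e] at hU hs h4
      refine ⟨hU, inv_mem_iff.1 ((Subgroup.mul_mem_cancel_left _ hs).1 h4), ?_⟩
      intro w hw hwp c1 c2
      exact h2.2 w hw hwp (Commute.mul_right c1 c2).eq
    · exact absurd rfl h1

end Pool.Agent.Lib.MP_b6945b_al.Ip
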