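import Pool.Agent.Lib.MP_b6945b_al.Ip.AIdx
import Pool.Agent.Lib.MP_b6945b_al.Ip.ASub
import Pool.Agent.Lib.MP_b6945b_al.Ip.ZMom
import Pool.Agent.Lib.MP_b6945b_al.Ip.ZTr

set_option autoImplicit false

/-!
The reduction theorem.
-/

namespace Pool.Agent.Lib.MP_b6945b_al.Ip

open Finset

variable {p : ℕ} [Fact p.Prime]

open Classical in
/-- The deviation from the identity, for a normal subgroup of index `p`. -/
theorem dev_index {G : Type} [Group G] [Fintype G] {N : Subgroup G} [N.Normal]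
    (hN : N.index = p) {c : G} (hc : c ∉ N) :
    nn p (1 : G) - (Nat.card G : ℤ) * zz p G = nn p (1 : N) - (Nat.card N : ℤ) * zz p N -
      ∑ u : G, if UU p N c u then
        nn p (1 : CN N u) - (Nat.card (CN N u) : ℤ) * zz p (CN N u) else 0 := by
  let _ : Fintype N := Fintype.ofFinite N
  obtain ⟨I⟩ := exists_irrData N
  have hs : ∀ H : Subgroup G, nn p (1 : H) = AA p H := fun H => by
    rw [nn_eq_AA H.subtype H.subtype_injective, Subgroup.range_subtype]
  have hG : nn p (1 : G) = AA p (⊤ : Subgroup G) := by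
    rw [nn_eq_AA (MonoidHom.id G) Function.injective_id,
      MonoidHom.range_eq_top.2 Function.surjective_id]
  have h1 := zz_index hN I
  have h2 := sum_coset_e1 hN I hc
  rw [← EE_eq N I, trace_coset hN hc] at h2
  have h3 : zz p N = (univ.filter fun i => Dz p I i ∧ Inv I i).card +
      (univ.filter fun i => Dz p I i ∧ ¬ Inv I i).card := by
    rw [zz_eq p I, ← Finset.filter_filter, ← Finset.filter_filter,
      Finset.card_filter_add_card_filter_not]
  have h4 : (∑ u : G, if UU p N c u then (Nat.card (CN N u) : ℤ) * zz p (CN N u) else 0) =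
      (Nat.card N : ℤ) * (univ.filter fun i => Dz p I i ∧ Inv I i).card := by
    exact_mod_cast h2
  have h5 : (∑ u : G, if UU p N c u then
      nn p (1 : CN N u) - (Nat.card (CN N u) : ℤ) * zz p (CN N u) else 0) =
      (∑ u : G, if UU p N c u then AA p (CN N u) else 0) -
      ∑ u : G, if UU p N c u then (Nat.card (CN N u) : ℤ) * zz p (CN N u) else 0 := by
    rw [← Finset.sum_sub_distrib]
    refine Finset.sum_congr rfl fun u _ => ?_
    split_ifs
    · rw [hs]
    · rfl
  rw [h5, h4, hG, hs, AA_index hN hc, h3, ← h1, card_eq_mul hN]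
  push_cast
  ring

theorem KR_index {G : Type} [Group G] [Finite G] {N : Subgroup G} [N.Normal]
    (hN : N.index = p) (h1 : KR p N) (h2 : ∀ u, u ∉ N → u ^ p = 1 → KR p (CN N u)) :
    KR p G := by
  classical
  let _ : Fintype G := Fintype.ofFinite G
  obtain ⟨c, hc⟩ : ∃ c, c ∉ N := by
    by_contra h
    push Not at h
    rw [(Subgroup.eq_top_iff' N).2 h, Subgroup.index_top] at hN
    exact (Fact.out : p.Prime).ne_one hN.symm
  have h := dev_index hN hc
  rw [Finset.sum_eq_zero, sub_eq_zero.2 h1, sub_zero, sub_eq_zero] at h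
  · exact h
  intro u _
  split_ifs with hu
  · exact sub_eq_zero.2 (h2 u (hu.not_mem hc) hu.2)
  · rfl

/-- A proper normal subgroup of `p`-power index lies in a normal subgroup of index `p`. -/
lemma exists_index {G : Type} [Group G] [Finite G] (K : Subgroup G) [K.Normal]
    (hK : IsPGroup p (G ⧸ K)) (h : K ≠ ⊤) :
    ∃ N : Subgroup G, N.Normal ∧ K ≤ N ∧ N.index = p := by
  have hp : p.Prime := Fact.out
  obtain ⟨n, hn⟩ := IsPGroup.iff_card.1 hK
  have hn0 : n ≠ 0 := by
    rintro rfl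
    exact h (Subgroup.index_eq_one.1 hn)
  obtain ⟨m, rfl⟩ := Nat.exists_eq_succ_of_ne_zero hn0
  obtain ⟨M, hM⟩ := Sylow.exists_subgroup_card_pow_prime (G := G ⧸ K) p (n := m)
    (hn ▸ pow_dvd_pow p m.le_succ)
  have hi : M.index = p := by
    have h1 := M.card_mul_index
    rw [hM, hn, pow_succ] at h1
    exact Nat.eq_of_mul_eq_mul_left (pow_pos hp.pos m) h1
  have hMn : M.Normal := Subgroup.normal_of_index_eq_minFac_card (by
    rw [hi, hn, hp.pow_minFac m.succ_ne_zero])
  refine ⟨M.comap (QuotientGroup.mk' K), inferInstance, fun x hx => ?_, ?_⟩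
  · rw [Subgroup.mem_comap, QuotientGroup.mk'_apply, (QuotientGroup.eq_one_iff x).2 hx]
    exact M.one_mem
  · rw [Subgroup.index_comap_of_surjective _ (QuotientGroup.mk'_surjective K), hi]

/-- Elementary abelian subgroups. -/
def El (p : ℕ) {G : Type} [Group G] (Q : Subgroup G) : Prop :=
  (∀ x ∈ Q, x ^ p = 1) ∧ ∀ x ∈ Q, ∀ y ∈ Q, x * y = y * x

lemma red_aux {G : Type} [Group G] [Finite G] (K : Subgroup G) [K.Normal]
    (hK : IsPGroup p (G ⧸ K))
    (h : ∀ Q : Subgroup G, El p Q → Q ⊓ K = ⊥ →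
      KR p (K ⊓ Subgroup.centralizer (Q : Set G) : Subgroup G)) (H : Subgroup G) :
    ∀ Q : Subgroup G, El p Q → H ≤ Subgroup.centralizer (Q : Set G) →
      K ⊓ Subgroup.centralizer (Q : Set G) ≤ H →
      (∀ q ∈ Q, ∀ x ∈ H, q * x ∈ K → q = 1) → KR p H := by
  induction H using WellFoundedLT.induction with
  | ind H ih =>
  intro Q hQ hHC hKH hq
  by_cases hle : H ≤ K
  · have e : H = K ⊓ Subgroup.centralizer (Q : Set G) := le_antisymm (le_inf hle hHC) hKH
    rw [e]
    refine h Q hQ ((Subgroup.eq_bot_iff_forall _).2 fun q hq' => ?_)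
    exact hq q hq'.1 1 H.one_mem (by simpa using hq'.2)
  have hpq : IsPGroup p (H ⧸ K.subgroupOf H) := by
    intro g
    obtain ⟨g, rfl⟩ := QuotientGroup.mk_surjective g
    obtain ⟨k, hk⟩ := hK ((g : G) : G ⧸ K)
    refine ⟨k, ?_⟩
    rw [← QuotientGroup.mk_pow, QuotientGroup.eq_one_iff] at hk ⊢
    exact hk
  obtain ⟨N, hNn, hKN, hN⟩ := exists_index (K.subgroupOf H) hpq
    fun e => hle (Subgroup.subgroupOf_eq_top.1 e)
  have hNt : N ≠ ⊤ := fun e => by
    rw [e, Subgroup.index_top] at hN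
    exact (Fact.out : p.Prime).ne_one hN.symm
  have key : ∀ L : Subgroup H, L ≤ N → ∀ R : Subgroup G, El p R →
      L.map H.subtype ≤ Subgroup.centralizer (R : Set G) →
      K ⊓ Subgroup.centralizer (R : Set G) ≤ L.map H.subtype →
      (∀ q ∈ R, ∀ x ∈ L.map H.subtype, q * x ∈ K → q = 1) → KR p L := by
    intro L hL R h1 h2 h3 h4
    refine KR_congr (L.equivMapOfInjective _ H.subtype_injective).symm (ih _ ?_ R h1 h2 h3 h4)
    refine lt_of_le_of_ne (Subgroup.map_subtype_le L) fun e => hNt (top_le_iff.1 ?_)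
    intro x _
    obtain ⟨y, hy, hxy⟩ : (x : G) ∈ L.map H.subtype := e.symm ▸ x.2
    exact (Subtype.ext hxy : y = x) ▸ hL hy
  refine KR_index hN (key N le_rfl Q hQ ((Subgroup.map_subtype_le N).trans hHC) ?_ ?_) ?_
  · exact fun x hx => ⟨⟨x, hKH hx⟩, hKN hx.1, rfl⟩
  · exact fun q hq' x hx => hq q hq' x (Subgroup.map_subtype_le N hx)
  intro u hu hup
  have hcu : ∀ q ∈ Q, q * (u : G) = u * q := fun q hq' => hHC u.2 q hq'
  have hup' : (u : G) ^ p = 1 := congrArg Subtype.val hup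
  let R : Subgroup G :=
    { carrier := {g | ∃ q ∈ Q, ∃ i : ℕ, g = q * (u : G) ^ i}
      one_mem' := ⟨1, Q.one_mem, 0, by simp⟩
      mul_mem' := by
        rintro _ _ ⟨q, h1, i, rfl⟩ ⟨r, h2, j, rfl⟩
        refine ⟨q * r, Q.mul_mem h1 h2, i + j, ?_⟩
        rw [pow_add, mul_assoc, mul_assoc, ← mul_assoc r,
          (Commute.pow_right (hcu r h2) i).eq, mul_assoc]
      inv_mem' := by
        rintro _ ⟨q, h1, i, rfl⟩
        refine ⟨q⁻¹, Q.inv_mem h1, (p - 1) * i, ?_⟩
        rw [mul_inv_rev, (Commute.pow_right (hcu _ (Q.inv_mem h1)) _).eq, mul_left_inj,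
          inv_eq_iff_mul_eq_one, ← pow_add, ← one_add_mul, add_comm,
          Nat.sub_add_cancel (Fact.out : p.Prime).one_le, pow_mul, hup', one_pow] }
  have hQR : ∀ q ∈ Q, q ∈ R := fun q hq' => ⟨q, hq', 0, by simp⟩
  have huR : (u : G) ∈ R := ⟨1, Q.one_mem, 1, by simp⟩
  refine key (CN N u) inf_le_left R ?_ ?_ ?_ ?_
  · constructor
    · rintro _ ⟨q, h1, i, rfl⟩
      rw [(Commute.pow_right (hcu q h1) i).mul_pow, hQ.1 q h1, one_mul, ← pow_mul, mul_comm,
        pow_mul, hup', one_pow]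
    · rintro _ ⟨q, h1, i, rfl⟩ _ ⟨r, h2, j, rfl⟩
      exact (Commute.mul_left (Commute.mul_right (hQ.2 q h1 r h2)
        (Commute.pow_right (hcu q h1) j)) (Commute.mul_right
          (Commute.pow_right (hcu r h2) i).symm (Commute.pow_pow_self _ i j))).eq
  · rintro _ ⟨x, hx, rfl⟩ _ ⟨q, h1, i, rfl⟩
    have h2 : Commute (x : G) u := congrArg Subtype.val (mem_CN.1 hx).2
    have h3 : Commute q (x : G) := hHC x.2 q h1
    exact (h3.mul_left (h2.symm.pow_left i)).eq
  · intro x hx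
    have h1 : x ∈ H := hKH ⟨hx.1, fun q hq' => hx.2 q (hQR q hq')⟩
    exact ⟨⟨x, h1⟩, mem_CN.2 ⟨hKN hx.1, Subtype.ext (hx.2 _ huR).symm⟩, rfl⟩
  · rintro _ ⟨q, h1, i, rfl⟩ _ ⟨x, hx, rfl⟩ hm
    rw [mul_assoc] at hm
    have h2 := hq q h1 _ (H.mul_mem (H.pow_mem u.2 i) x.2) hm
    rw [h2, one_mul] at hm ⊢
    have h3 : u ^ i * x ∈ N := hKN hm
    obtain ⟨j, rfl⟩ := (pow_mem_iff hN hu i).1 (by
      simpa using N.mul_mem h3 (N.inv_mem (mem_CN.1 hx).1))
    rw [pow_mul, hup', one_pow]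

/-- The identity for a group follows from the identity for the centralisers, in a normal subgroup
of `p`-power index, of the elementary abelian `p`-subgroups that meet it trivially. -/
theorem reduction {G : Type} [Group G] [Finite G] (K : Subgroup G) [K.Normal]
    (hK : IsPGroup p (G ⧸ K))
    (h : ∀ Q : Subgroup G, El p Q → Q ⊓ K = ⊥ →
      KR p (K ⊓ Subgroup.centralizer (Q : Set G) : Subgroup G)) : KR p G :=
  KR_congr Subgroup.topEquiv (red_aux K hK h ⊤ ⊥
    ⟨fun x hx => by rw [Subgroup.mem_bot.1 hx, one_pow],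
      fun x hx y _ => by rw [Subgroup.mem_bot.1 hx, one_mul, mul_one]⟩
    (fun x _ q hq => by rw [Subgroup.mem_bot.1 hq, one_mul, mul_one]) le_top
    fun q hq _ _ _ => Subgroup.mem_bot.1 hq)

end Pool.Agent.Lib.MP_b6945b_al.Ip
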