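import Pool.Agent.Lib.MP_b6945b_al.Kx.ZEnd
import Pool.Agent.Lib.MP_b6945b_al.Ip.IRed
import Pool.Agent.Lib.MP_b6945b_al.Ip.Prod

set_option autoImplicit false

/-!
Groups with abelian Sylow subgroups all of whose class defect groups are small in rank or large.
-/

namespace Pool.Agent.Lib.MP_b6945b_al.Ip

open St Bi Kx Finset

theorem KS_large (p : ℕ) (hp : p.Prime) (n : ℕ) : ∃ N : ℕ, ∀ (G : Type) [Group G] [Finite G]
      (M : Ideal (integralClosure ℤ ℂ)), M.IsMaximal → (p : integralClosure ℤ ℂ) ∈ M →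
      ∀ (χ : G → ℂ), IsIrrChar χ →
      ∀ (D : Subgroup G), IsDefectGroup p M χ D → (∀ x ∈ D, ∀ y ∈ D, x * y = y * x) →
      om1 p D ≤ p ^ n → N < Nat.card D → KS p M χ = 0 := by
  classical
  have : Fact p.Prime := ⟨hp⟩
  obtain ⟨C, hC⟩ := lL_bound_rank p (p ^ n)
  refine ⟨(p ^ n) ^ (2 ^ 2 ^ p ^ n * C), fun G _ _ M hM hpM χ hχ D hD hc hb hN => ?_⟩
  let _ : Fintype G := Fintype.ofFinite G
  let _ : Fintype (Finset (Subgroup G)) := Fintype.ofFinite _
  obtain ⟨V, hV⟩ := exists_val_of_maximal M hM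
  have hB : CoefB p M V := ⟨hp, hM, hpM, hV⟩
  obtain ⟨I⟩ := exists_irrData G
  obtain ⟨i, rfl⟩ := (isIrrChar_iff I).1 hχ
  obtain ⟨c, h, he⟩ := exists_rt hB I i hD hc
  have h1 := abs_KS_le hB h he fun H hH => hC V hB.nonunit G _ H D c hH hb
  obtain ⟨d, hd, hd'⟩ : ∃ d ∈ D, d ^ p ^ (2 ^ 2 ^ p ^ n * C) ≠ 1 := by
    by_contra hno
    push Not at hno
    exact absurd (card_le_pow_of_exp _ D hc (om1_eq (p := p) D hc ▸ hb) hno) (not_le.2 hN)
  obtain ⟨v, hv, rfl, hab⟩ := exists_good_class hB.nonunit h hd he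
  have h2 := KS_dvd_of_class hB I i v hv hab
  obtain ⟨k, hk⟩ := (h.pelt hd)
  obtain ⟨j, -, hj⟩ := (Nat.dvd_prime_pow hp).1 (orderOf_dvd_of_pow_eq_one hk)
  have h3 : 2 ^ 2 ^ p ^ n * C < j := by
    by_contra hle
    exact hd' (orderOf_dvd_iff_pow_eq_one.1 (hj ▸ pow_dvd_pow p (not_lt.1 hle)))
  have h4 : 2 ^ 2 ^ om1 p D * C < orderOf (pp p v) :=
    calc 2 ^ 2 ^ om1 p D * C ≤ 2 ^ 2 ^ p ^ n * C := Nat.mul_le_mul_right _
          (Nat.pow_le_pow_right two_pos (Nat.pow_le_pow_right two_pos hb))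
      _ < j := h3
      _ < p ^ j := Nat.lt_pow_self hp.one_lt
      _ = _ := hj.symm
  refine Int.eq_zero_of_abs_lt_dvd h2 (lt_of_le_of_lt h1 ?_)
  rw [mul_comm]
  exact mul_lt_mul_of_pos_right (by exact_mod_cast h4) (by exact_mod_cast Nat.card_pos)

theorem KR_base (p : ℕ) (hp : p.Prime) (n : ℕ) : ∃ N : ℕ, ∀ (H : Type) [Group H] [Finite H],
    (∀ D : Subgroup H, IsPGroup p D → (∀ x ∈ D, ∀ y ∈ D, x * y = y * x) ∧ om1 p D ≤ p ^ n) →
    (∀ (x : H) (S : Sylow p (Subgroup.centralizer {x})),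
      om1 p (S : Subgroup (Subgroup.centralizer {x})) ≤ p ^ 2 ∨
        N < Nat.card (S : Subgroup (Subgroup.centralizer {x}))) → KR p H := by
  obtain ⟨N, hN⟩ := KS_large p hp n
  refine ⟨N, fun H _ _ h1 h2 => ?_⟩
  obtain ⟨M, hM, hpM⟩ := exists_max_ideal p hp
  refine (KR_iff p H).2 (krc_of_blocks p hp H M hM hpM fun χ hχ D hD h0 => ?_)
  obtain ⟨hc, hb⟩ := h1 D (St.IsDefectGroup.isPGroup' hD)
  obtain ⟨x, -, S, rfl⟩ := hD.1
  have e := (S : Subgroup (Subgroup.centralizer {x})).equivMapOfInjective _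
    (Subgroup.centralizer {x}).subtype_injective
  rcases h2 x S with h | h
  · exact KS_two p hp H M hM hpM χ hχ _ hD h0 hc (om1_congr e ▸ h)
  · exact hN H M hM hpM χ hχ _ hD hc hb (Nat.card_congr e.toEquiv ▸ h)

/-- The `p`-subgroups of a subgroup of `K` inherit commutativity and the bound for the rank. -/
lemma sub_of_sylow {p : ℕ} (hp : p.Prime) {K H : Type} [Group K] [Finite K] [Group H]
    (φ : H →* K) (hφ : Function.Injective φ) (S : Sylow p K)
    (hc : ∀ x ∈ (S : Subgroup K), ∀ y ∈ (S : Subgroup K), x * y = y * x) {n : ℕ}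
    (hn : Group.rank (S : Subgroup K) ≤ n) (D : Subgroup H) (hD : IsPGroup p D) :
    (∀ x ∈ D, ∀ y ∈ D, x * y = y * x) ∧ om1 p D ≤ p ^ n := by
  have : Fact p.Prime := ⟨hp⟩
  let _ : Fintype K := Fintype.ofFinite K
  obtain ⟨T, hT⟩ := (hD.map φ).exists_le_sylow
  have e := Sylow.equiv T S
  refine ⟨fun a ha b hb => hφ ?_, (om1_congr (D.equivMapOfInjective φ hφ)).trans_le
    ((gsum_om1 hT).trans ((om1_congr e).trans_le (om1_le_of_rank hp.pos _ hc hn)))⟩
  have ha' := hT (Subgroup.mem_map_of_mem φ ha)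
  have hb' := hT (Subgroup.mem_map_of_mem φ hb)
  have h1 : e (⟨_, ha'⟩ * ⟨_, hb'⟩) = e (⟨_, hb'⟩ * ⟨_, ha'⟩) := by
    rw [map_mul, map_mul]
    exact Subtype.ext (hc _ (e _).2 _ (e _).2)
  rw [map_mul, map_mul]
  exact congrArg Subtype.val (e.injective h1)

theorem KR_small (p : ℕ) (hp : p.Prime) (n : ℕ) : ∃ N : ℕ, ∀ (L : Type) [Group L] [Finite L]
    (S : Sylow p L), (∀ x ∈ (S : Subgroup L), ∀ y ∈ (S : Subgroup L), x * y = y * x) →
    Group.rank (S : Subgroup L) ≤ n →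
    (∀ (x : L) (D : Sylow p (Subgroup.centralizer {x})),
      Group.rank (D : Subgroup (Subgroup.centralizer {x})) ≤ 2 ∨
        N < Nat.card (D : Subgroup (Subgroup.centralizer {x}))) → KR p L := by
  obtain ⟨N, hN⟩ := KR_base p hp n
  refine ⟨N, fun L _ _ S hc hn h => hN L
    (sub_of_sylow hp (MonoidHom.id L) Function.injective_id S hc hn) fun x D => ?_⟩
  refine (h x D).imp_left fun h1 => om1_le_of_rank hp.pos _ ?_ h1
  exact (sub_of_sylow hp _ (Subgroup.centralizer {x}).subtype_injective S hc hn _ D.isPGroup').1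

theorem KR_main (p : ℕ) (hp : p.Prime) (n : ℕ) : ∃ N : ℕ, ∀ (G : Type) [Group G] [Finite G]
    (K : Subgroup G) [K.Normal], IsPGroup p (G ⧸ K) →
    (∀ Q : Subgroup G, (∀ x ∈ Q, x ^ p = 1) → (∀ x ∈ Q, ∀ y ∈ Q, x * y = y * x) → Q ⊓ K = ⊥ →
      ∃ (m : ℕ) (L : Fin m → Type) (_ : ∀ i, Group (L i)) (_ : ∀ i, Finite (L i)),
        Nonempty ((K ⊓ Subgroup.centralizer (Q : Set G) : Subgroup G) ≃* ∀ i, L i) ∧
        ∀ i, ∃ S : Sylow p (L i),
          (∀ x ∈ (S : Subgroup (L i)), ∀ y ∈ (S : Subgroup (L i)), x * y = y * x) ∧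
          Group.rank (S : Subgroup (L i)) ≤ n ∧
          ∀ (x : L i) (D : Sylow p (Subgroup.centralizer {x})),
            Group.rank (D : Subgroup (Subgroup.centralizer {x})) ≤ 2 ∨
              N < Nat.card (D : Subgroup (Subgroup.centralizer {x}))) → KR p G := by
  have : Fact p.Prime := ⟨hp⟩
  obtain ⟨N, hN⟩ := KR_small p hp n
  refine ⟨N, fun G _ _ K _ hK h => reduction K hK fun Q hQ hQK => ?_⟩
  obtain ⟨m, L, _, _, ⟨e⟩, hL⟩ := h Q hQ.1 hQ.2 hQK
  refine KR_congr e.symm (KR_pi m L fun i => ?_)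
  obtain ⟨S, h1, h2, h3⟩ := hL i
  exact hN _ S h1 h2 h3

/-- The case of rank at most two. -/
theorem KR_two (p : ℕ) (hp : p.Prime) (G : Type) [Group G] [Finite G]
    (K : Subgroup G) [K.Normal] (hK : IsPGroup p (G ⧸ K)) (S : Sylow p K)
    (hc : ∀ x ∈ (S : Subgroup K), ∀ y ∈ (S : Subgroup K), x * y = y * x)
    (hn : Group.rank (S : Subgroup K) ≤ 2) : KR p G := by
  have : Fact p.Prime := ⟨hp⟩
  obtain ⟨N, hN⟩ := KR_base p hp 2
  have key : ∀ L : Subgroup G, L ≤ K → KR p L := fun L hL =>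
    hN L (sub_of_sylow hp (Subgroup.inclusion hL) (Subgroup.inclusion_injective _) S hc hn)
      fun x T => Or.inl (sub_of_sylow hp ((Subgroup.inclusion hL).comp
        (Subgroup.centralizer {x}).subtype) ((Subgroup.inclusion_injective hL).comp
          (Subgroup.centralizer {x}).subtype_injective) S hc hn _ T.isPGroup').2
  exact reduction K hK fun Q _ _ => key _ inf_le_left

end Pool.Agent.Lib.MP_b6945b_al.Ip
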