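import Pool.Agent.Lib.MP_b6945b_al.FinalA
import Pool.Agent.Lib.MP_b6945b_al.BlockSum

set_option autoImplicit false

/-!
Definitions for the reduction to normal subgroups of index `p`.
-/

namespace Pool.Agent.Lib.MP_b6945b_al.Ip

open Finset

/-- The number of irreducible characters of defect zero. -/
noncomputable def zz (p : ℕ) (G : Type) [Group G] : ℕ :=
  Nat.card {f : G → ℂ // ∃ n : ℕ, ∃ ρ : G →* Matrix (Fin n) (Fin n) ℂ,
    0 < n ∧ p ^ ((Nat.card G).factorization p) ∣ n ∧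
    (∀ W : Submodule ℂ (Fin n → ℂ),
      (∀ g : G, ∀ v ∈ W, (ρ g).mulVec v ∈ W) → W = ⊥ ∨ W = ⊤) ∧
    f = fun g => (ρ g).trace}

/-- The identity of the problem, with the empty chain moved to the left. -/
def KR (p : ℕ) (G : Type) [Group G] [Finite G] : Prop :=
  nn p (1 : G) = (Nat.card G : ℤ) * zz p G

/-- Defect zero. -/
def Dz (p : ℕ) {H : Type} [Group H] [Fintype H] (I : IrrData H) (i : Fin I.n) : Prop :=
  p ^ (Nat.card H).factorization p ∣ I.d i

/-- The sum of the central idempotents of defect zero. -/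
noncomputable def e1 (p : ℕ) {H : Type} [Group H] [Fintype H] (I : IrrData H) : H → ℂ :=
  I.zf (ind (Dz p I))

/-- Powers for the convolution. -/
noncomputable def cpow {H : Type} [Group H] [Fintype H] (f : H → ℂ) : ℕ → H → ℂ
  | 0 => ind (· = 1)
  | m + 1 => conv f (cpow f m)

variable {G : Type} [Group G]

open Classical in
/-- Extension by zero. -/
noncomputable def ext0 (H : Subgroup G) (f : H → ℂ) (g : G) : ℂ :=
  if h : g ∈ H then f ⟨g, h⟩ else 0

/-- The idempotent of defect zero of a subgroup, as a function on the whole group. -/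
noncomputable def EE (p : ℕ) [Finite G] (H : Subgroup G) : G → ℂ :=
  letI : Fintype H := Fintype.ofFinite H
  ext0 H (e1 p (exists_irrData H).some)

/-- The number of ways to write an element as a commutator of two elements of `H`. -/
noncomputable def tau [Fintype G] (H : Subgroup G) (g : G) : ℂ :=
  ∑ a : G, ∑ b : G, ind (fun x : G × G => x.1 ∈ H ∧ x.2 ∈ H ∧
    x.1 * x.2 * x.1⁻¹ * x.2⁻¹ = g) (a, b)

/-- The elements of order dividing `p` in the coset of `c`. -/
def UU (p : ℕ) (N : Subgroup G) (c u : G) : Prop := u * c⁻¹ ∈ N ∧ u ^ p = 1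

/-- The centraliser of `u` in `N`. -/
def CN (N : Subgroup G) (u : G) : Subgroup G := N ⊓ Subgroup.centralizer {u}

lemma mem_CN {N : Subgroup G} {u x : G} : x ∈ CN N u ↔ x ∈ N ∧ x * u = u * x := by
  rw [CN, Subgroup.mem_inf, Subgroup.mem_centralizer_singleton_iff]

/-- Characters of a normal subgroup that are invariant under the whole group. -/
def Inv {N : Subgroup G} [N.Normal] [Fintype N] (I : IrrData N) (i : Fin I.n) : Prop :=
  ∀ (g : G) (y : N), I.χ i (MulAut.conjNormal g y) = I.χ i y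

open Classical in
/-- The signed number of chains inside `H` that are normalised by `K`. -/
noncomputable def eK (p : ℕ) [Fintype G] (K : Set G) (H : Subgroup G) : ℤ :=
  ∑ σ : Finset (Subgroup G), if IsPChain p σ ∧ K ⊆ stab σ ∧ ∀ P ∈ σ, P ≤ H then sgn σ else 0

open Classical in
/-- The sum of `eK` over the commuting pairs in `H`. -/
noncomputable def AA (p : ℕ) [Fintype G] (H : Subgroup G) : ℤ :=
  ∑ x : G, ∑ y : G, if x ∈ H ∧ y ∈ H ∧ x * y = y * x then eK p {x, y} H else 0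

lemma ext0_pos {H : Subgroup G} (f : H → ℂ) {g : G} (h : g ∈ H) : ext0 H f g = f ⟨g, h⟩ :=
  dif_pos h

lemma ext0_neg {H : Subgroup G} (f : H → ℂ) {g : G} (h : g ∉ H) : ext0 H f g = 0 := dif_neg h

lemma ext0_coe {H : Subgroup G} (f : H → ℂ) (g : H) : ext0 H f g = f g := dif_pos g.2

open Classical in
lemma sum_sub {M : Type} [AddCommMonoid M] [Fintype G] (H : Subgroup G) [Fintype H] (F : G → M) :
    ∑ g : H, F g = ∑ g : G, if g ∈ H then F g else 0 := by
  rw [← Finset.sum_filter]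
  exact (Finset.sum_subtype _ (by simp) F).symm

open Classical in
lemma zz_eq (p : ℕ) [Fintype G] (I : IrrData G) : zz p G = (univ.filter (Dz p I)).card := by
  have h2 := I.card_irr (fun n _ => p ^ (Nat.card G).factorization p ∣ n)
  unfold MatIrr at h2
  rw [zz, h2]
  exact congrArg _ (Finset.ext fun i => by simp only [mem_filter, Dz])

section index
variable {N : Subgroup G} [N.Normal] {p : ℕ} [Fact p.Prime]

lemma pow_mem_iff (hN : N.index = p) {a : G} (ha : a ∉ N) (i : ℕ) : a ^ i ∈ N ↔ p ∣ i := by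
  have h1 : orderOf (a : G ⧸ N) = p := by
    have h2 : orderOf (a : G ⧸ N) ∣ p := hN ▸ orderOf_dvd_natCard _
    refine ((Nat.dvd_prime Fact.out).1 h2).resolve_left fun e => ha ?_
    exact (QuotientGroup.eq_one_iff a).1 (orderOf_eq_one_iff.1 e)
  rw [← QuotientGroup.eq_one_iff, QuotientGroup.mk_pow, ← orderOf_dvd_iff_pow_eq_one, h1]

lemma exists_pow (hN : N.index = p) {a : G} (ha : a ∉ N) (g : G) :
    ∃ i < p, g * (a ^ i)⁻¹ ∈ N := by
  have hc : Nat.card (G ⧸ N) = p := hN
  have : Finite (G ⧸ N) := Nat.finite_of_card_ne_zero (hc ▸ (Fact.out : p.Prime).ne_zero)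
  have h1 : (g : G ⧸ N) ∈ Subgroup.zpowers (a : G ⧸ N) :=
    mem_zpowers_of_prime_card hc fun e => ha ((QuotientGroup.eq_one_iff a).1 e)
  obtain ⟨k, hk⟩ := mem_powers_iff_mem_zpowers.2 h1
  refine ⟨k % p, Nat.mod_lt _ (Fact.out : p.Prime).pos, ?_⟩
  rw [← QuotientGroup.eq_one_iff, QuotientGroup.mk_mul, QuotientGroup.mk_inv,
    QuotientGroup.mk_pow, ← hc, pow_mod_natCard, mul_inv_eq_one]
  exact hk.symm

lemma comm_mem (hN : N.index = p) (a b : G) : a * b * a⁻¹ * b⁻¹ ∈ N := by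
  have hc : Nat.card (G ⧸ N) = p := hN
  have := isCyclic_of_prime_card hc
  have h := (IsCyclic.commGroup (α := G ⧸ N)).mul_comm (a : G ⧸ N) b
  rw [← QuotientGroup.eq_one_iff]
  simp only [QuotientGroup.mk_mul, QuotientGroup.mk_inv]
  rw [mul_inv_eq_one, mul_inv_eq_iff_eq_mul]
  exact h

omit [N.Normal] [Fact p.Prime] in
lemma card_eq_mul (hN : N.index = p) : Nat.card G = p * Nat.card N := by
  rw [← hN, Subgroup.index_mul_card]

/-- A sum over the group, split along the cosets of the powers of `a`. -/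
lemma sum_coset [Fintype G] [Fintype N] {M : Type} [AddCommMonoid M] (hN : N.index = p) {a : G}
    (ha : a ∉ N) (F : G → M) : ∑ g, F g = ∑ i : Fin p, ∑ y : N, F (y * a ^ (i : ℕ)) := by
  rw [← Fintype.sum_prod_type' (fun (i : Fin p) (y : N) => F (y * a ^ (i : ℕ)))]
  refine (Fintype.sum_bijective (fun x : Fin p × N => (x.2 : G) * a ^ (x.1 : ℕ)) ?_ _ _
    fun _ => rfl).symm
  rw [Fintype.bijective_iff_surjective_and_card]
  refine ⟨fun g => ?_, ?_⟩
  · obtain ⟨i, hi, h⟩ := exists_pow hN ha g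
    exact ⟨(⟨i, hi⟩, ⟨_, h⟩), inv_mul_cancel_right _ _⟩
  · rw [Fintype.card_prod, Fintype.card_fin, ← Nat.card_eq_fintype_card,
      ← Nat.card_eq_fintype_card, card_eq_mul hN]

omit [N.Normal] [Fact p.Prime] in
lemma UU.not_mem {c u : G} (hc : c ∉ N) (h : UU p N c u) : u ∉ N := fun e =>
  hc (by simpa using N.inv_mem (N.mul_mem (N.inv_mem e) h.1))

end index

section parts
variable [Finite G] {p : ℕ} [Fact p.Prime]

/-- Decomposition into a `p`-part and a `p`-regular part. -/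
lemma exists_parts (p : ℕ) [Fact p.Prime] (g : G) : ∃ u s : G, IsPElt p u ∧ ¬ p ∣ orderOf s ∧
    u ∈ Subgroup.zpowers g ∧ s ∈ Subgroup.zpowers g ∧ u * s = g := by
  have hp : p.Prime := Fact.out
  obtain ⟨a, n, h1, h2⟩ := Nat.exists_eq_pow_mul_and_not_dvd (orderOf_pos g).ne' p hp.ne_one
  have h3 : IsCoprime (n : ℤ) ((p ^ a : ℕ) : ℤ) :=
    Nat.isCoprime_iff_coprime.2 (((Nat.Prime.coprime_iff_not_dvd hp).2 h1).symm.pow_right a)
  obtain ⟨k, l, h4⟩ := h3
  have h5 : g ^ (((p ^ a : ℕ) : ℤ) * n) = 1 := by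
    rw [← Nat.cast_mul, ← h2, zpow_natCast, pow_orderOf_eq_one]
  refine ⟨g ^ (k * n), g ^ (l * (p ^ a : ℕ)), ⟨a, ?_⟩, fun h6 => h1 (h6.trans ?_), ⟨_, rfl⟩,
    ⟨_, rfl⟩, by rw [← zpow_add, h4, zpow_one]⟩
  · rw [← zpow_natCast, ← zpow_mul, mul_assoc, mul_comm (n : ℤ), mul_comm k, zpow_mul, h5,
      one_zpow]
  · refine orderOf_dvd_of_pow_eq_one ?_
    rw [← zpow_natCast, ← zpow_mul, mul_assoc, mul_comm l, zpow_mul, h5, one_zpow]

/-- An element of order divisible by `p` has a power of order `p`. -/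
lemma exists_ord (s : G) (h : p ∣ orderOf s) :
    ∃ w ∈ Subgroup.zpowers s, w ≠ 1 ∧ w ^ p = 1 := by
  have h1 := orderOf_pow_orderOf_div (orderOf_pos s).ne' h
  refine ⟨s ^ (orderOf s / p), ⟨(orderOf s / p : ℕ), zpow_natCast _ _⟩, fun e => ?_, ?_⟩
  · rw [e, orderOf_one] at h1
    exact (Fact.out : p.Prime).ne_one h1.symm
  · exact orderOf_dvd_iff_pow_eq_one.1 (dvd_of_eq h1)

/-- An element which is a `p`-element and `p`-regular is trivial. -/
lemma eq_one_of_reg {u : G} (hu : IsPElt p u) (h : ¬ p ∣ orderOf u) : u = 1 := by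
  obtain ⟨k, hk⟩ := hu
  exact orderOf_eq_one_iff.1 (Nat.Coprime.eq_one_of_dvd
    (((Nat.Prime.coprime_iff_not_dvd Fact.out).2 h).symm.pow_right k)
    (orderOf_dvd_of_pow_eq_one hk))

/-- Regular elements lie in every normal subgroup of index `p`. -/
lemma mem_of_reg {N : Subgroup G} [N.Normal] (hN : N.index = p) {s : G} (h : ¬ p ∣ orderOf s) :
    s ∈ N := by
  by_contra hs
  exact h ((pow_mem_iff hN hs _).1 (by rw [pow_orderOf_eq_one]; exact N.one_mem))

end parts

end Pool.Agent.Lib.MP_b6945b_al.Ip
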