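import Pool.Agent.Lib.MP_b6945b_al.Ip.PInt

set_option autoImplicit false

/-!
Sums of characters of a normal subgroup over commutators.
-/

namespace Pool.Agent.Lib.MP_b6945b_al.Ip

open Finset

variable {G : Type} [Group G] [Fintype G] {p : ℕ} [Fact p.Prime] {N M : Subgroup G} [N.Normal]
  [Fintype N]

/-- `T = ∑ m, ρ (α m) * ρ w * ρ m⁻¹` satisfies `T * ρ n = ρ (α n) * T` (substitute `m ↦ n * m`).
Multiply by `c n = d i * χ i n⁻¹ / |H|` and sum: the left side is `T` (`idem`), on the right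
`∑ n, c n • ρ (α n) = ∑ n, c (α⁻¹ n) • ρ n = 0` by `idem j i`, where `χ j = χ i ∘ α⁻¹`, `j ≠ i`
(`exists_equiv`). -/
theorem twist_zero {H : Type} [Group H] [Fintype H] (I : IrrData H) (i : Fin I.n) (α : H ≃* H)
    (h : ¬ ∀ y, I.χ i (α y) = I.χ i y) (w : H) : ∑ m : H, I.χ i (α m * w * m⁻¹) = 0 := by
  obtain ⟨π, hπ⟩ := exists_equiv α.symm I I
  have hne : i ≠ π i := fun e => h fun y => by
    have := (hπ i).2 (α y)
    rwa [← e, α.symm_apply_apply] at this
  have h1 : ∀ n, (∑ m : H, I.ρ i (α m * w * m⁻¹)) * I.ρ i n =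
      I.ρ i (α n) * ∑ m : H, I.ρ i (α m * w * m⁻¹) := fun n => by
    rw [sum_mul, mul_sum, ← Equiv.sum_comp (Equiv.mulLeft n)]
    refine sum_congr rfl fun m _ => ?_
    rw [← map_mul, ← map_mul, Equiv.coe_mulLeft, map_mul α]
    congr 1
    group
  have h2 : ∑ n, ((I.d i : ℂ) * I.χ i n⁻¹ / Fintype.card H) • I.ρ i (α n) = 0 := by
    have h5 := I.idem (π i) i
    rw [if_neg hne, ← Equiv.sum_comp α.toEquiv] at h5
    refine (sum_congr rfl fun n _ => ?_).trans h5
    rw [(hπ i).1, (hπ i).2, map_inv, MulEquiv.toEquiv_eq_coe, EquivLike.coe_coe,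
      α.symm_apply_apply]
  have h3 : ∑ m : H, I.ρ i (α m * w * m⁻¹) = 0 := by
    have h4 := I.idem i i
    rw [if_pos rfl] at h4
    rw [← mul_one (∑ m : H, I.ρ i (α m * w * m⁻¹)), ← h4, mul_sum]
    simp only [mul_smul_comm, h1, ← smul_mul_assoc]
    rw [← sum_mul, h2, zero_mul]
  simpa only [Matrix.trace_sum, Matrix.trace_zero, IrrData.χ] using congrArg Matrix.trace h3

omit [Fintype G] in
lemma pc1_twist (I : IrrData N) (i : Fin I.n) {g : G} (hg : g ∉ St I i) (w : G) :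
    ∑ m : N, ext0 N (I.χ i) (g * m * g⁻¹ * w * (m : G)⁻¹) = 0 := by
  by_cases hw : w ∈ N
  · rw [← twist_zero I i (MulAut.conjNormal g) hg ⟨w, hw⟩]
    exact sum_congr rfl fun m _ => ext0_coe _ (MulAut.conjNormal g m * ⟨w, hw⟩ * m⁻¹)
  · refine sum_eq_zero fun m _ => ext0_neg _ fun e => hw ?_
    rwa [N.mul_mem_cancel_right (N.inv_mem m.2),
      N.mul_mem_cancel_left (Subgroup.Normal.conj_mem inferInstance _ m.2 g)] at e

omit [N.Normal] in
open Classical in
lemma pc1_coset (F : G → ℂ) (b : G) {P : G → Prop} {_ : DecidablePred P}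
    (hP : ∀ y, P y ↔ y * b⁻¹ ∈ N) : ∑ y : G, (if P y then F y else 0) = ∑ m : N, F (m * b) := by
  rw [sum_sub N fun y => F (y * b), ← Equiv.sum_comp (Equiv.mulRight b)]
  simp [hP]

/-- If `a ∉ St`: fix `x` (also not in `St`, `le_St`), write `y = m * b`,
`cm x (m * b) = (x m x⁻¹) * cm x b * m⁻¹`.  If `b ∉ St`: fix `y`, write `x = n * a`,
`cm (n * a) y = n * cm a y * (y n y⁻¹)⁻¹`, substitute.  If the middle commutator is not in `N`
all terms vanish (`cm_coset`); otherwise `twist_zero`. -/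
theorem CS_chi_zero (I : IrrData N) (i : Fin I.n) {a b : G} (h : ¬ (a ∈ St I i ∧ b ∈ St I i)) :
    CS N (fun x y => ext0 N (I.χ i) (cm x y)) a b = 0 := by
  have key : ∀ {c x : G}, c ∉ St I i → x * c⁻¹ ∈ N → x ∉ St I i := fun {c x} hc hx e =>
    hc (by simpa using mul_mem (inv_mem (le_St I i hx)) e)
  unfold CS
  rcases not_and_or.1 h with h | h
  · refine sum_eq_zero fun x _ => ?_
    by_cases hx : x * a⁻¹ ∈ N
    · refine (pc1_coset (N := N) _ b fun _ => and_iff_right hx).trans ?_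
      rw [← pc1_twist I i (key h hx) (cm x b)]
      refine sum_congr rfl fun m _ => congrArg _ ?_
      unfold cm
      group
    · simp [hx]
  · rw [sum_comm]
    refine sum_eq_zero fun y _ => ?_
    by_cases hy : y * b⁻¹ ∈ N
    · refine (pc1_coset (N := N) _ a fun _ => and_iff_left hy).trans ?_
      refine Eq.trans ?_ ((Equiv.sum_comp (MulAut.conjNormal (H := N) y).toEquiv _).trans
        (pc1_twist I i (g := y⁻¹) (fun e => key h hy (by simpa using inv_mem e)) (cm a y)))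
      refine sum_congr rfl fun m _ => congrArg _ ?_
      simp only [cm, MulEquiv.toEquiv_eq_coe, EquivLike.coe_coe, MulAut.conjNormal_apply]
      group
    · simp [hy]

omit [N.Normal] [Fintype N] in
lemma pc1_swap (t : G → G → ℂ) (a b : G) : CS N (fun x y => t y x) a b = CS N t b a := by
  unfold CS
  rw [sum_comm]
  classical
  exact sum_congr rfl fun _ _ => sum_congr rfl fun _ _ => by simp only [and_comm]

omit [N.Normal] in
lemma pc1_ee (I : IrrData N) (S : Fin I.n → Prop) (a b : G) :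
    CS N (fun x y => ee I S (cm x y)) a b = ∑ i, ind S i * (I.d i / Fintype.card N) *
      CS N (fun x y => ext0 N (I.χ i) (cm x y)) b a := by
  have h1 : ∀ x y, ee I S (cm x y) =
      ∑ i, ind S i * (I.d i / Fintype.card N) * ext0 N (I.χ i) (cm y x) := fun x y => by
    rw [← cm_inv x y]
    by_cases h : cm x y ∈ N
    · rw [ee, ext0_pos _ h, IrrData.zf]
      refine sum_congr rfl fun i _ => ?_
      rw [ext0_pos _ (N.inv_mem h), mul_assoc, div_mul_eq_mul_div]
      rfl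
    · rw [ee, ext0_neg _ h]
      exact (sum_eq_zero fun i _ => by rw [ext0_neg _ fun e => h (inv_mem_iff.1 e), mul_zero]).symm
  simp only [h1]
  rw [CS_sum]
  refine sum_congr rfl fun i _ => ?_
  rw [← pc1_swap]
  simp only [CS, mul_sum, mul_ite, mul_zero]

/-- `ee I S (cm x y) = ∑ i, ind S i * d i / |N| * ext0 N (χ i) (cm y x)` (`cm_inv`); `CS_sum`,
interchange `x` and `y`, `CS_chi_zero`. -/
theorem CS_ee_congr (I : IrrData N) {S T : Fin I.n → Prop} {a b : G}
    (h : ∀ i, a ∈ St I i → b ∈ St I i → (S i ↔ T i)) :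
    CS N (fun x y => ee I S (cm x y)) a b = CS N (fun x y => ee I T (cm x y)) a b := by
  rw [pc1_ee, pc1_ee]
  refine sum_congr rfl fun i _ => ?_
  by_cases e : b ∈ St I i ∧ a ∈ St I i
  · rw [zeb_ind_congr (h i e.2 e.1)]
  · rw [CS_chi_zero I i e, mul_zero, mul_zero]

omit [Fact p.Prime] [N.Normal] [Fintype N] in
open Classical in
lemma pch2_sum (F : G → ℂ) :
    ∑ g, tau M g * F g = ∑ a : G, ∑ b : G, if a ∈ M ∧ b ∈ M then F (cm a b) else 0 := by
  simp only [tau, Finset.sum_mul]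
  rw [Finset.sum_comm]
  refine Finset.sum_congr rfl fun a _ => ?_
  rw [Finset.sum_comm]
  refine Finset.sum_congr rfl fun b _ => ?_
  rw [Finset.sum_eq_single (cm a b)]
  · split_ifs with h
    · rw [ind_pos, one_mul]
      exact ⟨h.1, h.2, rfl⟩
    · rw [ind_neg, zero_mul]
      exact fun x => h ⟨x.1, x.2.1⟩
  · intro g _ hg
    rw [ind_neg, zero_mul]
    exact fun x => hg x.2.2.symm
  · simp

omit [Fact p.Prime] [N.Normal] in
open Classical in
lemma pch2_in (I : IrrData N) (i : Fin I.n) :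
    ∑ a : G, ∑ b : G, (if a ∈ N ∧ b ∈ N then ext0 N (I.χ i) (cm a b) else 0) =
      (Nat.card N : ℂ) ^ 2 / I.d i := by
  rw [← sum_chi_comm I i, zee_sum N _ fun a ha =>
    Finset.sum_eq_zero fun b _ => if_neg fun e => ha e.1]
  refine Finset.sum_congr rfl fun a _ => ?_
  rw [zee_sum N _ fun b hb => if_neg fun e => hb e.2]
  refine Finset.sum_congr rfl fun b _ => ?_
  rw [if_pos ⟨a.2, b.2⟩, ← ext0_coe (I.χ i) (a * b * a⁻¹ * b⁻¹)]
  rfl

omit [Fact p.Prime] in
/-- `om i (tau M) * d i = ∑ x y ∈ M, ext0 N (χ i) (cm x y)` (as `zmom_om`, `sum_tau`); the pairs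
in `M` that are not both in `N` contribute `0` (`sum_avg`, `CS_chi_zero`); `sum_chi_comm`. -/
theorem om_tau_free (hle : N ≤ M) (I : IrrData N) (i : Fin I.n) (h : St I i ⊓ M ≤ N) :
    I.om i (fun y : N => tau M y) = ((Nat.card N : ℂ) / I.d i) ^ 2 := by
  classical
  have k : ∀ {T : Subgroup G} {a x : G}, N ≤ T → x * a⁻¹ ∈ N → (x ∈ T ↔ a ∈ T) :=
    fun {T a x} hT hx => ⟨fun e => by simpa using T.inv_mem (T.mul_mem (T.inv_mem e) (hT hx)),
      fun e => by simpa using T.mul_mem (hT hx) e⟩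
  have h1 := sum_avg N (fun x y => ext0 N (I.χ i) (cm x y))
    (fun x y => (x ∈ M ∧ y ∈ M) ∧ ¬ (x ∈ N ∧ y ∈ N))
    (fun a b x y hx hy e => by
      rwa [k hle hx, k hle hy, k le_rfl hx, k le_rfl hy])
    fun a b e => CS_chi_zero I i fun f => e.2 ⟨h ⟨f.1, e.1.1⟩, h ⟨f.2, e.1.2⟩⟩
  have h2 : ∑ y : N, tau M y * I.χ i y = ∑ g : G, tau M g * ext0 N (I.χ i) g := by
    rw [zee_sum N _ fun g hg => by rw [ext0_neg _ hg, mul_zero]]
    exact Finset.sum_congr rfl fun y _ => by rw [ext0_coe]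
  have h3 : ∑ g : G, tau M g * ext0 N (I.χ i) g = (Nat.card N : ℂ) ^ 2 / I.d i := by
    refine Eq.trans ?_ ((congrArg₂ (· + ·) (pch2_in I i) h1).trans (add_zero _))
    rw [pch2_sum, ← Finset.sum_add_distrib]
    refine Finset.sum_congr rfl fun a _ => ?_
    rw [← Finset.sum_add_distrib]
    refine Finset.sum_congr rfl fun b _ => ?_
    by_cases c : a ∈ N ∧ b ∈ N
    · rw [if_pos ⟨hle c.1, hle c.2⟩, if_pos c, if_neg fun e => e.2 c, add_zero]
    · rw [if_neg c, zero_add]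
      by_cases c' : a ∈ M ∧ b ∈ M
      · rw [if_pos c', if_pos ⟨c', c⟩]
      · rw [if_neg c', if_neg fun e => c' e.1]
  rw [IrrData.om, h2, h3, div_div, div_pow, sq (I.d i : ℂ)]

omit [Fintype G] [N.Normal] in
lemma pc3_zf (I : IrrData N) (i : Fin I.n) (y : N) :
    I.zf (ind (· = i)) y = (I.d i : ℂ) * I.χ i y⁻¹ / Fintype.card N := by
  rw [IrrData.zf, sum_eq_single i (fun j _ hj => by rw [ind_neg (S := (· = i)) hj, zero_mul])
    fun e => (e (mem_univ i)).elim, ind_pos (S := (· = i)) rfl, one_mul]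

omit [N.Normal] in
lemma pc3_conv (I : IrrData N) {S : Fin I.n → Prop} {i : Fin I.n} (hi : S i) :
    conv (ee I (· = i)) (ee I S) = ee I (· = i) := by
  rw [ee, ee, ← ext0_conv, ← I.zf_mul]
  refine congrArg (fun a => ext0 N (I.zf a)) (funext fun j => ?_)
  by_cases e : j = i
  · rw [Pi.mul_apply, ind_pos (S := S) (e ▸ hi), mul_one]
  · rw [Pi.mul_apply, ind_neg (S := (· = i)) e, zero_mul]

omit [Fintype G] [Fintype N] in
lemma pc3_index (hc : Fac p N M) : ∃ k, Nat.card M = Nat.card N * k ∧ p ∣ k := by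
  refine ⟨(N.subgroupOf M).index, ?_, ?_⟩
  · rw [← Subgroup.card_mul_index (N.subgroupOf M),
      Nat.card_congr (Subgroup.subgroupOfEquivOfLe hc.le).toEquiv]
  · obtain ⟨v, hv, hn⟩ := SetLike.not_le_iff_exists.1 hc.ne
    have h1 : orderOf ((⟨v, hv⟩ : M) : M ⧸ N.subgroupOf M) = p := by
      refine orderOf_eq_prime ?_ fun e => hn ((QuotientGroup.eq_one_iff (⟨v, hv⟩ : M)).1 e)
      rw [← QuotientGroup.mk_pow, QuotientGroup.eq_one_iff]
      exact hc.pow v hv
    exact h1 ▸ orderOf_dvd_natCard _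

lemma pc3_arith {d r k : ℕ} (h0 : d * r * k ≠ 0) (hk : p ∣ k)
    (h : p ^ ((d * r * k).factorization p * 2) ∣ d ^ 2 * k) : False := by
  have hp : p.Prime := Fact.out
  have hd : d ≠ 0 := fun e => h0 (by rw [e, zero_mul, zero_mul])
  have hr : r ≠ 0 := fun e => h0 (by rw [e, mul_zero, zero_mul])
  have hk0 : k ≠ 0 := fun e => h0 (by rw [e, mul_zero])
  have h1 := (hp.pow_dvd_iff_le_factorization (mul_ne_zero (pow_ne_zero 2 hd) hk0)).1 h
  have h2 := (hp.dvd_iff_one_le_factorization hk0).1 hk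
  rw [Nat.factorization_mul (mul_ne_zero hd hr) hk0, Nat.factorization_mul hd hr,
    Nat.factorization_mul (pow_ne_zero 2 hd) hk0, Nat.factorization_pow] at h1
  simp only [Finsupp.add_apply, Finsupp.smul_apply, smul_eq_mul] at h1
  omega

/-- Degrees.  Let `J : IrrData M`, `E = ee I (· = i)`, `E' y = E y` on `M`: a class function, as
`M ≤ St I i`; `ext0 M E' = E`.  `conv E E = E`, `conv E (ee I S) = E` (`ext0_conv`, `zf_mul`), so
`w j = J.om j E'` has `w j * w j = w j` and `w j * ind (Dz p J) j = w j` (`om_conv`, `om_zf`,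
`EE_eq`).  Value at `1` (`zf_om`): `d i ^ 2 * |M| = |N| * ∑ j with w j = 1, d j ^ 2`, so
`p ^ (2 * a) * |N|` divides `d i ^ 2 * |M|` with `a = v_p |M|`, while `d i ∣ |N|` (`exists_cod`)
and `|M| = |N| * k` with `p ∣ k` (an element of order `p` in `M ⧸ N.subgroupOf M`). -/
theorem not_le_St (hc : Fac p N M) (I : IrrData N) {S : Fin I.n → Prop}
    (h : EE p M = ee I S) {i : Fin I.n} (hi : S i) : ¬ M ≤ St I i := by
  classical
  intro hM
  let _ : Fintype M := Fintype.ofFinite M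
  obtain ⟨J⟩ := exists_irrData M
  let E : M → ℂ := fun y => ee I (· = i) y
  have hcf : IsCF E := fun a g => by
    change ext0 N _ ((a : G) * g * (a : G)⁻¹) = ext0 N _ (g : G)
    by_cases hg : (g : G) ∈ N
    · rw [ext0_pos _ hg, ext0_pos _ ((zeb_N N a g).2 hg), pc3_zf, pc3_zf,
        ← hM a.2 (⟨g, hg⟩ : N)⁻¹, map_inv]
      rfl
    · rw [ext0_neg _ hg, ext0_neg _ fun e => hg ((zeb_N N a g).1 e)]
  have hext : ext0 M E = ee I (· = i) := funext fun g => by
    by_cases hg : g ∈ M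
    · exact ext0_pos _ hg
    · rw [ext0_neg _ hg, ee, ext0_neg _ fun e => hg (hc.le e)]
  have h1 : conv E E = E := funext fun y => by
    rw [← ext0_coe (conv E E), ext0_conv, hext, pc3_conv I (S := (· = i)) rfl]
  have h2 : conv E (e1 p J) = E := funext fun y => by
    rw [← ext0_coe (conv E _), ext0_conv, hext, ← EE_eq, h, pc3_conv I hi]
  have h3 : ∀ j, J.om j E = if J.om j E = 1 ∧ Dz p J j then 1 else 0 := fun j => by
    have a1 := J.om_conv j hcf hcf
    have a2 := J.om_conv j hcf (J.zf_cf (ind (Dz p J)))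
    rw [h1] at a1
    rw [show conv E (J.zf (ind (Dz p J))) = E from h2, J.om_zf] at a2
    split_ifs with e
    · exact e.1
    · by_contra e0
      refine e ⟨(mul_left_cancel₀ e0 (by rw [← a1, mul_one])).symm, by_contra fun e2 => e0 ?_⟩
      rw [a2, ind_neg e2, mul_zero]
  obtain ⟨r, hr, -⟩ := exists_cod (p := p) I i
  obtain ⟨k, hk, hpk⟩ := pc3_index hc
  have hN : (Nat.card N : ℂ) ≠ 0 := Nat.cast_ne_zero.2 Nat.card_pos.ne'
  have hM0 : (Nat.card M : ℂ) ≠ 0 := Nat.cast_ne_zero.2 Nat.card_pos.ne'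
  have h4 : I.d i ^ 2 * k = ∑ j with J.om j E = 1 ∧ Dz p J j, J.d j ^ 2 := by
    have a1 : E 1 = (I.d i : ℂ) * I.d i / Nat.card N := by
      change ext0 N _ ((1 : N) : G) = _
      rw [ext0_coe, pc3_zf, inv_one, I.χ_one, Nat.card_eq_fintype_card]
    have a2 : E 1 = (∑ j with J.om j E = 1 ∧ Dz p J j, (J.d j : ℂ) ^ 2) / Nat.card M := by
      rw [← congrFun (J.zf_om hcf) 1, IrrData.zf, sum_filter, sum_div]
      refine sum_congr rfl fun j _ => ?_
      rw [inv_one, J.χ_one, Nat.card_eq_fintype_card]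
      split_ifs with e
      · rw [e.1, one_mul, sq]
      · rw [h3 j, if_neg e, zero_mul, zero_div]
    rw [a1, div_eq_div_iff hN hM0, hk] at a2
    refine Nat.cast_injective (R := ℂ) (mul_right_cancel₀ hN ?_)
    push_cast at a2 ⊢
    rw [← a2]
    ring
  refine pc3_arith (d := I.d i) (r := r) (by rw [← hr, ← hk]; exact Nat.card_pos.ne') hpk ?_
  rw [← hr, ← hk, h4, pow_mul]
  exact dvd_sum fun j hj => pow_dvd_pow_of_dvd (mem_filter.1 hj).2.2 2

/-- `ext0_interp` for `tau ⊤` on `M` and `fun y : N => tau M y` on `N` (`ext0_tau`; `tau M`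
vanishes outside `N` by `hc.comm`, `zeb_tau_conj`), `Φ t = ∃ r : ℕ, ¬ p ∣ r ∧ t = r` as in
`zz_index` (`om_tau`, `exists_cod`, `zmom_phi`); `om_tau_free`, `not_le_St`. -/
theorem EE_chief (hc : Fac p N M) (I : IrrData N) : ∃ S : Fin I.n → Prop, EE p M = ee I S ∧
    ∀ i, (S i → ¬ M ≤ St I i) ∧ (St I i ⊓ M ≤ N → (S i ↔ Dz p I i)) := by
  let : Fintype M := Fintype.ofFinite M
  obtain ⟨J⟩ := exists_irrData M
  have hp : p.Prime := Fact.out
  have hT : IsCF fun y : N => tau M y := fun h g => zeb_tau_conj (g := (h : G)) (fun y => by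
    rw [M.mul_mem_cancel_right (M.inv_mem (hc.le h.2)), M.mul_mem_cancel_left (hc.le h.2)]) (g : G)
  have h1 : ext0 M (tau (⊤ : Subgroup M)) = ext0 N fun y : N => tau M y := by
    rw [ext0_tau]
    funext g
    by_cases hg : g ∈ N
    · exact (ext0_pos (fun y : N => tau M y) hg).symm
    · rw [ext0_neg _ hg]
      refine Finset.sum_eq_zero fun a _ => Finset.sum_eq_zero fun b _ => ind_neg ?_
      exact fun h => hg (h.2.2 ▸ hc.comm a h.1 b h.2.1)
  have h2 := ext0_interp J I tau_cf hT h1 fun t => ∃ r : ℕ, ¬ p ∣ r ∧ t = r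
  have h3 : (fun j => ∃ r : ℕ, ¬ p ∣ r ∧ J.om j (tau (⊤ : Subgroup M)) = r) = Dz p J := by
    funext j
    obtain ⟨r, hr, hd⟩ := exists_cod (p := p) J j
    rw [om_tau, hr, Nat.cast_mul, mul_div_cancel_left₀ _ (J.d_ne j), ← Nat.cast_pow, zmom_phi, hd,
      hp.prime.dvd_pow_iff_dvd two_ne_zero]
  rw [h3] at h2
  have h4 := (EE_eq (p := p) M J).trans h2
  refine ⟨_, h4, fun i => ⟨not_le_St hc I h4, fun h => ?_⟩⟩
  obtain ⟨r, hr, hd⟩ := exists_cod (p := p) I i
  rw [om_tau_free hc.le I i h, hr, Nat.cast_mul, mul_div_cancel_left₀ _ (I.d_ne i),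
    ← Nat.cast_pow, zmom_phi, hd, hp.prime.dvd_pow_iff_dvd two_ne_zero]

end Pool.Agent.Lib.MP_b6945b_al.Ip
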