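import Pool.Agent.Lib.MP_b6945b_al.Ip.PInv

set_option autoImplicit false

/-!
Invariant functions on a coset, cut by an invariant idempotent.
-/

namespace Pool.Agent.Lib.MP_b6945b_al.Ip

open Finset

variable {G : Type} [Group G] [Fintype G] {p : ℕ} [Fact p.Prime] {N : Subgroup G} [N.Normal]
  [Fintype N]

lemma conv_assoc' (f g h : G → ℂ) : conv (conv f g) h = conv f (conv g h) := by
  funext x
  simp only [conv, sum_mul, mul_sum]
  rw [sum_comm]
  refine sum_congr rfl fun z _ => ?_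
  rw [← Equiv.sum_comp (Equiv.mulLeft z)]
  refine sum_congr rfl fun w _ => ?_
  rw [Equiv.coe_mulLeft, inv_mul_cancel_left, mul_inv_rev, mul_assoc, mul_assoc]

omit [N.Normal] [Fintype N] in
/-- `z y * f (y⁻¹ * x)`: substitute `y ↦ ..`, use `f (y⁻¹ * x) = f (x * y⁻¹)` for `y ∈ N`. -/
lemma conv_comm' {z f : G → ℂ} (hz : ∀ x, x ∉ N → z x = 0)
    (hf : ∀ n ∈ N, ∀ x, f (n * x * n⁻¹) = f x) : conv z f = conv f z := by
  funext x
  rw [conv, conv, ← Equiv.sum_comp ((Equiv.inv G).trans (Equiv.mulLeft x))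
    fun y => f y * z (y⁻¹ * x)]
  refine sum_congr rfl fun y _ => ?_
  change _ = f (x * y⁻¹) * z ((x * y⁻¹)⁻¹ * x)
  rw [show (x * y⁻¹)⁻¹ * x = y by group]
  by_cases hy : y ∈ N
  · rw [← hf y hy (y⁻¹ * x), mul_inv_cancel_left, mul_comm]
  · rw [hz y hy, zero_mul, mul_zero]

omit [N.Normal] in
/-- `z = ext0 N z'` with a class function `z' = zf (om · z')`; `ext0_conv`, `zf_mul`, `zf_smul`. -/
lemma conv_ee_cf (I : IrrData N) (i : Fin I.n) {z : G → ℂ} (hz : ∀ x, x ∉ N → z x = 0)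
    (hc : ∀ n ∈ N, ∀ x, z (n * x * n⁻¹) = z x) :
    ∃ c : ℂ, conv (ee I (· = i)) z = c • ee I (· = i) := by
  have h1 : IsCF fun y : N => z y := fun h g => hc h h.2 g
  have h2 : z = ext0 N fun y : N => z y := funext fun x => by
    by_cases hx : x ∈ N
    · rw [ext0_pos _ hx]
    · rw [ext0_neg _ hx, hz x hx]
  have h3 : (ind (· = i) * fun j => I.om j fun y : N => z y) =
      (I.om i fun y : N => z y) • ind (· = i) := funext fun j => by
    by_cases hj : j = i
    · subst hj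
      rw [Pi.mul_apply, Pi.smul_apply, smul_eq_mul, mul_comm]
    · rw [Pi.mul_apply, Pi.smul_apply, ind_neg (S := (· = i)) hj, zero_mul, smul_zero]
  refine ⟨I.om i fun y : N => z y, ?_⟩
  have h4 : conv (ee I (· = i)) (ext0 N (I.zf fun j => I.om j fun y : N => z y)) =
      (I.om i fun y : N => z y) • ee I (· = i) := by
    rw [ee, ← ext0_conv, ← I.zf_mul, h3, I.zf_smul]
    funext x
    by_cases hx : x ∈ N
    · rw [Pi.smul_apply, ext0_pos _ hx, ext0_pos _ hx, Pi.smul_apply]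
    · rw [Pi.smul_apply, ext0_neg _ hx, ext0_neg _ hx, smul_zero]
  rwa [I.zf_om h1, ← h2] at h4

omit [Fintype N] in
lemma pcb_supp {b c : G} {f g : G → ℂ} (hf : ∀ x, x * b⁻¹ ∉ N → f x = 0)
    (hg : ∀ x, x * c⁻¹ ∉ N → g x = 0) (x : G) (hx : x * (b * c)⁻¹ ∉ N) : conv f g x = 0 := by
  refine sum_eq_zero fun y _ => ?_
  by_contra h
  have h1 : y * b⁻¹ ∈ N := by_contra fun e => h (by rw [hf y e, zero_mul])
  have h2 : y⁻¹ * x * c⁻¹ ∈ N := by_contra fun e => h (by rw [hg _ e, mul_zero])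
  refine hx ?_
  convert N.mul_mem (Subgroup.Normal.conj_mem inferInstance _ h2 y) h1 using 1
  group

lemma pcb_conj (v : G) (f g : G → ℂ) (x : G) : conv f g (v * x * v⁻¹) =
    conv (fun y => f (v * y * v⁻¹)) (fun y => g (v * y * v⁻¹)) x := by
  unfold conv
  rw [← Equiv.sum_comp (MulAut.conj v).toEquiv]
  refine sum_congr rfl fun y _ => ?_
  change f (v * y * v⁻¹) * g ((v * y * v⁻¹)⁻¹ * _) = _
  congr 2
  group

omit [N.Normal] [Fintype N] in
lemma pcb_inv {f g : G → ℂ} (hf : ∀ n ∈ N, ∀ x, f (n * x * n⁻¹) = f x)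
    (hg : ∀ n ∈ N, ∀ x, g (n * x * n⁻¹) = g x) :
    ∀ n ∈ N, ∀ x, conv f g (n * x * n⁻¹) = conv f g x := fun n hn x => by
  rw [pcb_conj, funext (hf n hn), funext (hg n hn)]

lemma pcb_smul_left (c : ℂ) (f g : G → ℂ) : conv (c • f) g = c • conv f g := by
  funext x
  simp only [conv, Pi.smul_apply, smul_eq_mul, mul_sum, mul_assoc]

lemma pcb_smul_right (c : ℂ) (f g : G → ℂ) : conv f (c • g) = c • conv f g := by
  funext x
  simp only [conv, Pi.smul_apply, smul_eq_mul, mul_sum, mul_left_comm]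

/-- Write `e = ee I (· = i)`, `u = conv e f`, `σ g x = g (v * x * v⁻¹)` (multiplicative for
`conv`, `σ e = e` by `ee_conj`), `w x = star (u x⁻¹)`.  `u` and `σ u` vanish outside the coset of
`a`, are invariant under `N`, and `e u = u = u e` (`ee_mul`, `conv_comm'`).  Let `u ≠ 0`.  `w u`,
`(σ u) w` and `cpow u (m + 1)`-type powers `u ^ m` vanish outside `N` and are invariant, so
`w u = c e` (as `w u = (w u) e = e (w u)`), `(σ u) w = l e`, `u ^ m = k e` (`conv_ee_cf`; `m ≠ 0`).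
`c ≠ 0` as `(w u) 1 = ∑ |u x| ^ 2`.  `c σ u = (σ u) w u = l u`, so `σ u = λ u`; `λ ^ p = 1` as
`v ^ p ∈ N`; `w ^ m u ^ m = c ^ m e ≠ 0`, so `u ^ m ≠ 0` and `λ ^ m = 1`.  (One may work in
`MonoidAlgebra ℂ G` or state the last part for an abstract algebra.) -/
theorem conv_ee_inv (I : IrrData N) (i : Fin I.n) {a v : G} {m : ℕ} (hm : ¬ p ∣ m)
    (ha : a ^ m ∈ N) (hv : v ^ p ∈ N) (hav : cm a v ∈ N) (hi : v ∈ St I i) {f : G → ℂ}
    (h1 : ∀ x, x * a⁻¹ ∉ N → f x = 0) (h2 : ∀ n ∈ N, ∀ x, f (n * x * n⁻¹) = f x) (x : G) :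
    conv (ee I (· = i)) f (v * x * v⁻¹) = conv (ee I (· = i)) f x := by
  have hN : N.Normal := inferInstance
  have cf := fun z => conv_ee_cf I i (z := z)
  have e0 : ∀ x, x ∉ N → ee I (· = i) x = 0 := fun x => ee_supp I _
  have e1 : ∀ n ∈ N, ∀ x, ee I (· = i) (n * x * n⁻¹) = ee I (· = i) x :=
    fun n hn => ee_conj I (le_St I i hn)
  have e2 := funext (ee_conj I hi)
  have e3 : conv (ee I (· = i)) (ee I (· = i)) = ee I (· = i) := by simp only [ee_mul, and_self]
  generalize ee I (· = i) = e at *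
  have e4 : ∀ x, x * (1 : G)⁻¹ ∉ N → e x = 0 := by simpa using e0
  have u1 : ∀ x, x * a⁻¹ ∉ N → conv e f x = 0 := by simpa using pcb_supp e4 h1
  have u2 := pcb_inv e1 h2
  have u3 : conv e (conv e f) = conv e f := by rw [← conv_assoc', e3]
  have u4 : e = 0 → conv e f = 0 := fun h => by
    funext x
    simp [h, conv]
  generalize conv e f = u at *
  by_cases u0 : u = 0
  · simp [u0]
  let w : G → ℂ := fun x => star (u x⁻¹)
  let s : G → ℂ := fun x => u (v * x * v⁻¹)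
  have w1 : ∀ x, x * a⁻¹⁻¹ ∉ N → w x = 0 := fun x hx => star_eq_zero.2 (u1 _ fun h => hx (by
    simpa [mul_assoc] using hN.conj_mem _ (N.inv_mem h) a⁻¹))
  have w2 : ∀ n ∈ N, ∀ x, w (n * x * n⁻¹) = w x := fun n hn x =>
    congrArg star ((congrArg u (by group)).trans (u2 n hn x⁻¹))
  have s1 : ∀ x, x * a⁻¹ ∉ N → s x = 0 := fun x hx => u1 _ fun h => hx (by
    convert hN.conj_mem _ (N.mul_mem h hav) v⁻¹ using 1
    unfold cm
    group)
  have s2 : ∀ n ∈ N, ∀ x, s (n * x * n⁻¹) = s x := fun n hn x =>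
    (congrArg u (by group)).trans (u2 _ (hN.conj_mem n hn v) (v * x * v⁻¹))
  have s3 : conv e s = s := funext fun x => by
    rw [← e2]
    exact (pcb_conj v e u x).symm.trans (congrFun u3 _)
  obtain ⟨c, hc⟩ := cf (conv w u) (by simpa using pcb_supp w1 u1) (pcb_inv w2 u2)
  rw [conv_comm' e0 (pcb_inv w2 u2), conv_assoc', ← conv_comm' e0 u2, u3] at hc
  obtain ⟨l, hl⟩ := cf (conv s w) (by simpa using pcb_supp s1 w1) (pcb_inv s2 w2)
  rw [← conv_assoc', s3] at hl
  have c0 : c ≠ 0 := by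
    rintro rfl
    have h := congrFun hc 1
    simp only [conv, w, mul_one, zero_smul, Pi.zero_apply, Complex.star_def,
      ← Complex.normSq_eq_conj_mul_self] at h
    have h' : ∑ y : G, Complex.normSq (u y⁻¹) = 0 := by exact_mod_cast h
    refine u0 (funext fun y => ?_)
    simpa using (sum_eq_zero_iff_of_nonneg fun y _ => Complex.normSq_nonneg _).1 h' y⁻¹
      (mem_univ _)
  have hs : s = (l / c) • u := by
    have h := conv_assoc' s w u
    rw [hc, hl, pcb_smul_left, pcb_smul_right, u3, ← conv_comm' e0 s2, s3] at h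
    rw [div_eq_inv_mul, mul_smul, h, inv_smul_smul₀ c0]
  generalize l / c = t at hs
  have t1 : t ^ p = 1 := by
    have h : ∀ (j : ℕ) (x : G), u (v ^ j * x * (v ^ j)⁻¹) = t ^ j * u x := fun j => by
      induction j with
      | zero => simp
      | succ j ih =>
        intro x
        rw [pow_succ' t, mul_assoc t, ← ih]
        exact (congrArg u (by rw [pow_succ']; group)).trans (congrFun hs (v ^ j * x * (v ^ j)⁻¹))
    obtain ⟨y, hy⟩ := Function.ne_iff.1 u0
    exact mul_right_cancel₀ hy ((h p y).symm.trans ((u2 _ hv y).trans (one_mul _).symm))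
  have hU : ∀ k : ℕ, ∃ U : G → ℂ, U ≠ 0 ∧ (∀ x, x * (a ^ k)⁻¹ ∉ N → U x = 0) ∧
      (∀ n ∈ N, ∀ x, U (n * x * n⁻¹) = U x) ∧ conv e U = U ∧
      (fun x => U (v * x * v⁻¹)) = t ^ k • U := fun k => by
    induction k with
    | zero => exact ⟨e, mt u4 u0, by simpa using e0, e1, e3, by simpa using e2⟩
    | succ k ih =>
      obtain ⟨U, a0, a1, a2, a3, a4⟩ := ih
      refine ⟨conv u U, fun h => a0 ?_, pow_succ' a k ▸ pcb_supp u1 a1, pcb_inv u2 a2,
        by rw [← conv_assoc', u3], funext fun x => ?_⟩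
      · have h' := conv_assoc' w u U
        rw [hc, pcb_smul_left, a3, h, ← zero_smul ℂ U, pcb_smul_right, zero_smul] at h'
        exact (smul_eq_zero.1 h').resolve_left c0
      · rw [pcb_conj, a4, pcb_smul_right, pow_succ, mul_smul, ← pcb_smul_left t, ← hs]
  obtain ⟨U, a0, a1, a2, a3, a4⟩ := hU m
  obtain ⟨k, hk⟩ := cf U (fun x hx => a1 x fun h => hx (by simpa using N.mul_mem h ha)) a2
  have t2 : t ^ m = 1 := by
    refine smul_left_injective ℂ a0 (a4.symm.trans ?_)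
    rw [← a3, hk]
    beta_reduce
    rw [one_smul]
    exact congrArg (k • ·) e2
  have t3 : t = 1 := (pow_eq_one_iff_of_coprime
    ((Nat.Prime.coprime_iff_not_dvd Fact.out).2 hm)).1 ⟨t1, t2⟩
  simpa [t3] using congrFun hs x

end Pool.Agent.Lib.MP_b6945b_al.Ip
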