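import Pool.Agent.Lib.MP_b6945b_al.Ip.PDefs

set_option autoImplicit false

/-!
The complement formula for the Moebius function of invariant `p`-subgroups.
-/

namespace Pool.Agent.Lib.MP_b6945b_al.Ip

open Finset

variable {G : Type} [Group G] {p : ℕ}

/-- The normaliser of a subgroup. -/
abbrev Nr (P : Subgroup G) : Subgroup G := Subgroup.normalizer (P : Set G)

/-- The centraliser of a subgroup. -/
abbrev Cr (P : Subgroup G) : Subgroup G := Subgroup.centralizer (P : Set G)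

lemma nr_inf {A B : Subgroup G} {g : G} (hA : g ∈ Nr A) (hB : g ∈ Nr B) : g ∈ Nr (A ⊓ B) :=
  Subgroup.inf_normalizer_le_normalizer_inf ⟨hA, hB⟩

lemma nr_sup {A B : Subgroup G} {g : G} (hA : g ∈ Nr A) (hB : g ∈ Nr B) : g ∈ Nr (A ⊔ B) :=
  Subgroup.normalizer_inf_normalizer_le_normalizer_sup A B ⟨hA, hB⟩

lemma nr_cr {A : Subgroup G} {g : G} (hA : g ∈ Nr A) : g ∈ Nr (Cr A) := by
  have key : ∀ g ∈ Nr A, ∀ x ∈ Cr A, g * x * g⁻¹ ∈ Cr A := fun g hg x hx a ha => by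
    have h := hx _ ((Subgroup.mem_normalizer_iff''.1 hg a).1 ha)
    calc a * (g * x * g⁻¹) = g * (g⁻¹ * a * g * x) * g⁻¹ := by group
      _ = g * (x * (g⁻¹ * a * g)) * g⁻¹ := by rw [h]
      _ = _ := by group
  refine Subgroup.mem_normalizer_iff.2 fun x => ⟨key g hA x, fun h => ?_⟩
  simpa [mul_assoc] using key g⁻¹ (inv_mem hA) _ h

lemma cr_sup (A B : Subgroup G) : Cr (A ⊔ B) = Cr A ⊓ Cr B :=
  le_antisymm (le_inf (Subgroup.centralizer_le (SetLike.coe_subset_coe.2 le_sup_left))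
    (Subgroup.centralizer_le (SetLike.coe_subset_coe.2 le_sup_right)))
    (Subgroup.le_centralizer_iff.1 (sup_le (Subgroup.le_centralizer_iff.1 inf_le_left)
      (Subgroup.le_centralizer_iff.1 inf_le_right)))

lemma cr_bot : Cr (⊥ : Subgroup G) = ⊤ :=
  top_le_iff.1 (Subgroup.le_centralizer_iff.1 bot_le)

lemma cr_le_nr {A B : Subgroup G} (h : A ≤ B) : Cr B ≤ Nr A :=
  (Subgroup.centralizer_le (SetLike.coe_subset_coe.2 h)).trans
    (Subgroup.centralizer_le_normalizer _)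

lemma KP.bot (K : Set G) : KP p K ⊥ :=
  ⟨IsPGroup.of_bot, fun g _ => by rw [Subgroup.normalizer_eq_top]; trivial⟩

lemma KP.sup {K : Set G} {Q R : Subgroup G} (hQ : KP p K Q) (hR : KP p K R) (h : R ≤ Cr Q) :
    KP p K (Q ⊔ R) :=
  ⟨hQ.1.to_sup_of_normal_left' hR.1 (h.trans (cr_le_nr le_rfl)),
    fun _ hk => nr_sup (hQ.2 hk) (hR.2 hk)⟩

/-- A `p`-group normalising a nontrivial `p`-group centralises a nontrivial element. -/
lemma inf_cr_ne [Finite G] [Fact p.Prime] {A Q : Subgroup G} (hA : IsPGroup p A)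
    (hQ : IsPGroup p Q) (h : Q ≤ Nr A) (h0 : A ≠ ⊥) : A ⊓ Cr Q ≠ ⊥ := by
  let _ : MulAction Q A := MulAction.compHom A
    (A.normalizerMonoidHom.comp (Subgroup.inclusion h))
  have h1 : p ∣ Nat.card A := by
    obtain ⟨n, hn⟩ := IsPGroup.iff_card.1 hA
    rcases n with _ | n
    · exact absurd (Subgroup.card_eq_one.1 hn) h0
    · exact hn ▸ dvd_pow_self p n.succ_ne_zero
  obtain ⟨b, hb, h2⟩ := hQ.exists_fixed_point_of_prime_dvd_card_of_fixed_point A h1 (a := 1)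
    fun q => map_one (A.normalizerMonoidHom (Subgroup.inclusion h q))
  intro e
  refine h2 (Subtype.ext ((Subgroup.eq_bot_iff_forall _).1 e b ⟨b.2, fun q hq => ?_⟩).symm)
  exact mul_inv_eq_iff_eq_mul.1 (congrArg Subtype.val (hb ⟨q, hq⟩))

variable [Fintype G]

open Classical in
lemma mu_unique_le {K : Set G} (T : Subgroup G) (ν : Subgroup G → ℤ)
    (hν : ∀ Q, KP p K Q → Q ≤ T → ∑ R : Subgroup G, (if KP p K R ∧ R ≤ Q then ν R else 0) =
      if Q = ⊥ then 1 else 0) {Q : Subgroup G} (hQ : KP p K Q) (hT : Q ≤ T) :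
    ν Q = mu p K Q := by
  induction Q using WellFoundedLT.induction with
  | ind Q ih =>
  have h1 := (hν Q hQ hT).trans ((eK_self hQ).symm.trans (eK_eq_sum K Q))
  rw [← Finset.add_sum_erase _ _ (Finset.mem_univ Q), ← Finset.add_sum_erase _ _
    (Finset.mem_univ Q), if_pos ⟨hQ, le_rfl⟩, if_pos ⟨hQ, le_rfl⟩] at h1
  rw [Finset.sum_congr rfl fun R hR => if_ctx_congr Iff.rfl
    (fun a => ih R (lt_of_le_of_ne a.2 (Finset.ne_of_mem_erase hR)) a.1 (a.2.trans hT))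
      fun _ => rfl] at h1
  exact add_right_cancel h1

lemma mu_congr {K K' : Set G} {Q : Subgroup G} (h : ∀ P ≤ Q, K ⊆ Nr P ↔ K' ⊆ Nr P) :
    mu p K Q = mu p K' Q := by
  classical
  refine Finset.sum_congr rfl fun σ _ => @if_congr _ _ _ (_) (_) _ _ _ _
    (and_congr_right fun _ => and_congr_left fun e => ?_) rfl rfl
  have h1 : ∀ P ∈ σ, K ⊆ Nr P ↔ K' ⊆ Nr P := fun P hP =>
    h P ((Finset.le_sup (f := id) hP).trans e.le)
  exact ⟨fun a g hg => mem_stab.2 fun P hP => (h1 P hP).1 (fun _ hk => mem_stab.1 (a hk) P hP) hg,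
    fun a g hg => mem_stab.2 fun P hP => (h1 P hP).2 (fun _ hk => mem_stab.1 (a hk) P hP) hg⟩

lemma mu_bot (K : Set G) : mu p K ⊥ = 1 := by
  classical
  have h := (eK_eq_sum K ⊥).symm.trans (eK_self (p := p) (KP.bot K))
  rwa [Finset.sum_eq_single ⊥ (fun Q _ h => if_neg fun a => h (le_bot_iff.1 a.2))
    fun h => absurd (mem_univ _) h, if_pos ⟨KP.bot K, le_rfl⟩, if_pos rfl] at h

lemma mu_simple {K : Set G} {Q : Subgroup G} (hQ : KP p K Q) (h0 : Q ≠ ⊥)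
    (h : ∀ P ≤ Q, K ⊆ Nr P → P = ⊥ ∨ P = Q) : mu p K Q = -1 := by
  classical
  have h1 := (eK_eq_sum K Q).symm.trans (eK_self (p := p) hQ)
  rw [Finset.sum_eq_add ⊥ Q h0.symm (fun P _ e => if_neg fun a => (h P a.2 a.1.2).elim e.1 e.2)
    (fun e => absurd (mem_univ _) e) fun e => absurd (mem_univ _) e,
    if_pos ⟨KP.bot K, bot_le⟩, if_pos ⟨hQ, le_rfl⟩, if_neg h0, mu_bot] at h1
  linarith

open Classical in
lemma crapo_sum {A : Type} [CommRing A] (K : Set G) (T M : Subgroup G) (F : Subgroup G → A) :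
    ∑ P : Subgroup G, (if KP p K P ∧ P ≤ T then
      ((∑ Q : Subgroup G, ∑ R : Subgroup G, if Q ⊔ R = P then (if (KP p K Q ∧ Q ⊓ M = ⊥) ∧
        KP p K R ∧ R ≤ M ⊓ Cr Q then mu p K Q * mu p K R else 0) else 0 : ℤ) : A) * F P else 0) =
    ∑ Q : Subgroup G, if KP p K Q ∧ Q ≤ T ∧ Q ⊓ M = ⊥ then (mu p K Q : A) *
      ∑ R : Subgroup G, if KP p K R ∧ R ≤ T ⊓ M ⊓ Cr Q then (mu p K R : A) * F (Q ⊔ R) else 0
      else 0 := by
  have h1 : ∀ P : Subgroup G, (if KP p K P ∧ P ≤ T then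
      ((∑ Q : Subgroup G, ∑ R : Subgroup G, if Q ⊔ R = P then (if (KP p K Q ∧ Q ⊓ M = ⊥) ∧
        KP p K R ∧ R ≤ M ⊓ Cr Q then mu p K Q * mu p K R else 0) else 0 : ℤ) : A) * F P else 0) =
      ∑ Q : Subgroup G, ∑ R : Subgroup G, if Q ⊔ R = P then
        (if (KP p K Q ∧ Q ≤ T ∧ Q ⊓ M = ⊥) ∧ KP p K R ∧ R ≤ T ⊓ M ⊓ Cr Q then
          (mu p K Q : A) * ((mu p K R : A) * F (Q ⊔ R)) else 0) else 0 := by
    intro P
    split_ifs with h
    · push_cast
      simp only [Finset.sum_mul]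
      refine Finset.sum_congr rfl fun Q _ => Finset.sum_congr rfl fun R _ => ?_
      by_cases e : Q ⊔ R = P
      · subst e
        rw [if_pos rfl, if_pos rfl, ite_mul, zero_mul, mul_assoc]
        exact if_congr ⟨fun a => ⟨⟨a.1.1, le_sup_left.trans h.2, a.1.2⟩, a.2.1,
          le_inf (le_inf (le_sup_right.trans h.2) (a.2.2.trans inf_le_left))
            (a.2.2.trans inf_le_right)⟩,
          fun a => ⟨⟨a.1.1, a.1.2.2⟩, a.2.1, a.2.2.trans (inf_le_inf_right _ inf_le_right)⟩⟩ rfl rfl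
      · rw [if_neg e, if_neg e, zero_mul]
    · refine (Finset.sum_eq_zero fun Q _ => Finset.sum_eq_zero fun R _ => ?_).symm
      split_ifs with e a
      · exact (h ⟨e ▸ a.1.1.sup a.2.1 (a.2.2.trans inf_le_right),
          e ▸ sup_le a.1.2.1 (a.2.2.trans (inf_le_left.trans inf_le_left))⟩).elim
      · rfl
      · rfl
  rw [Finset.sum_congr rfl fun P _ => h1 P, Finset.sum_comm]
  refine Finset.sum_congr rfl fun Q _ => ?_
  rw [Finset.sum_comm]
  simp only [Finset.sum_ite_eq, mem_univ, if_true]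
  split_ifs with h
  · rw [Finset.mul_sum]
    exact Finset.sum_congr rfl fun R _ => by simp only [h, true_and, and_self, mul_ite, mul_zero]
  · exact Finset.sum_eq_zero fun R _ => if_neg fun a => h a.1

open Classical in
/-- The complement formula. -/
theorem crapo [Fact p.Prime] {A : Type} [CommRing A] {K : Set G} {T M : Subgroup G}
    (hT : T ≤ Nr M) (hK : K ⊆ Nr M) (F : Subgroup G → A) :
    ∑ P : Subgroup G, (if KP p K P ∧ P ≤ T then (mu p K P : A) * F P else 0) =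
    ∑ Q : Subgroup G, if KP p K Q ∧ Q ≤ T ∧ Q ⊓ M = ⊥ then (mu p K Q : A) *
      ∑ R : Subgroup G, if KP p K R ∧ R ≤ T ⊓ M ⊓ Cr Q then (mu p K R : A) * F (Q ⊔ R) else 0
      else 0 := by
  rw [← crapo_sum]
  refine Finset.sum_congr rfl fun P _ => if_ctx_congr Iff.rfl (fun a => ?_) fun _ => rfl
  refine congrArg (fun z : ℤ => (z : A) * F P) (mu_unique_le T (fun P => ∑ Q : Subgroup G,
    ∑ R : Subgroup G, if Q ⊔ R = P then (if (KP p K Q ∧ Q ⊓ M = ⊥) ∧ KP p K R ∧ R ≤ M ⊓ Cr Q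
      then mu p K Q * mu p K R else 0) else 0) (fun B hB hBT => ?_) a.1 a.2).symm
  have h1 := crapo_sum (p := p) K B M fun _ => (1 : ℤ)
  simp only [mul_one, Int.cast_id, ← eK_eq_sum] at h1
  rw [h1]
  have h2 : ∀ Q, KP p K Q → eK p K (B ⊓ M ⊓ Cr Q) = if B ⊓ M ⊓ Cr Q = ⊥ then 1 else 0 :=
    fun Q hQ => eK_self ⟨hB.1.to_inf_left.to_inf_left,
      fun _ hk => nr_inf (nr_inf (hB.2 hk) (hK hk)) (nr_cr (hQ.2 hk))⟩
  by_cases e : B ⊓ M = ⊥
  · rw [← eK_self hB, eK_eq_sum]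
    refine Finset.sum_congr rfl fun Q _ => if_ctx_congr ⟨fun a => ⟨a.1, a.2.1⟩, fun a =>
      ⟨a.1, a.2, le_bot_iff.1 ((inf_le_inf_right _ a.2).trans e.le)⟩⟩ (fun a => ?_) fun _ => rfl
    rw [h2 Q a.1, e, bot_inf_eq, if_pos rfl, mul_one]
  · rw [if_neg fun h => e (by rw [h, bot_inf_eq])]
    refine Finset.sum_eq_zero fun Q _ => ?_
    split_ifs with a
    · rw [h2 Q a.1, if_neg (inf_cr_ne hB.1.to_inf_left a.1.1 (fun q hq =>
        nr_inf (Subgroup.le_normalizer (a.2.1 hq)) (hT (hBT (a.2.1 hq)))) e), mul_zero]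
    · rfl

end Pool.Agent.Lib.MP_b6945b_al.Ip
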