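import Pool.Agent.Lib.MP_b6945b_al.Ip.IRed

set_option autoImplicit false

/-!
Definitions for the reduction along elementary abelian chief factors.
-/

namespace Pool.Agent.Lib.MP_b6945b_al.Ip

open Finset
open scoped Pointwise

variable {G : Type} [Group G]

/-- The commutator. -/
def cm (x y : G) : G := x * y * x⁻¹ * y⁻¹

open Classical in
/-- The contribution of a pair of elements, relative to the subgroup `L`. -/
noncomputable def term (p : ℕ) [Fintype G] (L : Subgroup G) (x y : G) : ℂ :=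
  (if x * y = y * x then (eK p {x, y} L : ℂ) else 0) - EE p L (cm x y)

/-- The subgroup generated by two elements and `L`. -/
def gen (x y : G) (L : Subgroup G) : Subgroup G := Subgroup.closure {x, y} ⊔ L

/-- `L` is a subgroup of `H` that contains all `p`-elements of `H`. -/
def PIn (p : ℕ) (H L : Subgroup G) : Prop := L ≤ H ∧ ∀ g ∈ H, IsPElt p g → g ∈ L

/-- An elementary abelian chief factor. -/
structure Fac (p : ℕ) (N M : Subgroup G) : Prop where
  le : N ≤ M
  ne : ¬ M ≤ N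
  pow : ∀ v ∈ M, v ^ p ∈ N
  comm : ∀ v ∈ M, ∀ w ∈ M, cm v w ∈ N
  min : ∀ T : Subgroup G, T.Normal → N ≤ T → T ≤ M → T = N ∨ T = M

/-- An elementary abelian chief factor whose top contains all `p`-elements. -/
structure Chief (p : ℕ) (N M : Subgroup G) : Prop extends Fac p N M where
  pelt : ∀ g, IsPElt p g → g ∈ M

/-- Complements of `N` in `M` that are `p`-groups. -/
def RR (p : ℕ) (N M R : Subgroup G) : Prop := IsPGroup p R ∧ R ⊓ N = ⊥ ∧ R ⊔ N = M

/-- The centraliser of `R` in `N`. -/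
def CR (N R : Subgroup G) : Subgroup G := N ⊓ Subgroup.centralizer (R : Set G)

/-- The normaliser. -/
def NR (R : Subgroup G) : Subgroup G := Subgroup.normalizer (R : Set G)

open Classical in
/-- A sum over a pair of cosets. -/
noncomputable def CS [Fintype G] (N : Subgroup G) (t : G → G → ℂ) (a b : G) : ℂ :=
  ∑ x : G, ∑ y : G, if x * a⁻¹ ∈ N ∧ y * b⁻¹ ∈ N then t x y else 0

/-- The stabiliser of a character of a normal subgroup. -/
def St {N : Subgroup G} [N.Normal] [Fintype N] (I : IrrData N) (i : Fin I.n) : Subgroup G where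
  carrier := {g | ∀ y : N, I.χ i (MulAut.conjNormal g y) = I.χ i y}
  one_mem' := fun y => by rw [map_one, MulAut.one_apply]
  mul_mem' := fun {a b} ha hb y => by rw [map_mul, MulAut.mul_apply, ha, hb]
  inv_mem' := fun {a} ha y => by
    rw [← ha, ← MulAut.mul_apply, ← map_mul, mul_inv_cancel, map_one, MulAut.one_apply]

/-- The sum of the central idempotents of a set of characters of `N`. -/
noncomputable def ee {N : Subgroup G} [Fintype N] (I : IrrData N) (S : Fin I.n → Prop) :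
    G → ℂ := ext0 N (I.zf (ind S))

/-- The sum over the characters of defect zero that are invariant under `M`. -/
noncomputable def EI (p : ℕ) {N : Subgroup G} [N.Normal] [Fintype N] (M : Subgroup G)
    (I : IrrData N) : G → ℂ := ee I fun i => Dz p I i ∧ M ≤ St I i

/-- The centraliser of the factor `M / N`. -/
def CV (N M : Subgroup G) [hN : N.Normal] : Subgroup G where
  carrier := {g | ∀ v ∈ M, cm g v ∈ N}
  one_mem' := fun v _ => by simp [cm]
  mul_mem' := fun {a b} ha hb v hv => by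
    have e : cm (a * b) v = a * cm b v * a⁻¹ * cm a v := by unfold cm; group
    rw [e]
    exact N.mul_mem (hN.conj_mem _ (hb v hv) a) (ha v hv)
  inv_mem' := fun {a} ha v hv => by
    have e : cm a⁻¹ v = a⁻¹ * (cm a v)⁻¹ * a⁻¹⁻¹ := by unfold cm; group
    rw [e]
    exact hN.conj_mem _ (N.inv_mem (ha v hv)) _

instance (N M : Subgroup G) [hN : N.Normal] [hM : M.Normal] : (CV N M).Normal :=
  ⟨fun a ha g v hv => by
    have e : cm (g * a * g⁻¹) v = g * cm a (g⁻¹ * v * g⁻¹⁻¹) * g⁻¹ := by unfold cm; group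
    rw [e]
    exact hN.conj_mem _ (ha _ (hM.conj_mem v hv _)) g⟩

/-- The quotient by `K` is `p`-solvable. -/
def PSol (p : ℕ) (K : Subgroup G) : Prop :=
  ∃ (r : ℕ) (s : ℕ → Subgroup G), s 0 ≤ K ∧ s r = ⊤ ∧ ∀ i < r, (s i).Normal ∧
    ((∀ g ∈ s (i + 1), ∃ k, g ^ p ^ k ∈ s i) ∨ ∃ m, ¬ p ∣ m ∧ ∀ g ∈ s (i + 1), g ^ m ∈ s i)

/-- Pairs of a subgroup and an element. -/
@[ext] structure RS (G : Type) [Group G] where
  /-- the subgroup -/
  R : Subgroup G
  /-- the element -/
  s : G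

instance : MulAction G (RS G) where
  smul g y := ⟨MulAut.conj g • y.R, g * y.s * g⁻¹⟩
  one_smul y := by
    change RS.mk _ _ = _
    ext1 <;> simp
  mul_smul g h y := by
    change RS.mk _ _ = RS.mk (MulAut.conj g • MulAut.conj h • y.R) (g * (h * y.s * h⁻¹) * g⁻¹)
    ext1
    · simp [mul_smul]
    · simp [mul_assoc]

lemma RS.smul_R (g : G) (y : RS G) : (g • y).R = MulAut.conj g • y.R := rfl

lemma RS.smul_s (g : G) (y : RS G) : (g • y).s = g * y.s * g⁻¹ := rfl

/-- Pairs as a product. -/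
def RS.equiv : RS G ≃ Subgroup G × G where
  toFun y := (y.R, y.s)
  invFun z := ⟨z.1, z.2⟩
  left_inv _ := rfl
  right_inv _ := rfl

open Classical in
noncomputable instance [Fintype G] : Fintype (RS G) := Fintype.ofEquiv _ RS.equiv.symm

lemma mem_CR {N R : Subgroup G} {x : G} : x ∈ CR N R ↔ x ∈ N ∧ ∀ r ∈ R, r * x = x * r :=
  Iff.rfl

lemma mem_NR {R : Subgroup G} {g : G} : g ∈ NR R ↔ ∀ r, r ∈ R ↔ g * r * g⁻¹ ∈ R :=
  Subgroup.mem_normalizer_iff

lemma mem_St {N : Subgroup G} [N.Normal] [Fintype N] {I : IrrData N} {i : Fin I.n} {g : G} :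
    g ∈ St I i ↔ ∀ y : N, I.χ i (MulAut.conjNormal g y) = I.χ i y := Iff.rfl

lemma le_St {N : Subgroup G} [N.Normal] [Fintype N] (I : IrrData N) (i : Fin I.n) :
    N ≤ St I i := fun g hg y => I.χ_conj i ⟨g, hg⟩ y

lemma mem_CV {N M : Subgroup G} [N.Normal] {g : G} : g ∈ CV N M ↔ ∀ v ∈ M, cm g v ∈ N :=
  Iff.rfl

lemma le_CV (N M : Subgroup G) [hN : N.Normal] : N ≤ CV N M := fun g hg v _ => by
  have e : cm g v = g * (v * g⁻¹ * v⁻¹) := by unfold cm; group
  rw [e]
  exact N.mul_mem hg (hN.conj_mem _ (N.inv_mem hg) v)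

lemma cm_inv (x y : G) : (cm x y)⁻¹ = cm y x := by unfold cm; group

lemma cm_eq_one {x y : G} : cm x y = 1 ↔ x * y = y * x := by
  rw [cm, mul_inv_eq_one, mul_inv_eq_iff_eq_mul]

lemma CR_le_NR (N R : Subgroup G) : CR N R ≤ NR R :=
  inf_le_right.trans (Subgroup.centralizer_le_normalizer _)

/-- The commutator modulo `N` depends only on the cosets. -/
lemma cm_coset {N : Subgroup G} [N.Normal] {a b x y : G} (hx : x * a⁻¹ ∈ N) (hy : y * b⁻¹ ∈ N) :
    cm x y ∈ N ↔ cm a b ∈ N := by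
  have h1 : (x : G ⧸ N) = a := by
    rwa [← mul_inv_eq_one, ← QuotientGroup.mk_inv, ← QuotientGroup.mk_mul,
      QuotientGroup.eq_one_iff]
  have h2 : (y : G ⧸ N) = b := by
    rwa [← mul_inv_eq_one, ← QuotientGroup.mk_inv, ← QuotientGroup.mk_mul,
      QuotientGroup.eq_one_iff]
  simp only [← QuotientGroup.eq_one_iff (N := N), cm, QuotientGroup.mk_mul, QuotientGroup.mk_inv,
    h1, h2]

lemma left_mem_gen (x y : G) (L : Subgroup G) : x ∈ gen x y L :=
  Subgroup.mem_sup_left (Subgroup.subset_closure (Set.mem_insert _ _))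

lemma right_mem_gen (x y : G) (L : Subgroup G) : y ∈ gen x y L :=
  Subgroup.mem_sup_left (Subgroup.subset_closure (Set.mem_insert_of_mem _ rfl))

lemma le_gen (x y : G) (L : Subgroup G) : L ≤ gen x y L := le_sup_right

lemma gen_le {x y : G} {L J : Subgroup G} : gen x y L ≤ J ↔ x ∈ J ∧ y ∈ J ∧ L ≤ J := by
  rw [gen, sup_le_iff, Subgroup.closure_le, Set.insert_subset_iff, Set.singleton_subset_iff,
    and_assoc]
  rfl

lemma gen_coset {L : Subgroup G} {a b x y : G} (hx : x * a⁻¹ ∈ L) (hy : y * b⁻¹ ∈ L) :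
    gen x y L = gen a b L := by
  have key : ∀ {a b x y : G}, x * a⁻¹ ∈ L → y * b⁻¹ ∈ L → gen x y L ≤ gen a b L :=
    fun {a b x y} hx hy => gen_le.2 ⟨
      by simpa using mul_mem (le_gen a b L hx) (left_mem_gen a b L),
      by simpa using mul_mem (le_gen a b L hy) (right_mem_gen a b L), le_gen a b L⟩
  exact le_antisymm (key hx hy) (key (by simpa using L.inv_mem hx) (by simpa using L.inv_mem hy))

lemma gen_sup {x y : G} {L N : Subgroup G} (h : L ≤ N) : gen x y L ⊔ N = gen x y N := by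
  rw [gen, gen, sup_assoc, sup_eq_right.2 h]

/-- Elements of `M` are products. -/
lemma RR.exists_mul {p : ℕ} {N M R : Subgroup G} [N.Normal] (h : RR p N M R) {v : G}
    (hv : v ∈ M) : ∃ r ∈ R, ∃ n ∈ N, v = r * n := by
  have h1 : v ∈ ((R ⊔ N : Subgroup G) : Set G) := h.2.2.symm ▸ hv
  rw [Subgroup.mul_normal] at h1
  obtain ⟨r, hr, n, hn, e⟩ := h1
  exact ⟨r, hr, n, hn, e.symm⟩

lemma RR.le {p : ℕ} {N M R : Subgroup G} (h : RR p N M R) : R ≤ M := h.2.2 ▸ le_sup_left

lemma RR.eq_one {p : ℕ} {N M R : Subgroup G} (h : RR p N M R) {x : G} (h1 : x ∈ R) (h2 : x ∈ N) :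
    x = 1 := Subgroup.mem_bot.1 (h.2.1 ▸ Subgroup.mem_inf.2 ⟨h1, h2⟩)

/-- An element that normalises `R` and centralises the factor centralises `R`. -/
lemma RR.comm {p : ℕ} {N M R : Subgroup G} [N.Normal] (h : RR p N M R) {g : G}
    (h1 : g ∈ CV N M) (h2 : g ∈ NR R) {r : G} (hr : r ∈ R) : r * g = g * r :=
  (cm_eq_one.1 (h.eq_one (R.mul_mem ((mem_NR.1 h2 r).1 hr) (R.inv_mem hr))
    (h1 r (h.le hr)))).symm

open Classical in
lemma CS_congr [Fintype G] {N : Subgroup G} {t t' : G → G → ℂ} {a b : G}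
    (h : ∀ x y, x * a⁻¹ ∈ N → y * b⁻¹ ∈ N → t x y = t' x y) : CS N t a b = CS N t' a b :=
  sum_congr rfl fun x _ => sum_congr rfl fun y _ =>
    ite_congr rfl (fun e => h x y e.1 e.2) fun _ => rfl

lemma CS_sub [Fintype G] (N : Subgroup G) (t t' : G → G → ℂ) (a b : G) :
    CS N (fun x y => t x y - t' x y) a b = CS N t a b - CS N t' a b := by
  simp only [CS, ← sum_sub_distrib]
  refine sum_congr rfl fun x _ => sum_congr rfl fun y _ => ?_
  split_ifs <;> simp

lemma CS_sum [Fintype G] {ι : Type} [Fintype ι] (N : Subgroup G) (t : ι → G → G → ℂ) (a b : G) :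
    CS N (fun x y => ∑ i, t i x y) a b = ∑ i, CS N (t i) a b := by
  simp only [CS]
  rw [sum_comm (s := (univ : Finset ι))]
  refine sum_congr rfl fun x _ => ?_
  rw [sum_comm (s := (univ : Finset ι))]
  refine sum_congr rfl fun y _ => ?_
  split_ifs <;> simp

lemma CS_zero [Fintype G] (N : Subgroup G) (a b : G) : CS N (fun _ _ => 0) a b = 0 := by
  simp [CS]

end Pool.Agent.Lib.MP_b6945b_al.Ip
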