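import Pool.Agent.Lib.MP_b6945b_al.Ip.PDefs

set_option autoImplicit false

/-!
The identity as a sum over pairs, relative to a subgroup that contains all `p`-elements.
-/

namespace Pool.Agent.Lib.MP_b6945b_al.Ip

open Finset

variable {G : Type} [Group G] [Fintype G] {p : ℕ} [Fact p.Prime]

/-- The value of a central idempotent, extended by zero. -/
noncomputable def pint1_w {H : Subgroup G} [Fintype H] (I : IrrData H) (g : G) (i : Fin I.n) : ℂ :=
  ext0 H (fun y => (I.d i : ℂ) * I.χ i y⁻¹ / Fintype.card H) g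

omit [Fintype G] in
lemma pint1_zf {H : Subgroup G} [Fintype H] (I : IrrData H) (a : Fin I.n → ℂ) (g : G) :
    ext0 H (I.zf a) g = ∑ i, a i * pint1_w I g i := by
  by_cases hg : g ∈ H
  · simp only [pint1_w, ext0_pos _ hg, IrrData.zf]
  · simp only [pint1_w, ext0_neg _ hg, mul_zero, Finset.sum_const_zero]

lemma pint1_mom {H : Subgroup G} [Fintype H] (I : IrrData H) {f : H → ℂ} (hf : IsCF f) (g : G)
    (m : ℕ) : ∑ i, pint1_w I g i * I.om i f ^ m = cpow (ext0 H f) m g := by
  rw [← ext0_cpow, ← I.zf_om (cpow_cf hf m), pint1_zf]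
  exact Finset.sum_congr rfl fun i _ => by rw [om_cpow I i hf, mul_comm]

omit [Fact p.Prime] in
/-- Lagrange interpolation as in `moment_count` (ZMom) on the finite set of all values `om i f`,
`om j f'`: with `P.eval t = ind Φ t` there, `zf (ind ..) = ∑ k, P.coeff k • cpow f k` (`zf_om`,
`om_cpow`, `cpow_cf`), and `ext0 H (cpow f k) = cpow (ext0 H f) k` (`ext0_cpow`). -/
theorem ext0_interp {H H' : Subgroup G} [Fintype H] [Fintype H'] (I : IrrData H)
    (I' : IrrData H') {f : H → ℂ} {f' : H' → ℂ} (hf : IsCF f) (hf' : IsCF f')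
    (h : ext0 H f = ext0 H' f') (Φ : ℂ → Prop) :
    ext0 H (I.zf (ind fun i => Φ (I.om i f))) = ext0 H' (I'.zf (ind fun i => Φ (I'.om i f'))) := by
  classical
  funext g
  have h1 := moment_count (fun i => I.om i f) (fun i => pint1_w I g i) (fun i => I'.om i f')
    (fun i => pint1_w I' g i) (fun m => by rw [pint1_mom I hf, pint1_mom I' hf', h]) Φ
  rw [pint1_zf, pint1_zf]
  refine (Finset.sum_congr rfl fun i _ => ?_).trans (h1.trans (Finset.sum_congr rfl fun i _ => ?_))
  · rw [ind, boole_mul]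
  · rw [ind, boole_mul]

omit [Fintype G] [Fact p.Prime] in
lemma pint1_pelt {H : Subgroup G} {g : G} {hg : g ∈ H} :
    IsPElt p (⟨g, hg⟩ : H) ↔ IsPElt p g :=
  exists_congr fun _ => by rw [Subtype.ext_iff]; rfl

lemma pint1_dz {H : Type} [Group H] [Fintype H] (I : IrrData H) (i : Fin I.n) :
    Dz p I i ↔ I.om i (ind (IsPElt p)) = 1 := by
  classical
  have h1 : I.om i (ind (IsPElt p)) =
      (∑ h, (if IsPElt p h then (1 : ℂ) else 0) * I.χ i h⁻¹) / I.d i := by
    rw [IrrData.om, ← Equiv.sum_comp (Equiv.inv H)]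
    simp only [Equiv.inv_apply, ind, isPElt_inv]
  rw [h1]
  refine ⟨fun hi => by convert I.omega_pelt_dz i hi, fun e => by_contra fun hi => ?_⟩
  obtain ⟨V, hp⟩ := exists_val p
  have h2 : (1 : ℂ) ∈ V.nonunits := by
    rw [← e]
    convert I.omega_pelt_ndz hp i hi
  simp [ValuationSubring.mem_nonunits_iff] at h2

lemma pint1_e1 {H : Type} [Group H] [Fintype H] (I : IrrData H) :
    e1 p I = I.zf (ind fun i => I.om i (ind (IsPElt p)) = 1) :=
  congrArg (fun S => I.zf (ind S)) (funext fun i => propext (pint1_dz I i))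

/-- `ext0_interp` for the indicators of `IsPElt p` and `Φ = (· = 1)`: `omega_pelt_dz`,
`omega_pelt_ndz` (Local; substitute `h ↦ h⁻¹` as in `gp_ndz`, `exists_val p`, `1` is not a
nonunit), `EE_eq`. -/
theorem EE_pin {H L : Subgroup G} (h : PIn p H L) : EE p H = EE p L := by
  let _ : Fintype H := Fintype.ofFinite H
  let _ : Fintype L := Fintype.ofFinite L
  obtain ⟨I⟩ := exists_irrData H
  obtain ⟨I'⟩ := exists_irrData L
  rw [EE_eq H I, EE_eq L I', pint1_e1, pint1_e1]
  refine ext0_interp I I' (isCF_ind fun a g => isPElt_conj a) (isCF_ind fun a g => isPElt_conj a)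
    (funext fun g => ?_) (· = 1)
  by_cases hg : IsPElt p g
  · by_cases hH : g ∈ H
    · rw [ext0_pos _ hH, ext0_pos _ (h.2 g hH hg), ind_pos (pint1_pelt.2 hg),
        ind_pos (pint1_pelt.2 hg)]
    · rw [ext0_neg _ hH, ext0_neg _ fun e => hH (h.1 e)]
  · have h0 : ∀ K : Subgroup G, ext0 K (ind (IsPElt p)) g = 0 := fun K => by
      by_cases hK : g ∈ K
      · rw [ext0_pos _ hK, ind_neg fun e => hg (pint1_pelt.1 e)]
      · exact ext0_neg _ hK
    rw [h0, h0]

omit [Fact p.Prime] in
/-- A `p`-subgroup of `H` consists of `p`-elements. -/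
theorem eK_pin {H L : Subgroup G} (h : PIn p H L) (K : Set G) : eK p K H = eK p K L := by
  classical
  unfold eK
  refine Finset.sum_congr rfl fun σ _ => if_congr (and_congr_right fun hσ => and_congr_right
    fun _ => forall₂_congr fun P hP => ⟨fun e g hg => ?_, fun e => e.trans h.1⟩) rfl rfl
  obtain ⟨k, hk⟩ := (hσ.2 P hP).1 ⟨g, hg⟩
  exact h.2 g (e hg) ⟨k, congrArg Subtype.val hk⟩

open Classical in
/-- `nn_eq_AA` for `H.subtype`, `EE_tr`, `EE_pin`, `eK_pin`; cast from `ℤ` to `ℂ`. -/
theorem KR_iff_term {H L : Subgroup G} (h : PIn p H L) :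
    KR p H ↔ ∑ x : G, ∑ y : G, (if x ∈ H ∧ y ∈ H then term p L x y else 0) = 0 := by
  have h1 : ∑ x : G, ∑ y : G, (if x ∈ H ∧ y ∈ H then term p L x y else 0) =
      (AA p H : ℂ) - (Nat.card H : ℂ) * zz p H := by
    rw [← EE_tr, AA, EE_pin h]
    push_cast
    simp only [← sum_sub_distrib]
    refine sum_congr rfl fun x _ => sum_congr rfl fun y _ => ?_
    rw [eK_pin h, term, cm]
    by_cases hx : x ∈ H <;> by_cases hy : y ∈ H <;> simp [hx, hy]
  rw [h1, sub_eq_zero, KR, nn_eq_AA H.subtype H.subtype_injective, Subgroup.range_subtype]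
  exact_mod_cast Iff.rfl

omit [Fact p.Prime] in
open Classical in
/-- Sorting the pairs by the subgroup they generate together with `L`. -/
lemma pint_sort (L : Subgroup G) (t : G → G → ℂ) (Φ : Subgroup G → Prop) :
    ∑ x : G, ∑ y : G, (if Φ (gen x y L) then t x y else 0) = ∑ J : Subgroup G,
      if Φ J then ∑ x : G, ∑ y : G, (if gen x y L = J then t x y else 0) else 0 := by
  have h : ∀ J, (if Φ J then ∑ x : G, ∑ y : G, (if gen x y L = J then t x y else 0) else 0) =
      ∑ x : G, ∑ y : G, if gen x y L = J then (if Φ J then t x y else 0) else 0 := fun J => by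
    split_ifs <;> simp
  simp only [h]
  rw [sum_comm (s := (univ : Finset (Subgroup G)))]
  refine sum_congr rfl fun x _ => ?_
  rw [sum_comm (s := (univ : Finset (Subgroup G)))]
  refine sum_congr rfl fun y _ => ?_
  rw [sum_ite_eq, if_pos (mem_univ _)]

open Classical in
/-- First for `Φ = (· = J)` by well founded induction on `J`: the pairs in `J` are sorted by
`gen x y L ≤ J` (`gen_le`), the total vanishes by `KR_iff_term`.  Then sort by `gen x y L`. -/
theorem sum_gen (L : Subgroup G) (Φ : Subgroup G → Prop)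
    (h : ∀ J, Φ J → ∀ J', L ≤ J' → J' ≤ J → PIn p J' L ∧ KR p J') :
    ∑ x : G, ∑ y : G, (if Φ (gen x y L) then term p L x y else 0) = 0 := by
  have key : ∀ J : Subgroup G, (∀ J', L ≤ J' → J' ≤ J → PIn p J' L ∧ KR p J') →
      ∑ x : G, ∑ y : G, (if gen x y L = J then term p L x y else 0) = 0 := by
    intro J
    induction J using WellFoundedLT.induction with
    | ind J ih =>
      intro hJ
      by_cases hL : L ≤ J
      · have h1 := (KR_iff_term (hJ J hL le_rfl).1).1 (hJ J hL le_rfl).2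
        have h2 := pint_sort L (term p L) (· ≤ J)
        rw [sum_eq_single J, if_pos le_rfl] at h2
        · refine h2.symm.trans (Eq.trans ?_ h1)
          exact sum_congr rfl fun x _ => sum_congr rfl fun y _ =>
            if_congr (by simp only [gen_le, hL, and_true]) rfl rfl
        · intro J' _ hne
          split_ifs with h3
          · exact ih J' (lt_of_le_of_ne h3 hne) fun K h4 h5 => hJ K h4 (h5.trans h3)
          · rfl
        · exact fun e => (e (mem_univ _)).elim
      · exact sum_eq_zero fun x _ => sum_eq_zero fun y _ =>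
          if_neg fun e : gen x y L = J => hL (e ▸ le_gen x y L)
  rw [pint_sort]
  refine sum_eq_zero fun J _ => ?_
  split_ifs with h1
  · exact key J (h J h1)
  · rfl

omit [Fact p.Prime] in
open Classical in
/-- `∑ a, ∑ b, (if Ψ a b then CS N t a b else 0)` is `|N| ^ 2` times the sum (interchange the
sums; for fixed `x` there are `|N|` elements `a` with `x * a⁻¹ ∈ N`; `hΨ` works both ways). -/
theorem sum_avg (N : Subgroup G) (t : G → G → ℂ) (Ψ : G → G → Prop)
    (hΨ : ∀ a b x y, x * a⁻¹ ∈ N → y * b⁻¹ ∈ N → Ψ a b → Ψ x y)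
    (h : ∀ a b, Ψ a b → CS N t a b = 0) :
    ∑ x : G, ∑ y : G, (if Ψ x y then t x y else 0) = 0 := by
  have hc : ∀ (x : G) (z : ℂ), ∑ a : G, (if x * a⁻¹ ∈ N then z else 0) =
      ((univ.filter fun g : G => g ∈ N).card : ℂ) * z := fun x z => by
    rw [← nsmul_eq_mul, ← sum_const, sum_filter]
    exact Fintype.sum_equiv ((Equiv.inv G).trans (Equiv.mulLeft x)) _ _ fun a => rfl
  have hc0 : ((univ.filter fun g : G => g ∈ N).card : ℂ) ≠ 0 :=
    Nat.cast_ne_zero.2 (card_ne_zero.2 ⟨1, mem_filter.2 ⟨mem_univ _, N.one_mem⟩⟩)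
  have h1 : ∀ a b, ∑ x : G, ∑ y : G, (if x * a⁻¹ ∈ N then
      (if y * b⁻¹ ∈ N then (if Ψ x y then t x y else 0) else 0) else 0) = 0 := fun a b => by
    by_cases e : Ψ a b
    · refine Eq.trans ?_ (h a b e)
      refine sum_congr rfl fun x _ => sum_congr rfl fun y _ => ?_
      by_cases hx : x * a⁻¹ ∈ N <;> by_cases hy : y * b⁻¹ ∈ N <;> simp only [hx, hy, if_true,
        if_false, and_true, and_false, and_self]
      exact if_pos (hΨ a b x y hx hy e)
    · refine sum_eq_zero fun x _ => sum_eq_zero fun y _ => ?_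
      split_ifs with hx hy e'
      · exact (e (hΨ x y a b (by simpa using N.inv_mem hx) (by simpa using N.inv_mem hy) e')).elim
      all_goals rfl
  have h2 : ∑ a : G, ∑ b : G, ∑ x : G, ∑ y : G, (if x * a⁻¹ ∈ N then
      (if y * b⁻¹ ∈ N then (if Ψ x y then t x y else 0) else 0) else 0) = 0 :=
    sum_eq_zero fun a _ => sum_eq_zero fun b _ => h1 a b
  have h3 : ∀ x y : G, ∑ a : G, ∑ b : G, (if x * a⁻¹ ∈ N then
      (if y * b⁻¹ ∈ N then (if Ψ x y then t x y else 0) else 0) else 0) =
      ((univ.filter fun g : G => g ∈ N).card : ℂ) * (((univ.filter fun g : G => g ∈ N).card : ℂ) *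
        if Ψ x y then t x y else 0) := fun x y => by
    rw [sum_comm, ← hc y (if Ψ x y then t x y else 0), mul_sum]
    exact sum_congr rfl fun b _ => hc x _
  have h4 : ∀ f : G → G → G → G → ℂ, ∑ a, ∑ b, ∑ x, ∑ y, f a b x y =
      ∑ x, ∑ y, ∑ a, ∑ b, f a b x y := fun f => by
    simpa only [Fintype.sum_prod_type] using
      sum_comm (s := univ) (t := univ) (f := fun u v : G × G => f u.1 u.2 v.1 v.2)
  rw [h4] at h2
  simp only [h3, ← mul_sum] at h2
  exact (mul_eq_zero.1 ((mul_eq_zero.1 h2).resolve_left hc0)).resolve_left hc0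

end Pool.Agent.Lib.MP_b6945b_al.Ip
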