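import Pool.Agent.Lib.MP_b6945b_al.Ip.PDefs

set_option autoImplicit false

/-!
The sum of the invariant idempotents of defect zero; the Brauer map for a `p`-subgroup.
-/

namespace Pool.Agent.Lib.MP_b6945b_al.Ip

open Finset

variable {G : Type} [Group G] [Fintype G] {p : ℕ} [Fact p.Prime] {V : ValuationSubring ℂ}
  {N M : Subgroup G} [N.Normal]

section
variable [Fintype N]

omit [Fintype G] [Fact p.Prime] [N.Normal] in
lemma ee_supp (I : IrrData N) (S : Fin I.n → Prop) {x : G} (hx : x ∉ N) : ee I S x = 0 :=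
  ext0_neg _ hx

omit [Fact p.Prime] [N.Normal] in
lemma EE_eq_ee (I : IrrData N) : EE p N = ee I (Dz p I) := EE_eq N I

omit [Fintype G] [N.Normal] in
lemma piv_val (I : IrrData N) (i : Fin I.n) {x : G} (hx : x ∈ N) :
    ee I (· = i) x = (I.d i : ℂ) * I.χ i (⟨x, hx⟩ : N)⁻¹ / Fintype.card N := by
  rw [ee, ext0_pos _ hx, IrrData.zf, sum_eq_single i]
  · rw [ind_pos (S := (· = i)) rfl, one_mul]
  · exact fun j _ hj => by rw [ind_neg (S := (· = i)) hj, zero_mul]
  · simp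

omit [Fintype G] [N.Normal] in
open Classical in
lemma ee_sum (I : IrrData N) (S : Fin I.n → Prop) (x : G) :
    ee I S x = ∑ i, if S i then ee I (· = i) x else 0 := by
  by_cases hx : x ∈ N
  · rw [ee, ext0_pos _ hx, IrrData.zf]
    refine sum_congr rfl fun i _ => ?_
    by_cases h : S i
    · rw [ind_pos h, one_mul, if_pos h, piv_val I i hx]
    · rw [ind_neg h, zero_mul, if_neg h]
  · simp only [ee_supp I _ hx, ite_self, sum_const_zero]

omit [N.Normal] in
/-- `ext0_conv`, `zf_mul`. -/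
lemma ee_mul (I : IrrData N) (S T : Fin I.n → Prop) :
    conv (ee I S) (ee I T) = ee I fun i => S i ∧ T i := by
  rw [ee, ee, ← ext0_conv, ← I.zf_mul, ee]
  congr 2
  ext i
  by_cases h : S i
  · by_cases h' : T i
    · rw [Pi.mul_apply, ind_pos h, ind_pos h', ind_pos (S := fun i => S i ∧ T i) ⟨h, h'⟩, one_mul]
    · rw [Pi.mul_apply, ind_neg h', ind_neg (S := fun i => S i ∧ T i) fun e => h' e.2, mul_zero]
  · rw [Pi.mul_apply, ind_neg h, ind_neg (S := fun i => S i ∧ T i) fun e => h e.1, zero_mul]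

omit [Fintype G] [N.Normal] in
/-- As `e1_mem`. -/
lemma ee_mem (hp : (p : ℂ) ∈ V.nonunits) (I : IrrData N) {S : Fin I.n → Prop}
    (hS : ∀ i, S i → Dz p I i) (x : G) : ee I S x ∈ V := by
  by_cases hx : x ∈ N
  · rw [ee, ext0_pos _ hx, IrrData.zf]
    refine sum_mem fun i _ => ?_
    by_cases hi : S i
    · obtain ⟨r, h1, h2⟩ := exists_cod (p := p) I i
      rw [ind_pos hi, one_mul, (ze1b_term I i h1 _).2]
      exact V.mul_mem _ _ (mem_of_isIntegral V (I.χ_isIntegral _ _))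
        (inv_nat_mem hp (h2.1 (hS i hi)))
    · rw [ind_neg hi, zero_mul]
      exact V.zero_mem
  · rw [ee_supp I S hx]
    exact V.zero_mem

lemma piv_van {H : Type} [Group H] [Fintype H] (hp : (p : ℂ) ∈ V.nonunits) (I : IrrData H)
    {i : Fin I.n} (hi : Dz p I i) {w g : H} (hw : w ≠ 1) (hwp : w ^ p = 1) (hc : w * g = g * w) :
    (I.d i : ℂ) * I.χ i g⁻¹ / Fintype.card H ∈ V.nonunits := by
  obtain ⟨r, h1, h2⟩ := exists_cod (p := p) I i
  obtain ⟨hr, h3⟩ := ze1b_term I i h1 (I.χ i g⁻¹)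
  have h4 := sum_ind_conj (⟨g⁻¹⟩ : Cj H) (I.χ i) (I.χ_conj i)
  have h5 := orbit_Cj (⟨g⁻¹⟩ : Cj H)
  obtain ⟨c, hc'⟩ : p ∣ Nat.card (Subgroup.centralizer {g⁻¹}) := by
    rw [← orderOf_eq_prime hwp hw]
    refine Subgroup.orderOf_dvd_natCard _ (Subgroup.mem_centralizer_singleton_iff.2 ?_)
    rw [mul_inv_eq_iff_eq_mul, mul_assoc, hc, inv_mul_cancel_left]
  have h6 : ((Nat.card (MulAction.orbit H (⟨g⁻¹⟩ : Cj H)) : ℂ)) * (p * c) = I.d i * r := by
    rw [hc', h1] at h5
    exact_mod_cast h5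
  have hd := I.d_ne i
  have h7 : I.χ i g⁻¹ * (r : ℂ)⁻¹ =
      p * (c * I.om i (ind (IsConj g⁻¹)) * (r : ℂ)⁻¹ * (r : ℂ)⁻¹) := by
    rw [IrrData.om, h4]
    field_simp
    linear_combination (-I.χ i g⁻¹) * h6
  rw [h3, h7]
  exact mul_mem_nonunits hp (V.mul_mem _ _ (V.mul_mem _ _ (V.mul_mem _ _ (natCast_mem V c)
    (mem_of_isIntegral V (I.om_ind_int i _ (isConj_conj_iff _)))) (inv_nat_mem hp (h2.1 hi)))
    (inv_nat_mem hp (h2.1 hi)))

omit [Fintype G] [N.Normal] in
/-- As `e1_van`, `EE_van`. -/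
lemma ee_van (hp : (p : ℂ) ∈ V.nonunits) (I : IrrData N) {S : Fin I.n → Prop}
    (hS : ∀ i, S i → Dz p I i) {w x : G} (hw : w ∈ N) (h1 : w ≠ 1) (hwp : w ^ p = 1)
    (hc : w * x = x * w) : ee I S x ∈ V.nonunits := by
  by_cases hx : x ∈ N
  · rw [ee, ext0_pos _ hx, IrrData.zf]
    refine sum_mem fun i _ => ?_
    by_cases hi : S i
    · rw [ind_pos hi, one_mul]
      exact piv_van hp I (hS i hi) (w := ⟨w, hw⟩) (fun e => h1 (congrArg Subtype.val e))
        (Subtype.ext hwp) (Subtype.ext hc)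
    · rw [ind_neg hi, zero_mul]
      exact zero_mem _
  · rw [ee_supp I S hx]
    exact zero_mem _

omit [Fintype G] in
/-- `exists_equiv` for `MulAut.conjNormal g⁻¹`; the axioms follow from `χ_injective`. -/
theorem exists_act (I : IrrData N) : ∃ _ : MulAction G (Fin I.n), ∀ (g : G) (i : Fin I.n),
    I.d (g • i) = I.d i ∧ ∀ y : N, I.χ (g • i) (MulAut.conjNormal g y) = I.χ i y := by
  choose π hπ using fun g : G => exists_equiv (MulAut.conjNormal g⁻¹ : N ≃* N) I I
  refine ⟨{ smul := fun g i => π g i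
            one_smul := fun i => I.χ_injective (funext fun y => ?_)
            mul_smul := fun g h i => I.χ_injective (funext fun y => ?_) }, fun g i =>
    ⟨(hπ g i).1, fun y => ((hπ g i).2 _).trans ?_⟩⟩
  · refine ((hπ (g * h) i).2 y).trans (((hπ g _).2 y).trans (((hπ h i).2 _).trans ?_)).symm
    rw [mul_inv_rev, map_mul, MulAut.mul_apply]
  · exact ((hπ 1 i).2 y).trans (by rw [inv_one, map_one, MulAut.one_apply])
  · rw [← MulAut.mul_apply, ← map_mul, inv_mul_cancel, map_one, MulAut.one_apply]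

omit [Fintype G] in
lemma piv_conj (I : IrrData N) {i j : Fin I.n} {g : G} (hd : I.d j = I.d i)
    (h : ∀ y : N, I.χ j (MulAut.conjNormal g y) = I.χ i y) (x : G) :
    ee I (· = j) (g * x * g⁻¹) = ee I (· = i) x := by
  have hn : N.Normal := inferInstance
  by_cases hx : x ∈ N
  · rw [piv_val I j (hn.conj_mem x hx g), piv_val I i hx, hd, ← h, map_inv]
    rfl
  · rw [ee_supp I _ hx, ee_supp I _ fun e => hx (by simpa [mul_assoc] using hn.conj_mem _ e g⁻¹)]

omit [Fintype G] in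
lemma ee_conj (I : IrrData N) {i : Fin I.n} {g : G} (hg : g ∈ St I i) (x : G) :
    ee I (· = i) (g * x * g⁻¹) = ee I (· = i) x := by
  exact piv_conj I rfl hg x

omit [Fintype G] in
lemma piv_St [hM : M.Normal] (I : IrrData N) [MulAction G (Fin I.n)]
    (h : ∀ (g : G) (i : Fin I.n) (y : N), I.χ (g • i) (MulAut.conjNormal g y) = I.χ i y)
    (g : G) (i : Fin I.n) : M ≤ St I (g • i) ↔ M ≤ St I i := by
  have key : ∀ (g : G) (i : Fin I.n), M ≤ St I i → M ≤ St I (g • i) := fun g i hi m hm y => by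
    obtain ⟨y, rfl⟩ := (MulAut.conjNormal g : N ≃* N).surjective y
    have e : MulAut.conjNormal m (MulAut.conjNormal g y) =
        MulAut.conjNormal g (MulAut.conjNormal (g⁻¹ * m * g⁻¹⁻¹) y) :=
      Subtype.ext (by simp [mul_assoc])
    rw [e, h, h]
    exact hi (hM.conj_mem m hm _) y
  exact ⟨fun e => by simpa using key g⁻¹ _ e, key g i⟩

omit [Fintype G] [Fact p.Prime] in
/-- `exists_act`: `i ↦ g • i` permutes the set of indices (`M` is normal). -/
lemma EI_conj [M.Normal] (I : IrrData N) (g x : G) :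
    EI p M I (g * x * g⁻¹) = EI p M I x := by
  classical
  obtain ⟨_, h⟩ := exists_act I
  rw [EI, ee_sum, ee_sum I _ x, ← Equiv.sum_comp (MulAction.toPerm g)]
  refine sum_congr rfl fun i _ => ?_
  rw [MulAction.toPerm_apply, piv_conj I (h g i).1 (h g i).2]
  have e : (Dz p I (g • i) ∧ M ≤ St I (g • i)) = (Dz p I i ∧ M ≤ St I i) := by
    rw [piv_St I (fun g i => (h g i).2) g i, Dz, Dz, (h g i).1]
  rw [e]

/-- The difference is `∑ i, if Dz i ∧ ¬ M ≤ St I i then ee I (· = i) x else 0`.  `R` acts on the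
indices (`exists_act`, `sum_mem_of_pgroup`); the summand is invariant as `x` centralises `R`; a
fixed index has `R ≤ St I i`, so `M ≤ St I i` (`le_St`). -/
lemma EI_sub [M.Normal] (hp : (p : ℂ) ∈ V.nonunits) (I : IrrData N) {R : Subgroup G}
    (hR : RR p N M R) {x : G} (hx : ∀ r ∈ R, r * x = x * r) :
    EE p N x - EI p M I x ∈ V.nonunits := by
  classical
  obtain ⟨_, h⟩ := exists_act I
  have e : EE p N x - EI p M I x =
      ∑ i, if Dz p I i ∧ ¬ M ≤ St I i then ee I (· = i) x else 0 := by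
    rw [EE_eq_ee I, EI, ee_sum, ee_sum I (fun i => Dz p I i ∧ M ≤ St I i), ← sum_sub_distrib]
    refine sum_congr rfl fun i _ => ?_
    by_cases h1 : Dz p I i <;> by_cases h2 : M ≤ St I i <;> simp [h1, h2]
  rw [e]
  refine sum_mem_of_pgroup (Γ := R) hR.1 _ (fun g i => ?_) V.nonunits.toAddSubgroup (fun i => ?_)
    fun i hi => ?_
  · have e1 := piv_conj I (h g i).1 (h g i).2 x
    rw [hx g g.2, mul_inv_cancel_right] at e1
    refine if_congr (and_congr ?_ (piv_St I (fun g i => (h g i).2) g i).not) e1 rfl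
    exact iff_of_eq (congrArg (p ^ (Nat.card N).factorization p ∣ ·) (h g i).1)
  · rw [nsmul_eq_mul]
    refine mul_mem_nonunits hp ?_
    split_ifs with h1
    · exact ee_mem hp I (S := (· = i)) (fun j (e : j = i) => e ▸ h1.1) x
    · exact V.zero_mem
  · rw [if_neg]
    · exact zero_mem _
    · refine fun h1 => h1.2 (hR.2.2 ▸ sup_le (fun r hr y => ?_) (le_St I i))
      have h2 : r • i = i := hi ⟨r, hr⟩
      rw [← (h r i).2 y, h2]

end

omit [Fintype G] [Fact p.Prime] [N.Normal] in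
lemma pinv2_comm {R : Subgroup G} {x g : G} (hx : ∀ r ∈ R, r * x = x * r) (hg : g ∈ R) :
    g * x * g⁻¹ = x := mul_inv_eq_iff_eq_mul.2 (hx g hg)

omit [Fintype G] [Fact p.Prime] in
lemma pinv2_CR {R : Subgroup G} {g : G} (hg : g ∈ R) (y : G) :
    g * y * g⁻¹ ∈ CR N R ↔ y ∈ CR N R := by
  rw [mem_CR, mem_CR, zeb_N]
  refine and_congr_right fun _ => ⟨fun h => ?_, fun h => by rwa [pinv2_comm h hg]⟩
  have e : y = g * y * g⁻¹ := by
    rw [← pinv2_comm h (R.inv_mem hg)]
    group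
  rwa [e]

lemma pinv2_tau (hp : (p : ℂ) ∈ V.nonunits) {R : Subgroup G} (hR : IsPGroup p R) {x : G}
    (hx : ∀ r ∈ R, r * x = x * r) : tau N x - tau (CR N R) x ∈ V.nonunits := by
  let _ : Fintype (Cj G) := Fintype.ofEquiv _ Cj.equiv.symm
  let F : Subgroup G → Cj G × Cj G → ℂ := fun H z =>
    ind (fun z : G × G => z.1 ∈ H ∧ z.2 ∈ H ∧ z.1 * z.2 * z.1⁻¹ * z.2⁻¹ = x) (z.1.v, z.2.v)
  have e : ∀ H : Subgroup G, tau H x = ∑ z, F H z := fun H => by
    rw [Fintype.sum_prod_type, tau, ← Equiv.sum_comp Cj.equiv]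
    exact Finset.sum_congr rfl fun a _ => (Equiv.sum_comp Cj.equiv _).symm
  have inv : ∀ (H : Subgroup G) (g : R), (∀ y, g * y * (g : G)⁻¹ ∈ H ↔ y ∈ H) →
      ∀ z, F H (g • z) = F H z := fun H g h z => by
    have := zeb_pair h z.1.v z.2.v x
    rw [pinv2_comm hx g.2] at this
    exact zeb_ind_congr this
  rw [e, e, ← Finset.sum_sub_distrib]
  refine sum_mem_of_pgroup hR _ (fun g z => ?_) V.nonunits.toAddSubgroup (fun z => ?_)
    fun z hz => ?_
  · rw [inv N g (zeb_N N g), inv _ g (pinv2_CR g.2)]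
  · rw [nsmul_eq_mul]
    exact mul_mem_nonunits hp (sub_mem (ind_mem V _ _) (ind_mem V _ _))
  · have h1 : ∀ r ∈ R, r * z.1.v = z.1.v * r := fun r hr => mul_inv_eq_iff_eq_mul.1
      (congrArg (fun z : Cj G × Cj G => z.1.v) (hz ⟨r, hr⟩))
    have h2 : ∀ r ∈ R, r * z.2.v = z.2.v * r := fun r hr => mul_inv_eq_iff_eq_mul.1
      (congrArg (fun z : Cj G × Cj G => z.2.v) (hz ⟨r, hr⟩))
    have h3 : F N z = F (CR N R) z := zeb_ind_congr
      ⟨fun h => ⟨mem_CR.2 ⟨h.1, h1⟩, mem_CR.2 ⟨h.2.1, h2⟩, h.2.2⟩,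
        fun h => ⟨(mem_CR.1 h.1).1, (mem_CR.1 h.2.1).1, h.2.2⟩⟩
    rw [h3, sub_self]
    exact zero_mem _

lemma pinv2_cpow (hp : (p : ℂ) ∈ V.nonunits) {R : Subgroup G} (hR : IsPGroup p R) (m : ℕ)
    {x : G} (hx : ∀ r ∈ R, r * x = x * r) :
    cpow (tau N) m x - cpow (tau (CR N R)) m x ∈ V.nonunits := by
  induction m generalizing x with
  | zero => exact (sub_self (ind (· = 1) x)).symm ▸ zero_mem _
  | succ m ih =>
    change ∑ y, tau N y * cpow (tau N) m (y⁻¹ * x) -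
      ∑ y, tau (CR N R) y * cpow (tau (CR N R)) m (y⁻¹ * x) ∈ _
    rw [← Finset.sum_sub_distrib]
    refine sum_mem_of_conj R hR _ (fun g hg y => ?_) V.nonunits.toAddSubgroup
      (fun y => ?_) fun y hy => ?_
    · have e : (g * y * g⁻¹)⁻¹ * x = g * (y⁻¹ * x) * g⁻¹ := by
        rw [← pinv2_comm hx hg]
        nth_rewrite 2 [pinv2_comm hx hg]
        group
      rw [e, zeb_tau_conj (zeb_N N g), zeb_tau_conj (pinv2_CR hg),
        zeb_cpow_conj (zeb_tau_conj (zeb_N N g)), zeb_cpow_conj (zeb_tau_conj (pinv2_CR hg))]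
    · rw [nsmul_eq_mul]
      exact mul_mem_nonunits hp (sub_mem
        (mul_mem (zeb_tau_mem _ _) (zeb_cpow_mem (zeb_tau_mem _) _ _))
        (mul_mem (zeb_tau_mem _ _) (zeb_cpow_mem (zeb_tau_mem _) _ _)))
    · have h1 : ∀ r ∈ R, r * (y⁻¹ * x) = y⁻¹ * x * r := fun r hr =>
        ((show Commute r y from hy r hr).inv_right.mul_right (hx r hr)).eq
      have h2 := mul_mem_nonunits (ih h1) (zeb_tau_mem (V := V) N y)
      have h3 := mul_mem_nonunits (pinv2_tau (N := N) hp hR hy)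
        (zeb_cpow_mem (zeb_tau_mem (V := V) (CR N R)) m (y⁻¹ * x))
      have e : tau N y * cpow (tau N) m (y⁻¹ * x) -
          tau (CR N R) y * cpow (tau (CR N R)) m (y⁻¹ * x) =
          (cpow (tau N) m (y⁻¹ * x) - cpow (tau (CR N R)) m (y⁻¹ * x)) * tau N y +
          (tau N y - tau (CR N R) y) * cpow (tau (CR N R)) m (y⁻¹ * x) := by ring
      rw [e]
      exact add_mem h2 h3

/-- As `tau_brauer`, `cpow_brauer`, `EE_brauer` (ZEE) with `R` in place of `zpowers u`; `R`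
normalises `CR N R`. -/
lemma EE_brauer2 (hp : (p : ℂ) ∈ V.nonunits) {R : Subgroup G} (hR : IsPGroup p R) {x : G}
    (hx : ∀ r ∈ R, r * x = x * r) : EE p N x - EE p (CR N R) x ∈ V.nonunits := by
  have h := add_mem (add_mem (EE_pow hp N x) (pinv2_cpow (N := N) hp hR (p - 1) hx))
    (neg_mem (EE_pow hp (CR N R) x))
  convert h using 1
  ring

open Classical in
/-- `sum_mem_of_pgroup` on `Quotient r` with the induced action (`Quotient.map`);
`Finset.sum_fiberwise`. -/
lemma sum_mem_of_rel {Γ X A : Type} [Group Γ] [MulAction Γ X] [Fintype X] [AddCommGroup A]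
    (hΓ : IsPGroup p Γ) (r : Setoid X) (hr : ∀ (g : Γ) x y, r x y → r (g • x) (g • y))
    (ψ : X → A) (J : AddSubgroup A)
    (h1 : ∀ (g : Γ) x, ∑ y, (if r (g • x) y then ψ y else 0) = ∑ y, if r x y then ψ y else 0)
    (h2 : ∀ x, p • ∑ y, (if r x y then ψ y else 0) ∈ J)
    (h3 : ∀ x, (∀ g : Γ, r (g • x) x) → ∑ y, (if r x y then ψ y else 0) ∈ J) :
    ∑ y, ψ y ∈ J := by
  let _ : MulAction Γ (Quotient r) :=
    { smul := fun g => Quotient.map (g • ·) (hr g)
      one_smul := fun q => Quotient.inductionOn q fun x => congrArg (Quotient.mk r) (one_smul Γ x)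
      mul_smul := fun g h q => Quotient.inductionOn q fun x =>
        congrArg (Quotient.mk r) (mul_smul g h x) }
  let φ : Quotient r → A := fun q => ∑ y, if q = Quotient.mk r y then ψ y else 0
  have hφ : ∀ x, φ (Quotient.mk r x) = ∑ y, if r x y then ψ y else 0 := fun x =>
    Finset.sum_congr rfl fun y _ => if_congr Quotient.eq rfl rfl
  have e : ∑ y, ψ y = ∑ q, φ q := by
    rw [Finset.sum_comm]
    exact Finset.sum_congr rfl fun y _ => by simp
  rw [e]
  refine sum_mem_of_pgroup hΓ φ (fun g q => ?_) J (fun q => ?_) fun q => ?_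
  · induction q using Quotient.inductionOn with
    | h x => exact ((hφ (g • x)).trans (h1 g x)).trans (hφ x).symm
  · induction q using Quotient.inductionOn with
    | h x => exact hφ x ▸ h2 x
  · induction q using Quotient.inductionOn with
    | h x => exact fun hq => hφ x ▸ h3 x fun g => Quotient.exact (hq g)

end Pool.Agent.Lib.MP_b6945b_al.Ip
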