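import Pool.Agent.Lib.MP_b6945b_al.Ip.PConv

set_option autoImplicit false

/-!
The two kernels for a coset that centralises the chief factor.
-/

namespace Pool.Agent.Lib.MP_b6945b_al.Ip

open Finset

variable {G : Type} [Group G] [Fintype G] {p : ℕ} [Fact p.Prime] {V : ValuationSubring ℂ}
  {N M : Subgroup G} [N.Normal]

open Classical in
/-- The kernel on the coset. -/
noncomputable def kX2 (p : ℕ) {N : Subgroup G} [N.Normal] [Fintype N] (M : Subgroup G)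
    (I : IrrData N) (a : G) (x x' : Cj G) : ℂ :=
  if x.v * a⁻¹ ∈ N then EI p M I (x.v * x'.v⁻¹) else 0

/-- A complement together with an element of the coset that centralises it. -/
def Yv (p : ℕ) (N M : Subgroup G) (a : G) (y : RS G) : Prop :=
  RR p N M y.R ∧ y.s * a⁻¹ ∈ N ∧ ∀ r ∈ y.R, r * y.s = y.s * r

open Classical in
/-- The kernel on the pairs. -/
noncomputable def kY2 (p : ℕ) (N M : Subgroup G) (a : G) (y y' : RS G) : ℂ :=
  if Yv p N M a y ∧ y'.R = y.R then EE p (CR N y.R) (y.s * y'.s⁻¹) else 0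

/-- Elements of the coset with regular centraliser in `N` whose class is stable under `M`. -/
def X2 (p : ℕ) (N M : Subgroup G) (a : G) (x : Cj G) : Prop :=
  x.v * a⁻¹ ∈ N ∧ (∀ w ∈ N, w ^ p = 1 → w * x.v = x.v * w → w = 1) ∧
    ∀ v ∈ M, ∃ n ∈ N, n * x.v * n⁻¹ = v * x.v * v⁻¹

/-- The corresponding pairs. -/
def Y2 (p : ℕ) (N M : Subgroup G) (a : G) (y : RS G) : Prop :=
  Yv p N M a y ∧ ∀ w ∈ CR N y.R, w ^ p = 1 → w * y.s = y.s * w → w = 1

/-- The image of the kernel on the coset consists of functions that are invariant under `M`. -/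
def Gd2 (p : ℕ) {N : Subgroup G} [N.Normal] [Fintype N] (M : Subgroup G) (I : IrrData N)
    (a : G) : Prop :=
  ∀ f : Cj G → ℂ, (∀ (g : N) x, f (g • x) = f x) → ∀ v ∈ M, ∀ x : Cj G,
    ∑ x', kX2 p M I a (v • x) x' * f x' = ∑ x', kX2 p M I a x x' * f x'

section X
variable [M.Normal] [Fintype N]

omit [M.Normal] in
lemma pker1_idem (I : IrrData N) (a b : G) :
    ∑ x : Cj G, EI p M I (a * x.v⁻¹) * EI p M I (x.v * b⁻¹) = EI p M I (a * b⁻¹) := by
  have h := congrFun (ee_mul I (fun i => Dz p I i ∧ M ≤ St I i)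
    fun i => Dz p I i ∧ M ≤ St I i) (a * b⁻¹)
  simp only [and_self] at h
  rw [EI, ← h, conv]
  refine Fintype.sum_equiv (Cj.equiv.trans ((Equiv.inv G).trans (Equiv.mulLeft a))) _ _
    fun x => ?_
  change _ = EI p M I (a * x.v⁻¹) * EI p M I ((a * x.v⁻¹)⁻¹ * (a * b⁻¹))
  rw [show (a * x.v⁻¹)⁻¹ * (a * b⁻¹) = x.v * b⁻¹ by group]
  rfl

/-- As `ker_X` (ZTr): `ee_mem`, `EI_conj`, `ee_mul`, `ee_supp`, `ztra_coset`. -/
lemma ker_X2 (hp : (p : ℂ) ∈ V.nonunits) (I : IrrData N) (a : G) :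
    Ker N V (kX2 p M I a) fun _ => True := by
  classical
  refine ⟨fun x x' => ?_, fun g x x' => ?_, fun x x'' => ?_, fun _ _ _ => trivial,
    fun _ _ _ _ h => absurd trivial h⟩
  · unfold kX2
    split_ifs
    · exact ee_mem hp I (fun _ h => h.1) _
    · exact V.zero_mem
  · change kX2 p M I a ⟨g * x.v * (g : G)⁻¹⟩ ⟨g * x'.v * (g : G)⁻¹⟩ = _
    have e : (g : G) * x.v * (g : G)⁻¹ * (g * x'.v * (g : G)⁻¹)⁻¹ =
        g * (x.v * x'.v⁻¹) * (g : G)⁻¹ := by group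
    simp only [kX2, ztra_coset g.2, e, EI_conj]
  · by_cases hx : x.v * a⁻¹ ∈ N
    · simp only [kX2, if_pos hx]
      rw [← pker1_idem]
      refine Finset.sum_congr rfl fun x' _ => ?_
      split_ifs with h'
      · rfl
      · rw [EI, ee_supp I _ fun h => h' ?_, zero_mul, zero_mul]
        simpa [mul_assoc] using N.mul_mem (N.inv_mem h) hx
    · simp [kX2, hx]

omit [Fintype G] [Fact p.Prime] in
lemma kX2_conj (I : IrrData N) {a b : G} (hab : cm a b ∈ N) (x x' : Cj G) :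
    kX2 p M I a (b • x) (b • x') = kX2 p M I a x x' := by
  classical
  change kX2 p M I a ⟨b * x.v * b⁻¹⟩ ⟨b * x'.v * b⁻¹⟩ = _
  have e : b * x.v * b⁻¹ * (b * x'.v * b⁻¹)⁻¹ = b * (x.v * x'.v⁻¹) * b⁻¹ := by group
  have e1 : b * x.v * b⁻¹ * a⁻¹ = b * (x.v * a⁻¹) * b⁻¹ * (cm a b)⁻¹ := by unfold cm; group
  simp only [kX2, e, e1, N.mul_mem_cancel_right (N.inv_mem hab), ← ztra_conj, EI_conj]

omit [Fintype G] [Fact p.Prime] [Fintype N] in
lemma X2_smul (a : G) (g : N) (x : Cj G) (h : X2 p N M a x) : X2 p N M a (g • x) := by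
  refine ⟨(ztra_coset g.2).2 h.1, fun w hw hwp hc => ztra_triv (N := N) (g := g)
    (P := fun w => w * x.v = x.v * w) h.2.1 hw hwp (ztra_back hc), fun v hv => ?_⟩
  obtain ⟨n, hn, e⟩ := h.2.2 v hv
  refine ⟨v * g * v⁻¹ * n * (g : G)⁻¹,
    N.mul_mem (N.mul_mem ((ztra_conj v _).1 g.2) hn) (N.inv_mem g.2), ?_⟩
  change _ * (g * x.v * (g : G)⁻¹) * _ = v * (g * x.v * (g : G)⁻¹) * v⁻¹
  calc _ = v * g * v⁻¹ * (n * x.v * n⁻¹) * (v * g * v⁻¹)⁻¹ := by group
    _ = _ := by rw [e]; group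

/-- As `ztra_van` (ZTr) with `ee_van`, `EI_conj`. -/
lemma kX2_van (hp : (p : ℂ) ∈ V.nonunits) (I : IrrData N) (a : G) (f : Cj G → ℂ)
    (hf : ∀ (g : N) x, f (g • x) = f x) (hV : ∀ x, f x ∈ V) (x : Cj G) {w : G} (hw : w ∈ N)
    (h1 : w ≠ 1) (hwp : w ^ p = 1) (hc : w * x.v = x.v * w) :
    ∑ x', kX2 p M I a x x' * f x' ∈ V.nonunits := by
  classical
  by_cases hx : x.v * a⁻¹ ∈ N
  swap
  · simp [kX2, hx]
  have e0 : ∑ x', kX2 p M I a x x' * f x' = ∑ y : G, EI p M I (x.v * y⁻¹) * f ⟨y⟩ :=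
    Fintype.sum_equiv Cj.equiv _ _ fun _ => by rw [kX2, if_pos hx]; rfl
  rw [e0]
  refine sum_mem_of_conj (p := p) (Subgroup.zpowers w) ?_ _ ?_ V.nonunits.toAddSubgroup ?_ ?_
  · rintro ⟨g, k, rfl⟩
    refine ⟨1, Subtype.ext ?_⟩
    change (w ^ k) ^ p ^ 1 = 1
    rw [pow_one, ← zpow_natCast, ← zpow_mul, mul_comm, zpow_mul, zpow_natCast, hwp, one_zpow]
  · intro g hg y
    have hgN : g ∈ N := (Subgroup.zpowers_le.2 hw) hg
    have hgs : g * x.v = x.v * g := by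
      obtain ⟨k, rfl⟩ := hg
      exact (Commute.zpow_left hc k).eq
    have e : x.v * (g * y * g⁻¹)⁻¹ = g * (x.v * y⁻¹) * g⁻¹ := by
      rw [← mul_assoc g, hgs]
      group
    rw [e, EI_conj, ← hf ⟨g, hgN⟩ ⟨y⟩]
    rfl
  · intro y
    rw [nsmul_eq_mul]
    exact mul_mem_nonunits hp (V.mul_mem _ _ (ee_mem hp I (fun _ h => h.1) _) (hV _))
  · intro y hy
    refine mul_mem_nonunits (ee_van hp I (fun _ h => h.1) hw h1 hwp ?_) (hV _)
    exact ((show Commute w x.v from hc).mul_right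
      (show Commute w y from hy w (Subgroup.mem_zpowers w)).inv_right).eq

/-- With `f' t = if t * a⁻¹ ∈ N then f ⟨t⟩ else 0` the sum is `conv (EI p M I) f' x.v` for every
`x` (`ee_supp`); `ee_sum`, `conv_ee_inv`, `hc.pow`. -/
lemma kX2_good (hc : Fac p N M) (I : IrrData N) {a : G} (ha : a ∈ CV N M) {m : ℕ}
    (hm : ¬ p ∣ m) (ham : a ^ m ∈ N) : Gd2 p M I a := by
  classical
  intro f hf v hv x
  obtain ⟨F, hF⟩ : ∃ F : G → ℂ, ∀ t, F t = if t * a⁻¹ ∈ N then f ⟨t⟩ else 0 :=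
    ⟨_, fun _ => rfl⟩
  have key : ∀ z : Cj G, ∑ x', kX2 p M I a z x' * f x' =
      ∑ i, if Dz p I i ∧ M ≤ St I i then conv (ee I (· = i)) F z.v else 0 := fun z => by
    have e1 : ∑ x', kX2 p M I a z x' * f x' = ∑ y : G, EI p M I y * F (y⁻¹ * z.v) := by
      refine Fintype.sum_equiv (Cj.equiv.trans ((Equiv.inv G).trans (Equiv.mulLeft z.v))) _ _
        fun t => ?_
      change _ = EI p M I (z.v * t.v⁻¹) * F ((z.v * t.v⁻¹)⁻¹ * z.v)
      rw [show (z.v * t.v⁻¹)⁻¹ * z.v = t.v by group, hF, kX2]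
      by_cases h : z.v * t.v⁻¹ ∈ N
      · have e : z.v * a⁻¹ = z.v * t.v⁻¹ * (t.v * a⁻¹) := by group
        rw [e]
        simp only [N.mul_mem_cancel_left h]
        split_ifs <;> simp
      · rw [EI, ee_supp I _ h]
        simp
    rw [e1]
    simp only [EI, ee_sum I fun i => Dz p I i ∧ M ≤ St I i, sum_mul]
    rw [sum_comm]
    refine sum_congr rfl fun i _ => ?_
    split_ifs
    · rfl
    · simp
  rw [key, key]
  refine sum_congr rfl fun i _ => ite_congr rfl (fun hi => ?_) fun _ => rfl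
  refine conv_ee_inv I i hm ham (hc.pow v hv) (ha v hv) (hi.2 hv)
    (fun t ht => by rw [hF, if_neg ht]) (fun n hn t => ?_) x.v
  rw [hF, hF, ← hf ⟨n, hn⟩ ⟨t⟩]
  exact if_congr (ztra_coset hn) rfl rfl

omit [Fintype G] [Fact p.Prime] [Fintype N] in
/-- If `X2 x` then `v • x = n • x`.  If `X2 (v • x)` apply this to `v • x` and `v⁻¹`.  Otherwise
both sides are `0`. -/
lemma good_of_supp (a : G) (f : Cj G → ℂ) (hf : ∀ (g : N) x, f (g • x) = f x)
    (h0 : ∀ x, ¬ X2 p N M a x → f x = 0) {v : G} (hv : v ∈ M) (x : Cj G) : f (v • x) = f x := by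
  by_cases h1 : X2 p N M a x
  · obtain ⟨n, hn, e⟩ := h1.2.2 v hv
    rw [← hf ⟨n, hn⟩ x]
    exact congrArg f (Cj.ext e.symm)
  by_cases h2 : X2 p N M a (v • x)
  · obtain ⟨n, hn, e⟩ := h2.2.2 v⁻¹ (M.inv_mem hv)
    rw [← hf ⟨n, hn⟩ (v • x)]
    refine congrArg f (Cj.ext (e.trans ?_))
    change v⁻¹ * (v * x.v * v⁻¹) * v⁻¹⁻¹ = x.v
    group
  rw [h0 _ h1, h0 _ h2]

omit [M.Normal] [Fintype N] in
/-- A Sylow subgroup of `M` covers the factor. -/
lemma pk3_syl (hc : Fac p N M) :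
    ∃ P : Subgroup G, IsPGroup p P ∧ P ≤ M ∧ ∀ v ∈ M, ∃ u ∈ P, u⁻¹ * v ∈ N := by
  obtain ⟨Q⟩ : Nonempty (Sylow p M) := inferInstance
  have hφ := QuotientGroup.mk'_surjective (N.subgroupOf M)
  have hG : IsPGroup p (M ⧸ N.subgroupOf M) := fun x => by
    obtain ⟨v, rfl⟩ := hφ x
    exact ⟨1, by
      rw [pow_one, ← map_pow]
      exact (QuotientGroup.eq_one_iff _).2 (hc.pow v v.2)⟩
  have hR : (⊤ : Subgroup (M ⧸ N.subgroupOf M)) = Q.mapSurjective hφ :=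
    (Q.mapSurjective hφ).3 (hG.to_subgroup ⊤) le_top
  refine ⟨(Q : Subgroup M).map M.subtype, Q.2.map _, Subgroup.map_subtype_le _, fun v hv => ?_⟩
  have h1 : QuotientGroup.mk' (N.subgroupOf M) ⟨v, hv⟩ ∈
      ((Q.mapSurjective hφ : Sylow p _) : Subgroup (M ⧸ N.subgroupOf M)) :=
    hR ▸ Subgroup.mem_top _
  rw [Sylow.coe_mapSurjective] at h1
  obtain ⟨u, hu, e⟩ := h1
  exact ⟨u, ⟨u, hu, rfl⟩, (QuotientGroup.eq (s := N.subgroupOf M)).1 e⟩

omit [Fintype G] [Fintype N] in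
/-- The classes under `N` are permuted by `G`. -/
lemma pk3_rel (g : G) {x y : Cj G} (h : MulAction.orbitRel N (Cj G) x y) :
    MulAction.orbitRel N (Cj G) (g • x) (g • y) := by
  obtain ⟨n, rfl⟩ := h
  refine ⟨⟨g * n * g⁻¹, Subgroup.Normal.conj_mem inferInstance _ n.2 g⟩, ?_⟩
  change (g * n * g⁻¹) • g • y = g • (n : G) • y
  rw [← mul_smul, ← mul_smul, inv_mul_cancel_right]

open Classical in
/-- A function that is invariant under `M` and vanishes on the stable classes. -/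
lemma pk3_core (hp : (p : ℂ) ∈ V.nonunits) (hc : Fac p N M) (I : IrrData N) {a : G}
    (ha : a ∈ CV N M) (hg : Gd2 p M I a) (h : Cj G → ℂ)
    (hM : ∀ v ∈ M, ∀ z, h (v • z) = h z) (hV : ∀ z, h z ∈ V)
    (h0 : ∀ z, (∀ v ∈ M, ∃ n ∈ N, n • z = v • z) → h z = 0) (x : Cj G) :
    ∑ y, kX2 p M I a x y * h y ∈ V.nonunits := by
  obtain ⟨P, hP, hPM, hcov⟩ := pk3_syl hc
  have hK := ker_X2 (M := M) hp I a
  obtain ⟨r, hr⟩ : ∃ r, r = MulAction.orbitRel N (Cj G) := ⟨_, rfl⟩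
  have r1 : ∀ (g : G) y z, r (g • y) (g • z) ↔ r y z := fun g y z => by
    rw [hr]
    exact ⟨fun e => by simpa only [inv_smul_smul] using pk3_rel g⁻¹ e, pk3_rel g⟩
  have r2 : ∀ y z, r y z ↔ ∃ n ∈ N, n • z = y := fun y z => by
    rw [hr]
    exact ⟨fun ⟨n, e⟩ => ⟨n, n.2, e⟩, fun ⟨n, hn, e⟩ => ⟨⟨n, hn⟩, e⟩⟩
  have r3 : ∀ z (n : N) y, r z (n • y) ↔ r z y := fun z n y => by
    have e : r (n • y) y := (r2 _ _).2 ⟨n, n.2, rfl⟩
    exact ⟨fun e' => r.trans e' e, fun e' => r.trans e' (r.symm e)⟩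
  have s1 : ∀ z, ∑ y, (if r z y then kX2 p M I a x y * h y else 0) =
      h z * ∑ y, kX2 p M I a x y * (if r z y then 1 else 0) := fun z => by
    rw [mul_sum]
    refine sum_congr rfl fun y _ => ?_
    split_ifs with e
    · obtain ⟨n, hn, rfl⟩ := (r2 _ _).1 e
      rw [hM n (hc.le hn), mul_one, mul_comm]
    · rw [mul_zero, mul_zero]
  have s2 : ∀ v ∈ M, ∀ z, ∑ y, kX2 p M I a x y * (if r (v • z) y then 1 else 0) =
      ∑ y, kX2 p M I a x y * (if r z y then 1 else 0) := fun v hv z => by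
    rw [← hg (fun y => if r (v • z) y then 1 else 0) (fun n y => by simp only [r3]) v hv x,
      ← Equiv.sum_comp (MulAction.toPerm v)]
    simp only [MulAction.toPerm_apply, kX2_conj I (ha v hv), r1]
  refine sum_mem_of_rel (Γ := P) hP r (fun g y z e => (r1 g y z).2 e) _
    V.nonunits.toAddSubgroup (fun g z => ?_) (fun z => ?_) fun z hz => ?_
  · rw [s1, s1, Subgroup.smul_def, s2 g (hPM g.2), hM g (hPM g.2)]
  · rw [nsmul_eq_mul]
    refine mul_mem_nonunits hp (sum_mem fun y _ => ?_)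
    split_ifs
    · exact mul_mem (hK.mem _ _) (hV _)
    · exact zero_mem _
  · rw [s1, h0 z fun v hv => ?_, zero_mul]
    · exact zero_mem _
    obtain ⟨u, hu, e⟩ := hcov v hv
    obtain ⟨n, hn, e'⟩ := (r2 _ _).1 (hz ⟨u, hu⟩)
    refine ⟨u * (u⁻¹ * v) * u⁻¹ * n,
      mul_mem (Subgroup.Normal.conj_mem inferInstance _ e u) hn, ?_⟩
    rw [mul_smul, e']
    change (u * (u⁻¹ * v) * u⁻¹) • u • z = _
    rw [← mul_smul, inv_mul_cancel_right, mul_inv_cancel_left]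

omit [Fintype G] [N.Normal] [M.Normal] [Fintype N] in
/-- Stability of a class under `M` is invariant under `M`. -/
lemma pk3_stab {z : Cj G} (h : ∀ v ∈ M, ∃ n ∈ N, n • z = v • z) {w : G} (hw : w ∈ M) :
    ∀ v ∈ M, ∃ n ∈ N, n • w • z = v • w • z := fun v hv => by
  obtain ⟨n, hn, e⟩ := h _ (mul_mem hv hw)
  obtain ⟨n', hn', e'⟩ := h w hw
  exact ⟨n * n'⁻¹, mul_mem hn (inv_mem hn'), by
    rw [← mul_smul v, ← e, ← e', ← mul_smul, inv_mul_cancel_right]⟩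

open Classical in
/-- Put `g = E f` (invariant under `M` by `hg`, values in `V`, zero outside the coset) and
`Z x' = ¬ ∀ v ∈ M, ∃ n ∈ N, n x' n⁻¹ = v x' v⁻¹` (invariant under `M`).  If `¬ X2 x'` and `¬ Z x'`
then `g x'` is a nonunit (`kX2_van`), so it suffices to treat `ψ x' = κ x x' * (if Z x' then g x'
else 0)`.  `sum_mem_of_rel` for a Sylow subgroup `P` of `M` (as a subgroup of `G`; `M ≤ P ⊔ N`
as `v = u * s` with `s ∈ N` by `hc.pow`, and `u` is conjugate into `P`, `hc.comm`) and the orbit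
relation of `N` on `Cj G`.  The class sum at `x'` is `(if Z x' then g x' else 0) * E (ind class
of x') x`; under `v ∈ P` it is unchanged by `kX2_conj` (`cm a v ∈ N`) and `hg`; a class
fixed by `P` is fixed by `M`, so `Z` fails on it. -/
lemma kX2_EPE (hp : (p : ℂ) ∈ V.nonunits) (hc : Fac p N M) (I : IrrData N) {a : G}
    (ha : a ∈ CV N M) (hg : Gd2 p M I a) (f : Cj G → ℂ)
    (hf : ∀ (g : N) x, f (g • x) = f x) (hV : ∀ x, f x ∈ V) (x : Cj G) :
    ∑ x', kX2 p M I a x x' * (if X2 p N M a x' then 0 else ∑ x'', kX2 p M I a x' x'' * f x'') ∈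
      V.nonunits := by
  have hK := ker_X2 (M := M) hp I a
  obtain ⟨g, hgd⟩ : ∃ g : Cj G → ℂ, ∀ z, g z = ∑ y, kX2 p M I a z y * f y := ⟨_, fun _ => rfl⟩
  obtain ⟨W, hW⟩ : ∃ W : Cj G → Prop, ∀ z, W z ↔ ∀ v ∈ M, ∃ n ∈ N, n • z = v • z :=
    ⟨_, fun _ => Iff.rfl⟩
  have w1 : ∀ v ∈ M, ∀ z, W (v • z) ↔ W z := fun v hv z => by
    rw [hW, hW]
    exact ⟨fun e => by simpa only [inv_smul_smul] using pk3_stab e (inv_mem hv),
      fun e => pk3_stab e hv⟩
  have w2 : ∀ z, W z ↔ ∀ v ∈ M, ∃ n ∈ N, n * z.v * n⁻¹ = v * z.v * v⁻¹ := fun z => by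
    rw [hW]
    exact forall₂_congr fun v _ => exists_congr fun n => and_congr_right fun _ => Cj.ext_iff
  have c1 := pk3_core hp hc I ha hg (fun z => if W z then 0 else g z)
    (fun v hv z => by simp only [w1 v hv, hgd, hg f hf v hv])
    (fun z => by
      split_ifs
      · exact zero_mem _
      · rw [hgd]
        exact sum_mem fun y _ => mul_mem (hK.mem _ _) (hV _))
    (fun z e => if_pos ((hW z).2 e)) x
  have c2 : ∑ y, kX2 p M I a x y * ((if X2 p N M a y then 0 else g y) -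
      if W y then 0 else g y) ∈ V.nonunits := by
    refine sum_mem fun y _ => ?_
    rw [mul_comm]
    refine mul_mem_nonunits ?_ (hK.mem _ _)
    by_cases e1 : X2 p N M a y
    · rw [if_pos e1, if_pos ((w2 y).2 e1.2.2), sub_zero]
      exact zero_mem _
    by_cases e2 : W y
    swap
    · rw [if_neg e1, if_neg e2, sub_self]
      exact zero_mem _
    rw [if_neg e1, if_pos e2, sub_zero, hgd]
    by_cases e3 : y.v * a⁻¹ ∈ N
    · by_contra e4
      refine e1 ⟨e3, fun w b1 b2 b3 => ?_, (w2 y).1 e2⟩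
      by_contra b4
      exact e4 (kX2_van hp I a f hf hV y b1 b4 b2 b3)
    · simp only [kX2, if_neg e3, zero_mul, sum_const_zero]
      exact zero_mem _
  have c3 := add_mem c1 c2
  simp only [← sum_add_distrib, ← mul_add, add_sub_cancel, hgd] at c3
  exact c3

end X

section Y
variable [M.Normal]

omit [Fintype G] [Fact p.Prime] in
lemma pky_smul {a b : G} (hab : cm a b ∈ N) {y : RS G} (h : Yv p N M a y) :
    Yv p N M a (b • y) := by
  obtain ⟨⟨h1, h2, h3⟩, h4, h5⟩ := h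
  have e : b * y.s * b⁻¹ * a⁻¹ = b * (y.s * a⁻¹) * b⁻¹ * (cm a b)⁻¹ := by unfold cm; group
  refine ⟨⟨h1.map _, ?_, ?_⟩, ?_, fun r hr => ?_⟩
  · rw [RS.smul_R, ← Subgroup.Normal.conj_smul_eq_self b N, ← Subgroup.smul_inf, h2,
      Subgroup.smul_bot]
  · rw [RS.smul_R, ← Subgroup.Normal.conj_smul_eq_self b N, ← Subgroup.smul_sup, h3,
      Subgroup.Normal.conj_smul_eq_self]
  · rw [RS.smul_s, e]
    exact N.mul_mem ((ztra_conj b _).1 h4) (N.inv_mem hab)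
  · simpa [RS.smul_s, mul_assoc] using (ztra_comm b _ _).2 (h5 _ (mem_conj_smul.1 hr))

omit [Fintype G] [Fact p.Prime] in
/-- `mem_conj_smul` (Conj); `N` and `M` are normal. -/
lemma Yv_smul {a b : G} (hab : cm a b ∈ N) (y : RS G) : Yv p N M a (b • y) ↔ Yv p N M a y := by
  refine ⟨fun h => ?_, pky_smul hab⟩
  have e : cm a b⁻¹ = b⁻¹ * (cm a b)⁻¹ * b⁻¹⁻¹ := by unfold cm; group
  simpa using pky_smul (b := b⁻¹) (e ▸ (ztra_conj _ _).1 (N.inv_mem hab)) h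

omit [Fintype G] in
lemma pky_CR (b : G) (y : RS G) (x : G) : x ∈ CR N y.R ↔ b * x * b⁻¹ ∈ CR N (b • y).R := by
  rw [mem_CR, mem_CR, ← ztra_conj]
  refine and_congr_right fun _ => ⟨fun h r hr => ?_, fun h r hr => ?_⟩
  · simpa [mul_assoc] using (ztra_comm b _ _).2 (h _ (mem_conj_smul.1 hr))
  · exact (ztra_comm b _ _).1 (h _ (mem_conj_smul.2 (by simpa [mul_assoc] using hr)))

open scoped Pointwise in
omit [Fact p.Prime] in
/-- `Yv_smul`, `EE_conj`. -/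
lemma kY2_conj {a b : G} (hab : cm a b ∈ N) (y y' : RS G) :
    kY2 p N M a (b • y) (b • y') = kY2 p N M a y y' := by
  have e : b * y.s * b⁻¹ * (b * y'.s * b⁻¹)⁻¹ = b * (y.s * y'.s⁻¹) * b⁻¹ := by group
  have e1 : (b • y').R = (b • y).R ↔ y'.R = y.R := smul_left_cancel_iff (MulAut.conj b)
  rw [kY2, kY2, Yv_smul hab, e1, RS.smul_s, RS.smul_s, e, EE_conj (pky_CR (N := N) b y)]

omit [Fact p.Prime] [M.Normal] in
lemma sum_kY2 {a : G} {y : RS G} (hy : Yv p N M a y) (F : RS G → ℂ) :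
    ∑ y', kY2 p N M a y y' * F y' = ∑ t : G, EE p (CR N y.R) (y.s * t⁻¹) * F ⟨y.R, t⟩ := by
  classical
  rw [← RS.equiv.symm.sum_comp, Fintype.sum_prod_type, Finset.sum_eq_single y.R]
  · exact Finset.sum_congr rfl fun t _ => congrArg (· * F ⟨y.R, t⟩) (if_pos ⟨hy, rfl⟩)
  · exact fun R _ hR => Finset.sum_eq_zero fun t _ =>
      mul_eq_zero_of_left (if_neg fun h => hR h.2) _
  · simp

omit [Fact p.Prime] [M.Normal] in
/-- `EE_supp`. -/
lemma Yv_of_ne {a : G} {y y' : RS G} (h : kY2 p N M a y y' ≠ 0) : Yv p N M a y' := by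
  rw [kY2] at h
  split_ifs at h with h3
  · obtain ⟨⟨h1, h2, h4⟩, e⟩ := h3
    obtain ⟨h5, h6⟩ := mem_CR.1 (not_not.1 fun h5 => h (EE_supp h5))
    refine ⟨e ▸ h1, by simpa [mul_assoc] using N.mul_mem (N.inv_mem h5) h2, fun r hr => ?_⟩
    have h7 : Commute r ((y.s * y'.s⁻¹)⁻¹ * y.s) :=
      (Commute.inv_right (h6 r (e ▸ hr))).mul_right (h4 r (e ▸ hr))
    simpa [mul_assoc] using h7.eq
  · exact absurd rfl h

/-- As `ker_Y` (ZTr): `ztra_idem`, `ztra_van`; `cm a g ∈ N` for `g ∈ N`. -/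
lemma ker_Y2 (hp : (p : ℂ) ∈ V.nonunits) (a : G) : Ker N V (kY2 p N M a) (Y2 p N M a) := by
  classical
  have hc : ∀ g : N, cm a g ∈ N := fun g => by
    simpa [cm] using N.mul_mem ((ztra_conj a _).1 g.2) (N.inv_mem g.2)
  have hz : ∀ y y', ¬ Yv p N M a y → kY2 p N M a y y' = 0 := fun y y' h => if_neg fun e => h e.1
  have hs : ∀ F : G → ℂ, ∑ t, F t = ∑ x : Cj G, F x.v := fun F =>
    (Fintype.sum_equiv Cj.equiv _ _ fun _ => rfl).symm
  refine ⟨fun y y' => ?_, fun g => kY2_conj (hc g), fun y y'' => ?_,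
    fun g y h => ⟨(Yv_smul (hc g) y).2 h.1, fun w hw hwp h1 => ?_⟩, fun f hf hV y h0 => ?_⟩
  · unfold kY2
    split_ifs
    · exact EE_mem hp _ _
    · exact V.zero_mem
  · by_cases hy : Yv p N M a y
    · rw [sum_kY2 hy, hs]
      by_cases he : y''.R = y.R
      · rw [kY2, if_pos ⟨hy, he⟩, ← ztra_idem]
        refine Finset.sum_congr rfl fun x _ => ?_
        by_cases h : EE p (CR N y.R) (y.s * x.v⁻¹) = 0
        · rw [h, zero_mul, zero_mul]
        · rw [kY2, if_pos ⟨Yv_of_ne (y := y) (by rwa [kY2, if_pos ⟨hy, rfl⟩]), he⟩]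
      · simp [kY2, he]
    · simp [hz y _ hy]
  · have h2 : (g : G)⁻¹ * w * g ∈ CR N y.R :=
      (pky_CR (g : G) y _).2 (by simpa [mul_assoc] using show w ∈ CR N ((g : G) • y).R from hw)
    have h3 := h.2 _ h2 (by simpa [hwp] using conj_pow (a := (g : G)⁻¹) (b := w) (i := p))
      (ztra_back h1)
    simpa [mul_assoc, inv_mul_eq_one, ← eq_inv_iff_mul_eq_one] using h3
  · by_cases hy : Yv p N M a y
    · simp only [Y2, hy, true_and, not_forall] at h0
      obtain ⟨w, hw, hwp, h2, h1⟩ := h0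
      rw [sum_kY2 hy, hs]
      refine ztra_van hp hw h1 hwp h2 (fun t => f ⟨y.R, t⟩) (fun g hg t => ?_) fun t => hV _
      have h3 := Subgroup.zpowers_le.2 hw hg
      rw [← hf ⟨g, h3.1⟩ ⟨y.R, t⟩]
      exact congrArg f (RS.ext (conj_smul_eq_iff.2 (CR_le_NR N _ h3)).symm rfl)
    · simp [hz y _ hy]

end Y

end Pool.Agent.Lib.MP_b6945b_al.Ip
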