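import Pool.Agent.Lib.MP_b6945b_al.Ip.ZMat

set_option autoImplicit false

/-!
Equal traces of an operator on the images of two idempotents.
-/

namespace Pool.Agent.Lib.MP_b6945b_al.Ip

open Finset

open IsLocalRing

/-- As `trace_eq_of_cong` (ZMat): `α * β = M` with `α = U⁻¹ * (M * S * M')`, `β = M' * T * M`.
`F = β * α` is idempotent, `M' * F = F = F * M'`, so `D = M' - F` is idempotent with residue `0`:
`1 - D` is invertible and `D * (1 - D) = 0`, so `F = M'`.  `β * B = B' * β`, so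
`tr (M * B) = tr (α * B' * β) = tr (β * α * B')`. -/
theorem trace_eq_of_cong2 {R ι κ : Type} [CommRing R] [IsLocalRing R] [Fintype ι]
    [DecidableEq ι] [Fintype κ] [DecidableEq κ] (M B : Matrix ι ι R) (M' B' : Matrix κ κ R)
    (S : Matrix ι κ R) (T : Matrix κ ι R) (hM : M * M = M) (hM' : M' * M' = M')
    (h1 : (M * S * M' * T * M).map (residue R) = M.map (residue R))
    (h2 : (M' * T * M * S * M').map (residue R) = M'.map (residue R))
    (hB : M * B = B * M) (hB' : M' * B' = B' * M') (hT : T * B = B' * T) :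
    (M * B).trace = (M' * B').trace := by
  obtain ⟨U, hU⟩ : ∃ U, U = M * S * M' * T * M + (1 - M) := ⟨_, rfl⟩
  have e1 : U * M = M * S * M' * T * M := by
    rw [hU, add_mul, sub_mul, one_mul, hM, sub_self, add_zero, Matrix.mul_assoc _ M M, hM]
  have e2 : (residue R).mapMatrix U = 1 := by
    rw [hU, map_add, map_sub, map_one, RingHom.mapMatrix_apply, h1, RingHom.mapMatrix_apply,
      add_sub_cancel]
  have e3 : IsUnit U.det := by
    rw [← residue_ne_zero_iff_isUnit, RingHom.map_det, e2, Matrix.det_one]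
    exact one_ne_zero
  have e4 : U⁻¹.map (residue R) = 1 := by
    have := congrArg (residue R).mapMatrix (Matrix.nonsing_inv_mul _ e3)
    rwa [map_mul, e2, mul_one, map_one] at this
  have e5 : U⁻¹ * (M * S * M') * (M' * T * M) = M := by
    have : M * S * M' * (M' * T * M) = U * M := by
      rw [e1, ← Matrix.mul_assoc, ← Matrix.mul_assoc, Matrix.mul_assoc _ M' M', hM']
    rw [Matrix.mul_assoc, this, ← Matrix.mul_assoc, Matrix.nonsing_inv_mul _ e3, one_mul]
  have e6 : M' * T * M * M = M' * T * M := by rw [Matrix.mul_assoc, hM]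
  obtain ⟨α, hα⟩ : ∃ α, α = U⁻¹ * (M * S * M') := ⟨_, rfl⟩
  obtain ⟨β, hβ⟩ : ∃ β, β = M' * T * M := ⟨_, rfl⟩
  have f0 : (β * α).map (residue R) = M'.map (residue R) := by
    rw [hα, hβ, Matrix.map_mul, Matrix.map_mul (L := U⁻¹), e4, Matrix.one_mul, ← Matrix.map_mul,
      ← h2, ← Matrix.mul_assoc, ← Matrix.mul_assoc, e6]
  rw [← hα, ← hβ] at e5
  rw [← hβ] at e6
  have f1 : M' * β = β := by rw [hβ, ← Matrix.mul_assoc, ← Matrix.mul_assoc, hM']
  have f2 : α * M' = α := by rw [hα, Matrix.mul_assoc, Matrix.mul_assoc _ M' M', hM']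
  have f3 : β * α * (β * α) = β * α := by
    rw [Matrix.mul_assoc, ← Matrix.mul_assoc α, e5, ← Matrix.mul_assoc, e6]
  have f4 : (M' - β * α) * (1 - (M' - β * α)) = 0 := by
    rw [mul_sub, mul_one, mul_sub, sub_mul, sub_mul, hM', f3, Matrix.mul_assoc β α M', f2,
      ← Matrix.mul_assoc M' β α, f1, sub_self, sub_zero, sub_self]
  have f5 : IsUnit (1 - (M' - β * α)).det := by
    rw [← residue_ne_zero_iff_isUnit, RingHom.map_det, map_sub, map_sub, map_one,
      RingHom.mapMatrix_apply, RingHom.mapMatrix_apply, f0, sub_self, sub_zero, Matrix.det_one]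
    exact one_ne_zero
  have f6 : β * α = M' := by
    have := congrArg (· * (1 - (M' - β * α))⁻¹) f4
    simp only [Matrix.mul_assoc, Matrix.mul_nonsing_inv _ f5, mul_one, zero_mul] at this
    exact (sub_eq_zero.1 this).symm
  have f7 : β * B = B' * β := by
    rw [hβ, Matrix.mul_assoc, hB, ← Matrix.mul_assoc, Matrix.mul_assoc M' T B, hT,
      ← Matrix.mul_assoc, hB', Matrix.mul_assoc B' M' T, Matrix.mul_assoc B']
  rw [← e5, Matrix.mul_assoc, f7, ← Matrix.mul_assoc, Matrix.trace_mul_comm, ← Matrix.mul_assoc,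
    f6]

lemma pmat2_alg {K ι κ : Type} [CommRing K] [Fintype ι] [Fintype κ] (m p : Matrix ι ι K)
    (m' q : Matrix κ κ K) (s : Matrix ι κ K) (t : Matrix κ ι K) (hm' : m' * m' = m')
    (e : s * q = s) (st : s * t = p) (g : m' * (t * s) = m' * q) (c : q * m' = m')
    (a : m * (p * m) = m) (d1 : q * (t * m) = q * (m' * (t * m)))
    (d2 : q * (t * (m * s)) = q * (m' * (t * s))) (d3 : m' * (t * m) = m' * (q * (t * m))) :
    m * s * m' * t * m = m ∧ m' * t * m * s * m' = m' := by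
  constructor
  · calc m * s * m' * t * m = m * (s * q) * m' * t * m := by rw [e]
      _ = m * (s * (q * (m' * (t * m)))) := by simp only [Matrix.mul_assoc]
      _ = m * (s * q * t * m) := by rw [← d1]; simp only [Matrix.mul_assoc]
      _ = m := by rw [e, st, a]
  · calc m' * t * m * s * m' = m' * (t * m) * s * m' := by simp only [Matrix.mul_assoc]
      _ = m' * (q * (t * (m * s))) * m' := by rw [d3]; simp only [Matrix.mul_assoc]
      _ = m' * (q * m') * (t * s) * m' := by rw [d2]; simp only [Matrix.mul_assoc]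
      _ = m' := by rw [c, hm', g, Matrix.mul_assoc, c, hm']

section pmat2
variable {Γ X Q R : Type} [Group Γ] [MulAction Γ X] {mk : X → Q} {out : Q → X}
  {β : Equiv.Perm X}

lemma pmat2_mk (h : ZOrb Γ mk out) (hβ : ∀ g : Γ, ∃ g' : Γ, ∀ x, g • β x = β (g' • x))
    (x : X) : mk (β.symm (out (mk x))) = mk (β.symm x) := by
  obtain ⟨g, hg⟩ := h.rel x
  obtain ⟨g', hg'⟩ := hβ g
  have e := hg' (β.symm x)
  rw [β.apply_symm_apply] at e
  rw [hg, e, β.symm_apply_apply, h.smul]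

variable [CommRing R]

open Classical in
/-- The matrix of a permutation of the orbits. -/
noncomputable def pmat2B (R : Type) [CommRing R] (mk : X → Q) (out : Q → X) (β : Equiv.Perm X) :
    Matrix Q Q R :=
  Matrix.of fun a c => if mk (β.symm (out a)) = c then 1 else 0

lemma pmat2_mul [Fintype Q] {ι : Type} (N : Matrix Q ι R) (a : Q) (c : ι) :
    (pmat2B R mk out β * N) a c = N (mk (β.symm (out a))) c := by
  classical
  simp [Matrix.mul_apply, pmat2B, ite_mul]

variable [Fintype X] [Fintype Q]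

open Classical in
lemma pmat2_mulB (h : ZOrb Γ mk out) (hβ : ∀ g : Γ, ∃ g' : Γ, ∀ x, g • β x = β (g' • x))
    (k : X → X → R) (a c : Q) : (zmat mk out k * pmat2B R mk out β) a c =
      ∑ x, k (out a) (β x) * if mk x = c then 1 else 0 := by
  rw [zmat_mul, ← Equiv.sum_comp β]
  simp only [pmat2B, Matrix.of_apply, pmat2_mk h hβ, β.symm_apply_apply]

lemma pmat2_comm (h : ZOrb Γ mk out) (hβ : ∀ g : Γ, ∃ g' : Γ, ∀ x, g • β x = β (g' • x))
    {k : X → X → R} (hk : ∀ (g : Γ) x x', k (g • x) (g • x') = k x x')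
    (hb : ∀ x x', k (β x) (β x') = k x x') :
    zmat mk out k * pmat2B R mk out β = pmat2B R mk out β * zmat mk out k := by
  ext a c
  rw [pmat2_mulB h hβ, pmat2_mul]
  simp only [zmat, Matrix.of_apply]
  rw [zmat_inv h hk fun g x => by rw [h.smul]]
  refine Finset.sum_congr rfl fun x _ => ?_
  rw [← hb (β.symm _), β.apply_symm_apply]

lemma pmat2_trace [Fintype Γ] (h : ZOrb Γ mk out)
    (hβ : ∀ g : Γ, ∃ g' : Γ, ∀ x, g • β x = β (g' • x)) {k : X → X → R}
    (hk : ∀ (g : Γ) x x', k (g • x) (g • x') = k x x') :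
    ∑ x, ∑ g : Γ, k x (β (g • x)) = ∑ _g : Γ, (zmat mk out k * pmat2B R mk out β).trace := by
  classical
  have e1 : (zmat mk out k * pmat2B R mk out β).trace = ∑ x, k (out (mk x)) (β x) := by
    simp only [Matrix.trace, Matrix.diag, pmat2_mulB h hβ]
    rw [Finset.sum_comm]
    refine Finset.sum_congr rfl fun x' _ => ?_
    simp [mul_ite]
  have e2 : ∀ x, ∑ g : Γ, k x (β (g • x)) = ∑ g : Γ, k (out (mk x)) (β (g • x)) := fun x => by
    obtain ⟨g, hg⟩ := h.rel x
    obtain ⟨g', hg'⟩ := hβ g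
    rw [hg, ← Equiv.sum_comp (Equiv.mulLeft g') fun g'' => k (g • x) (β (g'' • x))]
    simp only [Equiv.coe_mulLeft, mul_smul, ← hg', hk]
  simp only [e2]
  rw [Finset.sum_comm]
  refine Finset.sum_congr rfl fun g _ => ?_
  rw [e1, ← Equiv.sum_comp (MulAction.toPerm g) fun x => k (out (mk x)) (β x)]
  simp only [MulAction.toPerm_apply, h.smul]

end pmat2

open Classical in
lemma pmat2_core {Γ X Y R : Type} [Group Γ] [Fintype Γ] [MulAction Γ X] [Fintype X]
    [MulAction Γ Y] [Fintype Y] [CommRing R] [IsLocalRing R] {k : X → X → R} {X0 : X → Prop}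
    {k' : Y → Y → R} {Y0 : Y → Prop} (π : Y → X) (β : Equiv.Perm X) (β' : Equiv.Perm Y)
    (Gd : (X → R) → Prop) (hβ : ∀ g : Γ, ∃ g' : Γ, ∀ x, g • β x = β (g' • x))
    (hβ' : ∀ g : Γ, ∃ g' : Γ, ∀ y, g • β' y = β' (g' • y))
    (hb : ∀ x x', k (β x) (β x') = k x x') (hb' : ∀ y y', k' (β' y) (β' y') = k' y y')
    (hπβ : ∀ y, π (β'.symm y) = β.symm (π y))
    (hk : ∀ (g : Γ) x x', k (g • x) (g • x') = k x x')
    (hi : ∀ x x'', ∑ x', k x x' * k x' x'' = k x x'') (hX0 : ∀ (g : Γ) x, X0 x → X0 (g • x))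
    (hk' : ∀ (g : Γ) y y', k' (g • y) (g • y') = k' y y')
    (hi' : ∀ y y'', ∑ y', k' y y' * k' y' y'' = k' y y'') (hY0 : ∀ (g : Γ) y, Y0 y → Y0 (g • y))
    (hv' : ∀ f : Y → R, (∀ (g : Γ) y, f (g • y) = f y) →
      ∀ y, ¬ Y0 y → residue R (∑ y', k' y y' * f y') = 0)
    (hπ : ∀ (g : Γ) y, π (g • y) = g • π y) (h0 : ∀ y, Y0 y → X0 (π y))
    (hb1 : ∀ x, X0 x → ∃ y, Y0 y ∧ π y = x)
    (hb2 : ∀ y y', Y0 y → Y0 y' → π y = π y' → ∃ g : Γ, y' = g • y)
    (h5 : ∀ y y', k' y y' ≠ 0 → X0 (π y') → Y0 y')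
    (hG1 : ∀ f : X → R, (∀ (g : Γ) x, f (g • x) = f x) → Gd fun x => ∑ x', k x x' * f x')
    (hG2 : ∀ f : X → R, (∀ (g : Γ) x, f (g • x) = f x) → (∀ x, ¬ X0 x → f x = 0) → Gd f)
    (hXP : ∀ f : X → R, (∀ (g : Γ) x, f (g • x) = f x) → ∀ x,
      residue R (∑ x', k x x' * (if X0 x' then 0 else ∑ x'', k x' x'' * f x'')) = 0)
    (hv : ∀ f : X → R, (∀ (g : Γ) x, f (g • x) = f x) → ∀ y y', k' y y' ≠ 0 →
      ¬ Y0 y' → residue R (∑ x', k (π y') x' * f x') = 0)
    (h1 : ∀ f : X → R, (∀ (g : Γ) x, f (g • x) = f x) → Gd f → ∀ y, Y0 y →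
      residue R (∑ x', k (π y) x' * f x') = residue R (∑ y', k' y y' * f (π y'))) :
    ∑ x, ∑ g : Γ, k x (β (g • x)) = ∑ y, ∑ g : Γ, k' y (β' (g • y)) := by
  obtain ⟨QX, _, mk, out, hX⟩ := zmat_orb Γ X
  obtain ⟨QY, _, mk', out', hY⟩ := zmat_orb Γ Y
  rw [pmat2_trace hX hβ hk, pmat2_trace hY hβ' hk']
  refine Finset.sum_congr rfl fun _ _ => ?_
  have hM := zmat_idem hX hk hi
  have hM' := zmat_idem hY hk' hi'
  obtain ⟨T, hT⟩ : ∃ T : Matrix QY QX R,
      ∀ b a, T b a = if mk (π (out' b)) = a then 1 else 0 := ⟨Matrix.of _, fun _ _ => rfl⟩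
  obtain ⟨S, hS⟩ : ∃ S : Matrix QX QY R, ∀ a b,
      S a b = if Y0 (out' b) ∧ mk (π (out' b)) = a then 1 else 0 := ⟨Matrix.of _, fun _ _ => rfl⟩
  obtain ⟨P, hP⟩ : ∃ P : Matrix QY QY R,
      P = Matrix.diagonal fun b => if Y0 (out' b) then 1 else 0 := ⟨_, rfl⟩
  obtain ⟨P0, hP0⟩ : ∃ P : Matrix QX QX R,
      P = Matrix.diagonal fun a => if X0 (out a) then 1 else 0 := ⟨_, rfl⟩
  have tm : ∀ (ι : Type) (N : Matrix QX ι R) b c, (T * N) b c = N (mk (π (out' b))) c := by
    intro ι N b c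
    simp [Matrix.mul_apply, hT, ite_mul]
  have pm : ∀ y, mk (π (out' (mk' y))) = mk (π y) := fun y => by
    obtain ⟨g, hg⟩ := hY.rel y
    rw [hg, hπ, hX.smul]
  have uq : ∀ y y', Y0 y → Y0 y' → mk (π y) = mk (π y') → mk' y' = mk' y := by
    intro y y' a1 a2 e
    obtain ⟨g, hg⟩ := hX.eq e
    obtain ⟨g', hg'⟩ := hb2 (g • y) y' (hY0 g y a1) a2 ((hπ g y).trans hg.symm)
    rw [hg', hY.smul, hY.smul]
  have x0 : ∀ x x', mk x = mk x' → X0 x → X0 x' := fun x x' e h => by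
    obtain ⟨g, rfl⟩ := hX.eq e
    exact hX0 g x h
  have y0 : ∀ y y', mk' y = mk' y' → Y0 y → Y0 y' := fun y y' e h => by
    obtain ⟨g, rfl⟩ := hY.eq e
    exact hY0 g y h
  have mz : ∀ x c, zmat mk out k (mk x) c = ∑ x', k x x' * if mk x' = c then 1 else 0 :=
    fun x c => zmat_inv hX hk (fun g x => by rw [hX.smul]) x
  have st : S * T = P0 := by
    ext a c
    rw [Matrix.mul_apply, hP0, Matrix.diagonal_apply]
    simp only [hT, hS]
    by_cases ha : X0 (out a)
    · obtain ⟨y, y1, y2⟩ := hb1 _ ha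
      have e : mk (π (out' (mk' y))) = a := by rw [pm, y2, hX.sec]
      rw [Finset.sum_eq_single (mk' y) (fun b _ hb' => ?_) fun h => absurd (mem_univ _) h,
        if_pos ⟨y0 y _ (hY.sec _).symm y1, e⟩, one_mul, e, if_pos ha]
      rw [if_neg, zero_mul]
      rintro ⟨z1, z2⟩
      exact hb' ((hY.sec b).symm.trans (uq y _ y1 z1 (by rw [z2, y2, hX.sec])))
    · rw [if_neg ha, ite_self]
      refine Finset.sum_eq_zero fun b _ => ?_
      rw [if_neg, zero_mul]
      rintro ⟨z1, z2⟩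
      exact ha (x0 _ _ (z2.trans (hX.sec a).symm) (h0 _ z1))
  have a : (zmat mk out k * (P0 * zmat mk out k)).map (residue R) =
      (zmat mk out k).map (residue R) := by
    ext a c
    have e1 := hXP (fun x => if mk x = c then 1 else 0) (fun g x => by rw [hX.smul]) (out a)
    rw [Matrix.map_apply, Matrix.map_apply, ← add_zero (residue R _), ← e1, ← map_add]
    refine congrArg _ (Eq.trans ?_ (congrFun (congrFun hM a) c))
    rw [zmat_mul, zmat_mul, ← Finset.sum_add_distrib]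
    refine Finset.sum_congr rfl fun x _ => ?_
    rw [← mul_add, hP0, Matrix.diagonal_mul, mz]
    by_cases hx : X0 x
    · rw [if_pos hx, if_pos (x0 x _ (hX.sec _).symm hx), one_mul, add_zero]
    · rw [if_neg hx, if_neg fun h => hx (x0 _ x (hX.sec _) h), zero_mul, zero_add]
  have c : (P * zmat mk' out' k').map (residue R) = (zmat mk' out' k').map (residue R) := by
    ext b c
    rw [Matrix.map_apply, Matrix.map_apply, hP, Matrix.diagonal_mul]
    split_ifs with hb'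
    · rw [one_mul]
    · rw [zero_mul, map_zero]
      exact (hv' _ (fun g x => by rw [hY.smul]) _ hb').symm
  have d : ∀ (ι : Type) (N : Matrix QX ι R), (∀ c, Gd fun x => N (mk x) c) →
      (P * (T * (zmat mk out k * N))).map (residue R) =
        (P * (zmat mk' out' k' * (T * N))).map (residue R) := by
    intro ι N hN
    ext b c
    rw [Matrix.map_apply, Matrix.map_apply, hP, Matrix.diagonal_mul, Matrix.diagonal_mul]
    split_ifs with hb'
    · rw [one_mul, one_mul, tm, zmat_mul, zmat_mul]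
      simp only [tm, pm]
      rw [zmat_inv hX hk fun g x => by rw [hX.smul]]
      exact h1 (fun x => N (mk x) c) (fun g x => by rw [hX.smul]) (hN c) _ hb'
    · rw [zero_mul, zero_mul]
  have d1 := d _ (zmat mk out k) fun c => by
    simp only [mz]
    exact hG1 _ fun g x => by rw [hX.smul]
  rw [hM] at d1
  have d2 := d _ S fun c => hG2 _ (fun g x => by rw [hX.smul]) fun x hx => by
    rw [hS, if_neg]
    rintro ⟨z1, z2⟩
    exact hx (x0 _ _ z2 (h0 _ z1))
  have d3 : (zmat mk' out' k' * (T * zmat mk out k)).map (residue R) =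
      (zmat mk' out' k' * (P * (T * zmat mk out k))).map (residue R) := by
    ext b c
    rw [Matrix.map_apply, Matrix.map_apply, zmat_mul, zmat_mul, map_sum, map_sum]
    refine Finset.sum_congr rfl fun y _ => ?_
    rw [hP, Matrix.diagonal_mul]
    by_cases hy : k' (out' b) y = 0
    · rw [hy, zero_mul, zero_mul]
    split_ifs with hy0
    · rw [one_mul]
    · rw [zero_mul, mul_zero, map_zero, map_mul, tm, pm, mz,
        hv _ (fun g x => by rw [hX.smul]) _ y hy fun h => hy0 (y0 y _ (hY.sec _).symm h), mul_zero]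
  have e : S * P = S := by
    ext a b
    rw [hP, Matrix.mul_diagonal, hS]
    by_cases hb' : Y0 (out' b) <;> simp [hb']
  have g : zmat mk' out' k' * (T * S) = zmat mk' out' k' * P := by
    ext b c
    rw [zmat_mul, zmat_mul]
    refine Finset.sum_congr rfl fun y _ => ?_
    by_cases hy : k' (out' b) y = 0
    · rw [hy, zero_mul, zero_mul]
    rw [tm, hS, pm, hP, Matrix.diagonal_apply]
    refine congrArg _ ?_
    by_cases e1 : mk' y = c
    · subst e1
      simp [pm]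
    · rw [if_neg e1, if_neg]
      rintro ⟨z1, z2⟩
      exact e1 ((uq _ y z1 (h5 _ _ hy (x0 _ _ z2 (h0 _ z1))) z2).trans (hY.sec c))
  have key := pmat2_alg ((zmat mk out k).map (residue R)) (P0.map (residue R))
    ((zmat mk' out' k').map (residue R)) (P.map (residue R)) (S.map (residue R))
    (T.map (residue R))
  simp only [← Matrix.map_mul] at key
  obtain ⟨k1, k2⟩ := key (by rw [hM']) (by rw [e]) (by rw [st]) (by rw [g]) c a d1 d2 d3
  refine trace_eq_of_cong2 _ _ _ _ S T hM hM' k1 k2 (pmat2_comm hX hβ hk hb)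
    (pmat2_comm hY hβ' hk' hb') ?_
  ext b c
  rw [tm, pmat2_mul, hT, pm, hπβ, pmat2B, Matrix.of_apply, pmat2_mk hX hβ]

lemma pmat2_conj {Δ X : Type} [Group Δ] (Γ : Subgroup Δ) [hΓ : Γ.Normal] [MulAction Δ X] (b : Δ)
    (g : Γ) : ∃ g' : Γ, ∀ x : X, g • MulAction.toPerm b x = MulAction.toPerm b (g' • x) :=
  ⟨⟨b⁻¹ * g * b, hΓ.conj_mem' _ g.2 b⟩, fun x => by
    simp [Subgroup.smul_def, smul_smul, mul_assoc]⟩

open Classical in
/-- Adapt `zmat_core`, `trace_transfer` (ZMat; `zmat_orb`, `zmat`, `zmat_mul`, `zmat_inv`,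
`zmat_idem`).  `M`, `M'`, `S`, `T`, `P'` as there, `P` the diagonal matrix of `X0`,
`B a c = [mk (b⁻¹ • out a) = c]`, the same for `B'` (`Γ` is normal, so `b⁻¹` permutes the orbits).
`|Γ| * tr (M * B) = ∑ x, ∑ g, κ (b⁻¹ • x) (g • x)`.  Exactly: `S * P' = S`, `S * T = P` (`h0`,
`hb1`, `hb2`), `M' * T * S = M' * P'` (`h5`, `hb2`).  Modulo the maximal ideal: `P' * M' = M'`
(`van`), `M * P * M = M` (`hXP`, `idem`), `P' * T * M = P' * M' * T * M` (`h1`, `hG1`, `idem`),
`P' * T * M * S = P' * M' * T * S` (`h1`, `hG2`), `M' * T * M = M' * P' * T * M` (`hv`).  Hence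
`M S M' T M = M S P' M' T M = M S P' T M = M P M = M` and
`M' T M S M' = M' P' T M S M' = M' P' M' T S M' = M' P' M' P' M' = M'`. -/
theorem trace_transfer2 {Δ X Y : Type} [Group Δ] (Γ : Subgroup Δ) [Γ.Normal] [Fintype Γ]
    [MulAction Δ X] [Fintype X] [MulAction Δ Y] [Fintype Y] {V : ValuationSubring ℂ}
    {κ : X → X → ℂ} {X0 : X → Prop} {κ' : Y → Y → ℂ} {Y0 : Y → Prop} (b : Δ)
    (Gd : (X → ℂ) → Prop) (hX : Ker Γ V κ fun _ => True) (hY : Ker Γ V κ' Y0)
    (hX0 : ∀ (g : Γ) x, X0 x → X0 (g • x))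
    (hb : ∀ x x', κ (b • x) (b • x') = κ x x') (hb' : ∀ y y', κ' (b • y) (b • y') = κ' y y')
    (π : Y → X) (hπ : ∀ (g : Δ) y, π (g • y) = g • π y) (h0 : ∀ y, Y0 y → X0 (π y))
    (hb1 : ∀ x, X0 x → ∃ y, Y0 y ∧ π y = x)
    (hb2 : ∀ y y', Y0 y → Y0 y' → π y = π y' → ∃ g : Γ, y' = g • y)
    (h5 : ∀ y y', κ' y y' ≠ 0 → X0 (π y') → Y0 y')
    (hG1 : ∀ f : X → ℂ, (∀ (g : Γ) x, f (g • x) = f x) → Gd fun x => ∑ x', κ x x' * f x')
    (hG2 : ∀ f : X → ℂ, (∀ (g : Γ) x, f (g • x) = f x) → (∀ x, ¬ X0 x → f x = 0) → Gd f)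
    (hXP : ∀ f : X → ℂ, (∀ (g : Γ) x, f (g • x) = f x) → (∀ x, f x ∈ V) → ∀ x,
      ∑ x', κ x x' * (if X0 x' then 0 else ∑ x'', κ x' x'' * f x'') ∈ V.nonunits)
    (hv : ∀ f : X → ℂ, (∀ (g : Γ) x, f (g • x) = f x) → (∀ x, f x ∈ V) → ∀ y y', κ' y y' ≠ 0 →
      ¬ Y0 y' → ∑ x', κ (π y') x' * f x' ∈ V.nonunits)
    (h1 : ∀ f : X → ℂ, (∀ (g : Γ) x, f (g • x) = f x) → (∀ x, f x ∈ V) → Gd f → ∀ y, Y0 y →
      ∑ x', κ (π y) x' * f x' - ∑ y', κ' y y' * f (π y') ∈ V.nonunits) :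
    ∑ x, ∑ g : Γ, κ x ((b * g) • x) = ∑ y, ∑ g : Γ, κ' y ((b * g) • y) := by
  have key := pmat2_core (Γ := Γ) (R := V) (k := fun x x' => ⟨κ x x', hX.mem x x'⟩) (X0 := X0)
    (k' := fun y y' => ⟨κ' y y', hY.mem y y'⟩) (Y0 := Y0) π (MulAction.toPerm b)
    (MulAction.toPerm b) (fun f => Gd fun x => f x) (pmat2_conj Γ b) (pmat2_conj Γ b)
    (fun x x' => Subtype.ext (hb x x')) (fun y y' => Subtype.ext (hb' y y'))
    (fun y => hπ b⁻¹ y) (fun g x x' => Subtype.ext (hX.inv g x x'))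
    (fun x x'' => Subtype.ext (by simpa using hX.idem x x'')) hX0
    (fun g x x' => Subtype.ext (hY.inv g x x'))
    (fun x x'' => Subtype.ext (by simpa using hY.idem x x'')) hY.inv0
    (fun f hf x hx => (zmat_res V _).2 (by
      simpa using hY.van (fun x => f x) (fun g x => by rw [hf]) (fun x => (f x).2) x hx))
    (fun g y => hπ g y) h0 hb1 hb2 (fun y y' h => h5 y y' fun e => h (Subtype.ext e))
    (fun f hf => by simpa using hG1 (fun x => f x) fun g x => by rw [hf])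
    (fun f hf h => hG2 _ (fun g x => by rw [hf]) fun x hx => by rw [h x hx]; rfl)
    (fun f hf x => (zmat_res V _).2 (by
      simpa [apply_ite] using hXP (fun x => f x) (fun g x => by rw [hf]) (fun x => (f x).2) x))
    (fun f hf y y' h hy => (zmat_res V _).2 (by
      simpa using hv (fun x => f x) (fun g x => by rw [hf]) (fun x => (f x).2) y y'
        (fun e => h (Subtype.ext e)) hy))
    (fun f hf hG y hy => by
      rw [← sub_eq_zero, ← map_sub, zmat_res]
      simpa using h1 (fun x => f x) (fun g x => by rw [hf]) (fun x => (f x).2) hG y hy)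
  simpa [mul_smul, Subgroup.smul_def] using congrArg (fun z : V => (z : ℂ)) key

end Pool.Agent.Lib.MP_b6945b_al.Ip
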