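import Pool.Agent.Lib.MP_b6945b_al.Ip.PCrapo

set_option autoImplicit false

/-!
The chain sum across a factor without invariant intermediate subgroups.
-/

namespace Pool.Agent.Lib.MP_b6945b_al.Ip

open Finset

variable {G : Type} [Group G] [Fintype G] {p : ℕ} [Fact p.Prime] {N M : Subgroup G} [N.Normal]

/-- As `eK_vanish` (AMob): the `p`-part `u` of `x` (`exists_parts`) is not `1`, otherwise `x = s`
is regular. -/
lemma eK_vanish2 {x y : G} (hx : p ∣ orderOf x) (hxy : x * y = y * x) : eK p {x, y} ⊤ = 0 := by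
  classical
  obtain ⟨u, s, hu, hs, hux, hsx, e⟩ := exists_parts p x
  have hu1 : u ≠ 1 := fun h => hs (by rwa [← e, h, one_mul] at hx)
  have hP : IsPGroup p (Subgroup.zpowers u) := by
    obtain ⟨k, hk⟩ := hu
    rintro ⟨_, m, rfl⟩
    refine ⟨k, Subtype.ext ?_⟩
    change (u ^ m) ^ p ^ k = 1
    rw [← zpow_natCast, ← zpow_mul, mul_comm, zpow_mul, zpow_natCast, hk, one_zpow]
  have hc : ∀ g : G, Commute x g →
      g ∈ Subgroup.normalizer ((Subgroup.zpowers u : Subgroup G) : Set G) := fun g hg => by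
    refine Subgroup.centralizer_le_normalizer _ ?_
    rw [Subgroup.mem_centralizer_iff]
    intro w hw
    obtain ⟨m, rfl⟩ := Subgroup.zpowers_le.2 hux hw
    exact (hg.zpow_left m).eq
  have hv := vanish (p := p) (({x, y} : Set G) ∪ (Subgroup.zpowers u : Set G))
    (Subgroup.zpowers u) hP (fun h => hu1 (Subgroup.zpowers_eq_bot.1 h)) Set.subset_union_right
    (by
      rintro g ((rfl | rfl) | hg)
      · exact hc _ (Commute.refl _)
      · exact hc _ hxy
      · exact Subgroup.le_normalizer hg)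
  rw [← hv, Finset.sum_filter]
  unfold eK
  refine Finset.sum_congr rfl fun σ _ => if_congr ⟨fun a => ⟨a.1, Set.union_subset a.2.1 ?_⟩,
    fun a => ⟨a.1, Set.subset_union_left.trans a.2, fun _ _ => le_top⟩⟩ rfl rfl
  exact fun g hg => Subgroup.zpowers_le.2 (a.2.1 (Set.mem_insert _ _))
    (Subgroup.zpowers_le.2 hux hg)

omit [Fintype G] [Fact p.Prime] in
lemma pmob_nr (g : G) : g ∈ Nr N := by
  rw [Nr, Subgroup.normalizer_eq_top]
  trivial

omit [Fact p.Prime] in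
/-- The invariant subgroups of `M` that meet `N` trivially. -/
lemma pmob_mu {K : Set G} (hle : N ≤ M)
    (hK : ∀ T : Subgroup G, N ≤ T → T ≤ M → K ⊆ NR T → T = N ∨ T = M) {Q : Subgroup G}
    (hQ : KP p K Q) (hM : Q ≤ M) (hN : Q ⊓ N = ⊥) (h0 : Q ≠ ⊥) :
    RR p N M Q ∧ mu p K Q = -1 := by
  have h1 : ∀ P ≤ Q, K ⊆ Nr P → P = ⊥ ∨ P ⊔ N = M := fun P hP h =>
    (hK _ le_sup_right (sup_le (hP.trans hM) hle) fun k hk => nr_sup (h hk) (pmob_nr k)).imp_left
      fun e => le_bot_iff.1 ((le_inf hP (le_sup_left.trans e.le)).trans hN.le)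
  have h2 : RR p N M Q := ⟨hQ.1, hN, (h1 Q le_rfl hQ.2).resolve_left h0⟩
  refine ⟨h2, mu_simple hQ h0 fun P hP h => (h1 P hP h).imp_right fun e => le_antisymm hP ?_⟩
  intro q hq
  obtain ⟨r, hr, n, hn, rfl⟩ := RR.exists_mul (p := p) (R := P) ⟨hQ.1.to_le hP,
    le_bot_iff.1 ((inf_le_inf_right _ hP).trans hN.le), e⟩ (hM hq)
  rwa [h2.eq_one ((Q.mul_mem_cancel_left (hP hr)).1 hq) hn, mul_one]

open Classical in
/-- The complement formula `crapo` for `N` inside `M`, and `pmob_mu`. -/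
theorem eK_chief (hle : N ≤ M) (hne : ¬ M ≤ N) {K : Set G}
    (hK : ∀ T : Subgroup G, N ≤ T → T ≤ M → K ⊆ NR T → T = N ∨ T = M) :
    eK p K M = eK p K N -
      ∑ R : Subgroup G, if RR p N M R ∧ K ⊆ NR R then eK p K (CR N R) else 0 := by
  have h1 := crapo (p := p) (K := K) (T := M) (M := N) (fun g _ => pmob_nr g)
    (fun g _ => pmob_nr g) fun _ => (1 : ℤ)
  simp only [mul_one, Int.cast_id, ← eK_eq_sum] at h1
  have h2 : ¬ RR p N M ⊥ := fun h => hne (by rw [← h.2.2, bot_sup_eq])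
  rw [h1, inf_eq_right.2 hle, ← Finset.add_sum_erase _ _ (mem_univ ⊥),
    ← Finset.add_sum_erase _ _ (mem_univ ⊥), if_pos ⟨KP.bot K, bot_le, bot_inf_eq _⟩,
    if_neg fun a => h2 a.1, mu_bot, cr_bot, inf_top_eq, one_mul, zero_add, sub_eq_add_neg,
    ← Finset.sum_neg_distrib]
  refine congrArg _ (Finset.sum_congr rfl fun Q hQ => ?_)
  by_cases a : KP p K Q ∧ Q ≤ M ∧ Q ⊓ N = ⊥
  · obtain ⟨h3, h4⟩ := pmob_mu hle hK a.1 a.2.1 a.2.2 (Finset.ne_of_mem_erase hQ)
    rw [if_pos a, if_pos ⟨h3, a.1.2⟩, h4, neg_one_mul]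
    rfl
  · rw [if_neg a, if_neg fun b => a ⟨⟨b.1.1, b.2⟩, b.1.le, b.1.2.1⟩, neg_zero]

end Pool.Agent.Lib.MP_b6945b_al.Ip
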