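import Pool.Agent.Lib.MP_b6945b_al.Ip.PTr

set_option autoImplicit false

/-!
Reduction to a first entry that centralises the chief factor.
-/

namespace Pool.Agent.Lib.MP_b6945b_al.Ip

open Finset

variable {G : Type} [Group G] {p : ℕ} [Fact p.Prime] {N M : Subgroup G} [N.Normal]

/-- Euclid.  Strong induction on `i` with `a * (c ^ i)⁻¹ ∈ C`: if `b` belongs to `j = q * i + r`,
then `b' = b * (a ^ q)⁻¹` belongs to `r < i` (compute in `G ⧸ C`), `P b' a⁻¹` gives `P a b'` and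
then `P a (b' * a ^ q)`. -/
theorem nielsen (C H : Subgroup G) [C.Normal] (c : G)
    (hc : ∀ h ∈ H, ∃ i : ℕ, h * (c ^ i)⁻¹ ∈ C) (P : G → G → Prop)
    (m1 : ∀ u ∈ H, ∀ v ∈ H, P u v → P u (v * u)) (m2 : ∀ u ∈ H, ∀ v ∈ H, P u v → P v⁻¹ u)
    (h0 : ∀ a ∈ H, ∀ b ∈ H, a ∈ C → P a b) : ∀ a ∈ H, ∀ b ∈ H, P a b := by
  have q : ∀ (x : G) (i : ℕ), x * (c ^ i)⁻¹ ∈ C ↔ (x : G ⧸ C) = (c : G ⧸ C) ^ i := fun x i => by
    rw [← QuotientGroup.eq_one_iff, QuotientGroup.mk_mul, QuotientGroup.mk_inv,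
      QuotientGroup.mk_pow, mul_inv_eq_one]
  have key : ∀ i : ℕ, ∀ a ∈ H, a * (c ^ i)⁻¹ ∈ C → ∀ b ∈ H, P a b := by
    intro i
    induction i using Nat.strong_induction_on with
    | _ i ih =>
    intro a ha hi b hb
    rcases Nat.eq_zero_or_pos i with rfl | hi0
    · exact h0 a ha b hb (by simpa using hi)
    obtain ⟨j, hj⟩ := hc b hb
    have hb' : b * (a ^ (j / i))⁻¹ ∈ H := H.mul_mem hb (H.inv_mem (H.pow_mem ha _))
    have h1 := ih (j % i) (Nat.mod_lt j hi0) _ hb' (by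
      rw [q] at hi hj ⊢
      rw [QuotientGroup.mk_mul, QuotientGroup.mk_inv, QuotientGroup.mk_pow, hi, hj, ← pow_mul,
        mul_inv_eq_iff_eq_mul, ← pow_add, Nat.mod_add_div]) _ (H.inv_mem ha)
    have h2 := m2 _ hb' _ (H.inv_mem ha) h1
    rw [inv_inv] at h2
    have h3 : ∀ k : ℕ, P a (b * (a ^ (j / i))⁻¹ * a ^ k) := by
      intro k
      induction k with
      | zero => rwa [pow_zero, mul_one]
      | succ k ihk =>
        rw [pow_succ, ← mul_assoc]
        exact m1 a ha _ (H.mul_mem hb' (H.pow_mem ha k)) ihk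
    simpa using h3 (j / i)
  intro a ha b hb
  obtain ⟨i, hi⟩ := hc a ha
  exact key i a ha hi b hb

/-- Substitute `y ↦ y * x`. -/
lemma CS_move1 [Fintype G] (t : G → G → ℂ) (h : ∀ x y, t x (y * x) = t x y) (a b : G) :
    CS N t a (b * a) = CS N t a b := by
  classical
  unfold CS
  refine sum_congr rfl fun x _ => ?_
  rw [← Equiv.sum_comp (Equiv.mulRight x)]
  refine sum_congr rfl fun y _ => ?_
  rw [Equiv.coe_mulRight, h]
  refine if_congr (and_congr_right fun hx => ?_) rfl rfl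
  have e : y * x * (b * a)⁻¹ = y * (x * a⁻¹) * y⁻¹ * (y * b⁻¹) := by group
  rw [e]
  exact N.mul_mem_cancel_left (Subgroup.Normal.conj_mem inferInstance _ hx y)

/-- Interchange the sums and substitute `y ↦ y⁻¹`. -/
lemma CS_move2 [Fintype G] (t : G → G → ℂ) (h : ∀ x y, t y⁻¹ x = t x y) (a b : G) :
    CS N t b⁻¹ a = CS N t a b := by
  classical
  unfold CS
  rw [sum_comm]
  refine sum_congr rfl fun x _ => ?_
  rw [← Equiv.sum_comp (Equiv.inv G)]
  refine sum_congr rfl fun y _ => ?_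
  rw [Equiv.inv_apply, h]
  refine if_congr (and_comm.trans (and_congr_right fun _ => ?_)) rfl rfl
  rw [← N.inv_mem_iff, mul_inv_rev, inv_inv, inv_inv]
  exact Subgroup.Normal.mem_comm_iff inferInstance

/-- A finite group that acts irreducibly by commuting endomorphisms has a cyclic image. -/
lemma cyc_core {K A : Type} [Group K] [Finite K] [AddCommGroup A] (φ : K →* AddMonoid.End A)
    (hc : ∀ a b, φ a * φ b = φ b * φ a)
    (hi : ∀ T : AddSubgroup A, (∀ k, ∀ x ∈ T, φ k x ∈ T) → T = ⊥ ∨ T = ⊤) :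
    ∃ c : K, ∀ h, ∃ i : ℕ, φ (h * (c ^ i)⁻¹) = 1 := by
  rcases subsingleton_or_nontrivial (AddMonoid.End A) with h | h
  · exact ⟨1, fun _ => ⟨0, Subsingleton.elim _ _⟩⟩
  let Z : Subring (AddMonoid.End A) := Subring.centralizer (Set.range φ)
  have hz : ∀ a b : Z, a * b = 0 → a = 0 ∨ b = 0 := by
    intro a b hab
    have h0 : ∀ x, a.1 (b.1 x) = 0 := fun x =>
      DFunLike.congr_fun (congrArg Subtype.val hab) x
    have hinv : ∀ k, ∀ x ∈ AddMonoidHom.ker (a.1 : A →+ A),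
        φ k x ∈ AddMonoidHom.ker (a.1 : A →+ A) := by
      intro k x hx
      have h1 : φ k (a.1 x) = a.1 (φ k x) := DFunLike.congr_fun (a.2 (φ k) ⟨k, rfl⟩) x
      have h2 : a.1 x = 0 := hx
      change a.1 (φ k x) = 0
      rw [← h1, h2, map_zero]
    rcases hi _ hinv with h1 | h1
    · refine Or.inr (Subtype.ext (DFunLike.ext _ _ fun x => ?_))
      have h2 : b.1 x ∈ AddMonoidHom.ker (a.1 : A →+ A) := h0 x
      rw [h1] at h2
      exact h2
    · refine Or.inl (Subtype.ext (DFunLike.ext _ _ fun x => ?_))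
      have h2 : x ∈ AddMonoidHom.ker (a.1 : A →+ A) := h1 ▸ AddSubgroup.mem_top x
      exact h2
  have : NoZeroDivisors Z := ⟨hz _ _⟩
  have : IsDomain (Subring.center Z) := NoZeroDivisors.to_isDomain _
  let ψ : K →* Subring.center Z :=
    { toFun := fun k => ⟨⟨φ k, by rintro _ ⟨a, rfl⟩; exact hc a k⟩,
        Subring.mem_center_iff.2 fun z => Subtype.ext (z.2 (φ k) ⟨k, rfl⟩).symm⟩
      map_one' := Subtype.ext (Subtype.ext φ.map_one)
      map_mul' := fun a b => Subtype.ext (Subtype.ext (φ.map_mul a b)) }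
  have : Finite ψ.toHomUnits.range := (Set.finite_range _).to_subtype
  obtain ⟨⟨_, c, rfl⟩, hg⟩ := IsCyclic.exists_monoid_generator (α := ψ.toHomUnits.range)
  refine ⟨c, fun k => ?_⟩
  obtain ⟨i, hk⟩ := hg ⟨_, k, rfl⟩
  have h1 : ψ.toHomUnits c ^ i = ψ.toHomUnits k := congrArg Subtype.val hk
  have h2 : ψ.toHomUnits (k * (c ^ i)⁻¹) = 1 := by
    rw [map_mul, map_inv, map_pow, h1, mul_inv_cancel]
  exact ⟨i, congrArg (fun u : (Subring.center Z)ˣ => u.1.1.1) h2⟩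

lemma cyc_cm {x y : G} : cm x y ∈ N ↔ (x : G ⧸ N) * y * (x : G ⧸ N)⁻¹ = y := by
  rw [← QuotientGroup.eq_one_iff (N := N), cm, QuotientGroup.mk_mul, QuotientGroup.mk_inv,
    mul_inv_eq_one]
  rfl

omit [Fact p.Prime] in
/-- `A = M ⧸ N` is a finite commutative group on which `H` acts by conjugation.  A subgroup of `A`
that is invariant under `H` comes from a normal subgroup of `G = H ⊔ M`, so it is trivial or
everything (`hc.min`), and `cyc_core` applies. -/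
theorem exists_cyc [Finite G] [M.Normal] (hc : Fac p N M) {H : Subgroup G} (h1 : H ⊔ M = ⊤)
    (h2 : ∀ u ∈ H, ∀ v ∈ H, cm u v ∈ N) :
    ∃ c : G, ∀ h ∈ H, ∃ i : ℕ, h * (c ^ i)⁻¹ ∈ CV N M := by
  let A : Subgroup (G ⧸ N) := M.map (QuotientGroup.mk' N)
  have : A.Normal := Subgroup.Normal.map inferInstance _ (QuotientGroup.mk'_surjective N)
  let _ : CommGroup A :=
    { (inferInstance : Group A) with
      mul_comm := by
        rintro ⟨_, v, hv, rfl⟩ ⟨_, w, hw, rfl⟩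
        exact Subtype.ext (mul_inv_eq_iff_eq_mul.1 (cyc_cm.1 (hc.comm v hv w hw))) }
  let φ : H →* AddMonoid.End (Additive A) :=
    { toFun := fun h => AddMonoidHom.mk'
        (fun x => Additive.ofMul (MulAut.conjNormal ((h : G) : G ⧸ N) x.toMul))
        (fun x y => congrArg Additive.ofMul (map_mul _ x.toMul y.toMul))
      map_one' := DFunLike.ext _ _ fun x => Subtype.ext (by
        change ((1 : G) : G ⧸ N) * x.toMul.1 * ((1 : G) : G ⧸ N)⁻¹ = x.toMul.1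
        simp)
      map_mul' := fun a b => DFunLike.ext _ _ fun x => Subtype.ext (by
        change ((a.1 : G ⧸ N) * b.1) * x.toMul.1 * ((a.1 : G ⧸ N) * b.1)⁻¹ =
          (a.1 : G ⧸ N) * ((b.1 : G ⧸ N) * x.toMul.1 * (b.1 : G ⧸ N)⁻¹) * (a.1 : G ⧸ N)⁻¹
        group) }
  have hφ : ∀ (h : H) (x : Additive A),
      ((φ h x).toMul.1 : G ⧸ N) = (h.1 : G ⧸ N) * x.toMul.1 * (h.1 : G ⧸ N)⁻¹ := fun _ _ => rfl
  obtain ⟨c, hcc⟩ := cyc_core φ (fun a b => by
    rw [← map_mul, ← map_mul]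
    refine DFunLike.ext _ _ fun x => Subtype.ext ((hφ _ x).trans (Eq.trans ?_ (hφ _ x).symm))
    have e : ((a * b : H).1 : G ⧸ N) = ((b * a : H).1 : G ⧸ N) :=
      mul_inv_eq_iff_eq_mul.1 (cyc_cm.1 (h2 a a.2 b b.2))
    rw [e]) (fun T hT => by
    let T' : Subgroup G :=
      ((AddSubgroup.toSubgroup' T).map A.subtype).comap (QuotientGroup.mk' N)
    have m : ∀ g : G, g ∈ T' ↔ ∃ x ∈ T, (x.toMul.1 : G ⧸ N) = g := fun g => Iff.rfl
    have hN : N ≤ T' := fun g hg =>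
      (m g).2 ⟨0, T.zero_mem, ((QuotientGroup.eq_one_iff g).2 hg).symm⟩
    have hM : T' ≤ M := fun g hg => by
      obtain ⟨⟨_, v, hv, rfl⟩, -, e⟩ := (m g).1 hg
      have e1 : v⁻¹ * g ∈ N := QuotientGroup.eq.1 e
      simpa using M.mul_mem hv (hc.le e1)
    have hn : T'.Normal := ⟨fun t ht g => by
      have hg : g ∈ ((H ⊔ M : Subgroup G) : Set G) := h1 ▸ Subgroup.mem_top g
      rw [Subgroup.mul_normal] at hg
      obtain ⟨h, hh, v, hv, rfl⟩ := hg
      obtain ⟨x, hx, e⟩ := (m t).1 ht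
      refine (m _).2 ⟨φ ⟨h, hh⟩ x, hT _ x hx, ?_⟩
      have e1 := cyc_cm.1 (hc.comm v hv t (hM ht))
      rw [hφ, e, ← e1]
      simp only [QuotientGroup.mk_mul, QuotientGroup.mk_inv]
      group⟩
    rcases hc.min T' hn hN hM with e | e
    · refine Or.inl ((AddSubgroup.eq_bot_iff_forall _).2 fun x hx => ?_)
      obtain ⟨v, -, e1⟩ := x.toMul.2
      have h3 : v ∈ N := e ▸ (m v).2 ⟨x, hx, e1.symm⟩
      exact Subtype.ext (e1.symm.trans ((QuotientGroup.eq_one_iff v).2 h3))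
    · refine Or.inr ((AddSubgroup.eq_top_iff' _).2 fun x => ?_)
      obtain ⟨v, hv, e1⟩ := x.toMul.2
      obtain ⟨y, hy, e2⟩ := (m v).1 (e.symm ▸ hv)
      have h3 : y = x := Subtype.ext (e2.trans e1)
      exact h3 ▸ hy)
  refine ⟨c, fun h hh => ?_⟩
  obtain ⟨i, hi⟩ := hcc ⟨h, hh⟩
  refine ⟨i, mem_CV.2 fun v hv => cyc_cm.2 ?_⟩
  have h3 := hφ (⟨h, hh⟩ * (c ^ i)⁻¹) (Additive.ofMul ⟨v, v, hv, rfl⟩)
  rw [hi] at h3
  exact h3.symm

omit [Fact p.Prime] in
lemma niel_CR {R : Subgroup G} {g : G} (hg : g ∈ NR R) (x : G) :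
    x ∈ CR N R ↔ g * x * g⁻¹ ∈ CR N R := by
  have key : ∀ g ∈ NR R, ∀ x ∈ CR N R, g * x * g⁻¹ ∈ CR N R := fun g hg x hx =>
    mem_CR.2 ⟨Subgroup.Normal.conj_mem inferInstance _ hx.1 g, fun r hr => by
      have h1 := (mem_CR.1 hx).2 _ ((mem_NR.1 ((NR R).inv_mem hg) r).1 hr)
      calc r * (g * x * g⁻¹) = g * (g⁻¹ * r * g⁻¹⁻¹ * x) * g⁻¹ := by group
        _ = g * x * g⁻¹ * r := by rw [h1]; group⟩
  exact ⟨key g hg x, fun h => by simpa [mul_assoc] using key _ ((NR R).inv_mem hg) _ h⟩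

open Classical in
/-- `nielsen` with `C = CV N M`, `exists_cyc`, `CS_move1`, `CS_move2` (`cm x (y * x) = cm x y`,
`cm y⁻¹ x = y⁻¹ * cm x y * y`; `EI_conj`, `EE_conj`), `CS_EI_base`. -/
theorem CS_EI [Fintype G] [M.Normal] [Fintype N] (hc : Fac p N M) (I : IrrData N)
    {H : Subgroup G} (h1 : H ⊔ M = ⊤) (h2 : ∀ u ∈ H, ∀ v ∈ H, cm u v ∈ N)
    (hg : ∀ a ∈ H, a ∈ CV N M → Gd2 p M I a) {a b : G} (ha : a ∈ H) (hb : b ∈ H) :
    CS N (fun x y => EI p M I (cm x y)) a b =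
      CS N (fun x y => ∑ R : Subgroup G,
        if RR p N M R ∧ x ∈ NR R ∧ y ∈ NR R then EE p (CR N R) (cm x y) else 0) a b := by
  obtain ⟨c, hcc⟩ := exists_cyc hc h1 h2
  have e1 : ∀ x y : G, cm x (y * x) = cm x y := fun x y => by unfold cm; group
  have e2 : ∀ x y : G, cm y⁻¹ x = y⁻¹ * cm x y * y⁻¹⁻¹ := fun x y => by unfold cm; group
  refine nielsen (CV N M) H c hcc (fun a b => CS N (fun x y => EI p M I (cm x y)) a b =
    CS N (fun x y => ∑ R : Subgroup G,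
      if RR p N M R ∧ x ∈ NR R ∧ y ∈ NR R then EE p (CR N R) (cm x y) else 0) a b)
    (fun u _ v _ h => ?_) (fun u _ v _ h => ?_)
    (fun a ha b hb hC => CS_EI_base hc I hC (hg a ha hC) (h2 a ha b hb)) a ha b hb
  · rw [CS_move1 _ fun x y => by rw [e1], CS_move1 _ fun x y => ?_, h]
    refine sum_congr rfl fun R _ => ?_
    rw [e1]
    exact if_congr (and_congr_right fun _ => and_congr_right fun hx =>
      (NR R).mul_mem_cancel_right hx) rfl rfl
  · rw [CS_move2 _ fun x y => by rw [e2, EI_conj], CS_move2 _ fun x y => ?_, h]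
    refine sum_congr rfl fun R _ => ?_
    refine ite_congr (propext (and_congr_right fun _ => ?_)) (fun hR => ?_) fun _ => rfl
    · rw [inv_mem_iff, and_comm]
    · rw [e2]
      exact EE_conj (niel_CR ((NR R).inv_mem hR.2.2)) _

/-- `kX2_good` with `m` the order of the regular part of `a` (`exists_parts`; the `p`-part lies in
`H ⊓ M ≤ N`). -/
lemma good_of_le [Fintype G] [M.Normal] [Fintype N] (hc : Chief p N M) (I : IrrData N)
    {H : Subgroup G} (h3 : H ⊓ M ≤ N) {a : G} (ha : a ∈ H) (hC : a ∈ CV N M) :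
    Gd2 p M I a := by
  obtain ⟨u, s, hu, hs, hua, hsa, e⟩ := exists_parts p a
  refine kX2_good hc.toFac I hC hs ?_
  have h1 : Commute u s := by
    obtain ⟨k, rfl⟩ := hua
    obtain ⟨l, rfl⟩ := hsa
    exact Commute.zpow_zpow_self a k l
  rw [← e, h1.mul_pow, pow_orderOf_eq_one, mul_one]
  exact N.pow_mem (h3 ⟨Subgroup.zpowers_le.2 ha hua, hc.pelt u hu⟩) _

end Pool.Agent.Lib.MP_b6945b_al.Ip
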