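import Pool.Agent.Lib.MP_b6945b_al.Ip.PNiel
import Pool.Agent.Lib.MP_b6945b_al.Ip.PMob
import Pool.Agent.Lib.MP_b6945b_al.Ip.PChar

set_option autoImplicit false

/-!
The step across a chief factor.
-/

namespace Pool.Agent.Lib.MP_b6945b_al.Ip

open Finset

variable {G : Type} [Group G] [Fintype G] {p : ℕ} [Fact p.Prime] {N M : Subgroup G} [N.Normal]
  [M.Normal]

omit [Fintype G] [Fact p.Prime] [N.Normal] [M.Normal] in
/-- `M ≤ NR T` by `hc.comm`, so `NR T = ⊤` (`gen_le`), `T` is normal; `hc.min`. -/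
lemma dich (hc : Fac p N M) {a b : G} (h : gen a b M = ⊤) (T : Subgroup G) (h1 : N ≤ T)
    (h2 : T ≤ M) (ha : a ∈ NR T) (hb : b ∈ NR T) : T = N ∨ T = M := by
  have hM : M ≤ NR T := fun v hv => mem_NR.2 fun r => ⟨fun hr => by
      have e : v * r * v⁻¹ = cm v r * r := by unfold cm; group
      rw [e]
      exact T.mul_mem (h1 (hc.comm v hv r (h2 hr))) hr, fun hr => by
      have e1 : r = v⁻¹ * (v * r * v⁻¹) * v := by group
      have hr' : r ∈ M := e1 ▸ M.mul_mem (M.mul_mem (M.inv_mem hv) (h2 hr)) hv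
      have e : r = (cm v r)⁻¹ * (v * r * v⁻¹) := by unfold cm; group
      rw [e]
      exact T.mul_mem (T.inv_mem (h1 (hc.comm v hv r hr'))) hr⟩
  have ht : (⊤ : Subgroup G) ≤ NR T := h ▸ gen_le.2 ⟨ha, hb, hM⟩
  exact hc.min T ⟨fun n hn g => (mem_NR.1 (ht (Subgroup.mem_top g)) n).1 hn⟩ h1 h2

omit [Fintype G] [Fact p.Prime] [N.Normal] in
/-- The elements of `H` normalise `H ⊓ M`. -/
lemma st1_NR {H : Subgroup G} {g : G} (hg : g ∈ H) : g ∈ NR (H ⊓ M) :=
  mem_NR.2 fun r => ⟨fun hr => ⟨H.mul_mem (H.mul_mem hg hr.1) (H.inv_mem hg),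
    (inferInstance : M.Normal).conj_mem r hr.2 g⟩, fun hr => by
      have e : r = g⁻¹ * (g * r * g⁻¹) * g⁻¹⁻¹ := by group
      rw [e]
      exact ⟨H.mul_mem (H.mul_mem (H.inv_mem hg) hr.1) (H.inv_mem (H.inv_mem hg)),
        (inferInstance : M.Normal).conj_mem _ hr.2 _⟩⟩

omit [Fintype G] [Fact p.Prime] [M.Normal] in
/-- A common exponent modulo `N`. -/
lemma st1_pow {x y : G} (hxy : x * y = y * x) (h : gen x y N = ⊤) (g : G) :
    g ^ (orderOf x * orderOf y) ∈ N := by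
  have hc : Commute x y := hxy
  have h1 : g ∈ ((Subgroup.closure {x, y} ⊔ N : Subgroup G) : Set G) :=
    (show gen x y N = ⊤ from h).ge (Subgroup.mem_top g)
  rw [Subgroup.mul_normal] at h1
  obtain ⟨c, hc', n, hn, rfl⟩ := h1
  have h2 : ∃ i j : ℤ, c = x ^ i * y ^ j := by
    induction hc' using Subgroup.closure_induction with
    | mem z hz =>
      rcases hz with rfl | rfl
      · exact ⟨1, 0, by simp⟩
      · exact ⟨0, 1, by simp⟩
    | one => exact ⟨0, 0, by simp⟩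
    | mul u v _ _ hu hv =>
      obtain ⟨i, j, rfl⟩ := hu
      obtain ⟨k, l, rfl⟩ := hv
      refine ⟨i + k, j + l, ?_⟩
      rw [zpow_add, zpow_add, mul_assoc, mul_assoc, ← mul_assoc (y ^ j),
        ← (hc.zpow_zpow k j).eq, mul_assoc]
    | inv u _ hu =>
      obtain ⟨i, j, rfl⟩ := hu
      exact ⟨-i, -j, by rw [mul_inv_rev, ← zpow_neg, ← zpow_neg, (hc.zpow_zpow (-i) (-j)).eq]⟩
  obtain ⟨i, j, rfl⟩ := h2
  have h3 : (x ^ i * y ^ j) ^ (orderOf x * orderOf y) = 1 := by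
    rw [(hc.zpow_zpow i j).mul_pow, ← zpow_natCast, ← zpow_natCast, ← zpow_mul, ← zpow_mul,
      mul_comm i, mul_comm j, zpow_mul, zpow_mul, zpow_natCast, zpow_natCast, pow_mul,
      pow_orderOf_eq_one, mul_comm (orderOf x), pow_mul, pow_orderOf_eq_one]
    simp
  rw [← QuotientGroup.eq_one_iff, QuotientGroup.mk_pow, QuotientGroup.mk_mul,
    (QuotientGroup.eq_one_iff n).2 hn, mul_one, ← QuotientGroup.mk_pow, h3, QuotientGroup.mk_one]

omit [M.Normal] in
/-- The chain part vanishes for a commuting pair that generates the group modulo `N`. -/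
lemma st1_eK (hc : Chief p N M) {x y : G} (hxy : x * y = y * x) (h : gen x y N = ⊤) :
    eK p {x, y} M = 0 := by
  rw [← eK_pin (H := ⊤) ⟨le_top, fun g _ => hc.pelt g⟩]
  by_cases hx : p ∣ orderOf x
  · exact eK_vanish2 hx hxy
  by_cases hy : p ∣ orderOf y
  · rw [Set.pair_comm]
    exact eK_vanish2 hy hxy.symm
  have hp : p.Prime := Fact.out
  have hco : Nat.Coprime p (orderOf x * orderOf y) :=
    (Nat.Prime.coprime_iff_not_dvd hp).2 fun e => (hp.dvd_mul.1 e).elim hx hy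
  refine absurd (fun v hv => ?_) hc.ne
  have h1 := (QuotientGroup.eq_one_iff _).2 (hc.pow v hv)
  have h2 := (QuotientGroup.eq_one_iff _).2 (st1_pow hxy h v)
  rw [QuotientGroup.mk_pow] at h1 h2
  rw [← QuotientGroup.eq_one_iff, ← orderOf_eq_one_iff]
  exact Nat.eq_one_of_dvd_coprimes hco (orderOf_dvd_of_pow_eq_one h1)
    (orderOf_dvd_of_pow_eq_one h2)

/-- `dich` for `gen a b N ⊓ M` gives `M ≤ gen a b N`, so `gen a b N = ⊤`.  The part with `EE`:
`EE_chief`, `CS_ee_congr` with `T = fun _ => False` (`gen_le`, `le_St`).  The chain part vanishes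
for each commuting pair `x`, `y` (`gen_coset`): `eK_pin`, `eK_vanish2`, `Set.pair_comm`; if both
are regular then `g ^ (orderOf x * orderOf y) ∈ N` for all `g` (closure induction in `G ⧸ N`),
which with `hc.pow` contradicts `hc.ne`. -/
lemma CS_term_top (hc : Chief p N M) {a b : G} (h : gen a b M = ⊤) (h' : ¬ gen a b N ⊓ M ≤ N) :
    CS N (term p M) a b = 0 := by
  classical
  have hM : M ≤ gen a b N := by
    rcases dich hc.toFac h (gen a b N ⊓ M) (le_inf (le_gen a b N) hc.le) inf_le_right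
      (st1_NR (left_mem_gen a b N)) (st1_NR (right_mem_gen a b N)) with e | e
    · exact absurd e.le h'
    · exact e.ge.trans inf_le_left
  have ht : gen a b N = ⊤ :=
    top_le_iff.1 (h ▸ gen_le.2 ⟨left_mem_gen a b N, right_mem_gen a b N, hM⟩)
  let _ : Fintype N := Fintype.ofFinite N
  obtain ⟨I⟩ := exists_irrData N
  obtain ⟨S, hS, h2⟩ := EE_chief hc.toFac I
  have e1 : CS N (fun x y => ee I S (cm x y)) a b = 0 := by
    rw [CS_ee_congr I (T := fun _ => False) fun i ha hb => ⟨fun s => (h2 i).1 s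
      (le_top.trans (ht ▸ gen_le.2 ⟨ha, hb, le_St I i⟩)), False.elim⟩, ← CS_zero N a b]
    exact CS_congr fun x y _ _ => by simp [ee, ext0, IrrData.zf, ind]
  have e2 : CS N (term p M) a b = CS N (fun x y => 0 - ee I S (cm x y)) a b :=
    CS_congr fun x y hx hy => by
      rw [term, hS]
      split_ifs with e
      · rw [st1_eK hc e ((gen_coset hx hy).trans ht), Int.cast_zero]
      · rfl
  rw [e2, CS_sub, e1, CS_zero, sub_zero]

omit [Fintype G] [Fact p.Prime] [M.Normal] in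
lemma mid_cm {u v : G} : cm u v ∈ N ↔ (u : G ⧸ N) * v = v * u := by
  rw [← QuotientGroup.eq_one_iff (N := N), cm, QuotientGroup.mk_mul, QuotientGroup.mk_mul,
    QuotientGroup.mk_mul, QuotientGroup.mk_inv, QuotientGroup.mk_inv, mul_inv_eq_one,
    mul_inv_eq_iff_eq_mul]

omit [Fintype G] [Fact p.Prime] [M.Normal] in
lemma mid_le {a b u : G} (ha : cm u a ∈ N) (hb : cm u b ∈ N) :
    ∀ v ∈ gen a b N, cm u v ∈ N := by
  have key : gen a b N ≤ (Subgroup.centralizer {(u : G ⧸ N)}).comap (QuotientGroup.mk' N) := by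
    refine gen_le.2 ⟨?_, ?_, fun n hn => ?_⟩
    · exact Subgroup.mem_centralizer_singleton_iff.2 (mid_cm.1 ha).symm
    · exact Subgroup.mem_centralizer_singleton_iff.2 (mid_cm.1 hb).symm
    · have e : (QuotientGroup.mk' N) n = 1 := (QuotientGroup.eq_one_iff n).2 hn
      rw [Subgroup.mem_comap, e]
      exact one_mem _
  exact fun v hv => mid_cm.2 (Subgroup.mem_centralizer_singleton_iff.1 (key hv)).symm

omit [Fintype G] [Fact p.Prime] [M.Normal] in
lemma mid_comm {a b : G} (hab : cm a b ∈ N) :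
    ∀ u ∈ gen a b N, ∀ v ∈ gen a b N, cm u v ∈ N := fun u hu =>
  mid_le (mid_cm.2 (mid_cm.1 (mid_le (mid_cm.2 rfl) hab u hu)).symm)
    (mid_cm.2 (mid_cm.1 (mid_le (mid_cm.2 (mid_cm.1 hab).symm) (mid_cm.2 rfl) u hu)).symm)

omit [Fintype G] [Fact p.Prime] [N.Normal] in
lemma mid_NR {T : Subgroup G} {a : G} (ha : a ∈ T) : a ∈ NR (T ⊓ M) := by
  have key : ∀ {g r : G}, g ∈ T → r ∈ T ⊓ M → g * r * g⁻¹ ∈ T ⊓ M := fun {g r} hg hr =>
    ⟨T.mul_mem (T.mul_mem hg hr.1) (T.inv_mem hg), Subgroup.Normal.conj_mem inferInstance r hr.2 g⟩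
  refine mem_NR.2 fun r => ⟨key ha, fun hr => ?_⟩
  have h1 := key (T.inv_mem ha) hr
  rwa [show a⁻¹ * (a * r * a⁻¹) * a⁻¹⁻¹ = r by group] at h1

omit [Fact p.Prime] [M.Normal] in
lemma mid_ee [Fintype N] (I : IrrData N) (x : G) :
    ee I (fun i => Dz p I i ∧ ¬ M ≤ St I i) x = EE p N x - EI p M I x := by
  rw [EE_eq_ee I, EI, ee_sum I (Dz p I), ee_sum I fun i => Dz p I i ∧ ¬ M ≤ St I i,
    ee_sum I fun i => Dz p I i ∧ M ≤ St I i, ← sum_sub_distrib]
  refine sum_congr rfl fun i _ => ?_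
  by_cases h1 : Dz p I i
  · by_cases h2 : M ≤ St I i
    · rw [if_neg fun e => e.2 h2, if_pos h1, if_pos ⟨h1, h2⟩, sub_self]
    · rw [if_pos ⟨h1, h2⟩, if_pos h1, if_neg fun e => h2 e.2, sub_zero]
  · rw [if_neg fun e => h1 e.1, if_neg h1, if_neg fun e => h1 e.1, sub_zero]

open Classical in
lemma mid_pt (hc : Chief p N M) {x y : G} (h : gen x y M = ⊤) :
    term p M x y - (term p N x y - ∑ R : Subgroup G,
      if RR p N M R ∧ x ∈ NR R ∧ y ∈ NR R then term p (CR N R) x y else 0) =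
    EE p N (cm x y) - EE p M (cm x y) - ∑ R : Subgroup G,
      if RR p N M R ∧ x ∈ NR R ∧ y ∈ NR R then EE p (CR N R) (cm x y) else 0 := by
  have hs : ∀ R : Subgroup G, ({x, y} : Set G) ⊆ NR R ↔ x ∈ NR R ∧ y ∈ NR R := fun R => by
    rw [Set.insert_subset_iff, Set.singleton_subset_iff]
    rfl
  by_cases hxy : x * y = y * x
  · have h1 := eK_chief (p := p) hc.le hc.ne (K := {x, y}) fun T h1 h2 h3 =>
      dich hc.toFac h T h1 h2 ((hs T).1 h3).1 ((hs T).1 h3).2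
    have h2 : ∑ R : Subgroup G, (if RR p N M R ∧ x ∈ NR R ∧ y ∈ NR R then term p (CR N R) x y
        else 0) = ((∑ R : Subgroup G, if RR p N M R ∧ ({x, y} : Set G) ⊆ NR R then
          eK p {x, y} (CR N R) else 0 : ℤ) : ℂ) - ∑ R : Subgroup G,
        if RR p N M R ∧ x ∈ NR R ∧ y ∈ NR R then EE p (CR N R) (cm x y) else 0 := by
      rw [Int.cast_sum, ← sum_sub_distrib]
      refine sum_congr rfl fun R _ => ?_
      by_cases hR : RR p N M R ∧ x ∈ NR R ∧ y ∈ NR R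
      · rw [if_pos hR, if_pos hR, if_pos ⟨hR.1, (hs R).2 hR.2⟩, term, if_pos hxy]
      · rw [if_neg hR, if_neg hR, if_neg fun e => hR ⟨e.1, (hs R).1 e.2⟩, Int.cast_zero, sub_zero]
    rw [h2, term, term, if_pos hxy, if_pos hxy, h1, Int.cast_sub]
    ring
  · have h2 : ∑ R : Subgroup G, (if RR p N M R ∧ x ∈ NR R ∧ y ∈ NR R then term p (CR N R) x y
        else 0) = - ∑ R : Subgroup G,
        if RR p N M R ∧ x ∈ NR R ∧ y ∈ NR R then EE p (CR N R) (cm x y) else 0 := by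
      rw [← sum_neg_distrib]
      refine sum_congr rfl fun R _ => ?_
      by_cases hR : RR p N M R ∧ x ∈ NR R ∧ y ∈ NR R
      · rw [if_pos hR, if_pos hR, term, if_neg hxy, zero_sub]
      · rw [if_neg hR, if_neg hR, neg_zero]
    rw [h2, term, term, if_neg hxy, if_neg hxy]
    ring

open Classical in
/-- If `cm a b ∉ N` every term is `0` (`cm_coset`, `cm_eq_one`, `EE_chief`, `ee_supp`, `EE_supp`).
Otherwise `H = gen a b N` is commutative modulo `N` (closure induction).  Chain part, for each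
commuting pair: `eK_chief` with `K = {x, y}`, `dich`, `gen_coset`.  The part with `EE`:
`CS_ee_congr` with `T i = Dz i ∧ ¬ M ≤ St I i` (`dich` for `St I i ⊓ M`), `ee I T = EE p N - EI`
(`EE_eq_ee`, `ee_sum`), `CS_EI`, `good_of_le`, `gen_sup`, `CS_sub`. -/
lemma CS_term_mid (hc : Chief p N M) {a b : G} (h : gen a b M = ⊤) (h' : gen a b N ⊓ M ≤ N) :
    CS N (fun x y => term p M x y - (term p N x y - ∑ R : Subgroup G,
      if RR p N M R ∧ x ∈ NR R ∧ y ∈ NR R then term p (CR N R) x y else 0)) a b = 0 := by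
  let : Fintype N := Fintype.ofFinite N
  obtain ⟨I⟩ := exists_irrData N
  obtain ⟨S, hS, hS'⟩ := EE_chief hc.toFac I
  rw [CS_congr fun x y hx hy => mid_pt hc ((gen_coset (hc.le hx) (hc.le hy)).trans h)]
  by_cases hab : cm a b ∈ N
  · have h1 : CS N (fun x y => EE p M (cm x y)) a b =
        CS N (fun x y => EE p N (cm x y) - EI p M I (cm x y)) a b := by
      rw [hS, CS_ee_congr I (T := fun i => Dz p I i ∧ ¬ M ≤ St I i) fun i ha hb => ?_]
      · exact CS_congr fun x y _ _ => mid_ee I _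
      · rcases dich hc.toFac h (St I i ⊓ M) (le_inf (le_St I i) hc.le) inf_le_right (mid_NR ha)
          (mid_NR hb) with e | e
        · have e1 : ¬ M ≤ St I i := fun e2 => hc.ne ((le_inf e2 le_rfl).trans e.le)
          exact ((hS' i).2 e.le).trans ⟨fun e2 => ⟨e2, e1⟩, fun e2 => e2.1⟩
        · have e1 : M ≤ St I i := e.ge.trans inf_le_left
          exact ⟨fun e2 => absurd e1 ((hS' i).1 e2), fun e2 => absurd e1 e2.2⟩
    have h2 := CS_EI hc.toFac I (H := gen a b N) ((gen_sup hc.le).trans h) (mid_comm hab)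
      (fun c hc1 hc2 => good_of_le hc I h' hc1 hc2) (left_mem_gen a b N) (right_mem_gen a b N)
    rw [CS_sub, CS_sub, h1, CS_sub, ← h2]
    ring
  · refine (CS_congr fun x y hx hy => ?_).trans (CS_zero N a b)
    have h1 : cm x y ∉ N := fun e => hab ((cm_coset hx hy).1 e)
    rw [EE_supp h1, hS, ee_supp I S h1, sub_zero, zero_sub, neg_eq_zero]
    refine sum_eq_zero fun R _ => ?_
    rw [EE_supp fun e => h1 (mem_CR.1 e).1, ite_self]

lemma pstep3_ite {A B : Prop} {i : Decidable A} {j : Decidable B} (h : A ↔ B) (t : ℂ) :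
    @ite _ A i t 0 = @ite _ B j t 0 := if_congr h rfl rfl

open Classical in
lemma pstep3_out (hc : Chief p N M) (h1 : ∀ J : Subgroup G, M ≤ J → J ≠ ⊤ → KR p J) :
    ∑ x : G, ∑ y : G, (if gen x y M = ⊤ then 0 else term p M x y) = 0 := by
  refine Eq.trans (sum_congr rfl fun x _ => sum_congr rfl fun y _ => ?_)
    (sum_gen (p := p) M (fun J => J ≠ ⊤) fun J hJ J' a b =>
      ⟨⟨a, fun g _ hg => hc.pelt g hg⟩, h1 J' a fun e => hJ (top_le_iff.1 (e ▸ b))⟩)
  by_cases e : gen x y M = ⊤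
  · rw [if_pos e, if_neg (not_not.2 e)]
  · rw [if_neg e, if_pos e]

open Classical in
lemma pstep3_low (hc : Chief p N M) (h2 : ∀ J : Subgroup G, N ≤ J → J ⊓ M ≤ N → KR p J) :
    ∑ x : G, ∑ y : G,
      (if gen x y M = ⊤ ∧ gen x y N ⊓ M ≤ N then term p N x y else 0) = 0 := by
  refine Eq.trans (sum_congr rfl fun x _ => sum_congr rfl fun y _ => ?_)
    (sum_gen (p := p) N (fun J => J ⊔ M = ⊤ ∧ J ⊓ M ≤ N) fun J hJ J' a b =>
      ⟨⟨a, fun g hg hg' => hJ.2 ⟨b hg, hc.pelt g hg'⟩⟩,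
        h2 J' a ((inf_le_inf_right M b).trans hJ.2)⟩)
  exact pstep3_ite (by rw [gen_sup hc.le]) _

open Classical in
lemma pstep3_loc (hc : Chief p N M)
    (h3 : ∀ R J : Subgroup G, RR p N M R → CR N R ≤ J → J ≤ NR R → J ⊓ M ≤ N → KR p J)
    (R : Subgroup G) :
    ∑ x : G, ∑ y : G, (if (gen x y M = ⊤ ∧ gen x y N ⊓ M ≤ N) ∧
      RR p N M R ∧ x ∈ NR R ∧ y ∈ NR R then term p (CR N R) x y else 0) = 0 := by
  by_cases hR : RR p N M R
  swap
  · exact sum_eq_zero fun x _ => sum_eq_zero fun y _ => if_neg fun e => hR e.2.1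
  have hle : CR N R ≤ N := inf_le_left
  refine Eq.trans (sum_congr rfl fun x _ => sum_congr rfl fun y _ => ?_)
    (sum_gen (p := p) (CR N R) (fun J => J ≤ NR R ∧ J ⊔ M = ⊤ ∧ (J ⊔ N) ⊓ M ≤ N)
      fun J hJ J' a b => ⟨⟨a, fun g hg hg' => ?_⟩, h3 R J' hR a (b.trans hJ.1)
        ((inf_le_inf_right M (b.trans le_sup_left)).trans hJ.2.2)⟩)
  · refine pstep3_ite ?_ _
    rw [gen_le, gen_sup (hle.trans hc.le), gen_sup hle]
    exact ⟨fun e => ⟨⟨e.2.2.1, e.2.2.2, CR_le_NR N R⟩, e.1⟩, fun e => ⟨e.2, hR, e.1.1, e.1.2.1⟩⟩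
  · have hN : g ∈ N := hJ.2.2 ⟨Subgroup.mem_sup_left (b hg), hc.pelt g hg'⟩
    exact mem_CR.2 ⟨hN, fun r hr => hR.comm (le_CV N M hN) (hJ.1 (b hg)) hr⟩

omit [Fintype G] in
/-- `KR_iff_term` for `⊤`, `M` (`KR_congr Subgroup.topEquiv`).  Split the pairs into
`gen x y M ≠ ⊤` (`sum_gen M`), `gen x y M = ⊤` and `¬ gen x y N ⊓ M ≤ N` (`sum_avg`,
`CS_term_top`), and the rest (`sum_avg`, `CS_term_mid`; `sum_gen N` with
`Φ J = J ⊔ M = ⊤ ∧ J ⊓ M ≤ N`; `sum_gen (CR N R)` with `Φ J = J ≤ NR R ∧ J ⊔ M = ⊤ ∧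
(J ⊔ N) ⊓ M ≤ N`; `gen_sup`, `gen_le`, `CR_le_NR`; a `p`-element of `J` lies in `M`, in `N`, and
centralises `R` by `RR.comm`, `le_CV`). -/
theorem KR_step [Finite G] (hc : Chief p N M) (h1 : ∀ J : Subgroup G, M ≤ J → J ≠ ⊤ → KR p J)
    (h2 : ∀ J : Subgroup G, N ≤ J → J ⊓ M ≤ N → KR p J)
    (h3 : ∀ R J : Subgroup G, RR p N M R → CR N R ≤ J → J ≤ NR R → J ⊓ M ≤ N → KR p J) :
    KR p G := by
  classical
  let _ : Fintype G := Fintype.ofFinite G
  refine KR_congr Subgroup.topEquiv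
    ((KR_iff_term (H := ⊤) (L := M) ⟨le_top, fun g _ hg => hc.pelt g hg⟩).2 ?_)
  have s1 := pstep3_out hc h1
  have s2 := sum_avg N (term p M) (fun x y => gen x y M = ⊤ ∧ ¬ gen x y N ⊓ M ≤ N)
    (fun a b x y hx hy e => by rwa [gen_coset (hc.le hx) (hc.le hy), gen_coset hx hy])
    fun a b e => CS_term_top hc e.1 e.2
  have s3 := sum_avg N _ (fun x y => gen x y M = ⊤ ∧ gen x y N ⊓ M ≤ N)
    (fun a b x y hx hy e => by rwa [gen_coset (hc.le hx) (hc.le hy), gen_coset hx hy])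
    fun a b e => CS_term_mid hc e.1 e.2
  have s4 := pstep3_low hc h2
  have s5 := sum_eq_zero fun R (_ : R ∈ (univ : Finset (Subgroup G))) => pstep3_loc hc h3 R
  rw [sum_comm] at s5
  replace s5 := (sum_congr rfl fun x _ => sum_comm).symm.trans s5
  have s6 := congrArg₂ (· - ·) (congrArg₂ (· + ·) (congrArg₂ (· + ·) (congrArg₂ (· + ·) s1 s2) s3)
    s4) s5
  simp only [← sum_add_distrib, ← sum_sub_distrib, add_zero, sub_zero] at s6
  refine Eq.trans (sum_congr rfl fun x _ => sum_congr rfl fun y _ => ?_) s6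
  by_cases e : gen x y M = ⊤
  · by_cases e' : gen x y N ⊓ M ≤ N
    · simp only [e, e', Subgroup.mem_top, true_and, and_self, not_true, if_true, if_false]
      ring
    · simp [e, e']
  · simp [e]

end Pool.Agent.Lib.MP_b6945b_al.Ip
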