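import Pool.Agent.Lib.MP_b6945b_al.Ip.PKer
import Pool.Agent.Lib.MP_b6945b_al.Ip.PMat

set_option autoImplicit false

/-!
The comparison of traces for a coset that centralises the chief factor.
-/

namespace Pool.Agent.Lib.MP_b6945b_al.Ip

open Finset

variable {G : Type} [Group G] [Fintype G] {p : ℕ} [Fact p.Prime] {V : ValuationSubring ℂ}
  {N M : Subgroup G} [N.Normal] [M.Normal]

/-- A Sylow subgroup of `D` above `A`, read in `G`. -/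
lemma ptr1_syl {D A : Subgroup G} (hA : IsPGroup p A) (hAD : A ≤ D) :
    ∃ Q : Subgroup G, IsPGroup p Q ∧ A ≤ Q ∧ Q ≤ D ∧ ∀ B : Subgroup G, IsPGroup p B → B ≤ D →
      ∃ d ∈ D, ∀ b ∈ B, d * b * d⁻¹ ∈ Q := by
  obtain ⟨P, hP⟩ := (hA.comap_subtype (K := D)).exists_le_sylow
  refine ⟨(P : Subgroup D).map D.subtype, P.2.map _, fun x hx => ⟨⟨x, hAD hx⟩, hP hx, rfl⟩,
    Subgroup.map_subtype_le _, fun B hB hBD => ?_⟩
  obtain ⟨P', hP'⟩ := (hB.comap_subtype (K := D)).exists_le_sylow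
  obtain ⟨d, hd⟩ := MulAction.exists_smul_eq D P' P
  refine ⟨d, d.2, fun b hb => ⟨d * ⟨b, hBD hb⟩ * d⁻¹, ?_, rfl⟩⟩
  rw [← hd, Sylow.coe_subgroup_smul]
  exact Subgroup.smul_mem_pointwise_smul (⟨b, hBD hb⟩ : D) (MulAut.conj d) _ (hP' hb)

/-- A nontrivial `p`-element has a power of order `p`. -/
lemma ptr1_ord {b : G} (hb : IsPElt p b) (h1 : b ≠ 1) :
    ∃ w ∈ Subgroup.zpowers b, w ≠ 1 ∧ w ^ p = 1 :=
  exists_ord b (by_contra fun e => h1 (eq_one_of_reg hb e))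

omit [M.Normal] in
/-- A `p`-group above `R` that centralises `s` meets `N` trivially. -/
lemma ptr1_bot {a : G} {y : RS G} (h : Y2 p N M a y) {Q : Subgroup G} (hQ : IsPGroup p Q)
    (h1 : y.R ≤ Q) (h2 : ∀ q ∈ Q, q * y.s = y.s * q) {x : G} (hx : x ∈ Q) (hN : x ∈ N) :
    x = 1 := by
  rcases (hQ.to_subgroup (N.subgroupOf Q)).card_eq_or_dvd with h3 | h3
  · exact Subgroup.mem_bot.1
      ((Subgroup.subgroupOf_eq_bot.1 (Subgroup.card_eq_one.1 h3)).eq_bot ▸ ⟨hN, hx⟩)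
  obtain ⟨b, hb, hb1⟩ :=
    (hQ.of_equiv ConjAct.toConjAct).exists_fixed_point_of_prime_dvd_card_of_fixed_point
      (N.subgroupOf Q) h3 (a := 1) fun g => smul_one g
  have h4 : b.1.1 ∈ CR N y.R := mem_CR.2 ⟨b.2, fun r hr => mul_inv_eq_iff_eq_mul.1
    (congrArg (fun x : N.subgroupOf Q => x.1.1) (hb (ConjAct.toConjAct ⟨r, h1 hr⟩)))⟩
  obtain ⟨w, w1, w2, w3⟩ := ptr1_ord (isPElt_of_mem hQ b.1.2)
    fun e => hb1 (Subtype.ext (Subtype.ext e.symm))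
  exact absurd (h.2 w (Subgroup.zpowers_le.2 h4 w1) w3 (h2 w (Subgroup.zpowers_le.2 b.1.2 w1))) w2

/-- Third clause: `v = n * r` (`RR.exists_mul`, normality).  Second clause: let `w ≠ 1`.  In
`D = centralizer {s}` take a Sylow subgroup `P` that contains `R` and conjugate `w` into `P` by an
element of `D`; with `Q = P.map D.subtype` we get `Q ⊓ N ≠ ⊥`, so `Q ⊓ CR N R ≠ ⊥` (as
`inf_CN_eq_bot`, AIdx: the fixed point is central in `Q`), and a power of a nontrivial element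
has order `p` (`exists_ord`, `eq_one_of_reg`). -/
lemma X2_of_Y2 (a : G) (y : RS G) (h : Y2 p N M a y) : X2 p N M a ⟨y.s⟩ := by
  have hm : ∀ {g : G}, g ∈ Subgroup.centralizer {y.s} ↔ g * y.s = y.s * g :=
    Subgroup.mem_centralizer_singleton_iff
  refine ⟨h.1.2.1, fun w hw hwp hc => ?_, fun v hv => ?_⟩
  · obtain ⟨Q, hQ, h1, h2, h3⟩ := ptr1_syl (D := Subgroup.centralizer {y.s}) h.1.1.1
      fun r hr => hm.2 (h.1.2.2 r hr)
    obtain ⟨d, -, hd⟩ := h3 _ (IsPElt.isPGroup ⟨1, by rw [pow_one, hwp]⟩)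
      (Subgroup.zpowers_le.2 (hm.2 hc))
    exact conj_eq_one_iff.1 (ptr1_bot h hQ h1 (fun q hq => hm.1 (h2 hq))
      (hd w (Subgroup.mem_zpowers w)) (‹N.Normal›.conj_mem w hw d))
  · obtain ⟨r, hr, n, hn, rfl⟩ := h.1.1.exists_mul hv
    refine ⟨r * n * r⁻¹, ‹N.Normal›.conj_mem n hn r, ?_⟩
    have e : r⁻¹ * y.s * r = y.s := by rw [mul_assoc, ← h.1.2.2 r hr, inv_mul_cancel_left]
    calc r * n * r⁻¹ * y.s * (r * n * r⁻¹)⁻¹ = r * n * (r⁻¹ * y.s * r) * (r * n)⁻¹ := by group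
      _ = _ := by rw [e]

/-- `R` is a Sylow subgroup of `D = M ⊓ centralizer {x}` (mapped to `G`).  `R ⊓ N = ⊥` by
`exists_ord`.  For `v ∈ M`: `c = n⁻¹ * v ∈ D`, `c = u * s` (`exists_parts`), `s ∈ N` (`s ^ p ∈ N`
and the order of `s` is prime to `p`), `d * u * d⁻¹ ∈ R` for some `d ∈ D`, and `cm d u ∈ N`. -/
lemma exists_Y2 (hc : Fac p N M) (a : G) (x : Cj G) (h : X2 p N M a x) :
    ∃ y : RS G, Y2 p N M a y ∧ (⟨y.s⟩ : Cj G) = x := by
  have hm : ∀ {g : G}, g ∈ M ⊓ Subgroup.centralizer {x.v} ↔ g ∈ M ∧ g * x.v = x.v * g :=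
    and_congr_right fun _ => Subgroup.mem_centralizer_singleton_iff
  obtain ⟨R, hR, -, h2, h3⟩ := ptr1_syl (p := p) (D := M ⊓ Subgroup.centralizer {x.v})
    IsPGroup.of_bot bot_le
  refine ⟨⟨R, x.v⟩, ⟨⟨⟨hR, ?_, ?_⟩, h.1, fun r hr => (hm.1 (h2 hr)).2⟩,
    fun w hw => h.2.1 w hw.1⟩, rfl⟩
  · refine (Subgroup.eq_bot_iff_forall _).2 fun b hb => by_contra fun e => ?_
    obtain ⟨w, w1, w2, w3⟩ := ptr1_ord (isPElt_of_mem hR hb.1) e
    exact w2 (h.2.1 w (Subgroup.zpowers_le.2 hb.2 w1) w3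
      (hm.1 (h2 (Subgroup.zpowers_le.2 hb.1 w1))).2)
  · refine le_antisymm (sup_le (h2.trans inf_le_left) hc.le) fun v hv => ?_
    obtain ⟨n, hn, e⟩ := h.2.2 v hv
    have hD : n⁻¹ * v ∈ M ⊓ Subgroup.centralizer {x.v} :=
      hm.2 ⟨M.mul_mem (M.inv_mem (hc.le hn)) hv, by
        calc n⁻¹ * v * x.v = n⁻¹ * (v * x.v * v⁻¹) * v := by group
          _ = _ := by rw [← e]; group⟩
    obtain ⟨u, s, hu, hs, a1, a2, e'⟩ := exists_parts p (n⁻¹ * v)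
    have hu' := Subgroup.zpowers_le.2 hD a1
    have hs' : s ∈ N := Subgroup.zpowers_le.2 (hc.pow s (Subgroup.zpowers_le.2 hD a2).1)
      (mem_zpowers_pow_iff.2 ((Nat.Prime.coprime_iff_not_dvd Fact.out).2 hs))
    obtain ⟨d, hd, h4⟩ := h3 _ hu.isPGroup (Subgroup.zpowers_le.2 hu')
    have e2 : v = n * ((cm d u)⁻¹ * (d * u * d⁻¹)) * s := by
      rw [← mul_inv_cancel_left n v, ← e', cm]
      group
    rw [e2]
    exact mul_mem (mul_mem (Subgroup.mem_sup_right hn) (mul_mem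
      (Subgroup.mem_sup_right (N.inv_mem (hc.comm d hd.1 u hu'.1)))
      (Subgroup.mem_sup_left (h4 u (Subgroup.mem_zpowers u))))) (Subgroup.mem_sup_right hs')

/-- With `D` as before: a `p`-subgroup `P ≥ R` of `D` meets `N` trivially (`X2_of_Y2`), so
`P = R` (`RR.exists_mul`): `R` and `R'` are Sylow subgroups of `D`, conjugate under
`c = n * r ∈ D`; `n` centralises `s`. -/
lemma unique_Y2 (a : G) (y y' : RS G) (h : Y2 p N M a y) (h' : Y2 p N M a y')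
    (e : (⟨y.s⟩ : Cj G) = ⟨y'.s⟩) : ∃ g : N, y' = g • y := by
  have es : y.s = y'.s := congrArg Cj.v e
  have hm : ∀ {g : G}, g ∈ M ⊓ Subgroup.centralizer {y'.s} ↔ g ∈ M ∧ g * y'.s = y'.s * g :=
    and_congr_right fun _ => Subgroup.mem_centralizer_singleton_iff
  obtain ⟨Q, hQ, h1, h2, h3⟩ := ptr1_syl (D := M ⊓ Subgroup.centralizer {y'.s}) h'.1.1.1
    fun r hr => hm.2 ⟨h'.1.1.le hr, h'.1.2.2 r hr⟩
  have hb : ∀ x ∈ Q, x ∈ N → x = 1 := fun x =>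
    ptr1_bot h' hQ h1 fun q hq => (hm.1 (h2 hq)).2
  obtain ⟨d, hd, h4⟩ := h3 _ h.1.1.1 fun r hr => hm.2 ⟨h.1.1.le hr, es ▸ h.1.2.2 r hr⟩
  obtain ⟨hdM, hds⟩ := hm.1 hd
  have h5 : ∀ x, x ∈ y'.R ↔ d⁻¹ * x * d ∈ y.R := fun x => by
    refine ⟨fun hx => ?_, fun hx => ?_⟩
    · obtain ⟨r, hr, n, hn, e1⟩ := h.1.1.exists_mul
        (M.mul_mem (M.mul_mem (M.inv_mem hdM) (h'.1.1.le hx)) hdM)
      have e2 : d * n * d⁻¹ = (d * r * d⁻¹)⁻¹ * x := by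
        rw [← inv_mul_cancel_left r n, ← e1]
        group
      have e3 := hb _ (e2 ▸ Q.mul_mem (Q.inv_mem (h4 r hr)) (h1 hx)) (‹N.Normal›.conj_mem n hn d)
      rw [e1, conj_eq_one_iff.1 e3, mul_one]
      exact hr
    · have hxQ : x ∈ Q := by simpa [mul_assoc] using h4 _ hx
      obtain ⟨r, hr, n, hn, rfl⟩ := h'.1.1.exists_mul (h2 hxQ).1
      rw [hb n ((Q.mul_mem_cancel_left (h1 hr)).1 hxQ) hn, mul_one]
      exact hr
  obtain ⟨r, hr, n, hn, rfl⟩ := h.1.1.exists_mul hdM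
  refine ⟨⟨r * n * r⁻¹, ‹N.Normal›.conj_mem n hn r⟩, RS.ext (Subgroup.ext fun x => ?_) ?_⟩
  · refine Iff.trans ?_ (mem_conj_smul (g := r * n * r⁻¹) (P := y.R)).symm
    rw [h5, show (r * n * r⁻¹)⁻¹ * x * (r * n * r⁻¹) =
      r * ((r * n)⁻¹ * x * (r * n)) * r⁻¹ by group, y.R.mul_mem_cancel_right (y.R.inv_mem hr),
      y.R.mul_mem_cancel_left hr]
  · change y'.s = r * n * r⁻¹ * y.s * (r * n * r⁻¹)⁻¹
    have e1 : r⁻¹ * y.s * r = y.s := by rw [mul_assoc, ← h.1.2.2 r hr, inv_mul_cancel_left]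
    calc y'.s = r * n * y'.s * (r * n)⁻¹ := by rw [hds, mul_inv_cancel_right]
      _ = r * n * (r⁻¹ * y.s * r) * (r * n)⁻¹ := by rw [e1, es]
      _ = _ := by group

variable [Fintype N]

omit [Fintype G] [N.Normal] [Fintype N] in
lemma ptrb_CR {R : Subgroup G} {g : G} (hg : g ∈ R) (x : G) :
    x ∈ CR N R ↔ g * x * g⁻¹ ∈ CR N R := by
  refine ⟨fun h => ?_, fun h => ?_⟩
  · rwa [(mem_CR.1 h).2 g hg, mul_inv_cancel_right]
  · have e := (mem_CR.1 h).2 g hg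
    rw [inv_mul_cancel_right, mul_right_inj] at e
    rwa [e] at h

/-- `sum_kY2`; `sum_mem_of_conj` with `S = R` for
`t ↦ (EI - EE (CR N R)) (s * t⁻¹) * f ⟨t⟩` (`EI_conj`, `EE_conj`, `RR.le`); fixed points:
`EI_sub`, `EE_brauer2`. -/
lemma brauer_step2 (hp : (p : ℂ) ∈ V.nonunits) (I : IrrData N) (a : G) (f : Cj G → ℂ)
    (hV : ∀ x, f x ∈ V) (hf : ∀ v ∈ M, ∀ x, f (v • x) = f x) (y : RS G) (h : Y2 p N M a y) :
    ∑ x', kX2 p M I a ⟨y.s⟩ x' * f x' - ∑ y', kY2 p N M a y y' * f ⟨y'.s⟩ ∈ V.nonunits := by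
  classical
  obtain ⟨hR, hs, hc⟩ := h.1
  have e1 : ∑ x', kX2 p M I a ⟨y.s⟩ x' * f x' = ∑ t : G, EI p M I (y.s * t⁻¹) * f ⟨t⟩ :=
    Fintype.sum_equiv Cj.equiv _ _ fun x' => by
      rw [kX2, if_pos hs]
      rfl
  rw [e1, sum_kY2 h.1, ← Finset.sum_sub_distrib]
  refine sum_mem_of_conj (p := p) y.R hR.1 _ ?_ V.nonunits.toAddSubgroup ?_ ?_
  · intro g hg t
    have h1 : y.s * (g * t * g⁻¹)⁻¹ = g * (y.s * t⁻¹) * g⁻¹ := by
      rw [← mul_assoc g, hc g hg]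
      group
    have h3 : f ⟨g * t * g⁻¹⟩ = f ⟨t⟩ := hf g (hR.le hg) ⟨t⟩
    rw [h1, EI_conj, EE_conj (ptrb_CR hg), h3]
  · intro t
    rw [nsmul_eq_mul]
    exact mul_mem_nonunits hp (sub_mem (V.mul_mem _ _ (ee_mem hp I (fun i hi => hi.1) _) (hV _))
      (V.mul_mem _ _ (EE_mem hp _ _) (hV _)))
  · intro t ht
    rw [← sub_mul]
    have hx : ∀ r ∈ y.R, r * (y.s * t⁻¹) = y.s * t⁻¹ * r := fun r hr =>
      (Commute.mul_right (hc r hr) (Commute.inv_right (ht r hr))).eq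
    refine mul_mem_nonunits ?_ (hV _)
    have h1 := V.nonunits.toAddSubgroup.sub_mem (EE_brauer2 (N := N) hp hR.1 hx)
      (EI_sub hp I hR hx)
    rwa [sub_sub_sub_cancel_left] at h1

open Classical in
lemma ptrb_coset (b : G) (F : G → ℂ) :
    ∑ g : N, F (b * g) = ∑ y : G, if y * b⁻¹ ∈ N then F y else 0 := by
  rw [sum_sub N fun g => F (b * g)]
  exact Fintype.sum_equiv (Equiv.mulLeft b) _ _ fun g =>
    ite_congr (propext (ztra_conj b g)) (fun _ => rfl) fun _ => rfl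

open Classical in
/-- `trace_transfer2` with `Γ = N`, `V` from `exists_val p`, `π y = ⟨y.s⟩`,
`Gd f = ∀ v ∈ M, ∀ x, f (v • x) = f x`; `h5`, `hv` by `Yv_of_ne`, `kX2_van`.  Then `y = b * g`
runs through the coset of `b` (`sum_sub`), `x * (y * x * y⁻¹)⁻¹ = cm x y`; `RS.equiv`,
`conj_smul_eq_iff` (Conj), and for `s` in the coset of `a` (so `s ∈ CV N M`, `le_CV`): `s ∈ NR R`
iff `s` centralises `R` (`RR.comm`). -/
theorem CS_EI_base (hc : Fac p N M) (I : IrrData N) {a b : G} (ha : a ∈ CV N M)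
    (hg : Gd2 p M I a) (hab : cm a b ∈ N) :
    CS N (fun x y => EI p M I (cm x y)) a b =
      CS N (fun x y => ∑ R : Subgroup G,
        if RR p N M R ∧ x ∈ NR R ∧ y ∈ NR R then EE p (CR N R) (cm x y) else 0) a b := by
  obtain ⟨V, hp⟩ := exists_val p
  have ec : ∀ x y : G, x * (y * x * y⁻¹)⁻¹ = cm x y := fun x y => by
    unfold cm
    group
  have h := trace_transfer2 N b (fun f => ∀ v ∈ M, ∀ x : Cj G, f (v • x) = f x)
    (ker_X2 (M := M) hp I a) (ker_Y2 (M := M) hp a) (X2_smul a) (kX2_conj I hab) (kY2_conj hab)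
    (fun y => ⟨y.s⟩) (fun _ _ => rfl) (X2_of_Y2 a) (exists_Y2 hc a) (unique_Y2 a)
    (fun y y' h1 h2 => ⟨Yv_of_ne h1, fun w hw => h2.2.1 w (mem_CR.1 hw).1⟩) hg
    (fun f hf h0 v hv x => good_of_supp a f hf h0 hv x) (kX2_EPE hp hc I ha hg) ?_
    fun f _ hV hG y hy => brauer_step2 hp I a f hV hG y hy
  · have e1 : CS N (fun x y => EI p M I (cm x y)) a b =
        ∑ x : Cj G, ∑ g : N, kX2 p M I a x ((b * g) • x) := by
      refine Fintype.sum_equiv Cj.equiv.symm _ _ fun x => ?_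
      change _ = ∑ g : N, kX2 p M I a ⟨x⟩ ((b * g) • (⟨x⟩ : Cj G))
      rw [ptrb_coset b fun y => kX2 p M I a ⟨x⟩ (y • (⟨x⟩ : Cj G))]
      refine Finset.sum_congr rfl fun y _ => ?_
      change _ = if y * b⁻¹ ∈ N then kX2 p M I a ⟨x⟩ ⟨y * x * y⁻¹⟩ else 0
      rw [kX2, ec]
      by_cases h2 : x * a⁻¹ ∈ N <;> by_cases h3 : y * b⁻¹ ∈ N <;> simp [h2, h3]
    rw [e1, h, CS_sum, ← Equiv.sum_comp RS.equiv.symm, Fintype.sum_prod_type]
    refine Finset.sum_congr rfl fun R _ => Finset.sum_congr rfl fun s _ => ?_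
    change ∑ g : N, kY2 p N M a ⟨R, s⟩ ((b * g) • (⟨R, s⟩ : RS G)) = _
    rw [ptrb_coset b fun y => kY2 p N M a ⟨R, s⟩ (y • (⟨R, s⟩ : RS G))]
    refine Finset.sum_congr rfl fun y _ => ?_
    rw [kY2, RS.smul_R, RS.smul_s, ec, conj_smul_eq_iff]
    by_cases h2 : s * a⁻¹ ∈ N
    · have h3 : s ∈ CV N M := by simpa using (CV N M).mul_mem (le_CV N M h2) ha
      have h4 : (Yv p N M a ⟨R, s⟩ ∧ y ∈ Subgroup.normalizer (R : Set G)) ↔
          RR p N M R ∧ s ∈ NR R ∧ y ∈ NR R :=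
        ⟨fun e => ⟨e.1.1, Subgroup.centralizer_le_normalizer _ e.1.2.2, e.2⟩,
          fun e => ⟨⟨e.1, h2, fun r hr => e.1.comm h3 e.2.1 hr⟩, e.2.2⟩⟩
      simp only [h2, true_and, h4]
    · have h4 : ¬ Yv p N M a ⟨R, s⟩ := fun e => h2 e.2.1
      simp [h2, h4]
  · intro f hf hV y y' h1 h2
    simp only [Y2, Yv_of_ne h1, true_and, not_forall] at h2
    obtain ⟨w, hw, hwp, hs, h3⟩ := h2
    exact kX2_van hp I a f hf hV ⟨y'.s⟩ (mem_CR.1 hw).1 h3 hwp hs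

end Pool.Agent.Lib.MP_b6945b_al.Ip
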