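import Pool.Agent.Lib.MP_b6945b_al.Ip.IDefs

set_option autoImplicit false

/-!
The idempotent of defect zero of a finite group.
-/

namespace Pool.Agent.Lib.MP_b6945b_al.Ip

open Finset

variable {H : Type} [Group H] [Fintype H] {p : ℕ} {V : ValuationSubring ℂ}

lemma tau_cf : IsCF (tau (⊤ : Subgroup H)) := by
  intro h g
  unfold tau
  rw [← Equiv.sum_comp (MulAut.conj h).toEquiv]
  refine Finset.sum_congr rfl fun a _ => ?_
  rw [← Equiv.sum_comp (MulAut.conj h).toEquiv]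
  refine Finset.sum_congr rfl fun b _ => ?_
  have e : h * a * h⁻¹ * (h * b * h⁻¹) * (h * a * h⁻¹)⁻¹ * (h * b * h⁻¹)⁻¹ =
      h * (a * b * a⁻¹ * b⁻¹) * h⁻¹ := by group
  by_cases c : a * b * a⁻¹ * b⁻¹ = g
  · rw [ind_pos, ind_pos]
    · exact ⟨trivial, trivial, c⟩
    · exact ⟨trivial, trivial, e.trans (by rw [c])⟩
  · rw [ind_neg, ind_neg]
    · exact fun x => c x.2.2
    · exact fun x => c (mul_left_cancel (mul_right_cancel (e.symm.trans x.2.2)))

/-- `∑ g, tau g * F g = ∑ a, ∑ b, F [a, b]`. -/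
lemma sum_tau (F : H → ℂ) :
    ∑ g, tau (⊤ : Subgroup H) g * F g = ∑ a : H, ∑ b : H, F (a * b * a⁻¹ * b⁻¹) := by
  simp only [tau, Finset.sum_mul]
  rw [Finset.sum_comm]
  refine Finset.sum_congr rfl fun a _ => ?_
  rw [Finset.sum_comm]
  refine Finset.sum_congr rfl fun b _ => ?_
  rw [Finset.sum_eq_single (a * b * a⁻¹ * b⁻¹)]
  · rw [ind_pos, one_mul]
    exact ⟨trivial, trivial, rfl⟩
  · intro g _ hg
    rw [ind_neg, zero_mul]
    exact fun x => hg x.2.2.symm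
  · simp

/-- `comm_sum'` (Omega) for `z h = χ i h⁻¹`, `orth`, and `[a, b]⁻¹ = [b, a]`. -/
lemma sum_chi_comm (I : IrrData H) (i : Fin I.n) :
    ∑ a : H, ∑ b : H, I.χ i (a * b * a⁻¹ * b⁻¹) = (Nat.card H : ℂ) ^ 2 / I.d i := by
  classical
  have h1 := I.comm_sum' (fun h => I.χ i h⁻¹)
  rw [Finset.sum_comm] at h1
  simp only [mul_inv_rev, inv_inv, ← mul_assoc] at h1
  rw [h1, Finset.sum_eq_single i]
  · rw [IrrData.om, I.orth, if_pos rfl, Nat.card_eq_fintype_card]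
    ring
  · intro j _ hj
    rw [IrrData.om, I.orth, if_neg hj, zero_div]
  · simp

lemma om_tau (I : IrrData H) (i : Fin I.n) :
    I.om i (tau (⊤ : Subgroup H)) = ((Nat.card H : ℂ) / I.d i) ^ 2 := by
  rw [IrrData.om, sum_tau, sum_chi_comm]
  ring

/-- `om_tau` is an algebraic integer (`om_int`; `tau` has integer values), so the rational number
`|H| / d i` is integral over `ℤ`, hence an integer. -/
lemma exists_cod [Fact p.Prime] (I : IrrData H) (i : Fin I.n) :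
    ∃ r : ℕ, Nat.card H = I.d i * r ∧ (Dz p I i ↔ ¬ p ∣ r) := by
  classical
  have hp : p.Prime := Fact.out
  have hd := I.d_ne i
  have hd0 : I.d i ≠ 0 := (I.pos i).ne'
  let z : H → ℤ := fun g => ∑ a : H, ∑ b : H, if a * b * a⁻¹ * b⁻¹ = g then 1 else 0
  have hz : (fun g => (z g : ℂ)) = tau (⊤ : Subgroup H) := by
    funext g
    simp only [z, tau, Int.cast_sum]
    refine Finset.sum_congr rfl fun a _ => Finset.sum_congr rfl fun b _ => ?_
    by_cases c : a * b * a⁻¹ * b⁻¹ = g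
    · rw [if_pos c, ind_pos, Int.cast_one]
      exact ⟨trivial, trivial, c⟩
    · rw [if_neg c, ind_neg, Int.cast_zero]
      exact fun x => c x.2.2
  have hzc : IsCF z := by
    intro h g
    have := tau_cf (H := H) h g
    rw [← hz] at this
    exact Int.cast_injective (α := ℂ) this
  have h1 := I.om_int i z hzc
  rw [hz, om_tau] at h1
  have h2 : IsIntegral ℤ ((Nat.card H : ℂ) / I.d i) := IsIntegral.of_pow two_pos h1
  have h3 : ((Nat.card H : ℂ) / I.d i) = algebraMap ℚ ℂ ((Nat.card H : ℚ) / I.d i) := by simp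
  rw [h3, isIntegral_algebraMap_iff (algebraMap ℚ ℂ).injective] at h2
  obtain ⟨m, hm⟩ := IsIntegrallyClosed.isIntegral_iff.1 h2
  have h4 : (I.d i : ℚ) ≠ 0 := by exact_mod_cast hd0
  have h5 : (Nat.card H : ℤ) = I.d i * m := by
    have : (m : ℚ) = (Nat.card H : ℚ) / I.d i := by simpa using hm
    rw [eq_div_iff h4] at this
    exact_mod_cast (mul_comm (m : ℚ) _ ▸ this).symm
  obtain ⟨r, hr⟩ : I.d i ∣ Nat.card H := Int.natCast_dvd_natCast.1 ⟨m, h5⟩
  refine ⟨r, hr, ?_⟩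
  have hr0 : r ≠ 0 := by
    rintro rfl
    exact (Nat.card_pos (α := H)).ne' (hr.trans (mul_zero _))
  rw [Dz, hp.pow_dvd_iff_le_factorization hd0, hr, Nat.factorization_mul hd0 hr0,
    Finsupp.add_apply, hp.dvd_iff_one_le_factorization hr0]
  omega

lemma cpow_cf {f : H → ℂ} (hf : IsCF f) (m : ℕ) : IsCF (cpow f m) := by
  induction m with
  | zero =>
    refine isCF_ind (S := (· = 1)) fun h g => ?_
    rw [mul_inv_eq_one, mul_eq_left]
  | succ m ih => exact hf.conv ih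

/-- `om_one`, `om_conv`. -/
lemma om_cpow (I : IrrData H) (i : Fin I.n) {f : H → ℂ} (hf : IsCF f) (m : ℕ) :
    I.om i (cpow f m) = I.om i f ^ m := by
  induction m with
  | zero => rw [pow_zero]; exact I.om_one i
  | succ m ih => rw [cpow, I.om_conv i hf (cpow_cf hf m), ih, pow_succ']

lemma ze1b_term (I : IrrData H) (i : Fin I.n) {r : ℕ} (h : Nat.card H = I.d i * r) (x : ℂ) :
    (r : ℂ) ≠ 0 ∧ (I.d i : ℂ) * x / Fintype.card H = x * (r : ℂ)⁻¹ := by
  have hd := I.d_ne i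
  have hc := IrrData.card_ne (H := H)
  rw [← Nat.card_eq_fintype_card, h, Nat.cast_mul] at hc ⊢
  have hr : (r : ℂ) ≠ 0 := right_ne_zero_of_mul hc
  exact ⟨hr, by field_simp⟩

/-- `d i / |H| = 1 / r` lies in `V` (`inv_nat_mem`, Local), `χ_isIntegral`, `mem_of_isIntegral`. -/
lemma e1_mem [Fact p.Prime] (hp : (p : ℂ) ∈ V.nonunits) (I : IrrData H) (g : H) :
    e1 p I g ∈ V := by
  unfold e1 IrrData.zf
  refine sum_mem fun i _ => ?_
  by_cases hi : Dz p I i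
  · obtain ⟨r, h1, h2⟩ := exists_cod (p := p) I i
    rw [ind_pos hi, one_mul, (ze1b_term I i h1 _).2]
    exact V.mul_mem _ _ (mem_of_isIntegral V (I.χ_isIntegral _ _)) (inv_nat_mem hp (h2.1 hi))
  · rw [ind_neg hi, zero_mul]
    exact V.zero_mem

/-- `zf_mul`. -/
lemma e1_idem (I : IrrData H) : conv (e1 p I) (e1 p I) = e1 p I := by
  rw [e1, ← I.zf_mul]
  congr 1
  ext i
  by_cases hi : Dz p I i
  · rw [Pi.mul_apply, ind_pos hi, one_mul]
  · rw [Pi.mul_apply, ind_neg hi, zero_mul]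

/-- With `C` the centraliser of `g⁻¹` and `ω = om i (ind (IsConj g⁻¹)) ∈ V` one has
`d i * χ i g⁻¹ / |H| = ω * |C| / r ^ 2` (`sum_ind_conj`, `orbit_Cj` in BlockSum), and `p` divides
`|C|`. -/
lemma e1_van [Fact p.Prime] (hp : (p : ℂ) ∈ V.nonunits) (I : IrrData H) {w g : H} (hw : w ≠ 1)
    (hwp : w ^ p = 1) (hc : w * g = g * w) : e1 p I g ∈ V.nonunits := by
  unfold e1 IrrData.zf
  refine sum_mem fun i _ => ?_
  by_cases hi : Dz p I i
  · obtain ⟨r, h1, h2⟩ := exists_cod (p := p) I i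
    obtain ⟨hr, h3⟩ := ze1b_term I i h1 (I.χ i g⁻¹)
    have h4 := sum_ind_conj (⟨g⁻¹⟩ : Cj H) (I.χ i) (I.χ_conj i)
    have h5 := orbit_Cj (⟨g⁻¹⟩ : Cj H)
    obtain ⟨c, hc'⟩ : p ∣ Nat.card (Subgroup.centralizer {g⁻¹}) := by
      rw [← orderOf_eq_prime hwp hw]
      refine Subgroup.orderOf_dvd_natCard _ (Subgroup.mem_centralizer_singleton_iff.2 ?_)
      rw [mul_inv_eq_iff_eq_mul, mul_assoc, hc, inv_mul_cancel_left]
    have h6 : ((Nat.card (MulAction.orbit H (⟨g⁻¹⟩ : Cj H)) : ℂ)) * (p * c) = I.d i * r := by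
      rw [hc', h1] at h5
      exact_mod_cast h5
    have hd := I.d_ne i
    have h7 : I.χ i g⁻¹ * (r : ℂ)⁻¹ =
        p * (c * I.om i (ind (IsConj g⁻¹)) * (r : ℂ)⁻¹ * (r : ℂ)⁻¹) := by
      rw [IrrData.om, h4]
      field_simp
      linear_combination (-I.χ i g⁻¹) * h6
    rw [ind_pos hi, one_mul, h3, h7]
    exact mul_mem_nonunits hp (V.mul_mem _ _ (V.mul_mem _ _ (V.mul_mem _ _ (natCast_mem V c)
      (mem_of_isIntegral V (I.om_ind_int i _ (isConj_conj_iff _)))) (inv_nat_mem hp (h2.1 hi)))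
      (inv_nat_mem hp (h2.1 hi)))
  · rw [ind_neg hi, zero_mul]
    exact zero_mem _

/-- `comm_sum'`, `om_zf`, `zz_eq`. -/
lemma e1_tr (I : IrrData H) :
    ∑ a : H, ∑ b : H, e1 p I (a * b * a⁻¹ * b⁻¹) = (Nat.card H : ℂ) * zz p H := by
  classical
  rw [I.comm_sum', zz_eq p I, Nat.card_eq_fintype_card]
  congr 1
  simp only [e1, I.om_zf]
  rw [Finset.card_filter, Nat.cast_sum]
  refine Finset.sum_congr rfl fun i _ => ?_
  by_cases c : Dz p I i
  · rw [ind_pos c, if_pos c, Nat.cast_one]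
  · rw [ind_neg c, if_neg c, Nat.cast_zero]

/-- By `zf_om`, `zf_sub` the difference is `zf a` with `a i = ind - r ^ (2 * (p - 1))` and
`a i * d i / |H| = a i / r`: for `¬ p ∣ r` use Fermat (`p ∣ 1 - r ^ (2 * (p - 1))` in `ℤ`) and
`inv_nat_mem`; for `p ∣ r` it is `- r ^ (2 * (p - 1) - 1)`. -/
lemma e1_pow [Fact p.Prime] (hp : (p : ℂ) ∈ V.nonunits) (I : IrrData H) (g : H) :
    e1 p I g - cpow (tau (⊤ : Subgroup H)) (p - 1) g ∈ V.nonunits := by
  have hP : p.Prime := Fact.out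
  have h0 := congrFun (I.zf_sub (ind (Dz p I))
    fun i => I.om i (cpow (tau (⊤ : Subgroup H)) (p - 1))) g
  rw [I.zf_om (cpow_cf tau_cf _)] at h0
  rw [e1, ← Pi.sub_apply, ← h0]
  refine sum_mem fun i _ => ?_
  obtain ⟨r, h1, h2⟩ := exists_cod (p := p) I i
  obtain ⟨hr, h3⟩ := ze1b_term I i h1 (I.χ i g⁻¹)
  have hx := mem_of_isIntegral V (I.χ_isIntegral i g⁻¹)
  rw [h3, Pi.sub_apply, om_cpow I i tau_cf, om_tau, h1, Nat.cast_mul,
    mul_div_cancel_left₀ _ (I.d_ne i)]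
  by_cases hi : Dz p I i
  · obtain ⟨k, hk⟩ := (Int.ModEq.pow_card_sub_one_eq_one (n := (r : ℤ) ^ 2) hP
      (Nat.isCoprime_iff_coprime.2 ((hP.coprime_iff_not_dvd.2 (h2.1 hi)).symm)).pow_left).dvd
    have hk' : (1 : ℂ) - ((r : ℂ) ^ 2) ^ (p - 1) = p * k := by exact_mod_cast hk
    rw [ind_pos hi, hk', mul_assoc]
    exact mul_mem_nonunits hp (V.mul_mem _ _ (intCast_mem V k)
      (V.mul_mem _ _ hx (inv_nat_mem hp (h2.1 hi))))
  · obtain ⟨s, hs⟩ : p ∣ r := not_not.1 fun h => hi (h2.2 h)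
    obtain ⟨m, hm⟩ : ∃ m, p - 1 = m + 1 := ⟨p - 2, by have := hP.two_le; omega⟩
    have h4 : (0 - ((r : ℂ) ^ 2) ^ (m + 1)) * (I.χ i g⁻¹ * (r : ℂ)⁻¹) =
        r * (-((r : ℂ) ^ 2) ^ m * I.χ i g⁻¹) := by
      field_simp
      ring
    rw [ind_neg hi, hm, h4]
    nth_rewrite 1 [hs]
    rw [Nat.cast_mul, mul_assoc]
    exact mul_mem_nonunits hp (V.mul_mem _ _ (natCast_mem V s)
      (V.mul_mem _ _ (neg_mem (pow_mem (pow_mem (natCast_mem V r) 2) m)) hx))

lemma ze1b_inj {H' : Type} [Group H'] [Fintype H'] (φ : H ≃* H') (I : IrrData H)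
    (I' : IrrData H') : ∃ π : Fin I'.n → Fin I.n, Function.Injective π ∧
      ∀ i, I.d (π i) = I'.d i ∧ ∀ y, I.χ (π i) y = I'.χ i (φ y) := by
  choose π h1 h2 using fun i => I.exists_eq ((I'.ρ i).comp φ.toMonoidHom) (I'.pos i)
    fun W hW => I'.matIrr i W fun g v hv => by simpa using hW (φ.symm g) v hv
  have h3 : ∀ i y, I.χ (π i) y = I'.χ i (φ y) := fun i y => (congrFun (h2 i) y).symm
  refine ⟨π, fun i j e => I'.χ_injective (funext fun y => ?_), fun i => ⟨(h1 i).symm, h3 i⟩⟩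
  rw [← φ.apply_symm_apply y, ← h3, ← h3, e]

/-- `exists_eq` (Char) for `(I'.ρ i).comp φ` (`matIrr`); the map on indices is injective by
`χ_injective`, and so is the map in the other direction. -/
lemma exists_equiv {H' : Type} [Group H'] [Fintype H'] (φ : H ≃* H') (I : IrrData H)
    (I' : IrrData H') : ∃ π : Fin I'.n ≃ Fin I.n,
      ∀ i, I.d (π i) = I'.d i ∧ ∀ y, I.χ (π i) y = I'.χ i (φ y) := by
  obtain ⟨π, h1, h2⟩ := ze1b_inj φ I I'
  obtain ⟨π', h3, -⟩ := ze1b_inj φ.symm I' I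
  exact ⟨Equiv.ofBijective π ((Fintype.bijective_iff_injective_and_card π).2 ⟨h1,
    (Fintype.card_le_of_injective π h1).antisymm (Fintype.card_le_of_injective π' h3)⟩), h2⟩

lemma e1_congr {H' : Type} [Group H'] [Fintype H'] (φ : H ≃* H') (I : IrrData H)
    (I' : IrrData H') (g : H) : e1 p I' (φ g) = e1 p I g := by
  obtain ⟨π, h⟩ := exists_equiv φ I I'
  have hc : Nat.card H = Nat.card H' := Nat.card_congr φ.toEquiv
  unfold e1 IrrData.zf
  rw [← Equiv.sum_comp π]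
  refine Finset.sum_congr rfl fun i _ => ?_
  have hd : Dz p I (π i) ↔ Dz p I' i := by rw [Dz, Dz, hc, (h i).1]
  rw [(h i).1, (h i).2, map_inv, Fintype.card_congr φ.toEquiv]
  by_cases hi : Dz p I' i
  · rw [ind_pos hi, ind_pos (hd.2 hi)]
  · rw [ind_neg hi, ind_neg (mt hd.1 hi)]

end Pool.Agent.Lib.MP_b6945b_al.Ip
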