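import Pool.Agent.Lib.MP_b6945b_al.Ip.ZE1

set_option autoImplicit false

/-!
Invariant characters of a normal subgroup of index `p`.
-/

namespace Pool.Agent.Lib.MP_b6945b_al.Ip

open Finset

variable {G : Type} [Group G] [Fintype G] {p : ℕ} [Fact p.Prime] {N : Subgroup G} [N.Normal]
  [Fintype N]

/-- `∑ n, ρ (n * z * n⁻¹)` is scalar (`scalar_of_comm` or `class_sum`, Char). -/
lemma sum_conj_chi {H : Type} [Group H] [Fintype H] (I : IrrData H) (i : Fin I.n) (z w : H) :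
    ∑ n : H, I.χ i (n * z * n⁻¹ * w) = (Nat.card H : ℂ) * I.χ i z * I.χ i w / I.d i := by
  have h1 := I.scalar_of_comm i (∑ n : H, I.ρ i (n * z * n⁻¹)) fun g => by
    rw [sum_mul, mul_sum, ← Equiv.sum_comp (Equiv.mulLeft g)]
    refine sum_congr rfl fun n _ => ?_
    rw [← map_mul, ← map_mul, Equiv.coe_mulLeft]
    congr 1
    group
  have h2 : (∑ n : H, I.ρ i (n * z * n⁻¹)).trace = (Nat.card H : ℂ) * I.χ i z := by
    rw [Matrix.trace_sum]
    refine (sum_congr rfl fun n _ => I.χ_conj i n z).trans ?_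
    rw [sum_const, card_univ, nsmul_eq_mul, Nat.card_eq_fintype_card]
  have h3 : ∑ n : H, I.χ i (n * z * n⁻¹ * w) =
      ((∑ n : H, I.ρ i (n * z * n⁻¹)) * I.ρ i w).trace := by
    rw [sum_mul, Matrix.trace_sum]
    exact sum_congr rfl fun n _ => by rw [← map_mul]; rfl
  rw [h3, h1, h2, smul_mul_assoc, one_mul, Matrix.trace_smul, smul_eq_mul]
  change _ * I.χ i w = _
  ring

/-- Every element is `y * a ^ j` (`exists_pow`). -/
lemma inv_iff (hN : N.index = p) (I : IrrData N) (i : Fin I.n) {a : G} (ha : a ∉ N) :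
    Inv I i ↔ ∀ y : N, I.χ i (MulAut.conjNormal a y) = I.χ i y := by
  refine ⟨fun h => h a, fun h g y => ?_⟩
  have h1 : ∀ (j : ℕ) (y : N), I.χ i (MulAut.conjNormal (a ^ j) y) = I.χ i y := fun j => by
    induction j with
    | zero => simp
    | succ j ih => intro y; rw [pow_succ', map_mul, MulAut.mul_apply, h, ih]
  obtain ⟨j, -, hj⟩ := exists_pow hN ha g
  have h2 : MulAut.conjNormal g y = (⟨_, hj⟩ : N) * MulAut.conjNormal (a ^ j) y * (⟨_, hj⟩ : N)⁻¹ :=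
    Subtype.ext (by
      simp only [MulAut.conjNormal_apply, Subgroup.coe_mul, Subgroup.coe_inv]
      group)
  rw [h2, I.χ_conj, h1]

open Classical in
/-- `a n y n⁻¹ a⁻¹ y⁻¹ = n' (a y a⁻¹) n'⁻¹ y⁻¹` with `n' = a n a⁻¹`; `sum_conj_chi`;
`exists_equiv` for `MulAut.conjNormal a`, `orth`, `χ_injective`, `inv_iff`. -/
lemma sum_comm_chi (hN : N.index = p) (I : IrrData N) (i : Fin I.n) {a : G} (ha : a ∉ N) :
    ∑ n : N, ∑ y : N, ext0 N (I.χ i) (a * n * y * (a * n)⁻¹ * (y : G)⁻¹) =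
      if Inv I i then (Nat.card N : ℂ) ^ 2 / I.d i else 0 := by
  obtain ⟨π, hπ⟩ := exists_equiv (MulAut.conjNormal a : N ≃* N) I I
  have h1 : ∀ n y : N, ext0 N (I.χ i) (a * n * y * (a * n)⁻¹ * (y : G)⁻¹) =
      I.χ i (MulAut.conjNormal a n * MulAut.conjNormal a y * (MulAut.conjNormal a n)⁻¹ * y⁻¹) :=
    fun n y => by
      rw [← ext0_coe (I.χ i)]
      congr 1
      simp [mul_assoc]
  have h2 : ∀ y : N, ∑ n : N, ext0 N (I.χ i) (a * n * y * (a * n)⁻¹ * (y : G)⁻¹) =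
      (Nat.card N : ℂ) / I.d i * (I.χ i y⁻¹ * I.χ (π i) y) := fun y => by
    rw [sum_congr rfl fun n _ => h1 n y, (hπ i).2]
    refine (Equiv.sum_comp (MulAut.conjNormal a : N ≃* N).toEquiv
      fun n => I.χ i (n * MulAut.conjNormal a y * n⁻¹ * y⁻¹)).trans ?_
    rw [sum_conj_chi]
    ring
  have h3 : π i = i ↔ Inv I i := by
    rw [inv_iff hN I i ha]
    exact ⟨fun e y => by rw [← (hπ i).2, e],
      fun e => I.χ_injective (funext fun y => by rw [(hπ i).2, e])⟩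
  rw [sum_comm, sum_congr rfl fun y _ => h2 y, ← mul_sum, I.orth]
  by_cases h : Inv I i
  · rw [if_pos h, if_pos (h3.2 h), Nat.card_eq_fintype_card]
    ring
  · rw [if_neg h, if_neg fun e => h (h3.1 e), mul_zero]

open Classical in
/-- The elements `a` with `a * c⁻¹ ∈ N` are the `c * n`.  Unfold `e1`, `zf`; `[a, y]⁻¹` is
conjugate under `y⁻¹ ∈ N` to `[a, y⁻¹]`; `sum_comm_chi`. -/
theorem sum_coset_e1 (hN : N.index = p) (I : IrrData N) {c : G} (hc : c ∉ N) :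
    ∑ a : G, ∑ y : G, (if a * c⁻¹ ∈ N ∧ y ∈ N then ext0 N (e1 p I) (a * y * a⁻¹ * y⁻¹) else 0) =
      (Nat.card N : ℂ) * (univ.filter fun i => Dz p I i ∧ Inv I i).card := by
  have hn : N.Normal := inferInstance
  have h0 : (Nat.card N : ℂ) ≠ 0 := by exact_mod_cast (Nat.card_pos (α := N)).ne'
  have h1 : ∀ a : G, ∑ y : G, (if (c * a) * c⁻¹ ∈ N ∧ y ∈ N then
      ext0 N (e1 p I) (c * a * y * (c * a)⁻¹ * y⁻¹) else 0) =
      if a ∈ N then ∑ y : N, ext0 N (e1 p I) (c * a * y * (c * a)⁻¹ * (y : G)⁻¹) else 0 := by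
    intro a
    have e : c * a * c⁻¹ ∈ N ↔ a ∈ N :=
      ⟨fun h => by simpa [mul_assoc] using hn.conj_mem _ h c⁻¹, fun h => hn.conj_mem _ h c⟩
    by_cases h : a ∈ N
    · rw [if_pos h, sum_sub N fun y => ext0 N (e1 p I) (c * a * y * (c * a)⁻¹ * y⁻¹)]
      simp only [e, h, true_and]
    · simp only [e, h, false_and, if_false, sum_const_zero]
  have h2 : ∀ (a : G) (y : N), ext0 N (e1 p I) (a * y * a⁻¹ * (y : G)⁻¹) =
      ∑ i, ind (Dz p I) i * I.d i / Nat.card N *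
        ext0 N (I.χ i) (a * (y⁻¹ : N) * a⁻¹ * ((y⁻¹ : N) : G)⁻¹) := fun a y => by
    have e1' : a * y * a⁻¹ * (y : G)⁻¹ = (MulAut.conjNormal a y * y⁻¹ : N) := by simp
    have e2 : a * (y⁻¹ : N) * a⁻¹ * ((y⁻¹ : N) : G)⁻¹ =
        (y⁻¹ * (MulAut.conjNormal a y * y⁻¹)⁻¹ * y⁻¹⁻¹ : N) := by simp [mul_assoc]
    rw [e1', e2, ext0_coe, e1, IrrData.zf]
    refine sum_congr rfl fun i _ => ?_
    rw [ext0_coe, I.χ_conj, Nat.card_eq_fintype_card]
    ring
  rw [← Equiv.sum_comp (Equiv.mulLeft c)]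
  refine (sum_congr rfl fun a _ => h1 a).trans ?_
  rw [← sum_sub N fun a =>
    ∑ y : N, ext0 N (e1 p I) (c * a * y * (c * a)⁻¹ * (y : G)⁻¹)]
  have h3 : ∀ n : N, ∑ y : N, ext0 N (e1 p I) (c * n * y * (c * n)⁻¹ * (y : G)⁻¹) =
      ∑ i, ind (Dz p I) i * I.d i / Nat.card N *
        ∑ y : N, ext0 N (I.χ i) (c * n * y * (c * n)⁻¹ * (y : G)⁻¹) := fun n => by
    rw [sum_congr rfl fun y _ => h2 (c * n) y, sum_comm]
    refine sum_congr rfl fun i _ => ?_
    rw [← mul_sum]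
    exact congrArg _ (Equiv.sum_comp (Equiv.inv N)
      fun y : N => ext0 N (I.χ i) (c * n * y * (c * n)⁻¹ * (y : G)⁻¹))
  rw [sum_congr rfl fun n _ => h3 n, sum_comm, card_filter, Nat.cast_sum, mul_sum]
  refine sum_congr rfl fun i _ => ?_
  rw [← mul_sum, sum_comm_chi hN I i hc]
  have := I.d_ne i
  by_cases k1 : Dz p I i
  · by_cases k2 : Inv I i
    · rw [ind_pos k1, if_pos k2, if_pos ⟨k1, k2⟩]
      field_simp
      simp
    · simp [k2]
  · simp [ind_neg k1, k1]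

lemma zinvb_conj (I : IrrData N) (i : Fin I.n) (n : N) (g : G) :
    ext0 N (I.χ i) (n * g * (n : G)⁻¹) = ext0 N (I.χ i) g := by
  by_cases h : g ∈ N
  · exact (ext0_coe (I.χ i) (n * ⟨g, h⟩ * n⁻¹)).trans
      ((I.χ_conj i n ⟨g, h⟩).trans (ext0_pos _ h).symm)
  · rw [ext0_neg _ h, ext0_neg]
    intro e
    exact h (by simpa [mul_assoc] using N.mul_mem (N.mul_mem (N.inv_mem n.2) e) n.2)

lemma zinvb_swap (I : IrrData N) (i : Fin I.n) (b : G) :
    ∑ a : N, ext0 N (I.χ i) (a * b * (a : G)⁻¹ * b⁻¹) =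
      ∑ y : N, ext0 N (I.χ i) (b * y * b⁻¹ * (y : G)⁻¹) := by
  refine Fintype.sum_equiv (Equiv.inv N) _ _ fun a => ?_
  rw [← zinvb_conj I i a⁻¹]
  refine congrArg _ ?_
  simp only [Equiv.inv_apply, InvMemClass.coe_inv]
  group

lemma zinvb_out (hN : N.index = p) (f : G → ℂ) {a : G} (ha : a ∉ N) :
    ∑ b : G, f (a * b * a⁻¹ * b⁻¹) = p * ∑ y : N, f (a * y * a⁻¹ * (y : G)⁻¹) := by
  have e : ∀ (j : Fin p) (y : N), a * (y * a ^ (j : ℕ)) * a⁻¹ * (y * a ^ (j : ℕ))⁻¹ =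
      a * y * a⁻¹ * (y : G)⁻¹ := fun j y => by group
  rw [sum_coset hN ha]
  simp only [e, sum_const, card_univ, Fintype.card_fin, nsmul_eq_mul]

open Classical in
lemma zinvb_avg (hN : N.index = p) (S : G → ℂ) (T : ℂ) (h : ∀ a ∉ N, ∑ n : N, S (a * n) = T) :
    ∑ a : G, (if a ∈ N then 0 else S a) = (p - 1) * T := by
  have h0 : (Nat.card N : ℂ) ≠ 0 := Nat.cast_ne_zero.2 Nat.card_pos.ne'
  have h1 : ∀ n : N, ∑ a : G, (if a ∈ N then 0 else S a) =
      ∑ a : G, (if a ∈ N then 0 else S (a * n)) := fun n => by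
    refine (Fintype.sum_equiv (Equiv.mulRight (n : G)) _ _ fun a => ?_).symm
    simp only [Equiv.coe_mulRight, N.mul_mem_cancel_right n.2]
  have h2 : ∀ a : G, ∑ n : N, (if a ∈ N then 0 else S (a * n)) = T - if a ∈ N then T else 0 :=
    fun a => by
      by_cases ha : a ∈ N
      · simp only [ha, if_true, sum_const_zero, sub_self]
      · simp only [ha, if_false, h a ha, sub_zero]
  have h3 : (Nat.card G : ℂ) = p * Nat.card N := by rw [card_eq_mul hN, Nat.cast_mul]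
  have h4 : ∑ _n : N, ∑ a : G, (if a ∈ N then 0 else S a) = Nat.card N * ((p - 1) * T) := by
    rw [sum_congr rfl fun n _ => h1 n, sum_comm, sum_congr rfl fun a _ => h2 a, sum_sub_distrib,
      ← sum_sub N fun _ => T]
    simp only [sum_const, card_univ, nsmul_eq_mul, ← Nat.card_eq_fintype_card, h3]
    ring
  rw [sum_const, card_univ, nsmul_eq_mul, ← Nat.card_eq_fintype_card] at h4
  exact mul_left_cancel₀ h0 h4

open Classical in
lemma zinvb_split (F : G → ℂ) :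
    ∑ a : G, F a = ∑ a : N, F a + ∑ a : G, if a ∈ N then 0 else F a := by
  rw [sum_sub N F, ← sum_add_distrib]
  refine sum_congr rfl fun a _ => ?_
  split_ifs
  · rw [add_zero]
  · rw [zero_add]

open Classical in
/-- Put `S a = ∑ y : N, χ [a, y]`.  For `a ∉ N`: `∑ b : G, χ [a, b] = p * S a` (`sum_coset`,
`[a, y * a ^ j] = [a, y]`).  For `a ∈ N`, `b ∉ N`: `[a, b]` is conjugate under `a⁻¹` to
`[b, a⁻¹]`.  `|N| * ∑ a ∉ N, S a = ∑ a ∉ N, ∑ n, S (a * n) = (|G| - |N|) * (sum_comm_chi)`, and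
`|G| = p * |N|` (`card_eq_mul`).  The pairs in `N` give `sum_chi_comm`.
Total: `1 + (p + 1) * (p - 1) = p ^ 2`. -/
theorem sum_all_chi (hN : N.index = p) (I : IrrData N) (i : Fin I.n) :
    ∑ a : G, ∑ b : G, ext0 N (I.χ i) (a * b * a⁻¹ * b⁻¹) =
      (if Inv I i then (p : ℂ) ^ 2 else 1) * ((Nat.card N : ℂ) ^ 2 / I.d i) := by
  have hA := zinvb_avg hN (fun a => ∑ y : N, ext0 N (I.χ i) (a * y * a⁻¹ * (y : G)⁻¹)) _
    fun a ha => sum_comm_chi hN I i ha
  have h1 : ∑ a : N, ∑ y : N, ext0 N (I.χ i) (a * y * (a : G)⁻¹ * (y : G)⁻¹) =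
      (Nat.card N : ℂ) ^ 2 / I.d i := by
    rw [← sum_chi_comm I i]
    exact sum_congr rfl fun a _ => sum_congr rfl fun y _ => ext0_coe (I.χ i) (a * y * a⁻¹ * y⁻¹)
  have h2 : ∑ a : G, (if a ∈ N then 0 else ∑ b : G, ext0 N (I.χ i) (a * b * a⁻¹ * b⁻¹)) =
      p * ∑ a : G, (if a ∈ N then 0 else ∑ y : N, ext0 N (I.χ i) (a * y * a⁻¹ * (y : G)⁻¹)) := by
    rw [mul_sum]
    refine sum_congr rfl fun a _ => ?_
    split_ifs with ha
    · rw [mul_zero]
    · exact zinvb_out hN _ ha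
  rw [zinvb_split (N := N), h2, sum_comm, sum_congr rfl fun b _ => zinvb_swap I i b,
    zinvb_split (N := N), h1, hA]
  split_ifs
  · ring
  · ring

end Pool.Agent.Lib.MP_b6945b_al.Ip
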