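import Pool.Agent.Lib.MP_b6945b_al.Ip.IDefs

set_option autoImplicit false

/-!
Equal traces of idempotent matrices over a local ring.
-/

namespace Pool.Agent.Lib.MP_b6945b_al.Ip

open Finset

open IsLocalRing

/-- Put `W = M * S * M' * T * M` and `U = W + (1 - M)`.  The residue of `U` is `1`, so `U` is
invertible (as in `trace_eq_of_idem`, Proj), `U * M = W = M * U`.  With `α = U⁻¹ * M * S * M'`
and `β = M' * T * M` one has `α * β = M`, `β * α` is idempotent with the residue of `M'`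
(the residue of `U⁻¹` is `1`), so `trace_eq_of_idem` and `Matrix.trace_mul_comm` finish. -/
theorem trace_eq_of_cong {R ι κ : Type} [CommRing R] [IsLocalRing R] [Fintype ι] [DecidableEq ι]
    [Fintype κ] [DecidableEq κ] (M : Matrix ι ι R) (M' : Matrix κ κ R) (S : Matrix ι κ R)
    (T : Matrix κ ι R) (hM : M * M = M) (hM' : M' * M' = M')
    (h1 : (M * S * M' * T * M).map (residue R) = M.map (residue R))
    (h2 : (M' * T * M * S * M').map (residue R) = M'.map (residue R)) :
    M.trace = M'.trace := by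
  obtain ⟨U, hU⟩ : ∃ U, U = M * S * M' * T * M + (1 - M) := ⟨_, rfl⟩
  have e1 : U * M = M * S * M' * T * M := by
    rw [hU, add_mul, sub_mul, one_mul, hM, sub_self, add_zero, Matrix.mul_assoc _ M M, hM]
  have e2 : (residue R).mapMatrix U = 1 := by
    rw [hU, map_add, map_sub, map_one, RingHom.mapMatrix_apply, h1, RingHom.mapMatrix_apply,
      add_sub_cancel]
  have e3 : IsUnit U.det := by
    rw [← residue_ne_zero_iff_isUnit, RingHom.map_det, e2, Matrix.det_one]
    exact one_ne_zero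
  have e4 : U⁻¹.map (residue R) = 1 := by
    have := congrArg (residue R).mapMatrix (Matrix.nonsing_inv_mul _ e3)
    rwa [map_mul, e2, mul_one, map_one] at this
  have e5 : U⁻¹ * (M * S * M') * (M' * T * M) = M := by
    have : M * S * M' * (M' * T * M) = U * M := by
      rw [e1, ← Matrix.mul_assoc, ← Matrix.mul_assoc, Matrix.mul_assoc _ M' M', hM']
    rw [Matrix.mul_assoc, this, ← Matrix.mul_assoc, Matrix.nonsing_inv_mul _ e3, one_mul]
  have e6 : M' * T * M * M = M' * T * M := by rw [Matrix.mul_assoc, hM]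
  rw [← e5, Matrix.trace_mul_comm]
  refine trace_eq_of_idem _ _ ?_ hM' ?_
  · rw [Matrix.mul_assoc, ← Matrix.mul_assoc (U⁻¹ * (M * S * M')), e5, ← Matrix.mul_assoc, e6]
  · rw [RingHom.mapMatrix_apply, RingHom.mapMatrix_apply, Matrix.map_mul,
      Matrix.map_mul (L := U⁻¹), e4, Matrix.one_mul, ← Matrix.map_mul, ← h2,
      ← Matrix.mul_assoc, ← Matrix.mul_assoc, e6]

/-- An invariant idempotent kernel with values in `V` whose image vanishes modulo the maximal
ideal outside the invariant set `X0`. -/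
structure Ker (Γ : Type) {X : Type} [Group Γ] [MulAction Γ X] [Fintype X]
    (V : ValuationSubring ℂ) (κ : X → X → ℂ) (X0 : X → Prop) : Prop where
  mem : ∀ x x', κ x x' ∈ V
  inv : ∀ (g : Γ) x x', κ (g • x) (g • x') = κ x x'
  idem : ∀ x x'', ∑ x', κ x x' * κ x' x'' = κ x x''
  inv0 : ∀ (g : Γ) x, X0 x → X0 (g • x)
  van : ∀ f : X → ℂ, (∀ (g : Γ) x, f (g • x) = f x) → (∀ x, f x ∈ V) →
    ∀ x, ¬ X0 x → ∑ x', κ x x' * f x' ∈ V.nonunits

lemma zmat_alg {K ι κ : Type} [CommRing K] [Fintype ι] [Fintype κ] (m : Matrix ι ι K)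
    (m' q : Matrix κ κ K) (s : Matrix ι κ K) (t : Matrix κ ι K) (hm : m * m = m)
    (hm' : m' * m' = m') (b : s * (t * m) = m) (c : q * m' = m')
    (d : q * (t * m) = q * (m' * t)) (e : s * q = s) (g : m' * (t * s) = m' * q) :
    m * s * m' * t * m = m ∧ m' * t * m * s * m' = m' := by
  constructor
  · calc m * s * m' * t * m = m * (s * q) * m' * t * m := by rw [e]
      _ = m * s * (q * (m' * t)) * m := by simp only [Matrix.mul_assoc]
      _ = m * (s * q * (t * (m * m))) := by rw [← d]; simp only [Matrix.mul_assoc]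
      _ = m := by rw [e, hm, b, hm]
  · have h : m' * t * m = m' * t :=
      calc m' * t * m = m' * t * (s * (t * m)) := by rw [b]
        _ = m' * (t * s) * (t * m) := by simp only [Matrix.mul_assoc]
        _ = m' * (q * (t * m)) := by rw [g, Matrix.mul_assoc]
        _ = m' * t := by rw [d, ← Matrix.mul_assoc q, c, ← Matrix.mul_assoc, hm']
    rw [h, Matrix.mul_assoc m' t s, g, Matrix.mul_assoc, c, hm']

/-- An orbit map together with a section. -/
structure ZOrb (Γ : Type) {X Q : Type} [Group Γ] [MulAction Γ X] (mk : X → Q) (out : Q → X) :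
    Prop where
  rel : ∀ x, ∃ g : Γ, out (mk x) = g • x
  smul : ∀ (g : Γ) x, mk (g • x) = mk x
  sec : ∀ a, mk (out a) = a

lemma zmat_orb (Γ X : Type) [Group Γ] [MulAction Γ X] [Finite X] :
    ∃ (Q : Type) (_ : Fintype Q) (mk : X → Q) (out : Q → X), ZOrb Γ mk out :=
  ⟨MulAction.orbitRel.Quotient Γ X, Fintype.ofFinite _, Quotient.mk _, Quotient.out,
    fun x => (Quotient.mk_out (s := MulAction.orbitRel Γ X) x).imp fun _ h => h.symm,
    fun g _ => Quotient.sound ⟨g, rfl⟩, Quotient.out_eq⟩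

section core
variable {Γ X Q R : Type} [Group Γ] [MulAction Γ X] {mk : X → Q} {out : Q → X}

lemma ZOrb.eq (h : ZOrb Γ mk out) {x x' : X} (e : mk x = mk x') : ∃ g : Γ, x' = g • x := by
  obtain ⟨g, hg⟩ := h.rel x
  obtain ⟨g', hg'⟩ := h.rel x'
  exact ⟨g'⁻¹ * g, by rw [mul_smul, ← hg, e, hg', inv_smul_smul]⟩

variable [Fintype X] [CommRing R]

open Classical in
/-- The matrix of a kernel on invariant functions. -/
noncomputable def zmat (mk : X → Q) (out : Q → X) (k : X → X → R) : Matrix Q Q R :=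
  Matrix.of fun a b => ∑ x', k (out a) x' * if mk x' = b then 1 else 0

lemma zmat_mul [Fintype Q] {ι : Type} (k : X → X → R) (N : Matrix Q ι R) (a : Q) (c : ι) :
    (zmat mk out k * N) a c = ∑ x', k (out a) x' * N (mk x') c := by
  classical
  simp only [Matrix.mul_apply, zmat, Matrix.of_apply, Finset.sum_mul]
  rw [Finset.sum_comm]
  refine Finset.sum_congr rfl fun x' _ => ?_
  simp [mul_ite, ite_mul]

lemma zmat_inv (h : ZOrb Γ mk out) {k : X → X → R}
    (hk : ∀ (g : Γ) x x', k (g • x) (g • x') = k x x') {f : X → R}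
    (hf : ∀ (g : Γ) x, f (g • x) = f x) (x : X) :
    ∑ x', k (out (mk x)) x' * f x' = ∑ x', k x x' * f x' := by
  obtain ⟨g, hg⟩ := h.rel x
  rw [hg, ← Equiv.sum_comp (MulAction.toPerm g)]
  simp only [MulAction.toPerm_apply, hk, hf]

lemma zmat_idem [Fintype Q] (h : ZOrb Γ mk out) {k : X → X → R}
    (hk : ∀ (g : Γ) x x', k (g • x) (g • x') = k x x')
    (hi : ∀ x x'', ∑ x', k x x' * k x' x'' = k x x'') :
    zmat mk out k * zmat mk out k = zmat mk out k := by
  ext a c
  rw [zmat_mul]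
  simp only [zmat, Matrix.of_apply]
  rw [Finset.sum_congr rfl fun x' _ => congrArg _ (zmat_inv h hk (fun g x => by rw [h.smul]) x')]
  simp only [Finset.mul_sum, ← mul_assoc]
  rw [Finset.sum_comm]
  simp only [← Finset.sum_mul, hi]

lemma zmat_trace [Fintype Γ] [Fintype Q] (h : ZOrb Γ mk out) {k : X → X → R}
    (hk : ∀ (g : Γ) x x', k (g • x) (g • x') = k x x') :
    ∑ x, ∑ g : Γ, k x (g • x) = ∑ _g : Γ, (zmat mk out k).trace := by
  classical
  have e1 : (zmat mk out k).trace = ∑ x, k (out (mk x)) x := by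
    simp only [Matrix.trace, Matrix.diag, zmat, Matrix.of_apply]
    rw [Finset.sum_comm]
    refine Finset.sum_congr rfl fun x' _ => ?_
    simp [mul_ite]
  have e2 : ∀ x, ∑ g : Γ, k x (g • x) = ∑ g : Γ, k (out (mk x)) (g • x) := fun x => by
    obtain ⟨g, hg⟩ := h.rel x
    rw [hg, ← Equiv.sum_comp (Equiv.mulLeft g) fun g' => k (g • x) (g' • x)]
    simp only [Equiv.coe_mulLeft, mul_smul, hk]
  simp only [e2]
  rw [Finset.sum_comm]
  refine Finset.sum_congr rfl fun g _ => ?_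
  rw [e1, ← Equiv.sum_comp (MulAction.toPerm g) fun x => k (out (mk x)) x]
  simp only [MulAction.toPerm_apply, h.smul]

end core

lemma zmat_core {Γ X Y R : Type} [Group Γ] [Fintype Γ] [MulAction Γ X] [Fintype X]
    [MulAction Γ Y] [Fintype Y] [CommRing R] [IsLocalRing R] {k : X → X → R} {X0 : X → Prop}
    {k' : Y → Y → R} {Y0 : Y → Prop} (π : Y → X)
    (hk : ∀ (g : Γ) x x', k (g • x) (g • x') = k x x')
    (hi : ∀ x x'', ∑ x', k x x' * k x' x'' = k x x'') (hX0 : ∀ (g : Γ) x, X0 x → X0 (g • x))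
    (hv : ∀ f : X → R, (∀ (g : Γ) x, f (g • x) = f x) →
      ∀ x, ¬ X0 x → residue R (∑ x', k x x' * f x') = 0)
    (hk' : ∀ (g : Γ) y y', k' (g • y) (g • y') = k' y y')
    (hi' : ∀ y y'', ∑ y', k' y y' * k' y' y'' = k' y y'') (hY0 : ∀ (g : Γ) y, Y0 y → Y0 (g • y))
    (hv' : ∀ f : Y → R, (∀ (g : Γ) y, f (g • y) = f y) →
      ∀ y, ¬ Y0 y → residue R (∑ y', k' y y' * f y') = 0)
    (hπ : ∀ (g : Γ) y, π (g • y) = g • π y) (h0 : ∀ y, Y0 y → X0 (π y))
    (hb : ∀ x, X0 x → ∃! y, Y0 y ∧ π y = x)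
    (h5 : ∀ y y', k' y y' ≠ 0 → X0 (π y') → Y0 y')
    (h1 : ∀ f : X → R, (∀ (g : Γ) x, f (g • x) = f x) → ∀ y, Y0 y →
      residue R (∑ x', k (π y) x' * f x') = residue R (∑ y', k' y y' * f (π y'))) :
    ∑ x, ∑ g : Γ, k x (g • x) = ∑ y, ∑ g : Γ, k' y (g • y) := by
  classical
  obtain ⟨QX, _, mk, out, hX⟩ := zmat_orb Γ X
  obtain ⟨QY, _, mk', out', hY⟩ := zmat_orb Γ Y
  rw [zmat_trace hX hk, zmat_trace hY hk']
  refine Finset.sum_congr rfl fun _ _ => ?_
  have hM := zmat_idem hX hk hi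
  have hM' := zmat_idem hY hk' hi'
  obtain ⟨T, hT⟩ : ∃ T : Matrix QY QX R,
      ∀ b a, T b a = if mk (π (out' b)) = a then 1 else 0 := ⟨Matrix.of _, fun _ _ => rfl⟩
  obtain ⟨S, hS⟩ : ∃ S : Matrix QX QY R, ∀ a b,
      S a b = if Y0 (out' b) ∧ mk (π (out' b)) = a then 1 else 0 := ⟨Matrix.of _, fun _ _ => rfl⟩
  obtain ⟨P, hP⟩ : ∃ P : Matrix QY QY R,
      P = Matrix.diagonal fun b => if Y0 (out' b) then 1 else 0 := ⟨_, rfl⟩
  have tm : ∀ (ι : Type) (N : Matrix QX ι R) b c, (T * N) b c = N (mk (π (out' b))) c := by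
    intro ι N b c
    simp [Matrix.mul_apply, hT, ite_mul]
  have pm : ∀ y, mk (π (out' (mk' y))) = mk (π y) := fun y => by
    obtain ⟨g, hg⟩ := hY.rel y
    rw [hg, hπ, hX.smul]
  have uq : ∀ y y', Y0 y → Y0 y' → mk (π y) = mk (π y') → mk' y' = mk' y := by
    intro y y' a1 a2 e
    obtain ⟨g, hg⟩ := hX.eq e
    rw [(hb _ (h0 y' a2)).unique ⟨a2, rfl⟩ ⟨hY0 g y a1, (hπ g y).trans hg.symm⟩, hY.smul]
  have x0 : ∀ x x', mk x = mk x' → X0 x → X0 x' := fun x x' e h => by
    obtain ⟨g, rfl⟩ := hX.eq e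
    exact hX0 g x h
  have b : (S * (T * zmat mk out k)).map (residue R) = (zmat mk out k).map (residue R) := by
    ext a c
    rw [Matrix.map_apply, Matrix.map_apply, Matrix.mul_apply]
    simp only [tm, hS]
    by_cases ha : X0 (out a)
    · obtain ⟨y, ⟨y1, y2⟩, -⟩ := hb _ ha
      have e : mk (π (out' (mk' y))) = a := by rw [pm, y2, hX.sec]
      obtain ⟨g, hg⟩ := hY.rel y
      rw [Finset.sum_eq_single (mk' y) (fun b _ hb' => ?_) fun h => absurd (mem_univ _) h,
        if_pos ⟨hg ▸ hY0 g y y1, e⟩, one_mul, e]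
      rw [if_neg, zero_mul]
      rintro ⟨z1, z2⟩
      exact hb' ((hY.sec b).symm.trans (uq y _ y1 z1 (by rw [z2, y2, hX.sec])))
    · rw [Finset.sum_eq_zero fun b _ => ?_, map_zero]
      · exact (hv _ (fun g x => by rw [hX.smul]) _ ha).symm
      · rw [if_neg, zero_mul]
        rintro ⟨z1, z2⟩
        exact ha (x0 _ _ (z2.trans (hX.sec a).symm) (h0 _ z1))
  have c : (P * zmat mk' out' k').map (residue R) = (zmat mk' out' k').map (residue R) := by
    ext b c
    rw [Matrix.map_apply, Matrix.map_apply, hP, Matrix.diagonal_mul]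
    split_ifs with hb'
    · rw [one_mul]
    · rw [zero_mul, map_zero]
      exact (hv' _ (fun g x => by rw [hY.smul]) _ hb').symm
  have d : (P * (T * zmat mk out k)).map (residue R) =
      (P * (zmat mk' out' k' * T)).map (residue R) := by
    ext b c
    rw [Matrix.map_apply, Matrix.map_apply, hP, Matrix.diagonal_mul, Matrix.diagonal_mul]
    split_ifs with hb'
    · rw [one_mul, one_mul, tm, zmat_mul]
      simp only [hT, pm, zmat, Matrix.of_apply]
      rw [zmat_inv hX hk fun g x => by rw [hX.smul]]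
      exact h1 (fun x => if mk x = c then 1 else 0) (fun g x => by rw [hX.smul]) _ hb'
    · rw [zero_mul, zero_mul]
  have e : S * P = S := by
    ext a b
    rw [hP, Matrix.mul_diagonal, hS]
    by_cases hb' : Y0 (out' b) <;> simp [hb']
  have g : zmat mk' out' k' * (T * S) = zmat mk' out' k' * P := by
    ext b c
    rw [zmat_mul, zmat_mul]
    refine Finset.sum_congr rfl fun y _ => ?_
    by_cases hy : k' (out' b) y = 0
    · rw [hy, zero_mul, zero_mul]
    rw [tm, hS, pm, hP, Matrix.diagonal_apply]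
    refine congrArg _ ?_
    by_cases e1 : mk' y = c
    · subst e1
      simp [pm]
    · rw [if_neg e1, if_neg]
      rintro ⟨z1, z2⟩
      exact e1 ((uq _ y z1 (h5 _ _ hy (x0 _ _ z2 (h0 _ z1))) z2).trans (hY.sec c))
  have key := zmat_alg ((zmat mk out k).map (residue R)) ((zmat mk' out' k').map (residue R))
    (P.map (residue R)) (S.map (residue R)) (T.map (residue R))
  simp only [← Matrix.map_mul] at key
  obtain ⟨k1, k2⟩ := key (by rw [hM]) (by rw [hM']) b c d (by rw [e]) (by rw [g])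
  exact trace_eq_of_cong _ _ S T hM hM' k1 k2

lemma zmat_res (V : ValuationSubring ℂ) (z : V) :
    residue V z = 0 ↔ (z : ℂ) ∈ V.nonunits := by
  rw [residue_eq_zero_iff, ValuationSubring.coe_mem_nonunits_iff]

/-- Index sets: the orbit spaces `QX`, `QY` (`MulAction.orbitRel.Quotient`).  Matrices over `V`:
`M a b = ∑ x', κ a.out x' * [mk x' = b]`, the same for `M'`, `T b a = [mk (π b.out) = a]`,
`S a b = [Y0 b.out ∧ mk (π b.out) = a]`.  `M` is idempotent, `|Γ| * trace M` is the double sum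
(orbit stabiliser; or: `∑ x, ∑ g, κ x (g • x) = ∑ x, ∑ x', κ x x' * #{g | g • x = x'}`).
With `P`, `P'` the diagonal matrices of `X0`, `Y0`: exactly `S * T = P`, `S * P' = S`,
`P' * T * S = P'`, `M' * T * S = M' * P'` (`h5`), and modulo the maximal ideal `P * M = M`,
`P' * M' = M'` (`van`), `P' * T * M = P' * M' * T` (`h1`).  These give the two hypotheses of
`trace_eq_of_cong`. -/
theorem trace_transfer {Γ X Y : Type} [Group Γ] [Fintype Γ] [MulAction Γ X] [Fintype X]
    [MulAction Γ Y] [Fintype Y] {V : ValuationSubring ℂ} {κ : X → X → ℂ} {X0 : X → Prop}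
    {κ' : Y → Y → ℂ} {Y0 : Y → Prop} (hX : Ker Γ V κ X0) (hY : Ker Γ V κ' Y0) (π : Y → X)
    (hπ : ∀ (g : Γ) y, π (g • y) = g • π y) (h0 : ∀ y, Y0 y → X0 (π y))
    (hb : ∀ x, X0 x → ∃! y, Y0 y ∧ π y = x)
    (h5 : ∀ y y', κ' y y' ≠ 0 → X0 (π y') → Y0 y')
    (h1 : ∀ f : X → ℂ, (∀ (g : Γ) x, f (g • x) = f x) → (∀ x, f x ∈ V) → ∀ y, Y0 y →
      ∑ x', κ (π y) x' * f x' - ∑ y', κ' y y' * f (π y') ∈ V.nonunits) :
    ∑ x, ∑ g : Γ, κ x (g • x) = ∑ y, ∑ g : Γ, κ' y (g • y) := by
  have key := zmat_core (Γ := Γ) (R := V) (k := fun x x' => ⟨κ x x', hX.mem x x'⟩) (X0 := X0)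
    (k' := fun y y' => ⟨κ' y y', hY.mem y y'⟩) (Y0 := Y0) π
    (fun g x x' => Subtype.ext (hX.inv g x x'))
    (fun x x'' => Subtype.ext (by simpa using hX.idem x x'')) hX.inv0
    (fun f hf x hx => (zmat_res V _).2 (by
      simpa using hX.van (fun x => f x) (fun g x => by rw [hf]) (fun x => (f x).2) x hx))
    (fun g x x' => Subtype.ext (hY.inv g x x'))
    (fun x x'' => Subtype.ext (by simpa using hY.idem x x'')) hY.inv0
    (fun f hf x hx => (zmat_res V _).2 (by
      simpa using hY.van (fun x => f x) (fun g x => by rw [hf]) (fun x => (f x).2) x hx))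
    hπ h0 hb (fun y y' h => h5 y y' fun e => h (Subtype.ext e))
    (fun f hf y hy => by
      rw [← sub_eq_zero, ← map_sub, zmat_res]
      simpa using h1 (fun x => f x) (fun g x => by rw [hf]) (fun x => (f x).2) y hy)
  simpa using congrArg (fun z : V => (z : ℂ)) key

end Pool.Agent.Lib.MP_b6945b_al.Ip
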